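import Pool.Agent.CRT.CoxDefs

/-!
# Module N: realisation of the degenerate form by a Euclidean simplex

Paper proof.  Let `δ ≠ 0` be in the radical.  `δ_i ≠ 0` for all `i` (`hpos`).  `B` is positive
semidefinite: `v = tδ + h` with `h_i = 0`, `B(v,v) = B(h,h) ≥ 0`.  `c := |δ|` also satisfies
`B(c,c) ≤ B(δ,δ) = 0` as the off-diagonal entries are `≤ 0`, so `B(c,c) = 0` and by positive
semidefiniteness (`B(c + tv, c + tv) ≥ 0` for all `t`) `c` is in the radical; all `c_i > 0`.
Let `B'` be the `d × d` matrix `B_jk`, `j,k ≥ 1` (indices `Fin.succ`): positive definite, so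
`B' = Aᵀ A` (`Matrix.posSemidef_iff_eq_conjTranspose_mul_self` or similar).  `a_j` := `j`-th column
of `A` for `j ≥ 1`, `a_0 := -(1/c_0) ∑_{j≥1} c_j a_j`.  Then `⟨a_0,a_k⟩ = -(1/c_0) ∑_{j≥1} c_j B_jk
= B_0k` for `k ≥ 1` and `⟨a_0,a_0⟩ = -(1/c_0) ∑_{j ≥ 1} c_j B_j0 = B_00`.  `t_0 = 1/c_0`,
`t_j = 0` for `j ≥ 1`.  `indep`: a relation `∑_{i≠k} x_i a_i = 0` gives
`B(x,x) = |∑ x_i a_i|² = 0`, `x_k = 0`, so `x = 0`.
-/

namespace Pool.Agent.CRT

open Set

/-- A Euclidean simplex `{x : ⟨a_i,x⟩ + t_i ≥ 0}` with the Coxeter form as Gram matrix. -/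
structure Realization {d : ℕ} (M : CoxeterMatrix (Fin (d + 1))) where
  a : Fin (d + 1) → Sp d
  t : Fin (d + 1) → ℝ
  c : Fin (d + 1) → ℝ
  inner_a : ∀ i j, inner ℝ (a i) (a j) = cosM M i j
  c_pos : ∀ i, 0 < c i
  csum : ∑ i, c i • a i = 0
  tsum : ∑ i, c i * t i = 1
  indep : ∀ k, LinearIndependent ℝ (fun i : {i : Fin (d + 1) // i ≠ k} => a i)

private theorem radical_pos {d : ℕ} (M : CoxeterMatrix (Fin (d + 1)))
    (hpos : ∀ l : Fin (d + 1), ∀ v : Fin (d + 1) → ℝ, v l = 0 → v ≠ 0 → 0 < bil M v v)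
    (hdeg : ∃ δ : Fin (d + 1) → ℝ, δ ≠ 0 ∧ ∀ v, bil M δ v = 0) :
    ∃ c : Fin (d + 1) → ℝ, (∀ i, 0 < c i) ∧ ∀ v, bil M c v = 0 := by
  obtain ⟨δ, hδ0, hδ⟩ := hdeg
  have hne : ∀ i, δ i ≠ 0 := by
    intro i hi
    have := hpos i δ hi hδ0
    rw [hδ] at this
    exact lt_irrefl _ this
  set c : Fin (d + 1) → ℝ := fun i => |δ i| with hc
  have hcpos : ∀ i, 0 < c i := fun i => abs_pos.2 (hne i)
  have hcc : bil M c c ≤ 0 := by
    have h1 : bil M c c ≤ bil M δ δ := by
      rw [bil_apply, bil_apply]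
      refine Finset.sum_le_sum fun i _ => Finset.sum_le_sum fun j _ => ?_
      by_cases hij : i = j
      · subst hij
        rw [cosM_self]
        simp only [hc, mul_one]
        exact (abs_mul_abs_self _).le
      · have h2 : cosM M i j ≤ 0 := cosM_nonpos hij
        have h3 : δ i * δ j ≤ |δ i| * |δ j| := by
          rw [← abs_mul]
          exact le_abs_self _
        simp only [hc]
        nlinarith
    rw [hδ] at h1
    exact h1
  -- `c` is a multiple of `δ`
  set h : Fin (d + 1) → ℝ := c - (c 0 / δ 0) • δ with hh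
  have hh0 : h 0 = 0 := by
    simp only [hh, Pi.sub_apply, Pi.smul_apply, smul_eq_mul]
    rw [div_mul_cancel₀ _ (hne 0), sub_self]
  have hδ' : ∀ v, bil M v δ = 0 := fun v => by rw [bil_symm, hδ]
  have hbh : bil M h h = bil M c c := by
    simp only [hh, map_sub, map_smul, LinearMap.sub_apply, LinearMap.smul_apply, hδ, hδ']
    simp
  have hz : h = 0 := by
    by_contra hne0
    have := hpos 0 h hh0 hne0
    rw [hbh] at this
    exact absurd hcc (not_le.2 this)
  have hcδ : c = (c 0 / δ 0) • δ := sub_eq_zero.1 hz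
  refine ⟨c, hcpos, fun v => ?_⟩
  rw [hcδ, map_smul, LinearMap.smul_apply, hδ, smul_zero]

open scoped MatrixOrder ComplexOrder in
private theorem exists_gram {d : ℕ} (M : CoxeterMatrix (Fin (d + 1)))
    (hpos : ∀ l : Fin (d + 1), ∀ v : Fin (d + 1) → ℝ, v l = 0 → v ≠ 0 → 0 < bil M v v) :
    ∃ b : Fin d → Sp d, ∀ i j, inner ℝ (b i) (b j) = cosM M i.succ j.succ := by
  set G : Matrix (Fin d) (Fin d) ℝ := Matrix.of fun i j => cosM M i.succ j.succ with hG
  have hpsd : G.PosSemidef := by
    refine Matrix.PosSemidef.of_dotProduct_mulVec_nonneg ?_ fun x => ?_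
    · ext i j
      simp only [Matrix.conjTranspose_apply, hG, Matrix.of_apply, star_trivial]
      exact cosM_symm M _ _
    · set v : Fin (d + 1) → ℝ := Fin.cons 0 x with hv
      have h1 : star x ⬝ᵥ G.mulVec x = bil M v v := by
        rw [bil_apply, Fin.sum_univ_succ]
        simp only [hv, Fin.sum_univ_succ, Fin.cons_zero, Fin.cons_succ, zero_mul, mul_zero,
          Finset.sum_const_zero, zero_add, add_zero]
        simp only [dotProduct, Matrix.mulVec, hG, Matrix.of_apply, Pi.star_apply, star_trivial,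
          Finset.mul_sum, mul_assoc]
      rw [h1]
      by_cases hv0 : v = 0
      · rw [hv0]; simp
      · exact (hpos 0 v (by simp [hv]) hv0).le
  obtain ⟨A, hA⟩ := CStarAlgebra.nonneg_iff_eq_star_mul_self.mp hpsd.nonneg
  refine ⟨fun j => WithLp.toLp 2 (fun i => A i j), fun i j => ?_⟩
  have h2 : G i j = (star A * A) i j := by rw [← hA]
  rw [Matrix.mul_apply] at h2
  simp only [Matrix.star_apply, star_trivial, hG, Matrix.of_apply] at h2
  rw [h2]
  simp only [PiLp.inner_apply, RCLike.inner_apply, conj_trivial]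
  exact Finset.sum_congr rfl fun k _ => by ring

theorem exists_realization {d : ℕ} (M : CoxeterMatrix (Fin (d + 1)))
    (hpos : ∀ l : Fin (d + 1), ∀ v : Fin (d + 1) → ℝ, v l = 0 → v ≠ 0 → 0 < bil M v v)
    (hdeg : ∃ δ : Fin (d + 1) → ℝ, δ ≠ 0 ∧ ∀ v, bil M δ v = 0) :
    Nonempty (Realization M) := by
  obtain ⟨c, hc, hrad⟩ := radical_pos M hpos hdeg
  obtain ⟨b, hb⟩ := exists_gram M hpos
  have hc0 : c 0 ≠ 0 := (hc 0).ne'
  -- the radical equation
  have hsum : ∀ k : Fin (d + 1), c 0 * cosM M 0 k + ∑ j : Fin d, c j.succ * cosM M j.succ k = 0 := by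
    intro k
    have h1 := hrad (ee k)
    rw [bil_symm, bil_ee_left, Fin.sum_univ_succ] at h1
    rw [← h1]
    congr 1
    · rw [cosM_symm M 0 k]; ring
    · exact Finset.sum_congr rfl fun j _ => by rw [cosM_symm M j.succ k]; ring
  set a : Fin (d + 1) → Sp d :=
    Fin.cons (-((c 0)⁻¹ • ∑ j : Fin d, c j.succ • b j)) b with ha
  have ha0 : a 0 = -((c 0)⁻¹ • ∑ j : Fin d, c j.succ • b j) := by simp [ha]
  have has : ∀ j : Fin d, a j.succ = b j := fun j => by simp [ha]
  have hss : ∀ i j : Fin d, inner ℝ (a i.succ) (a j.succ) = cosM M i.succ j.succ := by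
    intro i j
    rw [has, has, hb]
  have hs0 : ∀ k : Fin d, inner ℝ (a 0) (a k.succ) = cosM M 0 k.succ := by
    intro k
    rw [ha0, inner_neg_left, real_inner_smul_left, sum_inner]
    have h1 : ∀ j : Fin d, inner ℝ (c j.succ • b j) (a k.succ) = c j.succ * cosM M j.succ k.succ := by
      intro j
      rw [real_inner_smul_left, has, hb]
    rw [Finset.sum_congr rfl fun j _ => h1 j]
    have h2 := hsum k.succ
    have h3 : ∑ j : Fin d, c j.succ * cosM M j.succ k.succ = -(c 0 * cosM M 0 k.succ) := by linarith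
    rw [h3]
    field_simp
  have h0s : ∀ k : Fin d, inner ℝ (a k.succ) (a 0) = cosM M k.succ 0 := by
    intro k
    rw [real_inner_comm, hs0, cosM_symm]
  have h00 : inner ℝ (a 0) (a 0) = cosM M 0 0 := by
    nth_rewrite 1 [ha0]
    rw [inner_neg_left, real_inner_smul_left, sum_inner]
    have h1 : ∀ j : Fin d, inner ℝ (c j.succ • b j) (a 0) = c j.succ * cosM M j.succ 0 := by
      intro j
      rw [real_inner_smul_left, ← has, h0s]
    rw [Finset.sum_congr rfl fun j _ => h1 j]
    have h2 := hsum 0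
    have h3 : ∑ j : Fin d, c j.succ * cosM M j.succ 0 = -(c 0 * cosM M 0 0) := by linarith
    rw [h3]
    field_simp
  have hinner : ∀ i j, inner ℝ (a i) (a j) = cosM M i j := by
    intro i j
    refine Fin.cases ?_ (fun i' => ?_) i
    · refine Fin.cases ?_ (fun j' => ?_) j
      · exact h00
      · exact hs0 j'
    · refine Fin.cases ?_ (fun j' => ?_) j
      · exact h0s i'
      · exact hss i' j'
  have hbil : ∀ x : Fin (d + 1) → ℝ, bil M x x = inner ℝ (∑ i, x i • a i) (∑ i, x i • a i) := by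
    intro x
    rw [bil_apply, sum_inner]
    refine Finset.sum_congr rfl fun i _ => ?_
    rw [inner_sum]
    refine Finset.sum_congr rfl fun j _ => ?_
    rw [real_inner_smul_left, real_inner_smul_right, hinner]
    ring
  refine ⟨⟨a, Fin.cons (c 0)⁻¹ 0, c, hinner, hc, ?_, ?_, ?_⟩⟩
  · rw [Fin.sum_univ_succ, ha0]
    simp only [has]
    rw [smul_neg, smul_smul, mul_inv_cancel₀ hc0, one_smul, neg_add_cancel]
  · rw [Fin.sum_univ_succ]
    simp [hc0]
  · intro k
    classical
    rw [Fintype.linearIndependent_iff]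
    intro g hg
    set x : Fin (d + 1) → ℝ := fun i => if h : i ≠ k then g ⟨i, h⟩ else 0 with hx
    have hxk : x k = 0 := by simp [hx]
    have hsumx : ∑ i, x i • a i = 0 := by
      rw [← hg]
      have h1 : ∑ i, x i • a i = ∑ i ∈ Finset.univ.filter (fun i => i ≠ k), x i • a i := by
        symm
        apply Finset.sum_subset (Finset.filter_subset _ _)
        intro i _ hi
        have : i = k := by simpa using hi
        rw [this, hxk, zero_smul]
      rw [h1, ← Finset.sum_subtype_eq_sum_filter]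
      refine Finset.sum_congr (by ext; simp) fun i _ => ?_
      have h2 : x (i : Fin (d + 1)) = g i := by
        simp only [hx]
        rw [dif_pos i.2]
      rw [h2]
    have hbx : bil M x x = 0 := by rw [hbil, hsumx, inner_zero_left]
    have hx0 : x = 0 := by
      by_contra hne0
      have := hpos k x hxk hne0
      rw [hbx] at this
      exact lt_irrefl _ this
    intro i
    have h3 := congrFun hx0 i
    simp only [hx, Pi.zero_apply] at h3
    rwa [dif_pos i.2] at h3

end Pool.Agent.CRT
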