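import Pool.Agent.CRT.Tits
import Pool.Agent.CRT.Realize

/-!
# Module O1: the affine reflection group and its alcove

O1 paper proof.  `g_i(x) = ⟨a_i,x⟩ + t_i`, `pair v x = ∑ v_k g_k(x)`.  `∑ c_i g_i = 1`
(`csum`, `tsum`).  The `a_i` span `𝔼^d` (any `d` of them are independent), so `x` is determined by
`(g_i(x))_i`.  The affine reflection `r_i x = x - 2 g_i(x) a_i` is an isometric involution
(`|a_i| = 1`) and `pair v (r_i x) = pair (s_i v) x` with `s_i v = v - 2B(e_i,v)e_i = gr (sm i) v`.
Hence `pair v ((r_i r_j)^m x) = pair (gr ((s_j s_i)^m) v) x`, which gives the Coxeter relations,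
so `CoxeterSystem.lift` defines `act`, and `pair v (w x) = pair (gr w⁻¹ v) x`.
`act` is injective: if `w` acts trivially then `pair (gr w⁻¹ v - v) = 0` identically; as
`(g_i(x))_i` ranges over an affine hyperplane not through `0` (whose linear span is everything:
the vertices give multiples of the unit vectors), `gr w⁻¹ v = v` for all `v`, and `gr_injective`.
Vertices: `v_k` with `g_i(v_k) = 0` for `i ≠ k`, `g_k(v_k) = 1/c_k` (solve with the basis
`(a_i)_{i≠k}`; the value of `g_k` follows from `∑ c_i g_i = 1`); `x = ∑ c_k g_k(x) v_k`, so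
`alc = conv{v_k}`.  `(g_i)` all `> 0` at `∑ v_k/(d+1)`, so `alc` has an interior ball.
-/

namespace Pool.Agent.CRT

open Set

namespace Realization

variable {d : ℕ} {M : CoxeterMatrix (Fin (d + 1))} (R : Realization M)

/-- The affine functionals. -/
noncomputable def g (i : Fin (d + 1)) (x : Sp d) : ℝ := inner ℝ (R.a i) x + R.t i

/-- The pairing of `ℝ^{d+1}` with points. -/
noncomputable def pair (v : Fin (d + 1) → ℝ) (x : Sp d) : ℝ := ∑ k, v k * R.g k x

theorem sum_c_g (x : Sp d) : ∑ i, R.c i * R.g i x = 1 := by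
  have h1 : ∑ i, R.c i * R.g i x = inner ℝ (∑ i, R.c i • R.a i) x + ∑ i, R.c i * R.t i := by
    rw [sum_inner, ← Finset.sum_add_distrib]
    refine Finset.sum_congr rfl fun i _ => ?_
    rw [real_inner_smul_left]
    unfold g
    ring
  rw [h1, R.csum, R.tsum, inner_zero_left, zero_add]

/-- Any `d` of the normals span the space. -/
theorem span_a (k : Fin (d + 1)) :
    Submodule.span ℝ (range fun i : {i : Fin (d + 1) // i ≠ k} => R.a i) = ⊤ := by
  apply (R.indep k).span_eq_top_of_card_eq_finrank'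
  simp

/-- A vector orthogonal to `d` of the normals vanishes. -/
theorem eq_zero_of_inner (k : Fin (d + 1)) {u : Sp d} (h : ∀ i, i ≠ k → inner ℝ (R.a i) u = 0) :
    u = 0 := by
  have h1 : u ∈ (Submodule.span ℝ (range fun i : {i : Fin (d + 1) // i ≠ k} => R.a i))ᗮ := by
    rw [Submodule.mem_orthogonal]
    intro v hv
    induction hv using Submodule.span_induction with
    | mem v hv =>
      obtain ⟨i, rfl⟩ := hv
      exact h i i.2
    | zero => exact inner_zero_left _
    | add v w _ _ hv hw => rw [inner_add_left, hv, hw, add_zero]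
    | smul c v _ hv => rw [real_inner_smul_left, hv, mul_zero]
  rw [R.span_a k, Submodule.top_orthogonal_eq_bot, Submodule.mem_bot] at h1
  exact h1

theorem ext_g {x y : Sp d} (h : ∀ i, R.g i x = R.g i y) : x = y := by
  rw [← sub_eq_zero]
  apply R.eq_zero_of_inner 0
  intro i _
  have := h i
  unfold g at this
  rw [inner_sub_right]
  linarith

theorem norm_a (i : Fin (d + 1)) : ‖R.a i‖ = 1 := by
  have h := R.inner_a i i
  rw [cosM_self, real_inner_self_eq_norm_sq] at h
  have h0 := norm_nonneg (R.a i)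
  nlinarith

theorem a_ne_zero (i : Fin (d + 1)) : R.a i ≠ 0 := by
  intro h
  have := R.norm_a i
  rw [h, norm_zero] at this
  exact zero_ne_one this

/-- The affine reflection. -/
noncomputable def refl (i : Fin (d + 1)) (x : Sp d) : Sp d := x - (2 * R.g i x) • R.a i

theorem g_refl (i k : Fin (d + 1)) (x : Sp d) :
    R.g k (R.refl i x) = R.g k x - 2 * R.g i x * cosM M k i := by
  unfold refl
  rw [← R.inner_a k i]
  show inner ℝ (R.a k) (x - (2 * R.g i x) • R.a i) + R.t k =
    (inner ℝ (R.a k) x + R.t k) - 2 * R.g i x * inner ℝ (R.a k) (R.a i)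
  rw [inner_sub_right, real_inner_smul_right]
  ring

theorem refl_refl (i : Fin (d + 1)) (x : Sp d) : R.refl i (R.refl i x) = x := by
  apply R.ext_g
  intro k
  rw [R.g_refl, R.g_refl, R.g_refl, cosM_self]
  ring

theorem isometry_refl (i : Fin (d + 1)) : Isometry (R.refl i) := by
  apply Isometry.of_dist_eq
  intro x y
  rw [dist_eq_norm, dist_eq_norm]
  have h1 : R.refl i x - R.refl i y = (x - y) - (2 * inner ℝ (R.a i) (x - y)) • R.a i := by
    unfold refl g
    rw [inner_sub_right]
    module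
  have h2 : ‖(x - y) - (2 * inner ℝ (R.a i) (x - y)) • R.a i‖ ^ 2 = ‖x - y‖ ^ 2 := by
    rw [norm_sub_sq_real, real_inner_smul_right, norm_smul, R.norm_a, mul_one,
      Real.norm_eq_abs, sq_abs, real_inner_comm]
    ring
  rw [h1]
  exact (sq_eq_sq₀ (norm_nonneg _) (norm_nonneg _)).1 h2

/-- The affine reflection as an isometry of the space. -/
noncomputable def reflE (i : Fin (d + 1)) : Sp d ≃ᵢ Sp d :=
  IsometryEquiv.mk' (R.refl i) (R.refl i) (R.refl_refl i) (R.isometry_refl i)

theorem reflE_apply (i : Fin (d + 1)) (x : Sp d) : R.reflE i x = R.refl i x := rfl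

theorem pair_ee (k : Fin (d + 1)) (x : Sp d) : R.pair (ee k) x = R.g k x := by
  unfold pair
  rw [Finset.sum_eq_single k]
  · rw [ee_self, one_mul]
  · intro j _ hj
    rw [ee_ne hj, zero_mul]
  · intro h; exact absurd (Finset.mem_univ k) h

theorem pair_sub (v w : Fin (d + 1) → ℝ) (x : Sp d) :
    R.pair (v - w) x = R.pair v x - R.pair w x := by
  unfold pair
  rw [← Finset.sum_sub_distrib]
  exact Finset.sum_congr rfl fun k _ => by rw [Pi.sub_apply]; ring

theorem pair_smul (r : ℝ) (v : Fin (d + 1) → ℝ) (x : Sp d) :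
    R.pair (r • v) x = r * R.pair v x := by
  unfold pair
  rw [Finset.mul_sum]
  exact Finset.sum_congr rfl fun k _ => by rw [Pi.smul_apply, smul_eq_mul]; ring

theorem pair_refl (i : Fin (d + 1)) (v : Fin (d + 1) → ℝ) (x : Sp d) :
    R.pair v (R.refl i x) = R.pair (gr M (sm M i) v) x := by
  rw [gr_simple, R.pair_sub, R.pair_smul, R.pair_ee, bil_ee_left]
  unfold pair
  simp only [R.g_refl]
  rw [Finset.mul_sum, Finset.sum_mul, ← Finset.sum_sub_distrib]
  refine Finset.sum_congr rfl fun k _ => ?_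
  rw [cosM_symm M k i]
  ring

theorem pair_pow (i j : Fin (d + 1)) (m : ℕ) (v : Fin (d + 1) → ℝ) (x : Sp d) :
    R.pair v (((R.reflE i * R.reflE j) ^ m) x) = R.pair (gr M ((sm M j * sm M i) ^ m) v) x := by
  induction m generalizing v x with
  | zero =>
    rw [pow_zero, pow_zero, gr_one_apply]
    rfl
  | succ m ih =>
    rw [pow_succ' (R.reflE i * R.reflE j), pow_succ (sm M j * sm M i), gr_mul_apply, gr_mul_apply]
    show R.pair v (R.refl i (R.refl j (((R.reflE i * R.reflE j) ^ m) x))) = _
    rw [R.pair_refl, R.pair_refl, ih]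

theorem exists_act : ∃ A : M.Group →* (Sp d ≃ᵢ Sp d), ∀ (i : Fin (d + 1)) (x : Sp d),
    A (sm M i) x = x - (2 * R.g i x) • R.a i := by
  have hl : M.IsLiftable R.reflE := by
    intro i j
    apply IsometryEquiv.ext
    intro x
    apply R.ext_g
    intro k
    rw [← R.pair_ee k, ← R.pair_ee k, R.pair_pow]
    have h1 : (sm M j * sm M i) ^ M i j = 1 := by
      rw [M.symmetric i j]
      exact M.toCoxeterSystem.simple_mul_simple_pow j i
    rw [h1, gr_one_apply]
    rfl
  refine ⟨M.toCoxeterSystem.lift ⟨_, hl⟩, fun i x => ?_⟩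
  rw [show sm M i = M.toCoxeterSystem.simple i from rfl, CoxeterSystem.lift_apply_simple]
  rfl

/-- The action of the Coxeter group on `𝔼^d` by isometries. -/
noncomputable def act : M.Group →* (Sp d ≃ᵢ Sp d) := R.exists_act.choose

theorem act_simple (i : Fin (d + 1)) (x : Sp d) :
    R.act (sm M i) x = x - (2 * R.g i x) • R.a i := R.exists_act.choose_spec i x

theorem act_mul_apply (w w' : M.Group) (x : Sp d) : R.act (w * w') x = R.act w (R.act w' x) := by
  rw [map_mul]; rfl

theorem act_one_apply (x : Sp d) : R.act 1 x = x := by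
  rw [map_one]; rfl

theorem pair_act (w : M.Group) (v : Fin (d + 1) → ℝ) (x : Sp d) :
    R.pair v (R.act w x) = R.pair (gr M w⁻¹ v) x := by
  induction w using M.toCoxeterSystem.simple_induction_left generalizing v with
  | one => rw [R.act_one_apply, inv_one, gr_one_apply]
  | mul_simple_left w i ih =>
    rw [R.act_mul_apply, mul_inv_rev, M.toCoxeterSystem.inv_simple, gr_mul_apply]
    have h1 := R.act_simple i (R.act w x)
    have h2 := R.pair_refl i v (R.act w x)
    unfold refl at h2
    rw [← h1] at h2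
    change R.pair v (R.act (sm M i) (R.act w x)) = R.pair (gr M w⁻¹ (gr M (sm M i) v)) x
    rw [h2, ih]

/-- The alcove. -/
def alc : Set (Sp d) := {x | ∀ i, 0 ≤ R.g i x}

theorem exists_vtx (k : Fin (d + 1)) :
    ∃ x : Sp d, ∀ i, R.g i x = if i = k then (R.c k)⁻¹ else 0 := by
  let L : Sp d →ₗ[ℝ] ({i : Fin (d + 1) // i ≠ k} → ℝ) :=
    LinearMap.pi fun i => (innerₛₗ ℝ (R.a i))
  have hinj : Function.Injective L := by
    rw [injective_iff_map_eq_zero]
    intro u hu
    apply R.eq_zero_of_inner k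
    intro i hi
    exact congrFun hu ⟨i, hi⟩
  have hsur : Function.Surjective L := by
    apply (LinearMap.injective_iff_surjective_of_finrank_eq_finrank _).1 hinj
    simp
  obtain ⟨x, hx⟩ := hsur fun i => - R.t i
  have h1 : ∀ i, i ≠ k → R.g i x = 0 := by
    intro i hi
    have h2 : inner ℝ (R.a i) x = - R.t i := congrFun hx ⟨i, hi⟩
    unfold g
    rw [h2]; ring
  refine ⟨x, fun i => ?_⟩
  split_ifs with h
  · subst h
    have h3 := R.sum_c_g x
    rw [Finset.sum_eq_single i (fun j _ hj => by rw [h1 j hj, mul_zero])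
      (fun h => absurd (Finset.mem_univ i) h)] at h3
    exact eq_inv_of_mul_eq_one_right h3
  · exact h1 i h

/-- The vertices of the alcove. -/
noncomputable def vtx (k : Fin (d + 1)) : Sp d := (R.exists_vtx k).choose

theorem g_vtx (k i : Fin (d + 1)) : R.g i (R.vtx k) = if i = k then (R.c k)⁻¹ else 0 :=
  (R.exists_vtx k).choose_spec i

theorem vtx_mem_alc (k : Fin (d + 1)) : R.vtx k ∈ R.alc := by
  intro i
  rw [R.g_vtx]
  split_ifs
  · exact (inv_pos.2 (R.c_pos k)).le
  · exact le_rfl

/-- The functionals are affine. -/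
theorem g_sum (i : Fin (d + 1)) {w : Fin (d + 1) → ℝ} (hw : ∑ k, w k = 1)
    (z : Fin (d + 1) → Sp d) : R.g i (∑ k, w k • z k) = ∑ k, w k * R.g i (z k) := by
  unfold g
  rw [inner_sum]
  simp only [real_inner_smul_right, mul_add, Finset.sum_add_distrib]
  rw [← Finset.sum_mul, hw, one_mul]

theorem g_sum_vtx (i : Fin (d + 1)) {w : Fin (d + 1) → ℝ} (hw : ∑ k, w k = 1) :
    R.g i (∑ k, w k • R.vtx k) = w i * (R.c i)⁻¹ := by
  rw [R.g_sum i hw, Finset.sum_eq_single i]
  · rw [R.g_vtx, if_pos rfl]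
  · intro k _ hk
    rw [R.g_vtx, if_neg (Ne.symm hk), mul_zero]
  · intro h; exact absurd (Finset.mem_univ i) h

theorem eq_sum_vtx (x : Sp d) : x = ∑ k, (R.c k * R.g k x) • R.vtx k := by
  apply R.ext_g
  intro i
  rw [R.g_sum_vtx i (R.sum_c_g x)]
  have := (R.c_pos i).ne'
  field_simp

theorem convex_alc : Convex ℝ R.alc := by
  intro x hx y hy a b ha hb hab i
  have h1 : R.g i (a • x + b • y) = a * R.g i x + b * R.g i y := by
    unfold g
    rw [inner_add_right, real_inner_smul_right, real_inner_smul_right]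
    have : R.t i = a * R.t i + b * R.t i := by rw [← add_mul, hab, one_mul]
    linarith
  rw [h1]
  exact add_nonneg (mul_nonneg ha (hx i)) (mul_nonneg hb (hy i))

theorem alc_eq : R.alc = convexHull ℝ (range R.vtx) := by
  apply Subset.antisymm
  · intro x hx
    rw [R.eq_sum_vtx x]
    apply (convex_convexHull ℝ (range R.vtx)).sum_mem
    · intro k _
      exact mul_nonneg (R.c_pos k).le (hx k)
    · exact R.sum_c_g x
    · intro k _
      exact subset_convexHull ℝ _ (mem_range_self k)
  · apply convexHull_min _ R.convex_alc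
    rintro _ ⟨k, rfl⟩
    exact R.vtx_mem_alc k

theorem continuous_g (i : Fin (d + 1)) : Continuous (R.g i) := by
  unfold g
  fun_prop

theorem exists_ball_subset_alc : ∃ (p : Sp d) (ρ : ℝ), 0 < ρ ∧ Metric.ball p ρ ⊆ R.alc := by
  have hopen : IsOpen {x | ∀ i, 0 < R.g i x} := by
    have : {x | ∀ i, 0 < R.g i x} = ⋂ i, {x | 0 < R.g i x} := by
      ext x; simp
    rw [this]
    exact isOpen_iInter_of_finite fun i => isOpen_lt continuous_const (R.continuous_g i)
  have hw : ∑ _k : Fin (d + 1), ((d : ℝ) + 1)⁻¹ = 1 := by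
    rw [Finset.sum_const, Finset.card_univ, Fintype.card_fin, nsmul_eq_mul]
    push_cast
    have : (d : ℝ) + 1 ≠ 0 := by positivity
    field_simp
  have hp : (∑ k, ((d : ℝ) + 1)⁻¹ • R.vtx k) ∈ {x | ∀ i, 0 < R.g i x} := by
    intro i
    rw [R.g_sum_vtx i (w := fun _ => ((d : ℝ) + 1)⁻¹) hw]
    have := R.c_pos i
    positivity
  obtain ⟨ρ, hρ, hball⟩ := Metric.isOpen_iff.1 hopen _ hp
  exact ⟨_, ρ, hρ, fun x hx i => (hball hx i).le⟩

theorem pair_vtx (v : Fin (d + 1) → ℝ) (k : Fin (d + 1)) :
    R.pair v (R.vtx k) = v k * (R.c k)⁻¹ := by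
  unfold pair
  rw [Finset.sum_eq_single k]
  · rw [R.g_vtx, if_pos rfl]
  · intro i _ hi
    rw [R.g_vtx, if_neg hi, mul_zero]
  · intro h; exact absurd (Finset.mem_univ k) h

theorem act_injective : Function.Injective R.act := by
  rw [injective_iff_map_eq_one]
  intro w hw
  have h1 : gr M w⁻¹ = gr M 1 := by
    apply LinearMap.ext
    intro v
    rw [gr_one_apply]
    funext k
    have h2 := R.pair_act w v (R.vtx k)
    rw [hw] at h2
    change R.pair v (R.vtx k) = _ at h2
    rw [R.pair_vtx, R.pair_vtx] at h2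
    have h3 : (R.c k)⁻¹ ≠ 0 := inv_ne_zero (R.c_pos k).ne'
    exact (mul_right_cancel₀ h3 h2).symm
  have h4 := gr_injective M h1
  exact inv_eq_one.1 h4

theorem act_simple_of_g_eq_zero {i : Fin (d + 1)} {x : Sp d} (hx : R.g i x = 0) :
    R.act (sm M i) x = x := by
  rw [R.act_simple, hx]; simp

theorem act_simple_vtx {i k : Fin (d + 1)} (hik : i ≠ k) :
    R.act (sm M i) (R.vtx k) = R.vtx k :=
  R.act_simple_of_g_eq_zero (by rw [R.g_vtx, if_neg hik])

theorem no_fixed_point : ¬ ∃ x : Sp d, ∀ i, R.act (sm M i) x = x := by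
  rintro ⟨x, hx⟩
  have h1 : ∀ i, R.g i x = 0 := by
    intro i
    have h2 := hx i
    rw [R.act_simple, sub_eq_self, smul_eq_zero] at h2
    rcases h2 with h2 | h2
    · linarith
    · exact absurd h2 (R.a_ne_zero i)
  have h3 := R.sum_c_g x
  simp [h1] at h3

end Realization

end Pool.Agent.CRT
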