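import Pool.Agent.CRT.Alcove

/-!
# Module O2: the alcove is a fundamental domain

O2 paper proof.  `g_i(w x) = pair (gr w⁻¹ e_i) x ≥ 0` for `x ∈ alc` if `ℓ(s_i w) > ℓ(w)` (`tits`).
`nearest`: induction on `ℓ(w)`; if `w ≠ 1` let `w = s_i w'`, `ℓ(w') < ℓ(w)`; `g_i(w' z) ≥ 0`,
`g_i(y) ≥ 0`, and `|y - r_i z'|² - |y - z'|² = 4 g_i(y) g_i(z') ≥ 0` for `z' = w' z`; in case of
equality: `w' z = u z` with `u ∈ W_{I(y)}` by induction and `g_i(y) = 0` (then `w z = s_i u z`) or
`g_i(z') = 0` (then `w z = w' z = u z`).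
`locFin`: let `ball p ρ ⊆ alc`.  For `w ≠ 1` there is `i` with `g_i ≤ 0` on `w alc` (`tits_neg`
with a left descent `i` of `w`: `gr w⁻¹ e_i ≤ 0`) whereas `g_i > 0` on `ball p ρ` (`|a_i| = 1`,
`g_i ≥ 0` on the open ball); so `ball p ρ` and `w (ball p ρ)` are disjoint; hence the balls
`ball (w p) ρ`, `w ∈ W`, are pairwise disjoint, and a bounded set contains only finitely many
of the points `w p` (volume, or total boundedness).  If `w alc` meets `K` then `w p` is within
`diam alc` of `K`.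
`exists_alc`: choose `w` with `|x - w p|` minimal (exists by `locFin`), `x' = w⁻¹ x`;
`|x' - p| ≤ |x' - s_i p| = |s_i x' - p|`, `|s_i x' - p|² - |x' - p|² = 4 g_i(x') g_i(p)`, so
`g_i(x') ≥ 0`.
-/

namespace Pool.Agent.CRT

open Set

namespace Realization

variable {d : ℕ} {M : CoxeterMatrix (Fin (d + 1))} (R : Realization M)

theorem g_act (w : M.Group) (i : Fin (d + 1)) (x : Sp d) :
    R.g i (R.act w x) = R.pair (gr M w⁻¹ (ee i)) x := by
  rw [← R.pair_ee, R.pair_act]

theorem len_inv_mul (w : M.Group) (i : Fin (d + 1)) :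
    len M (w⁻¹ * sm M i) = len M (sm M i * w) := by
  have h : w⁻¹ * sm M i = (sm M i * w)⁻¹ := by
    rw [mul_inv_rev, M.toCoxeterSystem.inv_simple]
  rw [h]
  exact M.toCoxeterSystem.length_inv _

theorem g_act_nonneg (w : M.Group) (i : Fin (d + 1)) (h : len M w < len M (sm M i * w))
    {x : Sp d} (hx : x ∈ R.alc) : 0 ≤ R.g i (R.act w x) := by
  rw [g_act]
  have h1 : len M w⁻¹ < len M (w⁻¹ * sm M i) := by
    rw [len_inv_mul]
    rwa [show len M w⁻¹ = len M w from M.toCoxeterSystem.length_inv w]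
  exact Finset.sum_nonneg fun k _ => mul_nonneg (tits M w⁻¹ i h1 k) (hx k)

theorem g_act_nonpos (w : M.Group) (i : Fin (d + 1)) (h : len M (sm M i * w) < len M w)
    {x : Sp d} (hx : x ∈ R.alc) : R.g i (R.act w x) ≤ 0 := by
  rw [g_act]
  have h1 : len M (w⁻¹ * sm M i) < len M w⁻¹ := by
    rw [len_inv_mul]
    rwa [show len M w⁻¹ = len M w from M.toCoxeterSystem.length_inv w]
  exact Finset.sum_nonpos fun k _ => mul_nonpos_of_nonpos_of_nonneg (tits_neg M w⁻¹ i h1 k) (hx k)

/-- the reflection and distances -/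
theorem dist_sq_refl (i : Fin (d + 1)) (y z : Sp d) :
    dist y (R.act (sm M i) z) ^ 2 = dist y z ^ 2 + 4 * (R.g i y * R.g i z) := by
  rw [R.act_simple, dist_eq_norm, dist_eq_norm]
  have h : y - (z - (2 * R.g i z) • R.a i) = (y - z) + (2 * R.g i z) • R.a i := by abel
  rw [h, norm_add_sq_real, norm_smul, R.norm_a, inner_smul_right, real_inner_comm,
    inner_sub_right]
  have h1 : R.g i y = inner ℝ (R.a i) y + R.t i := rfl
  have h2 : R.g i z = inner ℝ (R.a i) z + R.t i := rfl
  have h3 : ‖2 * R.g i z‖ ^ 2 = (2 * R.g i z) ^ 2 := by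
    rw [Real.norm_eq_abs, sq_abs]
  rw [mul_one, h3, h1]
  have h4 : inner ℝ (R.a i) z = R.g i z - R.t i := by rw [h2]; ring
  rw [h4]
  ring

theorem nearest {y z : Sp d} (hy : y ∈ R.alc) (hz : z ∈ R.alc) (w : M.Group) :
    dist y z ≤ dist y (R.act w z) ∧
      (dist y z = dist y (R.act w z) →
        ∃ u ∈ par M {i | R.g i y = 0}, R.act w z = R.act u z) := by
  obtain ⟨n, hn⟩ : ∃ n, len M w = n := ⟨_, rfl⟩
  induction n using Nat.strong_induction_on generalizing w with
  | _ n ih =>
    by_cases hw : w = 1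
    · subst hw
      rw [R.act_one_apply]
      exact ⟨le_rfl, fun _ => ⟨1, one_mem _, (R.act_one_apply z).symm⟩⟩
    obtain ⟨i, hi⟩ := M.toCoxeterSystem.exists_leftDescent_of_ne_one hw
    have hi' : len M (sm M i * w) < len M w := hi
    set w' := sm M i * w with hw'
    have hww : w = sm M i * w' := by
      rw [hw', ← mul_assoc, M.toCoxeterSystem.simple_mul_simple_self, one_mul]
    clear_value w'
    obtain ⟨h1, h2⟩ := ih (len M w') (hn ▸ hi') w' rfl
    have h3 : 0 ≤ R.g i (R.act w' z) := by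
      apply R.g_act_nonneg w' i _ hz
      rw [← hww]
      exact hi'
    have h4 : dist y (R.act w z) ^ 2 = dist y (R.act w' z) ^ 2 +
        4 * (R.g i y * R.g i (R.act w' z)) := by
      rw [hww, R.act_mul_apply, R.dist_sq_refl]
    have h5 : 0 ≤ R.g i y * R.g i (R.act w' z) := mul_nonneg (hy i) h3
    have h6 : dist y (R.act w' z) ≤ dist y (R.act w z) := by
      apply le_of_sq_le_sq _ dist_nonneg
      rw [h4]
      linarith
    refine ⟨h1.trans h6, fun heq => ?_⟩
    have h7 : dist y z = dist y (R.act w' z) := le_antisymm h1 (heq ▸ h6)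
    obtain ⟨u, hu, hu'⟩ := h2 h7
    have h8 : R.g i y * R.g i (R.act w' z) = 0 := by
      rw [← heq, h7] at h4
      linarith
    rcases mul_eq_zero.1 h8 with h9 | h9
    · refine ⟨sm M i * u, mul_mem (Subgroup.subset_closure ⟨i, h9, rfl⟩) hu, ?_⟩
      rw [hww, R.act_mul_apply, R.act_mul_apply, hu']
    · refine ⟨u, hu, ?_⟩
      rw [hww, R.act_mul_apply, R.act_simple_of_g_eq_zero h9, hu']

theorem abs_g_sub_le (i : Fin (d + 1)) (x y : Sp d) : |R.g i x - R.g i y| ≤ dist x y := by
  have h : R.g i x - R.g i y = inner ℝ (R.a i) (x - y) := by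
    unfold g
    rw [inner_sub_right]
    ring
  rw [h, dist_eq_norm]
  calc |inner ℝ (R.a i) (x - y)| ≤ ‖R.a i‖ * ‖x - y‖ := abs_real_inner_le_norm _ _
    _ = ‖x - y‖ := by rw [R.norm_a, one_mul]

theorem le_g_of_ball {p : Sp d} {ρ : ℝ} (hρ : 0 < ρ) (hb : Metric.ball p ρ ⊆ R.alc)
    (i : Fin (d + 1)) : ρ ≤ R.g i p := by
  apply le_of_forall_lt_imp_le_of_dense
  intro s hs
  by_cases hs0 : s ≤ 0
  · have := hb (Metric.mem_ball_self hρ) i
    linarith
  push Not at hs0
  have hmem : p - s • R.a i ∈ Metric.ball p ρ := by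
    rw [Metric.mem_ball, dist_eq_norm, sub_sub_cancel_left, norm_neg, norm_smul, R.norm_a,
      Real.norm_eq_abs, abs_of_pos hs0, mul_one]
    exact hs
  have h := hb hmem i
  have h2 : R.g i (p - s • R.a i) = R.g i p - s := by
    unfold g
    rw [inner_sub_right, inner_smul_right, real_inner_self_eq_norm_sq, R.norm_a]
    ring
  rw [h2] at h
  linarith

/-- the orbit of an interior point is separated -/
theorem separated {p : Sp d} {ρ : ℝ} (hρ : 0 < ρ) (hb : Metric.ball p ρ ⊆ R.alc)
    {w w' : M.Group} (h : w ≠ w') : ρ ≤ dist (R.act w p) (R.act w' p) := by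
  have h1 : w⁻¹ * w' ≠ 1 := by
    intro h1
    apply h
    rw [inv_mul_eq_one] at h1
    exact h1
  have h2 : dist (R.act w p) (R.act w' p) = dist p (R.act (w⁻¹ * w') p) := by
    have : R.act w' p = R.act w (R.act (w⁻¹ * w') p) := by
      rw [← R.act_mul_apply, mul_inv_cancel_left]
    rw [this, (R.act w).dist_eq]
  rw [h2]
  obtain ⟨i, hi⟩ := M.toCoxeterSystem.exists_leftDescent_of_ne_one h1
  have hp : p ∈ R.alc := hb (Metric.mem_ball_self hρ)
  have h3 := R.g_act_nonpos (w⁻¹ * w') i hi hp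
  have h4 := R.le_g_of_ball hρ hb i
  have h5 := R.abs_g_sub_le i p (R.act (w⁻¹ * w') p)
  have h6 := le_abs_self (R.g i p - R.g i (R.act (w⁻¹ * w') p))
  linarith

theorem finite_orbit {p : Sp d} {ρ : ℝ} (hρ : 0 < ρ) (hb : Metric.ball p ρ ⊆ R.alc)
    (x : Sp d) (r : ℝ) : {w : M.Group | dist x (R.act w p) ≤ r}.Finite := by
  have hc : IsCompact (Metric.closedBall x r) := isCompact_closedBall x r
  obtain ⟨t, ht, hcov⟩ := Metric.totallyBounded_iff.1 hc.totallyBounded (ρ / 2) (by linarith)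
  have hch : ∀ w : M.Group, dist x (R.act w p) ≤ r → ∃ y ∈ t, R.act w p ∈ Metric.ball y (ρ / 2) := by
    intro w hw
    have := hcov (show R.act w p ∈ Metric.closedBall x r by
      rw [Metric.mem_closedBall, dist_comm]; exact hw)
    simpa using this
  classical
  let f : M.Group → Sp d := fun w =>
    if hw : dist x (R.act w p) ≤ r then (hch w hw).choose else x
  apply Set.Finite.of_injOn (f := f) (t := t) _ _ ht
  · intro w hw
    have hw' : dist x (R.act w p) ≤ r := hw
    simp only [f, dif_pos hw']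
    exact (hch w hw').choose_spec.1
  · intro w hw w' hw' heq
    by_contra hne
    have h1 : dist x (R.act w p) ≤ r := hw
    have h2 : dist x (R.act w' p) ≤ r := hw'
    simp only [f, dif_pos h1, dif_pos h2] at heq
    have h3 := (hch w h1).choose_spec.2
    have h4 := (hch w' h2).choose_spec.2
    rw [← heq] at h4
    rw [Metric.mem_ball] at h3 h4
    have h5 := R.separated hρ hb hne
    have h6 := dist_triangle_right (R.act w p) (R.act w' p) (hch w h1).choose
    linarith

theorem locFin (K : Set (Sp d)) (hK : IsCompact K) :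
    {w : M.Group | ((R.act w '' R.alc) ∩ K).Nonempty}.Finite := by
  obtain ⟨p, ρ, hρ, hb⟩ := R.exists_ball_subset_alc
  have halc : Bornology.IsBounded R.alc := by
    rw [R.alc_eq]
    exact isBounded_convexHull.2 (finite_range _).isBounded
  obtain ⟨D, hD⟩ := halc.subset_closedBall p
  obtain ⟨D', hD'⟩ := hK.isBounded.subset_closedBall p
  refine (R.finite_orbit hρ hb p (D' + D)).subset ?_
  rintro w ⟨_, ⟨x, hx, rfl⟩, hxK⟩
  have h1 := hD' hxK
  have h2 := hD hx
  rw [Metric.mem_closedBall] at h1 h2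
  have h3 : dist (R.act w x) (R.act w p) = dist x p := (R.act w).dist_eq _ _
  have h4 := dist_triangle_left p (R.act w p) (R.act w x)
  show dist p (R.act w p) ≤ D' + D
  linarith

theorem exists_alc (x : Sp d) : ∃ w : M.Group, ∃ y ∈ R.alc, R.act w y = x := by
  obtain ⟨p, ρ, hρ, hb⟩ := R.exists_ball_subset_alc
  have hfin := R.finite_orbit hρ hb x (dist x p)
  have hne : {w : M.Group | dist x (R.act w p) ≤ dist x p}.Nonempty :=
    ⟨1, by simp⟩
  obtain ⟨w, hw, hmin⟩ := Set.exists_min_image _ (fun w => dist x (R.act w p)) hfin hne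
  have hmin' : ∀ w', dist x (R.act w p) ≤ dist x (R.act w' p) := by
    intro w'
    by_cases hw' : dist x (R.act w' p) ≤ dist x p
    · exact hmin w' hw'
    · push Not at hw'
      exact le_trans hw hw'.le
  refine ⟨w, R.act w⁻¹ x, ?_, ?_⟩
  · intro i
    have hx : x = R.act w (R.act w⁻¹ x) := by
      rw [← R.act_mul_apply, mul_inv_cancel, R.act_one_apply]
    have h1 := hmin' (w * sm M i)
    rw [R.act_mul_apply] at h1
    set x' := R.act w⁻¹ x
    rw [hx, (R.act w).dist_eq, (R.act w).dist_eq] at h1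
    have h2 := R.dist_sq_refl i x' p
    have h3 := R.le_g_of_ball hρ hb i
    have h4 : dist x' p ^ 2 ≤ dist x' (R.act (sm M i) p) ^ 2 :=
      pow_le_pow_left₀ dist_nonneg h1 2
    have h5 : 0 ≤ R.g i x' * R.g i p := by linarith
    by_contra hneg
    push Not at hneg
    have h6 : R.g i x' * R.g i p < 0 := mul_neg_of_neg_of_pos hneg (by linarith)
    linarith
  · rw [← R.act_mul_apply, mul_inv_cancel, R.act_one_apply]

end Realization

end Pool.Agent.CRT
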