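import Pool.Agent.CRT.Polytope

/-!
# Module B1: the cells of a tiling

Paper proofs.  A cell `F` is an exposed face of some tile `Q`.  If `F ⊆ P`, `P` a tile, then
`P ∩ Q` is exposed in `P` and in `Q` (`faceToFace`), `F ⊆ P ∩ Q ⊆ Q` so `F` is exposed in `P ∩ Q`
(`IsExposed.mono`), hence in `P` (`IsPoly.isExposed_trans`).  The rest is similar:
`F ∩ G` for cells `F ⊆ P`, `G ⊆ Q`: `F ∩ (P ∩ Q)` is exposed in `P` hence in `P ∩ Q`, likewise
`G ∩ (P ∩ Q)`, so `F ∩ G` is exposed in `P ∩ Q` hence in `P` and (mono) in `F`.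
-/

namespace Pool.Agent.CRT

open Set

variable {d : ℕ} {T : Set (Set (Sp d))} {F G P : Set (Sp d)}

theorem tile_isPoly (hT : IsTiling T) (hP : P ∈ T) : IsPoly P := (hT.tile P hP).1

theorem tile_nonempty (hT : IsTiling T) (hP : P ∈ T) : P.Nonempty :=
  (hT.tile P hP).2.mono interior_subset

theorem tile_mem_cells (hT : IsTiling T) (hP : P ∈ T) : P ∈ cells T :=
  ⟨tile_nonempty hT hP, P, hP, IsExposed.refl P⟩

theorem cell_isPoly (hT : IsTiling T) (hF : F ∈ cells T) : IsPoly F := by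
  obtain ⟨_, P, hP, hFP⟩ := hF
  exact (tile_isPoly hT hP).of_isExposed hFP

theorem isExposed_of_subset_tile (hT : IsTiling T) (hF : F ∈ cells T) (hP : P ∈ T)
    (hFP : F ⊆ P) : IsExposed ℝ P F := by
  obtain ⟨_, Q, hQ, hFQ⟩ := hF
  have h1 : IsExposed ℝ (P ∩ Q) F :=
    hFQ.mono inter_subset_right (subset_inter hFP hFQ.subset)
  exact (tile_isPoly hT hP).isExposed_trans (hT.faceToFace P hP Q hQ) h1

theorem isExposed_of_subset_cell (hT : IsTiling T) (hF : F ∈ cells T) (hG : G ∈ cells T)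
    (hFG : F ⊆ G) : IsExposed ℝ G F := by
  obtain ⟨_, P, hP, hGP⟩ := hG
  exact (isExposed_of_subset_tile hT hF hP (hFG.trans hGP.subset)).mono hGP.subset hFG

theorem mem_cells_of_isExposed (hT : IsTiling T) (hG : G ∈ cells T) (hF : IsExposed ℝ G F)
    (hne : F.Nonempty) : F ∈ cells T := by
  obtain ⟨_, P, hP, hGP⟩ := hG
  exact ⟨hne, P, hP, (tile_isPoly hT hP).isExposed_trans hGP hF⟩

theorem isExposed_inter_cell (hT : IsTiling T) (hF : F ∈ cells T) (hG : G ∈ cells T) :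
    IsExposed ℝ F (F ∩ G) := by
  obtain ⟨_, P, hP, hFP⟩ := hF
  obtain ⟨_, Q, hQ, hGQ⟩ := hG
  have hA := hT.faceToFace P hP Q hQ
  have hA' := hT.faceToFace Q hQ P hP
  have h1 : IsExposed ℝ (P ∩ Q) (F ∩ (P ∩ Q)) :=
    (hFP.inter hA).mono inter_subset_left inter_subset_right
  have h2 : IsExposed ℝ (P ∩ Q) (G ∩ (P ∩ Q)) := by
    have h3 := hGQ.inter hA'
    rw [inter_comm Q P] at h3
    exact h3.mono inter_subset_right inter_subset_right
  have h4 : F ∩ (P ∩ Q) ∩ (G ∩ (P ∩ Q)) = F ∩ G := by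
    ext x
    constructor
    · rintro ⟨⟨hx1, -⟩, hx2, -⟩
      exact ⟨hx1, hx2⟩
    · rintro ⟨hx1, hx2⟩
      have hxP := hFP.subset hx1
      have hxQ := hGQ.subset hx2
      exact ⟨⟨hx1, hxP, hxQ⟩, hx2, hxP, hxQ⟩
  have h5 : IsExposed ℝ (P ∩ Q) (F ∩ G) := by
    rw [← h4]
    exact h1.inter h2
  exact ((tile_isPoly hT hP).isExposed_trans hA h5).mono hFP.subset inter_subset_left

theorem inter_mem_cells (hT : IsTiling T) (hF : F ∈ cells T) (hG : G ∈ cells T)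
    (hne : (F ∩ G).Nonempty) : F ∩ G ∈ cells T :=
  mem_cells_of_isExposed hT hF (isExposed_inter_cell hT hF hG) hne

theorem exists_tile_mem (hT : IsTiling T) (x : Sp d) : ∃ P ∈ T, x ∈ P := by
  have : x ∈ ⋃₀ T := by rw [hT.cover]; trivial
  simpa using this

theorem finite_cells_inter (hT : IsTiling T) (K : Set (Sp d)) (hK : IsCompact K) :
    {F | F ∈ cells T ∧ (F ∩ K).Nonempty}.Finite := by
  have h1 := hT.locallyFinite K hK
  have h2 : (⋃ P ∈ {P ∈ T | (P ∩ K).Nonempty}, {F | IsExposed ℝ P F}).Finite :=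
    h1.biUnion fun P hP => (tile_isPoly hT hP.1).finite_isExposed
  refine h2.subset ?_
  rintro F ⟨⟨_, P, hP, hFP⟩, hne⟩
  simp only [mem_iUnion]
  exact ⟨P, ⟨hP, hne.mono (inter_subset_inter_left K hFP.subset)⟩, hFP⟩

theorem cdim_lt (hT : IsTiling T) (hF : F ∈ cells T) (hG : G ∈ cells T) (hlt : F ⊂ G) :
    cdim F < cdim G :=
  cdim_lt_of_isExposed (isExposed_of_subset_cell hT hF hG hlt.subset) hF.1 hlt.ne

end Pool.Agent.CRT
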