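import Pool.Agent.CRT.Cells

/-!
# Module B2: every point is uniquely a convex combination of barycentres of a chain of cells

Paper proofs.
Existence: for a cell `F` and `x ∈ F`, there is a chain weight `w` supported in cells `⊆ F` with
`wpt w = x`: strong induction on `cdim F`.  If `x = bary F` take the unit mass at `F`.  Otherwise
`IsPoly.exit` gives `x = (1-t) bary F + t y`, `y ∈ G ⊊ F` a cell, `0 < t ≤ 1`; by induction
`y = wpt w'` with `w'` supported in cells `⊆ G`; `w = (1-t) δ_F + t w'`.
Uniqueness: induction on `cdim` of the top cell (or on the size of the support).  Let `F`, `F'` be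
the top cells of the supports of `w`, `w'`, `x = wpt w = wpt w'`.  `x ∈ F ∩ F'` (all the cells of the
support lie in the top one, which is convex).  `F ∩ F'` is exposed in `F` and contains
`x = w_F bary F + (1 - w_F) y`, `w_F > 0`, so `bary F ∈ F ∩ F'` (`left_mem_of_isExposed`) so
`F ∩ F' = F` (`eq_of_bary_mem`), `F ⊆ F'`; symmetrically `F = F'`.  If `w_F < 1` then `y` is the
point of the normalised rest of `w`, contained in the next cell of the chain, a proper exposed face
of `F`; same for `w'`; `IsPoly.ray_unique` (with `t = 1 - w_F`; if `w_F = 1` the statement is used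
with `t = 0` and any proper face containing some point, or treated directly) gives `w_F = w'_F`,
`y = y'`; conclude by induction.
-/

namespace Pool.Agent.CRT

open Set

variable {d : ℕ} {T : Set (Set (Sp d))}

/-- `w` is a chain weight: nonnegative, total mass one, supported on a chain of cells. -/
structure ChainWt (T : Set (Set (Sp d))) (w : cells T →₀ ℝ) : Prop where
  nonneg : ∀ F, 0 ≤ w F
  sum : (w.sum fun _ a => a) = 1
  chain : IsChain (· ≤ ·) (w.support : Set (cells T))

/-- The point of a weight. -/
noncomputable def wpt (w : cells T →₀ ℝ) : Sp d := w.sum fun F a => a • bary F.1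

theorem wpt_eq (w : cells T →₀ ℝ) :
    wpt w = Finsupp.linearCombination ℝ (fun F : cells T => bary F.1) w := rfl

theorem mass_eq (w : cells T →₀ ℝ) :
    (w.sum fun _ a => a) = Finsupp.linearCombination ℝ (fun _ : cells T => (1 : ℝ)) w := by
  rw [Finsupp.linearCombination_apply]
  simp

theorem wpt_single (F : cells T) (a : ℝ) : wpt (Finsupp.single F a) = a • bary F.1 := by
  rw [wpt_eq, Finsupp.linearCombination_single]

theorem wpt_single_add (F : cells T) (a t : ℝ) (v : cells T →₀ ℝ) :
    wpt (Finsupp.single F a + t • v) = a • bary F.1 + t • wpt v := by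
  rw [wpt_eq, map_add, map_smul, Finsupp.linearCombination_single, wpt_eq]

theorem mass_single_add (F : cells T) (a t : ℝ) (v : cells T →₀ ℝ) :
    ((Finsupp.single F a + t • v).sum fun _ a => a) = a + t * (v.sum fun _ a => a) := by
  rw [mass_eq, map_add, map_smul, Finsupp.linearCombination_single, mass_eq]
  simp

theorem chainWt_single (F : cells T) : ChainWt T (Finsupp.single F 1) := by
  classical
  refine ⟨fun G => ?_, ?_, ?_⟩
  · rw [Finsupp.single_apply]
    split_ifs <;> norm_num
  · rw [mass_eq, Finsupp.linearCombination_single, smul_eq_mul, mul_one]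
  · refine IsChain.mono (t := {F}) ?_ (Set.subsingleton_singleton.isChain)
    intro G hG
    have := Finsupp.support_single_subset hG
    simpa using this

theorem exists_chainWt_cell (hT : IsTiling T) (F : cells T) (x : Sp d) (hx : x ∈ F.1) :
    ∃ w : cells T →₀ ℝ, ChainWt T w ∧ wpt w = x ∧ ∀ G ∈ w.support, G ≤ F := by
  classical
  suffices H : ∀ (n : ℕ) (F : cells T), cdim F.1 = n → ∀ x ∈ F.1,
      ∃ w : cells T →₀ ℝ, ChainWt T w ∧ wpt w = x ∧ ∀ G ∈ w.support, G ≤ F from
    H _ F rfl x hx
  intro n
  induction n using Nat.strong_induction_on with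
  | _ n ih =>
    intro F hF x hx
    by_cases hxb : x = bary F.1
    · refine ⟨Finsupp.single F 1, chainWt_single F, ?_, ?_⟩
      · rw [wpt_single, one_smul, hxb]
      · intro G hG
        have := Finsupp.support_single_subset hG
        rw [Finset.mem_singleton] at this
        exact this.le
    · obtain ⟨t, y, G, ht0, ht1, hG, hGF, hy, hxy⟩ :=
        (cell_isPoly hT F.2).exit hx hxb
      have hGc : G ∈ cells T := mem_cells_of_isExposed hT F.2 hG ⟨y, hy⟩
      have hdim : cdim G < cdim F.1 := cdim_lt_of_isExposed hG ⟨y, hy⟩ hGF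
      obtain ⟨v, hv, hvy, hvG⟩ := ih (cdim G) (hF ▸ hdim) ⟨G, hGc⟩ rfl y hy
      have hGF' : (⟨G, hGc⟩ : cells T) ≤ F := hG.subset
      have hsupp : ∀ H ∈ (Finsupp.single F (1 - t) + t • v).support, H = F ∨ H ∈ v.support := by
        intro H hH
        by_contra hcon
        rw [not_or] at hcon
        rw [Finsupp.mem_support_iff] at hH
        apply hH
        have h1 : v H = 0 := Finsupp.notMem_support_iff.1 hcon.2
        rw [Finsupp.add_apply, Finsupp.smul_apply, h1, smul_zero, add_zero,
          Finsupp.single_apply, if_neg (Ne.symm hcon.1)]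
      refine ⟨Finsupp.single F (1 - t) + t • v, ⟨?_, ?_, ?_⟩, ?_, ?_⟩
      · intro H
        rw [Finsupp.add_apply, Finsupp.smul_apply, Finsupp.single_apply, smul_eq_mul]
        have h1 := mul_nonneg ht0.le (hv.nonneg H)
        split_ifs
        · linarith
        · linarith
      · rw [mass_single_add, hv.sum]
        ring
      · have hch : IsChain (· ≤ ·) (insert F (v.support : Set (cells T))) := by
          refine hv.chain.insert ?_
          intro H hH _
          exact Or.inr ((hvG H hH).trans hGF')
        refine hch.mono ?_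
        intro H hH
        rcases hsupp H hH with h | h
        · exact Set.mem_insert_iff.2 (Or.inl h)
        · exact Set.mem_insert_iff.2 (Or.inr h)
      · rw [wpt_single_add, hvy, hxy]
      · intro H hH
        rcases hsupp H hH with h | h
        · exact h.le
        · exact (hvG H h).trans hGF'

theorem exists_chainWt (hT : IsTiling T) (x : Sp d) :
    ∃ w : cells T →₀ ℝ, ChainWt T w ∧ wpt w = x := by
  obtain ⟨P, hP, hx⟩ := exists_tile_mem hT x
  obtain ⟨w, hw, hwx, -⟩ := exists_chainWt_cell hT ⟨P, tile_mem_cells hT hP⟩ x hx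
  exact ⟨w, hw, hwx⟩

theorem ChainWt.exists_top {w : cells T →₀ ℝ} (hw : ChainWt T w) :
    ∃ F ∈ w.support, ∀ G ∈ w.support, G ≤ F := by
  classical
  have hne : w.support.Nonempty := by
    rw [Finset.nonempty_iff_ne_empty]
    intro h0
    have h1 := hw.sum
    rw [Finsupp.sum, h0, Finset.sum_empty] at h1
    exact zero_ne_one h1
  obtain ⟨F, hF⟩ := w.support.exists_maximal hne
  refine ⟨F, hF.prop, fun G hG => ?_⟩
  rcases hw.chain.total hG hF.prop with h | h
  · exact h
  · exact hF.le_of_ge hG h

theorem ChainWt.wpt_mem (hT : IsTiling T) {w : cells T →₀ ℝ} (hw : ChainWt T w) {F : cells T}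
    (hF : ∀ G ∈ w.support, G ≤ F) : wpt w ∈ F.1 := by
  have hconv := (cell_isPoly hT F.2).convex
  rw [wpt, Finsupp.sum]
  refine hconv.sum_mem (fun G _ => hw.nonneg G) hw.sum ?_
  intro G hG
  exact hF G hG ((cell_isPoly hT G.2).bary_mem G.2.1)

/-- Splitting off the top cell of a chain weight. -/
theorem ChainWt.decomp (hT : IsTiling T) {w : cells T →₀ ℝ} (hw : ChainWt T w) :
    ∃ (F : cells T) (t : ℝ), 0 ≤ t ∧ t < 1 ∧ wpt w ∈ F.1 ∧
      ((t = 0 ∧ w = Finsupp.single F 1) ∨
        (0 < t ∧ ∃ (v : cells T →₀ ℝ) (G : cells T), ChainWt T v ∧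
          w = Finsupp.single F (1 - t) + t • v ∧ G < F ∧ wpt v ∈ G.1 ∧
          v.support.card < w.support.card)) := by
  classical
  obtain ⟨F, hFs, hF⟩ := hw.exists_top
  have ha0 : 0 < w F := lt_of_le_of_ne (hw.nonneg F) (Ne.symm (Finsupp.mem_support_iff.1 hFs))
  have hdec : w = Finsupp.single F (w F) + w.erase F := (Finsupp.single_add_erase F w).symm
  have hmass : (w.sum fun _ a => a) = w F + ((w.erase F).sum fun _ a => a) := by
    conv_lhs => rw [hdec]
    have := mass_single_add F (w F) 1 (w.erase F)
    rw [one_smul, one_mul] at this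
    exact this
  rw [hw.sum] at hmass
  have hnn : ∀ G, 0 ≤ w.erase F G := by
    intro G
    by_cases h : G = F
    · rw [h, Finsupp.erase_same]
    · rw [Finsupp.erase_ne h]
      exact hw.nonneg G
  have hmn : 0 ≤ ((w.erase F).sum fun _ a => a) := Finset.sum_nonneg fun G _ => hnn G
  refine ⟨F, 1 - w F, by linarith, by linarith, hw.wpt_mem hT hF, ?_⟩
  rcases eq_or_lt_of_le (show 0 ≤ 1 - w F by linarith) with h0 | h0
  · left
    refine ⟨h0.symm, ?_⟩
    have h1 : ((w.erase F).sum fun _ a => a) = 0 := by linarith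
    have h2 : w.erase F = 0 := by
      rw [Finsupp.sum, Finset.sum_eq_zero_iff_of_nonneg (fun G _ => hnn G)] at h1
      ext G
      by_cases hG : G ∈ (w.erase F).support
      · rw [h1 G hG]
        rfl
      · exact Finsupp.notMem_support_iff.1 hG
    have h3 : w F = 1 := by linarith
    rw [hdec, h2, add_zero]
    simp [h3]
  · right
    set t := 1 - w F with ht
    have hsupp : ∀ G ∈ (t⁻¹ • w.erase F).support, G ≠ F ∧ G ∈ w.support := by
      intro G hG
      have h1 := Finsupp.support_smul hG
      rw [Finsupp.support_erase, Finset.mem_erase] at h1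
      exact h1
    have hv : ChainWt T (t⁻¹ • w.erase F) := by
      refine ⟨fun G => ?_, ?_, ?_⟩
      · rw [Finsupp.smul_apply, smul_eq_mul]
        exact mul_nonneg (inv_nonneg.2 h0.le) (hnn G)
      · rw [mass_eq, map_smul, ← mass_eq, smul_eq_mul]
        have : ((w.erase F).sum fun _ a => a) = t := by linarith
        rw [this, inv_mul_cancel₀ h0.ne']
      · exact hw.chain.mono fun G hG => (hsupp G hG).2
    obtain ⟨G, hGs, hG⟩ := hv.exists_top
    refine ⟨h0, t⁻¹ • w.erase F, G, hv, ?_, ?_, hv.wpt_mem hT hG, ?_⟩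
    · rw [smul_smul, mul_inv_cancel₀ h0.ne', one_smul, ht, sub_sub_cancel]
      exact hdec
    · exact lt_of_le_of_ne (hF G (hsupp G hGs).2) (hsupp G hGs).1
    · refine Finset.card_lt_card ⟨fun H hH => (hsupp H hH).2, fun hsub => ?_⟩
      exact (hsupp F (hsub hFs)).1 rfl

theorem le_of_repr (hT : IsTiling T) {F F' : cells T} {t : ℝ} {y : Sp d} (ht0 : 0 ≤ t)
    (ht1 : t < 1) (hy : y ∈ F.1) (hx : (1 - t) • bary F.1 + t • y ∈ F'.1) : F ≤ F' := by
  have hP := cell_isPoly hT F.2
  have hb : bary F.1 ∈ F.1 := hP.bary_mem F.2.1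
  have hE : IsExposed ℝ F.1 (F.1 ∩ F'.1) := isExposed_inter_cell hT F.2 F'.2
  have hxF : (1 - t) • bary F.1 + t • y ∈ F.1 :=
    hP.convex hb hy (by linarith) ht0 (by ring)
  have h1 : bary F.1 ∈ F.1 ∩ F'.1 := left_mem_of_isExposed hE hb hy ht0 ht1 ⟨hxF, hx⟩
  have h2 := hP.eq_of_bary_mem F.2.1 hE h1
  show F.1 ⊆ F'.1
  rw [← h2]
  exact inter_subset_right

theorem chainWt_unique (hT : IsTiling T) {w w' : cells T →₀ ℝ} (hw : ChainWt T w)
    (hw' : ChainWt T w') (h : wpt w = wpt w') : w = w' := by
  classical
  suffices H : ∀ (n : ℕ) (w w' : cells T →₀ ℝ), w.support.card = n → ChainWt T w →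
      ChainWt T w' → wpt w = wpt w' → w = w' from H _ w w' rfl hw hw' h
  intro n
  induction n using Nat.strong_induction_on with
  | _ n ih =>
    intro w w' hn hw hw' h
    obtain ⟨F, t, ht0, ht1, hxF, hc⟩ := hw.decomp hT
    obtain ⟨F', t', ht0', ht1', hxF', hc'⟩ := hw'.decomp hT
    have hFF' : F ≤ F' := by
      rcases hc with ⟨h0, h1⟩ | ⟨h0, v, G, hv, h1, hG, hvG, hcard⟩
      · refine le_of_repr hT (t := 0) (y := bary F.1) le_rfl one_pos
          ((cell_isPoly hT F.2).bary_mem F.2.1) ?_
        rw [sub_zero, one_smul, zero_smul, add_zero]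
        rw [← h, h1, wpt_single, one_smul] at hxF'
        exact hxF'
      · refine le_of_repr hT ht0 ht1 (hG.le hvG) ?_
        rw [← wpt_single_add, ← h1, h]
        exact hxF'
    have hF'F : F' ≤ F := by
      rcases hc' with ⟨h0, h1⟩ | ⟨h0, v, G, hv, h1, hG, hvG, hcard⟩
      · refine le_of_repr hT (t := 0) (y := bary F'.1) le_rfl one_pos
          ((cell_isPoly hT F'.2).bary_mem F'.2.1) ?_
        rw [sub_zero, one_smul, zero_smul, add_zero]
        rw [h, h1, wpt_single, one_smul] at hxF
        exact hxF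
      · refine le_of_repr hT ht0' ht1' (hG.le hvG) ?_
        rw [← wpt_single_add, ← h1, ← h]
        exact hxF
    obtain rfl : F = F' := le_antisymm hFF' hF'F
    have hP := cell_isPoly hT F.2
    rcases hc with ⟨h0, h1⟩ | ⟨h0, v, G, hv, h1, hG, hvG, hcard⟩
    · rcases hc' with ⟨h0', h1'⟩ | ⟨h0', v', G', hv', h1', hG', hvG', hcard'⟩
      · rw [h1, h1']
      · exfalso
        have hE := isExposed_of_subset_cell hT G'.2 F.2 hG'.le
        have hne : G'.1 ≠ F.1 := fun e => hG'.ne (Subtype.ext e)
        have := (hP.ray_unique F.2.1 (t := 0) (t' := t') (y := wpt v') (y' := wpt v') le_rfl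
          zero_le_one ht0' ht1'.le hE hne hvG' hE hne hvG' (by
            have e : wpt w' = (1 - t') • bary F.1 + t' • wpt v' := by rw [h1', wpt_single_add]
            rw [← e, ← h, h1, wpt_single]
            simp)).1
        linarith
    · rcases hc' with ⟨h0', h1'⟩ | ⟨h0', v', G', hv', h1', hG', hvG', hcard'⟩
      · exfalso
        have hE := isExposed_of_subset_cell hT G.2 F.2 hG.le
        have hne : G.1 ≠ F.1 := fun e => hG.ne (Subtype.ext e)
        have := (hP.ray_unique F.2.1 (t := 0) (t' := t) (y := wpt v) (y' := wpt v) le_rfl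
          zero_le_one ht0 ht1.le hE hne hvG hE hne hvG (by
            have e : wpt w = (1 - t) • bary F.1 + t • wpt v := by rw [h1, wpt_single_add]
            rw [← e, h, h1', wpt_single]
            simp)).1
        linarith
      · have hE := isExposed_of_subset_cell hT G.2 F.2 hG.le
        have hne : G.1 ≠ F.1 := fun e => hG.ne (Subtype.ext e)
        have hE' := isExposed_of_subset_cell hT G'.2 F.2 hG'.le
        have hne' : G'.1 ≠ F.1 := fun e => hG'.ne (Subtype.ext e)
        obtain ⟨htt, hyy⟩ := hP.ray_unique F.2.1 ht0 ht1.le ht0' ht1'.le hE hne hvG hE' hne' hvG'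
          (by rw [← wpt_single_add, ← wpt_single_add, ← h1, ← h1', h])
        have hvv : v = v' := ih _ (hn ▸ hcard) v v' rfl hv hv' (hyy h0.ne')
        rw [h1, h1', htt, hvv]

end Pool.Agent.CRT
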