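import Pool.Agent.CRT.CxDefs

/-!
# Generic points and countability
-/

namespace Pool.Agent.CRT

open Set MeasureTheory

variable {d : ℕ}

/-- A nonempty open set is not covered by countably many proper affine subspaces. -/
theorem exists_generic {U : Set (Sp d)} (hU : IsOpen U) (hne : U.Nonempty) {ι : Type*}
    [Countable ι] (A : ι → AffineSubspace ℝ (Sp d)) (hA : ∀ i, A i ≠ ⊤) :
    ∃ x ∈ U, ∀ i, x ∉ A i := by
  by_contra hcon
  push Not at hcon
  have h1 : U ⊆ ⋃ i, (A i : Set (Sp d)) := fun x hx => by
    obtain ⟨i, hi⟩ := hcon x hx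
    exact mem_iUnion.2 ⟨i, hi⟩
  have h2 : (volume : Measure (Sp d)) U = 0 := by
    refine measure_mono_null h1 ?_
    rw [measure_iUnion_null_iff]
    intro i
    exact Measure.addHaar_affineSubspace volume (A i) (hA i)
  exact (hU.measure_pos volume hne).ne' h2

/-- The affine span of at most `d` points is proper. -/
theorem affineSpan_ne_top_of_card {ι : Type*} [Fintype ι] (p : ι → Sp d)
    (hcard : Fintype.card ι ≤ d) : affineSpan ℝ (range p) ≠ ⊤ := by
  intro htop
  rcases isEmpty_or_nonempty ι with hι | hι
  · have : range p = ∅ := range_eq_empty p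
    rw [this, AffineSubspace.span_empty] at htop
    exact AffineSubspace.bot_ne_top ℝ (Sp d) (Sp d) htop
  · have h1 : vectorSpan ℝ (range p) = ⊤ := by
      rw [← direction_affineSpan, htop, AffineSubspace.direction_top]
    have h2 : Module.finrank ℝ (vectorSpan ℝ (range p)) ≤ d - 1 := by
      have h3 : Fintype.card ι = (Fintype.card ι - 1) + 1 := by
        have : 0 < Fintype.card ι := Fintype.card_pos
        omega
      exact (finrank_vectorSpan_range_le ℝ p h3).trans (by omega)
    rw [h1, finrank_top] at h2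
    have h4 : Module.finrank ℝ (Sp d) = d := by simp
    have h5 : 0 < Fintype.card ι := Fintype.card_pos
    omega

/-- There are countably many chambers. -/
theorem IsCx.countable_chamber {V : Type*} [PartialOrder V] {b : V → Sp d} (h : IsCx b) :
    Countable (Chamber d V) := by
  have h1 : (Set.univ : Set (Chamber d V)) = ⋃ n : ℕ, {Φ : Chamber d V |
      (convexHull ℝ (Set.range fun i => b (Φ i)) ∩ Metric.closedBall 0 (n : ℝ)).Nonempty} := by
    symm
    rw [eq_univ_iff_forall]
    intro Φ
    obtain ⟨n, hn⟩ := exists_nat_ge ‖b (Φ 0)‖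
    refine mem_iUnion.2 ⟨n, ⟨b (Φ 0), subset_convexHull ℝ _ ⟨0, rfl⟩, ?_⟩⟩
    simpa using hn
  rw [← Set.countable_univ_iff, h1]
  exact countable_iUnion fun n => (h.locFin _ (isCompact_closedBall _ _)).countable

/-! ### Locally constant functions -/

theorem const_of_locally {α Y : Type*} [TopologicalSpace α] {S : Set α} (hS : IsPreconnected S)
    (f : α → Y) (hf : ∀ x ∈ S, ∀ᶠ z in nhdsWithin x S, f z = f x) {x y : α} (hx : x ∈ S)
    (hy : y ∈ S) : f x = f y := by
  let _ : TopologicalSpace Y := ⊥
  have _ : DiscreteTopology Y := ⟨rfl⟩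
  refine hS.constant (f := f) ?_ hx hy
  intro x hx
  unfold ContinuousWithinAt
  rw [nhds_discrete, Filter.tendsto_pure]
  exact hf x hx

end Pool.Agent.CRT
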