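import Pool.Agent.CRT.Sigma
import Pool.Agent.CRT.Generic

/-!
# Module D: strong connectivity

Paper proof of `reach`.  Let `J = Iᶜ` and `x ∈ dom Φ ∩ dom Ψ`: if `J` is empty there is no
condition; otherwise `x = ∑_{j ∈ J} b(Φ_j)/|J|`, which is in both, and the chambers containing `x`
are those agreeing with `Φ` on `J` (`mem_dom_iff`).  Let `S = univ` if `J = ∅`, and `S = ball x r`
with `r` from `exists_ball x` otherwise: all chambers meeting `S` agree with `Φ` on `J`.  `S` is
open and convex, and meets `interior (dom Φ)` and `interior (dom Ψ)` (`x + small * (centroid - x)`).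
Let `y ∈ S ∩ interior (dom Φ)`.  For a chamber `Θ` and two ranks `k ≠ l` let `A(Θ,k,l)` be the
affine span of `y` and the `b(Θ_i)`, `i ≠ k,l`: `d` points, so proper
(`affineSpan_ne_top_of_card`).  Choose (`exists_generic`, `countable_chamber`)
`z ∈ S ∩ interior (dom Ψ)` outside all of these.  Then no point `q` of the segment `[y,z]` has two
vanishing coordinates: if `lam Θ k q = lam Θ l q = 0`, `q ∈ dom Θ`, then `q` is in the span of the
`b(Θ_i)`, `i ≠ k,l`, `q ≠ y` (as `y` has no vanishing coordinate: `co`), so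
`z ∈ line(y,q) ⊆ A(Θ,k,l)`.  So the chambers containing `q ∈ [y,z]` are a single one or
`{Θ, sig k Θ}` with `k ∈ I` (it agrees with `Φ` on `J`, both do; `sig k Θ` differs from `Θ` at `k`).
Hence all chambers containing `q` are in one `Reach I`-class (an equivalence relation since
`sig` is an involution).  If `q'` is close to `q` then all chambers containing `q'` contain `q`
(`exists_ball`).  So the set of `t ∈ [0,1]` such that the chambers containing `(1-t)y + tz` are in
the class of `Φ` is open and closed in `[0,1]` (connectedness) and contains `0`.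
-/

namespace Pool.Agent.CRT

open Set

variable {d : ℕ} {V : Type*} [PartialOrder V] {b : V → Sp d}

/-- Reachability by moves with ranks in `I`. -/
def Reach (I : Set (Fin (d + 1))) (Φ Ψ : Chamber d V) : Prop :=
  Relation.ReflTransGen (fun Φ Ψ : Chamber d V => ∃ i ∈ I, Ψ = sig i Φ) Φ Ψ

theorem IsCx.reach_symm (h : IsCx b) {I : Set (Fin (d + 1))} {Φ Ψ : Chamber d V}
    (hR : Reach I Φ Ψ) : Reach I Ψ Φ := by
  unfold Reach at *
  induction hR with
  | refl => exact Relation.ReflTransGen.refl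
  | tail _ hstep ih =>
    obtain ⟨i, hi, rfl⟩ := hstep
    exact Relation.ReflTransGen.head ⟨i, hi, (h.sig_sig i _).symm⟩ ih

/-- A convex open set on which all chambers agree off `I`, meeting both chambers. -/
theorem IsCx.exists_star_set (h : IsCx b) (I : Set (Fin (d + 1))) {Φ Ψ : Chamber d V}
    (hag : ∀ j, j ∉ I → Φ j = Ψ j) : ∃ S : Set (Sp d), IsOpen S ∧ Convex ℝ S ∧
      (S ∩ interior (h.dom Φ)).Nonempty ∧ (S ∩ interior (h.dom Ψ)).Nonempty ∧
      ∀ Θ : Chamber d V, (h.dom Θ ∩ S).Nonempty → ∀ j, j ∉ I → Φ j = Θ j := by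
  classical
  have hcen : ∀ Θ : Chamber d V, ∃ c : Sp d, ∀ j, h.lam Θ j c = ((d : ℝ) + 1)⁻¹ := by
    intro Θ
    refine ⟨∑ j, ((d : ℝ) + 1)⁻¹ • b (Θ j), fun j => ?_⟩
    rw [h.lam_sum_smul Θ (fun _ => ((d : ℝ) + 1)⁻¹)]
    rw [Finset.sum_const, Finset.card_univ, Fintype.card_fin, nsmul_eq_mul]
    push_cast
    field_simp
  by_cases hJ : ∃ j, j ∉ I
  · let J : Finset (Fin (d + 1)) := Finset.univ.filter fun j => j ∉ I
    have hJpos : 0 < J.card := by
      obtain ⟨j, hj⟩ := hJ
      exact Finset.card_pos.2 ⟨j, Finset.mem_filter.2 ⟨Finset.mem_univ j, hj⟩⟩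
    have hJpos' : (0 : ℝ) < J.card := by exact_mod_cast hJpos
    let w : Fin (d + 1) → ℝ := fun j => if j ∈ J then (J.card : ℝ)⁻¹ else 0
    have hw : ∑ j, w j = 1 := by
      simp only [w]
      rw [Finset.sum_ite_mem, Finset.univ_inter, Finset.sum_const, nsmul_eq_mul]
      field_simp
    let x : Sp d := ∑ j, w j • b (Φ j)
    have hxΘ : ∀ Θ : Chamber d V, (∀ j, j ∉ I → Φ j = Θ j) → ∀ j, h.lam Θ j x = w j := by
      intro Θ hΘ j
      have : x = ∑ j, w j • b (Θ j) := by
        refine Finset.sum_congr rfl fun j _ => ?_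
        by_cases hj : j ∈ J
        · rw [hΘ j (Finset.mem_filter.1 hj).2]
        · simp only [w, if_neg hj, zero_smul]
      rw [this, h.lam_sum_smul Θ w hw]
    obtain ⟨r, hr, hball⟩ := h.exists_ball x
    have hwpos : ∀ j, 0 ≤ w j := fun j => by
      simp only [w]; split_ifs <;> positivity
    have hmeet : ∀ Θ : Chamber d V, (∀ j, j ∉ I → Φ j = Θ j) →
        (Metric.ball x r ∩ interior (h.dom Θ)).Nonempty := by
      intro Θ hΘ
      obtain ⟨c, hc⟩ := hcen Θ
      have hcont : Continuous fun ε : ℝ => (AffineMap.lineMap x c ε : Sp d) :=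
        AffineMap.lineMap_continuous
      have hev : ∀ᶠ ε in nhdsWithin (0 : ℝ) (Ioi 0),
          (AffineMap.lineMap x c ε : Sp d) ∈ Metric.ball x r := by
        have h0 : (AffineMap.lineMap x c (0 : ℝ) : Sp d) ∈ Metric.ball x r := by
          rw [AffineMap.lineMap_apply_zero]; exact Metric.mem_ball_self hr
        exact (hcont.continuousAt.eventually (Metric.isOpen_ball.mem_nhds h0)).filter_mono
          (nhdsWithin_le_nhds (s := Ioi (0 : ℝ)))
      have hev' : ∀ᶠ ε in nhdsWithin (0 : ℝ) (Ioi 0), ε ∈ Ioo (0 : ℝ) 1 :=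
        Ioo_mem_nhdsGT zero_lt_one
      obtain ⟨ε, hε, hε'⟩ := (hev.and hev').exists
      refine ⟨AffineMap.lineMap x c ε, hε, ?_⟩
      rw [h.interior_dom]
      intro j
      rw [h.lam_lineMap, hxΘ Θ hΘ, hc]
      have h1 : 0 ≤ (1 - ε) * w j := mul_nonneg (by linarith [hε'.2]) (hwpos j)
      have h2 : 0 < ε * ((d : ℝ) + 1)⁻¹ := mul_pos hε'.1 (by positivity)
      linarith
    refine ⟨Metric.ball x r, Metric.isOpen_ball, convex_ball x r, hmeet Φ (fun _ _ => rfl),
      hmeet Ψ hag, ?_⟩
    intro Θ hΘ j hj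
    have hxΦ : x ∈ h.dom Φ := fun j => by
      rw [hxΘ Φ (fun _ _ => rfl)]; exact hwpos j
    apply (h.lam_compat hxΦ (hball Θ hΘ) j).2
    rw [hxΘ Φ (fun _ _ => rfl)]
    have : j ∈ J := Finset.mem_filter.2 ⟨Finset.mem_univ j, hj⟩
    simp only [w, if_pos this]
    positivity
  · push Not at hJ
    have hmeet : ∀ Θ : Chamber d V, (univ ∩ interior (h.dom Θ)).Nonempty := by
      intro Θ
      obtain ⟨c, hc⟩ := hcen Θ
      refine ⟨c, trivial, ?_⟩
      rw [h.interior_dom]
      intro j; rw [hc]; positivity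
    exact ⟨univ, isOpen_univ, convex_univ, hmeet Φ, hmeet Ψ, fun Θ _ j hj => absurd (hJ j) hj⟩

/-- index type of the bad subspaces for segments -/
structure SegIdx (d : ℕ) (V : Type*) [PartialOrder V] where
  Θ : Chamber d V
  k : Fin (d + 1)
  l : Fin (d + 1)
  ne : k ≠ l

/-- points spanning a bad subspace -/
noncomputable def segPts (b : V → Sp d) (y : Sp d) (B : SegIdx d V) :
    Option {i : Fin (d + 1) // i ≠ B.k ∧ i ≠ B.l} → Sp d
  | none => y
  | some i => b (B.Θ i.1)

theorem IsCx.reach (h : IsCx b) (I : Set (Fin (d + 1))) {Φ Ψ : Chamber d V}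
    (hag : ∀ j, j ∉ I → Φ j = Ψ j) : Reach I Φ Ψ := by
  classical
  obtain ⟨S, hSo, hSc, ⟨y, hyS, hyΦ⟩, hSΨ, hSag⟩ := h.exists_star_set I hag
  have : Countable (Chamber d V) := h.countable_chamber
  have : Countable (SegIdx d V) := by
    let f : SegIdx d V → Chamber d V × Fin (d + 1) × Fin (d + 1) := fun B => (B.Θ, B.k, B.l)
    have hf : Function.Injective f := by
      rintro ⟨Θ, k, l, hkl⟩ ⟨Θ', k', l', hkl'⟩ he
      simp only [f, Prod.mk.injEq] at he
      obtain ⟨rfl, rfl, rfl⟩ := he
      rfl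
    exact hf.countable
  have hproper : ∀ B : SegIdx d V, affineSpan ℝ (range (segPts b y B)) ≠ ⊤ := by
    intro B
    apply affineSpan_ne_top_of_card
    rw [Fintype.card_option]
    have h2' : ({B.k, B.l} : Finset (Fin (d + 1))).card = 2 := Finset.card_pair B.ne
    have h1 : Fintype.card {i : Fin (d + 1) // i ≠ B.k ∧ i ≠ B.l} = d + 1 - 2 := by
      rw [Fintype.card_subtype]
      have h2 : (Finset.univ.filter fun i : Fin (d + 1) => i ≠ B.k ∧ i ≠ B.l) =
          Finset.univ \ {B.k, B.l} := by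
        ext l; simp
      rw [h2, Finset.card_sdiff_of_subset (Finset.subset_univ _), h2', Finset.card_univ,
        Fintype.card_fin]
    have h4 : 2 ≤ d + 1 := by
      rw [← h2']
      exact (Finset.card_le_univ _).trans (by rw [Fintype.card_fin])
    omega
  obtain ⟨z, ⟨hzS, hzΨ⟩, hzgen⟩ := exists_generic (hSo.inter isOpen_interior) hSΨ
    (fun B : SegIdx d V => affineSpan ℝ (range (segPts b y B))) hproper
  have hyΦ' : y ∈ h.dom Φ := interior_subset hyΦ
  have hypos : ∀ j, 0 < h.lam Φ j y := by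
    rw [h.interior_dom] at hyΦ; exact hyΦ
  -- no point of the segment has two vanishing coordinates
  have hone : ∀ t ∈ Icc (0 : ℝ) 1, ∀ Θ : Chamber d V, (AffineMap.lineMap y z t : Sp d) ∈ h.dom Θ →
      ∀ k l, h.lam Θ k (AffineMap.lineMap y z t) = 0 → h.lam Θ l (AffineMap.lineMap y z t) = 0 →
        k = l := by
    intro t ht Θ hΘ k l hk hl
    by_contra hkl
    by_cases ht0 : t = 0
    · subst ht0
      rw [AffineMap.lineMap_apply_zero] at hΘ hk
      rw [(h.lam_compat hΘ hyΦ' k).1] at hk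
      exact (hypos k).ne' hk
    · let B : SegIdx d V := ⟨Θ, k, l, hkl⟩
      apply hzgen B
      set q : Sp d := AffineMap.lineMap y z t with hq
      have hyB : y ∈ affineSpan ℝ (range (segPts b y B)) := subset_affineSpan ℝ _ ⟨none, rfl⟩
      have hqB : q ∈ affineSpan ℝ (range (segPts b y B)) := by
        have hsub : range (fun i : {i : Fin (d + 1) // i ≠ k ∧ i ≠ l} => b (Θ i.1)) ⊆
            range (segPts b y B) := by
          rintro _ ⟨i, rfl⟩
          exact ⟨some i, rfl⟩
        apply affineSpan_mono ℝ hsub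
        have hzero : ∀ i : Fin (d + 1), h.lam Θ i q ≠ 0 → i ≠ k ∧ i ≠ l := by
          intro i hi
          refine ⟨?_, ?_⟩ <;> rintro rfl
          · exact hi hk
          · exact hi hl
        have hs1 : ∑ i : {i : Fin (d + 1) // i ≠ k ∧ i ≠ l}, h.lam Θ i.1 q = 1 := by
          rw [← Finset.sum_subtype (Finset.univ.filter fun i : Fin (d + 1) => i ≠ k ∧ i ≠ l)
            (by simp) (fun i => h.lam Θ i q), Finset.sum_filter_of_ne (fun i _ hi => hzero i hi)]
          exact h.sum_lam Θ q
        have hs2 : ∑ i : {i : Fin (d + 1) // i ≠ k ∧ i ≠ l}, h.lam Θ i.1 q • b (Θ i.1) = q := by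
          rw [← Finset.sum_subtype (Finset.univ.filter fun i : Fin (d + 1) => i ≠ k ∧ i ≠ l)
            (by simp) (fun i => h.lam Θ i q • b (Θ i)),
            Finset.sum_filter_of_ne (fun i _ hi => hzero i (fun h0 => hi (by rw [h0, zero_smul])))]
          exact h.sum_lam_smul Θ q
        have h3 := affineCombination_mem_affineSpan (s := (Finset.univ :
          Finset {i : Fin (d + 1) // i ≠ k ∧ i ≠ l}))
          (w := fun i => h.lam Θ i.1 q) hs1 (fun i => b (Θ i.1))
        rw [Finset.affineCombination_eq_linear_combination _ _ _ hs1, hs2] at h3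
        exact h3
      have hkey : (AffineMap.lineMap y q (1 / t) : Sp d) = z := by
        rw [hq]
        simp only [AffineMap.lineMap_apply_module]
        have e1 : (1 - 1 / t) + (1 / t) * (1 - t) = 0 := by field_simp; ring
        have e2 : (1 / t) * t = 1 := by field_simp
        rw [smul_add, smul_smul, smul_smul, e2, one_smul, ← add_assoc, ← add_smul, e1, zero_smul,
          zero_add]
      rw [← hkey]
      exact AffineMap.lineMap_mem _ hyB hqB
  have hsegS : ∀ t ∈ Icc (0 : ℝ) 1, (AffineMap.lineMap y z t : Sp d) ∈ S := by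
    intro t ht
    apply hSc.segment_subset hyS hzS
    rw [segment_eq_image_lineMap]; exact ⟨t, ht, rfl⟩
  -- chambers at a point of the segment are in one class
  have hclass : ∀ t ∈ Icc (0 : ℝ) 1, ∀ Θ Θ' : Chamber d V,
      (AffineMap.lineMap y z t : Sp d) ∈ h.dom Θ → (AffineMap.lineMap y z t : Sp d) ∈ h.dom Θ' →
      Reach I Θ Θ' := by
    intro t ht Θ Θ' hΘ hΘ'
    by_cases hvan : ∃ k, h.lam Θ k (AffineMap.lineMap y z t) = 0
    · obtain ⟨k, hk⟩ := hvan
      have hagk : ∀ j, j ≠ k → Θ j = Θ' j := by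
        intro j hj
        apply (h.lam_compat hΘ hΘ' j).2
        intro h0
        exact hj (hone t ht Θ hΘ j k h0 hk)
      rcases h.eq_or_eq_sig hagk with he | he
      · rw [he]; exact Relation.ReflTransGen.refl
      · by_cases hkI : k ∈ I
        · exact Relation.ReflTransGen.single ⟨k, hkI, he⟩
        · exfalso
          have h1 := hSag Θ ⟨_, hΘ, hsegS t ht⟩ k hkI
          have h2 := hSag Θ' ⟨_, hΘ', hsegS t ht⟩ k hkI
          apply h.sig_apply_self_ne k Θ
          rw [← he, ← h2, h1]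
    · push Not at hvan
      have : Θ = Θ' := Chamber.ext fun j => (h.lam_compat hΘ hΘ' j).2 (hvan j)
      rw [this]; exact Relation.ReflTransGen.refl
  let c : Sp d → Chamber d V := fun q => (h.exists_mem_dom q).choose
  have hc : ∀ q, q ∈ h.dom (c q) := fun q => (h.exists_mem_dom q).choose_spec
  have hconst := const_of_locally (isPreconnected_Icc (a := (0 : ℝ)) (b := 1))
    (fun t : ℝ => Reach I Φ (c (AffineMap.lineMap y z t))) (fun t ht => by
      obtain ⟨r, hr, hball⟩ := h.exists_ball (AffineMap.lineMap y z t)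
      have hcont : Continuous fun t : ℝ => (AffineMap.lineMap y z t : Sp d) :=
        AffineMap.lineMap_continuous
      have hev : ∀ᶠ t' in nhdsWithin t (Icc (0 : ℝ) 1),
          (AffineMap.lineMap y z t' : Sp d) ∈ Metric.ball (AffineMap.lineMap y z t) r :=
        (hcont.continuousAt.eventually (Metric.ball_mem_nhds _ hr)).filter_mono
          nhdsWithin_le_nhds
      filter_upwards [hev] with t' ht'
      have h1 : (AffineMap.lineMap y z t : Sp d) ∈ h.dom (c (AffineMap.lineMap y z t')) :=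
        hball _ ⟨_, hc _, ht'⟩
      have h2 := hclass t ht _ _ (hc _) h1
      apply propext
      constructor
      · intro h3; exact h3.trans (h.reach_symm h2)
      · intro h3; exact h3.trans h2)
    (x := 0) (y := 1) ⟨le_rfl, zero_le_one⟩ ⟨zero_le_one, le_rfl⟩
  have h0 : Reach I Φ (c (AffineMap.lineMap y z (0 : ℝ))) :=
    hclass 0 ⟨le_rfl, zero_le_one⟩ _ _ (by rw [AffineMap.lineMap_apply_zero]; exact hyΦ') (hc _)
  have h1 : Reach I Φ (c (AffineMap.lineMap y z (1 : ℝ))) := by
    have hconst' : Reach I Φ (c (AffineMap.lineMap y z (0 : ℝ))) =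
      Reach I Φ (c (AffineMap.lineMap y z (1 : ℝ))) := hconst
    rw [← hconst']; exact h0
  exact h1.trans (hclass 1 ⟨zero_le_one, le_rfl⟩ _ _ (hc _)
    (by rw [AffineMap.lineMap_apply_one]; exact interior_subset hzΨ))

theorem IsCx.reach_univ (h : IsCx b) (Φ Ψ : Chamber d V) : Reach univ Φ Ψ :=
  h.reach univ (fun j hj => absurd (mem_univ j) hj)

theorem IsCx.reach_of_mem_dom (h : IsCx b) {x : Sp d} {Φ Ψ : Chamber d V} (hx : x ∈ h.dom Φ)
    (hx' : x ∈ h.dom Ψ) : Reach {i | h.co i x = 0} Φ Ψ := by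
  apply h.reach
  intro j hj
  apply (h.lam_compat hx hx' j).2
  rw [← h.co_eq hx j]
  exact hj

end Pool.Agent.CRT
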