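import Pool.Agent.CRT.Defs

/-!
# Coxeter groups: notation and the Coxeter bilinear form
-/

namespace Pool.Agent.CRT

open Set

variable {B : Type*}

/-- simple reflections -/
abbrev sm (M : CoxeterMatrix B) (i : B) : M.Group := M.toCoxeterSystem.simple i

/-- word length -/
noncomputable abbrev len (M : CoxeterMatrix B) (w : M.Group) : ℕ := M.toCoxeterSystem.length w

/-- parabolic subgroups -/
def par (M : CoxeterMatrix B) (J : Set B) : Subgroup M.Group := Subgroup.closure (sm M '' J)

/-- Polynomial growth of degree `≤ d` of the Coxeter group (with respect to word length). -/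
def PolyGrowth (d : ℕ) (M : CoxeterMatrix B) : Prop :=
  ∃ C : ℝ, ∀ (n : ℕ) (S : Finset M.Group), (∀ w ∈ S, len M w ≤ n) →
    (S.card : ℝ) ≤ C * ((n : ℝ) + 1) ^ d

/-- The matrix of the Coxeter form. -/
noncomputable def cosM (M : CoxeterMatrix B) (i j : B) : ℝ :=
  if M i j = 0 then -1 else -Real.cos (Real.pi / M i j)

theorem cosM_self (M : CoxeterMatrix B) (i : B) : cosM M i i = 1 := by
  simp [cosM]

theorem cosM_symm (M : CoxeterMatrix B) (i j : B) : cosM M i j = cosM M j i := by
  simp only [cosM, M.symmetric i j]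

theorem cosM_eq_zero {M : CoxeterMatrix B} {i j : B} (hM : M i j = 2) : cosM M i j = 0 := by
  simp [cosM, hM]

theorem cosM_neg {M : CoxeterMatrix B} {i j : B} (hij : i ≠ j) (hM : M i j ≠ 2) :
    cosM M i j < 0 := by
  unfold cosM
  split_ifs with h0
  · norm_num
  · have h1 : M i j ≠ 1 := M.off_diagonal i j hij
    have h3 : 3 ≤ M i j := by omega
    have h3' : (3 : ℝ) ≤ M i j := by exact_mod_cast h3
    have hpos : 0 < Real.cos (Real.pi / M i j) := by
      apply Real.cos_pos_of_mem_Ioo
      constructor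
      · have : 0 ≤ Real.pi / M i j := by positivity
        linarith [Real.pi_pos]
      · have : Real.pi / M i j ≤ Real.pi / 3 := by
          apply div_le_div_of_nonneg_left Real.pi_pos.le (by norm_num) h3'
        linarith [Real.pi_pos]
    linarith

theorem cosM_nonpos {M : CoxeterMatrix B} {i j : B} (hij : i ≠ j) : cosM M i j ≤ 0 := by
  by_cases hM : M i j = 2
  · rw [cosM_eq_zero hM]
  · exact (cosM_neg hij hM).le

variable [Fintype B] [DecidableEq B]

/-- The simple root `e_i`. -/
def ee (i : B) : B → ℝ := Pi.single i 1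

omit [Fintype B] in
theorem ee_self (i : B) : (ee i : B → ℝ) i = 1 := by simp [ee]

omit [Fintype B] in
theorem ee_ne {i j : B} (hij : j ≠ i) : (ee i : B → ℝ) j = 0 := by simp [ee, hij]

theorem sum_smul_ee (v : B → ℝ) : ∑ i, v i • (ee i : B → ℝ) = v := by
  funext k
  simp [ee, Finset.sum_apply, Pi.single_apply]

/-- The Coxeter bilinear form on `ℝ^B`. -/
noncomputable def bil (M : CoxeterMatrix B) : LinearMap.BilinForm ℝ (B → ℝ) :=
  Matrix.toBilin' (Matrix.of (cosM M))

theorem bil_apply (M : CoxeterMatrix B) (u v : B → ℝ) :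
    bil M u v = ∑ i, ∑ j, u i * cosM M i j * v j := by
  unfold bil
  rw [Matrix.toBilin'_apply]
  rfl

theorem bil_ee (M : CoxeterMatrix B) (i j : B) : bil M (ee i) (ee j) = cosM M i j := by
  unfold bil ee
  rw [Matrix.toBilin'_single]
  rfl

theorem bil_ee_left (M : CoxeterMatrix B) (i : B) (v : B → ℝ) :
    bil M (ee i) v = ∑ j, cosM M i j * v j := by
  rw [bil_apply, Finset.sum_eq_single i]
  · simp [ee_self]
  · intro k _ hk
    simp [ee_ne hk]
  · simp

theorem bil_symm (M : CoxeterMatrix B) (u v : B → ℝ) : bil M u v = bil M v u := by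
  rw [bil_apply, bil_apply, Finset.sum_comm]
  refine Finset.sum_congr rfl fun i _ => Finset.sum_congr rfl fun j _ => ?_
  rw [cosM_symm M j i]; ring

end Pool.Agent.CRT
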