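import Pool.Agent.CRT.Defs

/-!
# The abstract barycentric complex interface

`V` is the poset of cells, `b : V → 𝔼^d` gives the barycentre of each cell; chambers (flags) are the
strictly monotone maps `Fin (d+1) → V`.  `IsCx b` says that the simplices spanned by the chambers
form a locally finite simplicial decomposition of `𝔼^d`.
-/

namespace Pool.Agent.CRT

open Set

/-- Chambers (= flags of cells). -/
def Chamber (d : ℕ) (V : Type*) [PartialOrder V] : Type _ :=
  {Φ : Fin (d + 1) → V // StrictMono Φ}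

instance {d : ℕ} {V : Type*} [PartialOrder V] :
    CoeFun (Chamber d V) (fun _ => Fin (d + 1) → V) := ⟨Subtype.val⟩

theorem Chamber.ext {d : ℕ} {V : Type*} [PartialOrder V] {Φ Ψ : Chamber d V}
    (h : ∀ i, Φ i = Ψ i) : Φ = Ψ := Subtype.ext (funext h)

/-- `i`-adjacent chambers: they differ exactly at rank `i`. -/
def Adj {d : ℕ} {V : Type*} [PartialOrder V] (i : Fin (d + 1)) (Φ Ψ : Chamber d V) : Prop :=
  Φ ≠ Ψ ∧ ∀ j, j ≠ i → Φ j = Ψ j

/-- The chosen `i`-adjacent chamber. -/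
noncomputable def sig {d : ℕ} {V : Type*} [PartialOrder V] (i : Fin (d + 1)) (Φ : Chamber d V) :
    Chamber d V := by
  classical
  exact if H : ∃ Ψ, Adj i Φ Ψ then H.choose else Φ

/-- The interface. -/
structure IsCx {d : ℕ} {V : Type*} [PartialOrder V] (b : V → Sp d) : Prop where
  pos : 0 < d
  indep : ∀ Φ : Chamber d V, AffineIndependent ℝ (fun i => b (Φ i))
  cover : ∀ x : Sp d, ∃ Φ : Chamber d V, x ∈ convexHull ℝ (Set.range fun i => b (Φ i))
  compat : ∀ (Φ Ψ : Chamber d V) (w w' : Fin (d + 1) → ℝ), (∀ i, 0 ≤ w i) → (∀ i, 0 ≤ w' i) →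
    ∑ i, w i = 1 → ∑ i, w' i = 1 → ∑ i, w i • b (Φ i) = ∑ i, w' i • b (Ψ i) →
    ∀ i, w i = w' i ∧ (w i ≠ 0 → Φ i = Ψ i)
  locFin : ∀ K : Set (Sp d), IsCompact K →
    {Φ : Chamber d V | (convexHull ℝ (Set.range fun i => b (Φ i)) ∩ K).Nonempty}.Finite
  ext : ∀ F G : V, F ≤ G → ∃ Φ : Chamber d V, (∃ i, Φ i = F) ∧ ∃ j, Φ j = G

namespace IsCx

variable {d : ℕ} {V : Type*} [PartialOrder V] {b : V → Sp d} (h : IsCx b)

/-- The affine basis given by a chamber. -/
noncomputable def bas (Φ : Chamber d V) : AffineBasis (Fin (d + 1)) ℝ (Sp d) :=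
  ⟨fun i => b (Φ i), h.indep Φ, by
    rw [(h.indep Φ).affineSpan_eq_top_iff_card_eq_finrank_add_one]
    simp⟩

@[simp] theorem bas_apply (Φ : Chamber d V) (i : Fin (d + 1)) : h.bas Φ i = b (Φ i) := rfl

/-- The barycentric coordinates of `x` with respect to the chamber `Φ`. -/
noncomputable def lam (Φ : Chamber d V) (i : Fin (d + 1)) (x : Sp d) : ℝ := (h.bas Φ).coord i x

/-- The closed simplex of the chamber `Φ`. -/
def dom (Φ : Chamber d V) : Set (Sp d) := {x | ∀ i, 0 ≤ h.lam Φ i x}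

theorem dom_eq (Φ : Chamber d V) : h.dom Φ = convexHull ℝ (Set.range fun i => b (Φ i)) := by
  have := (h.bas Φ).convexHull_eq_nonneg_coord
  exact this.symm

theorem sum_lam (Φ : Chamber d V) (x : Sp d) : ∑ i, h.lam Φ i x = 1 :=
  (h.bas Φ).sum_coord_apply_eq_one x

theorem sum_lam_smul (Φ : Chamber d V) (x : Sp d) : ∑ i, h.lam Φ i x • b (Φ i) = x :=
  (h.bas Φ).linear_combination_coord_eq_self x

theorem lam_sum_smul (Φ : Chamber d V) (w : Fin (d + 1) → ℝ) (hw : ∑ i, w i = 1)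
    (i : Fin (d + 1)) : h.lam Φ i (∑ j, w j • b (Φ j)) = w i := by
  have h1 : (∑ j, w j • b (Φ j)) = Finset.univ.affineCombination ℝ (h.bas Φ) w := by
    rw [Finset.affineCombination_eq_linear_combination _ _ _ hw]
    rfl
  rw [h1]
  exact (h.bas Φ).coord_apply_combination_of_mem (Finset.mem_univ i) hw

theorem lam_vertex (Φ : Chamber d V) (i j : Fin (d + 1)) :
    h.lam Φ i (b (Φ j)) = if i = j then 1 else 0 :=
  (h.bas Φ).coord_apply i j

theorem continuous_lam (Φ : Chamber d V) (i : Fin (d + 1)) : Continuous (h.lam Φ i) :=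
  continuous_barycentric_coord (h.bas Φ) i

/-- `lam` is affine. -/
theorem lam_lineMap (Φ : Chamber d V) (i : Fin (d + 1)) (x y : Sp d) (t : ℝ) :
    h.lam Φ i (AffineMap.lineMap x y t) = (1 - t) * h.lam Φ i x + t * h.lam Φ i y := by
  unfold lam
  rw [AffineMap.apply_lineMap, AffineMap.lineMap_apply_ring]

theorem lam_combo (Φ : Chamber d V) (i : Fin (d + 1)) (x y : Sp d) (s t : ℝ) (hst : s + t = 1) :
    h.lam Φ i (s • x + t • y) = s * h.lam Φ i x + t * h.lam Φ i y := by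
  have : s • x + t • y = AffineMap.lineMap x y t := by
    rw [AffineMap.lineMap_apply_module]
    congr 2
    linarith
  rw [this, h.lam_lineMap]
  congr 2
  linarith

theorem isClosed_dom (Φ : Chamber d V) : IsClosed (h.dom Φ) := by
  have : h.dom Φ = ⋂ i, {x | 0 ≤ h.lam Φ i x} := by
    ext x; simp [dom]
  rw [this]
  exact isClosed_iInter fun i => isClosed_le continuous_const (h.continuous_lam Φ i)

theorem convex_dom (Φ : Chamber d V) : Convex ℝ (h.dom Φ) := by
  rw [h.dom_eq]; exact convex_convexHull _ _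

theorem isCompact_dom (Φ : Chamber d V) : IsCompact (h.dom Φ) := by
  rw [h.dom_eq]
  exact (Set.finite_range _).isCompact_convexHull ℝ

theorem interior_dom (Φ : Chamber d V) : interior (h.dom Φ) = {x | ∀ i, 0 < h.lam Φ i x} := by
  rw [h.dom_eq]
  exact (h.bas Φ).interior_convexHull

theorem exists_mem_dom (x : Sp d) : ∃ Φ, x ∈ h.dom Φ := by
  obtain ⟨Φ, hΦ⟩ := h.cover x
  exact ⟨Φ, by rw [h.dom_eq]; exact hΦ⟩

/-- Points in two simplices have the same coordinates, and the same vertices where these do not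
vanish. -/
theorem lam_compat {Φ Ψ : Chamber d V} {x : Sp d} (hx : x ∈ h.dom Φ) (hx' : x ∈ h.dom Ψ)
    (i : Fin (d + 1)) : h.lam Φ i x = h.lam Ψ i x ∧ (h.lam Φ i x ≠ 0 → Φ i = Ψ i) :=
  h.compat Φ Ψ (fun i => h.lam Φ i x) (fun i => h.lam Ψ i x) hx hx' (h.sum_lam Φ x)
    (h.sum_lam Ψ x) (by rw [h.sum_lam_smul, h.sum_lam_smul]) i

/-- If `Ψ` agrees with `Φ` where the coordinates of `x ∈ dom Φ` do not vanish, then
`x ∈ dom Ψ`. -/
theorem mem_dom_of_agree {Φ Ψ : Chamber d V} {x : Sp d} (hx : x ∈ h.dom Φ)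
    (hag : ∀ i, h.lam Φ i x ≠ 0 → Φ i = Ψ i) : x ∈ h.dom Ψ := by
  have h1 : x = ∑ j, h.lam Φ j x • b (Ψ j) := by
    conv_lhs => rw [← h.sum_lam_smul Φ x]
    refine Finset.sum_congr rfl fun j _ => ?_
    by_cases hj : h.lam Φ j x = 0
    · simp [hj]
    · rw [hag j hj]
  intro i
  rw [h1, h.lam_sum_smul Ψ _ (h.sum_lam Φ x)]
  exact hx i

/-- The chambers containing `x ∈ dom Φ` are those agreeing with `Φ` on the support of `x`. -/
theorem mem_dom_iff {Φ Ψ : Chamber d V} {x : Sp d} (hx : x ∈ h.dom Φ) :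
    x ∈ h.dom Ψ ↔ ∀ i, h.lam Φ i x ≠ 0 → Φ i = Ψ i :=
  ⟨fun hx' i => (h.lam_compat hx hx' i).2, h.mem_dom_of_agree hx⟩

include h in
/-- The rank of a cell is well-defined. -/
theorem rank_unique {Φ Ψ : Chamber d V} {i j : Fin (d + 1)} (hij : Φ i = Ψ j) : i = j := by
  classical
  have h1 : b (Φ i) ∈ h.dom Φ := by
    intro k; rw [h.lam_vertex]; split_ifs <;> norm_num
  have h2 : b (Φ i) ∈ h.dom Ψ := by
    rw [hij]; intro k; rw [h.lam_vertex]; split_ifs <;> norm_num
  have h3 := (h.lam_compat h1 h2 i).1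
  rw [h.lam_vertex, hij, h.lam_vertex] at h3
  by_contra hne
  simp [hne] at h3

/-- Local finiteness, local form: near `x` there are only simplices containing `x`. -/
theorem exists_ball (x : Sp d) : ∃ r > 0, ∀ Ψ : Chamber d V,
    (h.dom Ψ ∩ Metric.ball x r).Nonempty → x ∈ h.dom Ψ := by
  have hfin := h.locFin (Metric.closedBall x 1) (isCompact_closedBall x 1)
  have hcl : IsClosed (⋃ Ψ ∈ {Φ : Chamber d V | (convexHull ℝ (Set.range fun i => b (Φ i)) ∩
      Metric.closedBall x 1).Nonempty ∧ x ∉ h.dom Φ}, h.dom Ψ) := by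
    refine Set.Finite.isClosed_biUnion (hfin.subset fun Φ hΦ => hΦ.1) fun Φ _ => h.isClosed_dom Φ
  have hx : x ∉ (⋃ Ψ ∈ {Φ : Chamber d V | (convexHull ℝ (Set.range fun i => b (Φ i)) ∩
      Metric.closedBall x 1).Nonempty ∧ x ∉ h.dom Φ}, h.dom Ψ) := by
    simp only [Set.mem_iUnion, not_exists]
    intro Φ hΦ hx
    exact hΦ.2 hx
  obtain ⟨r, hr, hball⟩ := Metric.isOpen_iff.1 hcl.isOpen_compl x hx
  refine ⟨min r 1, lt_min hr one_pos, fun Ψ hΨ => ?_⟩
  obtain ⟨y, hy, hy'⟩ := hΨ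
  by_contra hxΨ
  have hyr : y ∈ Metric.ball x r := Metric.ball_subset_ball (min_le_left _ _) hy'
  have hy1 : y ∈ Metric.closedBall x 1 :=
    Metric.ball_subset_closedBall (Metric.ball_subset_ball (min_le_right _ _) hy')
  have := hball hyr
  apply this
  simp only [Set.mem_iUnion]
  refine ⟨Ψ, ⟨⟨y, ?_, hy1⟩, hxΨ⟩, hy⟩
  rw [← h.dom_eq]; exact hy

/-- A type-independent version of the coordinates (well-defined by `lam_compat`). -/
noncomputable def co (i : Fin (d + 1)) (x : Sp d) : ℝ := h.lam (h.exists_mem_dom x).choose i x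

theorem co_eq {Φ : Chamber d V} {x : Sp d} (hx : x ∈ h.dom Φ) (i : Fin (d + 1)) :
    h.co i x = h.lam Φ i x :=
  (h.lam_compat (h.exists_mem_dom x).choose_spec hx i).1

end IsCx

end Pool.Agent.CRT
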