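import Mathlib

/-!
# Combinatorially regular normal tilings (MP_c8d3bb_co): statement-level definitions
-/

namespace Pool.Agent.CRT

/-- Euclidean `d`-space. -/
abbrev Sp (d : ℕ) : Type := EuclideanSpace ℝ (Fin d)

/-- A convex `d`-polytope in `𝔼^d`: the convex hull of a finite set, with nonempty interior. -/
def IsTile {d : ℕ} (P : Set (Sp d)) : Prop :=
  (∃ s : Finset (Sp d), P = convexHull ℝ (s : Set (Sp d))) ∧ (interior P).Nonempty

/-- LFC tilings of `𝔼^d`: a family of convex `d`-polytopes covering `𝔼^d`, with pairwise disjoint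
interiors, face-to-face (the intersection of two tiles is empty or a face of each; `IsExposed`
holds for the empty set) and locally finite. -/
structure IsTiling {d : ℕ} (T : Set (Set (Sp d))) : Prop where
  tile : ∀ P ∈ T, IsTile P
  cover : ⋃₀ T = Set.univ
  disj : ∀ P ∈ T, ∀ Q ∈ T, P ≠ Q → Disjoint (interior P) (interior Q)
  faceToFace : ∀ P ∈ T, ∀ Q ∈ T, IsExposed ℝ P (P ∩ Q)
  locallyFinite : ∀ K : Set (Sp d), IsCompact K → {P ∈ T | (P ∩ K).Nonempty}.Finite

/-- The face poset of a tiling: the empty set, the whole space and all faces of all tiles, ordered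
by inclusion. -/
def faces {d : ℕ} (T : Set (Set (Sp d))) : Set (Set (Sp d)) :=
  {F | F = ∅ ∨ F = Set.univ ∨ ∃ P ∈ T, IsExposed ℝ P F}

/-- A flag: a maximal chain in the face poset. -/
def IsFlag {d : ℕ} {T : Set (Set (Sp d))} (c : Set (faces T)) : Prop :=
  IsMaxChain (· ≤ ·) c

/-- The automorphism group of the face poset is transitive on flags. -/
def CombRegular {d : ℕ} (T : Set (Set (Sp d))) : Prop :=
  ∀ c c' : Set (faces T), IsFlag c → IsFlag c' → ∃ e : faces T ≃o faces T, e '' c = c'

/-- The symmetry group of the tiling (isometries of `𝔼^d` mapping the tiling to itself) is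
transitive on flags. -/
def Regular {d : ℕ} (T : Set (Set (Sp d))) : Prop :=
  ∀ c c' : Set (faces T), IsFlag c → IsFlag c' →
    ∃ g : Sp d ≃ᵢ Sp d, (fun P => g '' P) '' T = T ∧
      (fun F : Set (Sp d) => g '' F) '' (Subtype.val '' c) = Subtype.val '' c'

/-- Normal tilings: all tiles contain a ball of radius `r` and lie in a ball of radius `R`. -/
def Normal {d : ℕ} (T : Set (Set (Sp d))) : Prop :=
  ∃ r R : ℝ, 0 < r ∧ 0 < R ∧ ∀ P ∈ T,
    (∃ x, Metric.ball x r ⊆ P) ∧ (∃ y, P ⊆ Metric.ball y R)

end Pool.Agent.CRT
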