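import Pool.Agent.CRT.Tits

/-!
# Module M1: a Coxeter group with nondegenerate form and bounded root products is finite

Paper proof.  Suppose `B` is nondegenerate and `|B(e_i, w e_j)| ≤ 1` for all `w, i, j`.  By
nondegeneracy `v ↦ (B(e_i, v))_i` is a linear isomorphism of `ℝ^B`, so all vectors `w e_j` lie in
a fixed bounded set; hence there is `R` with `‖w v‖ ≤ R ‖v‖` for all `w, v` (sup norm, expand in
the `e_j`).  If `w ≠ w'`, put `u = w⁻¹ w' ≠ 1`; there is a right descent `j` of `u`, and then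
`(u e_j)_j ≤ 0` by `tits_neg`, so `1 ≤ ‖u e_j - e_j‖ = ‖w⁻¹ (w' e_j - w e_j)‖ ≤ R ‖w' e_j - w e_j‖`.
So the map `w ↦ (w e_j)_j ∈ (ℝ^B)^B` is injective with `1/R`-separated image in a bounded set of a
finite-dimensional space; such a set is finite.
-/

namespace Pool.Agent.CRT

open Set

variable {B : Type*} [Fintype B] [DecidableEq B]

omit [DecidableEq B] in
/-- A map with uniformly separated values in a bounded set of a finite-dimensional space has
finite domain. -/
theorem finite_of_separated {α E : Type*} [NormedAddCommGroup E] [NormedSpace ℝ E]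
    [FiniteDimensional ℝ E] (f : α → E) (K ε : ℝ) (hε : 0 < ε) (hK : ∀ a, ‖f a‖ ≤ K)
    (hsep : ∀ a b, a ≠ b → ε ≤ dist (f a) (f b)) : Finite α := by
  have : ProperSpace E := FiniteDimensional.proper ℝ E
  have hc : IsCompact (Metric.closedBall (0 : E) K) := isCompact_closedBall 0 K
  obtain ⟨t, ht, hcov⟩ := Metric.totallyBounded_iff.1 hc.totallyBounded (ε / 2) (by positivity)
  have hex : ∀ a, ∃ y : t, dist (f a) y.1 < ε / 2 := by
    intro a
    have h1 : f a ∈ Metric.closedBall (0 : E) K := by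
      rw [mem_closedBall_zero_iff]
      exact hK a
    have h2 := hcov h1
    simp only [mem_iUnion, Metric.mem_ball] at h2
    obtain ⟨y, hy, hd⟩ := h2
    exact ⟨⟨y, hy⟩, hd⟩
  choose g hg using hex
  have : Finite t := ht.to_subtype
  refine Finite.of_injective g ?_
  intro a b hab
  by_contra hne
  have h1 := hsep a b hne
  have h2 := hg a
  have h3 := hg b
  rw [hab] at h2
  have h4 := dist_triangle_right (f a) (f b) (g b).1
  linarith

theorem finite_of_bounded (M : CoxeterMatrix B)
    (hnd : ∀ δ : B → ℝ, (∀ v, bil M δ v = 0) → δ = 0)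
    (hbd : ∀ (w : M.Group) (i j : B), |bil M (ee i) (gr M w (ee j))| ≤ 1) :
    Finite M.Group := by
  classical
  -- the linear map `v ↦ (B(e_i, v))_i`
  let L : (B → ℝ) →ₗ[ℝ] (B → ℝ) := LinearMap.pi (fun i => bil M (ee i))
  have hL : ∀ v i, L v i = bil M (ee i) v := fun v i => rfl
  have hker : LinearMap.ker L = ⊥ := by
    rw [LinearMap.ker_eq_bot']
    intro v hv
    apply hnd
    intro u
    rw [bil_symm]
    rw [← sum_smul_ee u]
    rw [map_sum, LinearMap.sum_apply]
    refine Finset.sum_eq_zero ?_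
    intro i _
    rw [map_smul, LinearMap.smul_apply, ← hL v i, hv]
    simp
  obtain ⟨K, hK0, hK⟩ := L.exists_antilipschitzWith hker
  have hbound : ∀ (w : M.Group) (j : B), ‖gr M w (ee j)‖ ≤ K := by
    intro w j
    have h1 := hK.le_mul_dist (gr M w (ee j)) 0
    rw [map_zero, dist_zero_right, dist_zero_right] at h1
    have h2 : ‖L (gr M w (ee j))‖ ≤ 1 := by
      rw [pi_norm_le_iff_of_nonneg zero_le_one]
      intro i
      rw [hL, Real.norm_eq_abs]
      exact hbd w i j
    calc ‖gr M w (ee j)‖ ≤ K * ‖L (gr M w (ee j))‖ := h1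
      _ ≤ K * 1 := by gcongr
      _ = K := mul_one _
  set R : ℝ := Fintype.card B * K + 1 with hR
  have hRpos : 0 < R := by positivity
  have hop : ∀ (w : M.Group) (v : B → ℝ), ‖gr M w v‖ ≤ R * ‖v‖ := by
    intro w v
    have h1 : gr M w v = ∑ j, v j • gr M w (ee j) := by
      conv_lhs => rw [← sum_smul_ee v]
      rw [map_sum]
      exact Finset.sum_congr rfl fun j _ => map_smul _ _ _
    rw [h1]
    calc ‖∑ j, v j • gr M w (ee j)‖ ≤ ∑ j, ‖v j • gr M w (ee j)‖ := norm_sum_le _ _
      _ ≤ ∑ _j : B, ‖v‖ * K := by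
          refine Finset.sum_le_sum fun j _ => ?_
          rw [norm_smul]
          exact mul_le_mul (norm_le_pi_norm v j) (hbound w j) (norm_nonneg _) (norm_nonneg _)
      _ = Fintype.card B * K * ‖v‖ := by
          rw [Finset.sum_const, Finset.card_univ, nsmul_eq_mul]
          ring
      _ ≤ R * ‖v‖ := by
          rw [hR]
          nlinarith [norm_nonneg v]
  refine finite_of_separated (fun w : M.Group => fun j : B => gr M w (ee j)) K (1 / R)
    (by positivity) ?_ ?_
  · intro w
    rw [pi_norm_le_iff_of_nonneg K.coe_nonneg]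
    intro j
    exact hbound w j
  · intro w w' hne
    have hu : w⁻¹ * w' ≠ 1 := by
      intro h
      exact hne (inv_mul_eq_one.1 h)
    obtain ⟨j, hj⟩ := M.toCoxeterSystem.exists_rightDescent_of_ne_one hu
    have h1 := tits_neg M (w⁻¹ * w') j hj j
    have h2 : 1 ≤ ‖gr M (w⁻¹ * w') (ee j) - ee j‖ := by
      have h3 := norm_le_pi_norm (gr M (w⁻¹ * w') (ee j) - ee j) j
      rw [Pi.sub_apply, ee_self, Real.norm_eq_abs] at h3
      have h4 := neg_abs_le (gr M (w⁻¹ * w') (ee j) j - 1)
      linarith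
    have h3 : gr M (w⁻¹ * w') (ee j) - ee j =
        gr M w⁻¹ (gr M w' (ee j) - gr M w (ee j)) := by
      rw [map_sub, ← gr_mul_apply, ← gr_mul_apply, inv_mul_cancel, gr_one_apply]
    rw [h3] at h2
    have h4 := hop w⁻¹ (gr M w' (ee j) - gr M w (ee j))
    have h5 : ‖gr M w' (ee j) - gr M w (ee j)‖ ≤
        dist (fun j : B => gr M w (ee j)) (fun j : B => gr M w' (ee j)) := by
      rw [← dist_eq_norm, dist_comm]
      exact dist_le_pi_dist (fun j : B => gr M w (ee j)) (fun j : B => gr M w' (ee j)) j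
    rw [div_le_iff₀ hRpos]
    calc (1 : ℝ) ≤ R * ‖gr M w' (ee j) - gr M w (ee j)‖ := h2.trans h4
      _ ≤ R * dist (fun j : B => gr M w (ee j)) (fun j : B => gr M w' (ee j)) := by gcongr
      _ = _ := mul_comm _ _

end Pool.Agent.CRT
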