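import Pool.Agent.CRT.Defs

/-!
# Module M2a: abstract ping-pong

Paper proof of `semigroup_free`.  For `ε > 0` let `U = {v : p v ≠ 0, ‖v - (p v) u‖ < ε |p v|}`,
`V = k U`, `X = U ∪ V`.  Let `ψ` be a linear functional with `ψ u = 0`, `ψ (k u) = 1` (exists as
`k u ∉ ℝ u`, `u ≠ 0`).  For small `ε`: (i) there is `c > 0` with `|p v| ≥ c ‖v‖`, `p v ≠ 0` for
`v ∈ X` (for `v = k v'`, `v' = p' u + e`, `p v = p' p(k u) + p(k e)`, `p(k u) ≠ 0`);
(ii) `U ∩ V = ∅` (use `ψ`).  For `v ∈ X`, `v = (p v) u + v₀`, `p v₀ = 0`,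
`g^N v - p(g^N v) u = g^N v₀`, `‖g^N v₀‖ ≤ C ‖v₀‖ ≤ C' |p v| = C' λ^{-N} |p (g^N v)|`, so for `N`
large `g^N X ⊆ U`, hence `(k g^N) X ⊆ V`.  With `a = g^N`, `b = k g^N`, `u ∈ U`: words of the
same length with different first letters send `u` to disjoint sets; cancel equal first letters.
-/

namespace Pool.Agent.CRT

open Set

namespace PPA

theorem exists_bound {ι : Type*} [Fintype ι] {F : Type*} [NormedAddCommGroup F] [NormedSpace ℝ F]
    (A : (ι → ℝ) →ₗ[ℝ] F) : ∃ K : ℝ, 0 ≤ K ∧ ∀ v, ‖A v‖ ≤ K * ‖v‖ :=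
  ⟨‖A.toContinuousLinearMap‖, norm_nonneg _, fun v => A.toContinuousLinearMap.le_opNorm v⟩

/-- Ping-pong for words of the same length. -/
theorem pingpong {G E : Type*} [Group G] (act : G →* Equiv.Perm E) (a b : G) (U V : Set E)
    (hUV : Disjoint U V) (hne : (U ∪ V).Nonempty)
    (ha : ∀ v ∈ U ∪ V, act a v ∈ U) (hb : ∀ v ∈ U ∪ V, act b v ∈ V) (n : ℕ) :
    Function.Injective
      (fun f : Fin n → Bool => ((List.ofFn f).map (fun x => if x then a else b)).prod) := by
  have hstay : ∀ (L : List Bool) (v : E), v ∈ U ∪ V →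
      act ((L.map (fun x => if x then a else b)).prod) v ∈ U ∪ V := by
    intro L
    induction L with
    | nil => intro v hv; simpa using hv
    | cons x L ih =>
      intro v hv
      rw [List.map_cons, List.prod_cons, map_mul, Equiv.Perm.mul_apply]
      rcases x with _ | _
      · exact Or.inr (by simpa using hb _ (ih v hv))
      · exact Or.inl (by simpa using ha _ (ih v hv))
  obtain ⟨v, hv⟩ := hne
  induction n with
  | zero => intro f f' _; exact Subsingleton.elim _ _
  | succ n ih =>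
    intro f f' hff
    simp only [List.ofFn_succ, List.map_cons, List.prod_cons] at hff
    have key : ∀ (g g' : Fin (n + 1) → Bool), g 0 = true → g' 0 = false →
        (if g 0 then a else b) * ((List.ofFn fun i : Fin n => g i.succ).map
          (fun x => if x then a else b)).prod =
        (if g' 0 then a else b) * ((List.ofFn fun i : Fin n => g' i.succ).map
          (fun x => if x then a else b)).prod → False := by
      intro g g' h0 h0' heq
      have h1 : act ((if g 0 then a else b) * ((List.ofFn fun i : Fin n => g i.succ).map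
          (fun x => if x then a else b)).prod) v ∈ U := by
        rw [h0, map_mul, Equiv.Perm.mul_apply, if_pos rfl]
        exact ha _ (hstay _ v hv)
      rw [heq] at h1
      have h2 : act ((if g' 0 then a else b) * ((List.ofFn fun i : Fin n => g' i.succ).map
          (fun x => if x then a else b)).prod) v ∈ V := by
        rw [h0', map_mul, Equiv.Perm.mul_apply, if_neg Bool.false_ne_true]
        exact hb _ (hstay _ v hv)
      exact Set.disjoint_left.1 hUV h1 h2
    have h00 : f 0 = f' 0 := by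
      rcases hf : f 0 with _ | _ <;> rcases hf' : f' 0 with _ | _
      · rfl
      · exact (key f' f hf' hf hff.symm).elim
      · exact (key f f' hf hf' hff).elim
      · rfl
    rw [h00, mul_right_inj] at hff
    have h1 := ih hff
    funext i
    refine Fin.cases h00 (fun j => congrFun h1 j) i

end PPA

/-- Abstract ping-pong: `2^n` different products of length `n`. -/
theorem semigroup_free {G : Type*} [Group G] {ι : Type*} [Fintype ι]
    (ρ : G →* Module.End ℝ (ι → ℝ)) (g k : G) (u : ι → ℝ) (p : (ι → ℝ) →ₗ[ℝ] ℝ) (l : ℝ)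
    (hl : 1 < l) (hpu : p u = 1) (hgu : ρ g u = l • u) (hpg : ∀ v, p (ρ g v) = l * p v)
    (hker : ∃ C : ℝ, ∀ (n : ℕ) (v : ι → ℝ), p v = 0 → ‖ρ (g ^ n) v‖ ≤ C * ‖v‖)
    (hpk : p (ρ k u) ≠ 0) (hk : ∀ c : ℝ, ρ k u ≠ c • u) :
    ∃ a b : G, ∀ n : ℕ, Function.Injective
      (fun f : Fin n → Bool => ((List.ofFn f).map (fun x => if x then a else b)).prod) := by
  classical
  -- the functional separating `u` and `k u`
  have hnm : ρ k u ∉ Submodule.span ℝ {u} := by
    intro hmem
    obtain ⟨c, hc⟩ := Submodule.mem_span_singleton.1 hmem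
    exact hk c hc.symm
  obtain ⟨ψ, hψk, hψ⟩ := Submodule.exists_le_ker_of_notMem hnm
  have hψu : ψ u = 0 := hψ (Submodule.mem_span_singleton_self u)
  obtain ⟨K1, hK10, hK1⟩ := PPA.exists_bound ψ
  obtain ⟨K2, hK20, hK2⟩ := PPA.exists_bound (ψ ∘ₗ ρ k)
  obtain ⟨K3, hK30, hK3⟩ := PPA.exists_bound p
  obtain ⟨K4, hK40, hK4⟩ := PPA.exists_bound (p ∘ₗ ρ k)
  obtain ⟨K5, hK50, hK5⟩ := PPA.exists_bound (ρ k : (ι → ℝ) →ₗ[ℝ] (ι → ℝ))
  obtain ⟨C0, hC0⟩ := hker
  set C : ℝ := max C0 0 with hC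
  have hC' : ∀ (n : ℕ) (v : ι → ℝ), p v = 0 → ‖ρ (g ^ n) v‖ ≤ C * ‖v‖ := fun n v hv =>
    (hC0 n v hv).trans (mul_le_mul_of_nonneg_right (le_max_left _ _) (norm_nonneg _))
  have hCnn : 0 ≤ C := le_max_right _ _
  set K : ℝ := 1 + K1 + K2 + K3 + K4 + K5 with hK
  have hKpos : 1 ≤ K := by linarith
  have hb1 : ∀ v, |ψ v| ≤ K * ‖v‖ := fun v =>
    (hK1 v).trans (mul_le_mul_of_nonneg_right (by linarith) (norm_nonneg _))
  have hb2 : ∀ v, |ψ (ρ k v)| ≤ K * ‖v‖ := fun v =>
    (hK2 v).trans (mul_le_mul_of_nonneg_right (by linarith) (norm_nonneg _))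
  have hb4 : ∀ v, |p (ρ k v)| ≤ K * ‖v‖ := fun v =>
    (hK4 v).trans (mul_le_mul_of_nonneg_right (by linarith) (norm_nonneg _))
  have hb5 : ∀ v, ‖ρ k v‖ ≤ K * ‖v‖ := fun v =>
    (hK5 v).trans (mul_le_mul_of_nonneg_right (by linarith) (norm_nonneg _))
  set s : ℝ := |ψ (ρ k u)| with hs
  set q : ℝ := |p (ρ k u)| with hq
  have hs0 : 0 < s := abs_pos.2 hψk
  have hq0 : 0 < q := abs_pos.2 hpk
  set ε : ℝ := min 1 (min (s / (2 * (K * (q + K + 1)))) (q / (2 * K))) with hε
  have hε0 : 0 < ε := by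
    rw [hε]
    refine lt_min one_pos (lt_min ?_ ?_) <;> positivity
  have hε1 : ε ≤ 1 := min_le_left _ _
  have hε2 : K * ε * (q + K + 1) ≤ s / 2 := by
    have h1 : ε ≤ s / (2 * (K * (q + K + 1))) := (min_le_right _ _).trans (min_le_left _ _)
    have h2 : 0 < K * (q + K + 1) := by positivity
    calc K * ε * (q + K + 1) = ε * (K * (q + K + 1)) := by ring
      _ ≤ s / (2 * (K * (q + K + 1))) * (K * (q + K + 1)) := by gcongr
      _ = s / 2 := by field_simp
  have hε3 : K * ε ≤ q / 2 := by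
    have h1 : ε ≤ q / (2 * K) := (min_le_right _ _).trans (min_le_right _ _)
    calc K * ε ≤ K * (q / (2 * K)) := by gcongr
      _ = q / 2 := by field_simp
  set U : Set (ι → ℝ) := {v | ‖v - p v • u‖ < ε * |p v|} with hU
  set V : Set (ι → ℝ) := (fun v => ρ k v) '' U with hV
  have hUp : ∀ v ∈ U, 0 < |p v| := by
    intro v hv
    have h1 : ‖v - p v • u‖ < ε * |p v| := hv
    have h2 : 0 < ε * |p v| := lt_of_le_of_lt (norm_nonneg _) h1
    exact (pos_iff_pos_of_mul_pos h2).1 hε0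
  -- estimates on `V`
  have hVdec : ∀ v ∈ U, |p v| * (q - K * ε) ≤ |p (ρ k v)| ∧
      |p (ρ k v)| ≤ |p v| * (q + K * ε) ∧ |p v| * (s - K * ε) ≤ |ψ (ρ k v)| := by
    intro v hv
    have h1 : ‖v - p v • u‖ < ε * |p v| := hv
    have hdec : ρ k v = p v • ρ k u + ρ k (v - p v • u) := by
      rw [map_sub, map_smul]; abel
    have h2 : p (ρ k v) = p v * p (ρ k u) + p (ρ k (v - p v • u)) := by
      conv_lhs => rw [hdec]
      rw [map_add, map_smul, smul_eq_mul]
    have h3 : ψ (ρ k v) = p v * ψ (ρ k u) + ψ (ρ k (v - p v • u)) := by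
      conv_lhs => rw [hdec]
      rw [map_add, map_smul, smul_eq_mul]
    have h4 : |p (ρ k (v - p v • u))| ≤ K * (ε * |p v|) :=
      (hb4 _).trans (mul_le_mul_of_nonneg_left h1.le (by linarith))
    have h5 : |ψ (ρ k (v - p v • u))| ≤ K * (ε * |p v|) :=
      (hb2 _).trans (mul_le_mul_of_nonneg_left h1.le (by linarith))
    have h6 : |p v * p (ρ k u)| = |p v| * q := abs_mul _ _
    have h7 : |p v * ψ (ρ k u)| = |p v| * s := abs_mul _ _
    refine ⟨?_, ?_, ?_⟩
    · have := abs_sub_abs_le_abs_sub (p v * p (ρ k u)) (-p (ρ k (v - p v • u)))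
      rw [abs_neg, sub_neg_eq_add, ← h2, h6] at this
      linarith
    · have := abs_add_le (p v * p (ρ k u)) (p (ρ k (v - p v • u)))
      rw [← h2, h6] at this
      linarith
    · have := abs_sub_abs_le_abs_sub (p v * ψ (ρ k u)) (-ψ (ρ k (v - p v • u)))
      rw [abs_neg, sub_neg_eq_add, ← h3, h7] at this
      linarith
  have hdisj : Disjoint U V := by
    rw [Set.disjoint_left]
    rintro v hvU ⟨v', hv', rfl⟩
    obtain ⟨h1, h2, h3⟩ := hVdec v' hv'
    have h4 : ‖ρ k v' - p (ρ k v') • u‖ < ε * |p (ρ k v')| := hvU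
    have h5 : ψ (ρ k v') = ψ (ρ k v' - p (ρ k v') • u) := by
      rw [map_sub, map_smul, hψu, smul_zero, sub_zero]
    have h6 : |ψ (ρ k v')| ≤ K * (ε * |p (ρ k v')|) := by
      rw [h5]
      exact (hb1 _).trans (mul_le_mul_of_nonneg_left h4.le (by linarith))
    have hp' := hUp v' hv'
    have h7 : |p v'| * (s - K * ε) ≤ K * (ε * (|p v'| * (q + K * ε))) :=
      h3.trans (h6.trans (by gcongr))
    have h8 : s - K * ε ≤ K * ε * (q + K * ε) := by
      have : |p v'| * (s - K * ε) ≤ |p v'| * (K * ε * (q + K * ε)) := by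
        calc _ ≤ _ := h7
          _ = _ := by ring
      exact le_of_mul_le_mul_left this hp'
    have h9 : K * ε * (q + K * ε) ≤ K * ε * (q + K) := by
      have : K * ε ≤ K := by nlinarith
      gcongr
    have h10 : K * ε * (q + K) + K * ε = K * ε * (q + K + 1) := by ring
    linarith
  -- cone bound
  set C1 : ℝ := ‖u‖ + ε + K * (‖u‖ + ε) * (2 / q) with hC1
  have hC10 : 0 ≤ C1 := by positivity
  have hUn : ∀ v ∈ U, ‖v‖ ≤ (‖u‖ + ε) * |p v| := by
    intro v hv
    have h1 : ‖v - p v • u‖ < ε * |p v| := hv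
    have h2 : ‖v‖ ≤ ‖p v • u‖ + ‖v - p v • u‖ := by
      have := norm_add_le (p v • u) (v - p v • u)
      rwa [add_sub_cancel] at this
    rw [norm_smul, Real.norm_eq_abs] at h2
    linarith
  have hcone : ∀ v ∈ U ∪ V, 0 < |p v| ∧ ‖v‖ ≤ C1 * |p v| := by
    rintro v (hv | ⟨v', hv', rfl⟩)
    · refine ⟨hUp v hv, (hUn v hv).trans ?_⟩
      have : 0 ≤ K * (‖u‖ + ε) * (2 / q) := by positivity
      rw [hC1]
      exact mul_le_mul_of_nonneg_right (by linarith) (abs_nonneg _)
    · obtain ⟨h1, h2, h3⟩ := hVdec v' hv'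
      have hp' := hUp v' hv'
      have h4 : |p v'| * (q / 2) ≤ |p (ρ k v')| :=
        (mul_le_mul_of_nonneg_left (by linarith) hp'.le).trans h1
      refine ⟨lt_of_lt_of_le (by positivity) h4, ?_⟩
      dsimp only
      have h5 : ‖ρ k v'‖ ≤ K * ((‖u‖ + ε) * |p v'|) :=
        (hb5 v').trans (mul_le_mul_of_nonneg_left (hUn v' hv') (by linarith))
      have h6 : |p v'| ≤ (2 / q) * |p (ρ k v')| := by
        rw [div_mul_eq_mul_div, le_div_iff₀ hq0]
        linarith
      calc ‖ρ k v'‖ ≤ K * ((‖u‖ + ε) * |p v'|) := h5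
        _ ≤ K * ((‖u‖ + ε) * ((2 / q) * |p (ρ k v')|)) := by gcongr
        _ = K * (‖u‖ + ε) * (2 / q) * |p (ρ k v')| := by ring
        _ ≤ C1 * |p (ρ k v')| := by
          apply mul_le_mul_of_nonneg_right _ (abs_nonneg _)
          rw [hC1]
          have : 0 ≤ ‖u‖ + ε := by positivity
          linarith
  -- powers of `g`
  have hgun : ∀ n : ℕ, ρ (g ^ n) u = l ^ n • u := by
    intro n
    induction n with
    | zero => simp
    | succ n ih =>
      rw [pow_succ, map_mul, Module.End.mul_apply, hgu, map_smul, ih, smul_smul, pow_succ, mul_comm]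
  have hpgn : ∀ (n : ℕ) (v : ι → ℝ), p (ρ (g ^ n) v) = l ^ n * p v := by
    intro n
    induction n with
    | zero => intro v; simp
    | succ n ih =>
      intro v
      rw [pow_succ, map_mul, Module.End.mul_apply, ih, hpg, pow_succ, mul_assoc]
  obtain ⟨N, hN⟩ : ∃ N : ℕ, C * (C1 + ‖u‖) / ε < l ^ N := pow_unbounded_of_one_lt _ hl
  have hN' : C * (C1 + ‖u‖) < ε * l ^ N := by
    rw [div_lt_iff₀ hε0] at hN
    linarith
  have hlN : 0 < l ^ N := by positivity
  have hgN : ∀ v ∈ U ∪ V, ρ (g ^ N) v ∈ U := by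
    intro v hv
    obtain ⟨h1, h2⟩ := hcone v hv
    show ‖ρ (g ^ N) v - p (ρ (g ^ N) v) • u‖ < ε * |p (ρ (g ^ N) v)|
    have h3 : ρ (g ^ N) v - p (ρ (g ^ N) v) • u = ρ (g ^ N) (v - p v • u) := by
      rw [map_sub, map_smul, hgun, hpgn, smul_smul, mul_comm]
    have h4 : p (v - p v • u) = 0 := by
      rw [map_sub, map_smul, hpu, smul_eq_mul, mul_one, sub_self]
    rw [h3, hpgn, abs_mul, abs_of_pos hlN]
    have h5 : ‖v - p v • u‖ ≤ (C1 + ‖u‖) * |p v| := by
      have := norm_sub_le v (p v • u)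
      rw [norm_smul, Real.norm_eq_abs] at this
      linarith
    calc ‖ρ (g ^ N) (v - p v • u)‖ ≤ C * ‖v - p v • u‖ := hC' N _ h4
      _ ≤ C * ((C1 + ‖u‖) * |p v|) := by gcongr
      _ = C * (C1 + ‖u‖) * |p v| := by ring
      _ < ε * l ^ N * |p v| := by gcongr
      _ = ε * (l ^ N * |p v|) := by ring
  -- the action by permutations
  let act : G →* Equiv.Perm (ι → ℝ) :=
    { toFun := fun x => ⟨fun v => ρ x v, fun v => ρ x⁻¹ v,
        fun v => by
          dsimp only
          rw [← Module.End.mul_apply, ← map_mul, inv_mul_cancel, map_one, Module.End.one_apply],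
        fun v => by
          dsimp only
          rw [← Module.End.mul_apply, ← map_mul, mul_inv_cancel, map_one, Module.End.one_apply]⟩
      map_one' := by
        ext v
        simp
      map_mul' := fun x y => by
        ext v
        simp }
  have hact : ∀ x v, act x v = ρ x v := fun x v => rfl
  refine ⟨g ^ N, k * g ^ N, fun n => PPA.pingpong act _ _ U V hdisj ⟨u, Or.inl ?_⟩ ?_ ?_ n⟩
  · show ‖u - p u • u‖ < ε * |p u|
    rw [hpu, one_smul, sub_self, norm_zero, abs_one, mul_one]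
    exact hε0
  · intro v hv
    rw [hact]
    exact hgN v hv
  · intro v hv
    rw [hact, map_mul, Module.End.mul_apply]
    exact ⟨_, hgN v hv, rfl⟩

end Pool.Agent.CRT
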