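import Pool.Agent.CRT.GeomRep
import Pool.Agent.CRT.PingPongAbs

/-!
# Module M2b: exponential growth in the hyperbolic case

Paper proof of `not_polyGrowth`.  `α = e_i`, `β = w e_j`, `b = B(α,β)`, `|b| > 1`,
`g = s_i · (w s_j w⁻¹)`; `w s_j w⁻¹` acts by `v ↦ v - 2 B(β,v) β`.  Let `τ` be the root of
`τ² + 2bτ + 1 = 0` with `0 < |τ| < 1`; `u₊ = α + τ β`, `u₋ = α + τ⁻¹ β`.  Then `B(u₊,u₊) = 0 =
B(u₋,u₋)`, `B(u₊,u₋) = 2 - 2b² ≠ 0`, `g u₊ = τ⁻² u₊`, `g u₋ = τ² u₋`, and `g` fixes
`{α,β}^⊥`.  `λ := τ⁻² > 1`, `p(v) := B(v,u₋)/B(u₊,u₋)`; `p ∘ g = λ p`; on `ker p`,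
`v = q u₋ + v₀`, `q = B(v,u₊)/B(u₊,u₋)`, `g^n v = τ^{2n} q u₋ + v₀` is bounded by `C‖v‖`.
There is `k ∈ W` with `k u₊ ∉ ℝ u₊ ∪ ℝ u₋`: otherwise the span of the orbit `W u₊` is a nonzero
`W`-invariant subspace `U` of dimension `≤ 2 < d+1`; but invariant subspaces are `0` or everything:
for each `i`, `e_i ∈ U` or `B(e_i,U) = 0` (`s_i u - u = -2B(e_i,u) e_i ∈ U`); if some `e_i ∈ U`
then by `hirr` all neighbours are in `U`, so `U = ⊤`; otherwise `U` is in the radical `= 0`.
`k u₊` is null; `B(k u₊, u₋) ≠ 0`, since otherwise `k u₊`, `u₋` span a 2-dimensional totally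
isotropic subspace, which meets the hyperplane `{v_l = 0}` (`hpos`) nontrivially.  So
`semigroup_free` applies: with `L = max (ℓ a) (ℓ b)`, `2^n` distinct elements of length `≤ n L`,
contradicting polynomial growth.
-/

namespace Pool.Agent.CRT

open Set

namespace PP

variable {d : ℕ}

theorem bil_symm' (M : CoxeterMatrix (Fin (d + 1))) (u v : Fin (d + 1) → ℝ) :
    bil M u v = bil M v u := bil_symm M u v

/-- Invariant subspaces are trivial. -/
theorem irred (M : CoxeterMatrix (Fin (d + 1)))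
    (hirr : ∀ i : Fin d, cosM M i.castSucc i.succ ≠ 0)
    (hnd : ∀ δ : Fin (d + 1) → ℝ, (∀ v, bil M δ v = 0) → δ = 0)
    (U : Submodule ℝ (Fin (d + 1) → ℝ)) (hU : ∀ w : M.Group, ∀ u ∈ U, gr M w u ∈ U) :
    U = ⊥ ∨ U = ⊤ := by
  have hstep : ∀ i j : Fin (d + 1), cosM M i j ≠ 0 → (ee i : Fin (d + 1) → ℝ) ∈ U →
      (ee j : Fin (d + 1) → ℝ) ∈ U := by
    intro i j hij hi
    have h1 := hU (sm M j) _ hi
    rw [gr_simple, bil_ee] at h1
    have h2 := U.sub_mem hi h1
    rw [sub_sub_cancel] at h2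
    refine (U.smul_mem_iff ?_).1 h2
    rw [cosM_symm M j i]
    exact mul_ne_zero two_ne_zero hij
  have hall : ∀ (m : ℕ) (hm : m < d + 1), ((ee 0 : Fin (d + 1) → ℝ) ∈ U ↔
      (ee ⟨m, hm⟩ : Fin (d + 1) → ℝ) ∈ U) := by
    intro m
    induction m with
    | zero => intro hm; rfl
    | succ m ih =>
      intro hm
      rw [ih (by omega)]
      have h3 := hirr ⟨m, by omega⟩
      have e1 : (⟨m, by omega⟩ : Fin d).castSucc = (⟨m, by omega⟩ : Fin (d + 1)) := rfl
      have e2 : (⟨m, by omega⟩ : Fin d).succ = (⟨m + 1, hm⟩ : Fin (d + 1)) := rfl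
      rw [e1, e2] at h3
      constructor
      · exact hstep _ _ h3
      · exact hstep _ _ (by rw [cosM_symm]; exact h3)
  by_cases h0 : (ee 0 : Fin (d + 1) → ℝ) ∈ U
  · right
    rw [eq_top_iff]
    intro v _
    rw [← sum_smul_ee v]
    exact U.sum_mem fun i _ => U.smul_mem _ ((hall i.1 i.2).1 h0)
  · left
    rw [eq_bot_iff]
    intro u hu
    have h1 : ∀ i : Fin (d + 1), bil M (ee i) u = 0 := by
      intro i
      by_contra hne
      apply h0
      rw [hall i.1 i.2]
      have h2 := U.sub_mem hu (hU (sm M i) u hu)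
      rw [gr_simple, sub_sub_cancel] at h2
      exact (U.smul_mem_iff (mul_ne_zero two_ne_zero hne)).1 h2
    rw [Submodule.mem_bot]
    apply hnd
    intro v
    rw [bil_symm', ← sum_smul_ee v]
    simp only [map_sum, map_smul, LinearMap.sum_apply, LinearMap.smul_apply, h1, smul_zero,
      Finset.sum_const_zero]

theorem gr_refl (M : CoxeterMatrix (Fin (d + 1))) (w : M.Group) (j : Fin (d + 1))
    (v : Fin (d + 1) → ℝ) : gr M (w * sm M j * w⁻¹) v =
      v - (2 * bil M (gr M w (ee j)) v) • gr M w (ee j) := by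
  rw [gr_mul_apply, gr_mul_apply, gr_simple, map_sub, map_smul, ← gr_mul_apply, mul_inv_cancel,
    gr_one_apply]
  congr 3
  have := bil_gr M w (ee j) (gr M w⁻¹ v)
  rw [← gr_mul_apply, mul_inv_cancel, gr_one_apply] at this
  rw [this]

theorem exists_tau (c : ℝ) (hc : 1 < |c|) : ∃ τ : ℝ, τ ≠ 0 ∧ |τ| < 1 ∧ τ ^ 2 + 2 * c * τ + 1 = 0 := by
  have hc2 : 1 < c ^ 2 := by
    rw [← sq_abs]; nlinarith
  set s := Real.sqrt (c ^ 2 - 1) with hs
  have hs2 : s ^ 2 = c ^ 2 - 1 := Real.sq_sqrt (by linarith)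
  have hs0 : 0 < s := Real.sqrt_pos.2 (by linarith)
  have key : ∀ c : ℝ, 1 < c → ∀ s : ℝ, 0 < s → s ^ 2 = c ^ 2 - 1 → 0 < c - s ∧ c - s < 1 := by
    intro c hc s hs hs2
    have h1 : (c - s) * (c + s) = 1 := by ring_nf; linarith
    have h2 : 0 < c - s := by
      by_contra hcon
      push Not at hcon
      nlinarith
    refine ⟨h2, ?_⟩
    by_contra hcon
    push Not at hcon
    nlinarith
  rcases le_or_gt 0 c with h0 | h0
  · rw [abs_of_nonneg h0] at hc
    obtain ⟨h1, h2⟩ := key c hc s hs0 hs2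
    refine ⟨-(c - s), by linarith, ?_, ?_⟩
    · rw [abs_neg, abs_of_pos h1]; exact h2
    · ring_nf; linarith
  · rw [abs_of_neg h0] at hc
    obtain ⟨h1, h2⟩ := key (-c) hc s hs0 (by rw [hs2]; ring)
    refine ⟨-c - s, by linarith, ?_, ?_⟩
    · rw [abs_of_pos h1]; exact h2
    · ring_nf; linarith

/-- Exponential growth contradicts polynomial growth. -/
theorem no_poly (M : CoxeterMatrix (Fin (d + 1))) (a b : M.Group)
    (hab : ∀ n : ℕ, Function.Injective
      (fun f : Fin n → Bool => ((List.ofFn f).map (fun x => if x then a else b)).prod)) :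
    ∀ e : ℕ, ¬ PolyGrowth e M := by
  classical
  rintro e ⟨C, hC⟩
  set L : ℕ := max (len M a) (len M b) with hL
  have hlen : ∀ l : List Bool, len M ((l.map (fun x => if x then a else b)).prod) ≤
      l.length * L := by
    intro l
    induction l with
    | nil => simp [len]
    | cons x l ih =>
      rw [List.map_cons, List.prod_cons, List.length_cons]
      have h1 : len M ((if x then a else b) * (l.map (fun x => if x then a else b)).prod) ≤
        len M (if x then a else b) + len M ((l.map (fun x => if x then a else b)).prod) :=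
        M.toCoxeterSystem.length_mul_le _ _
      have h2 : len M (if x then a else b) ≤ L := by
        split_ifs
        · exact le_max_left _ _
        · exact le_max_right _ _
      calc _ ≤ _ := h1
        _ ≤ L + l.length * L := Nat.add_le_add h2 ih
        _ = (l.length + 1) * L := by ring
  have hbound : ∀ n : ℕ, (2 : ℝ) ^ n ≤ C * (((n * L : ℕ) : ℝ) + 1) ^ e := by
    intro n
    have h1 := hC (n * L) (Finset.univ.image
      (fun f : Fin n → Bool => ((List.ofFn f).map (fun x => if x then a else b)).prod)) ?_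
    · rw [Finset.card_image_of_injective _ (hab n)] at h1
      simpa using h1
    · intro w hw
      rw [Finset.mem_image] at hw
      obtain ⟨f, _, rfl⟩ := hw
      have := hlen (List.ofFn f)
      rwa [List.length_ofFn] at this
  have hCpos : 0 < C := by
    have := hbound 0
    simp at this
    linarith
  have hlim := tendsto_pow_const_div_const_pow_of_one_lt e (r := (2 : ℝ)) (by norm_num)
  set D : ℝ := C * ((L : ℝ) + 1) ^ e * 2 ^ e with hD
  have hDpos : 0 < D := by positivity
  have hev := (hlim.eventually (gt_mem_nhds (show (0 : ℝ) < 1 / D by positivity))).and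
    (Filter.eventually_ge_atTop 1)
  obtain ⟨n, hn, hn1⟩ := hev.exists
  have hn1' : (1 : ℝ) ≤ n := by exact_mod_cast hn1
  have h2n : (0 : ℝ) < 2 ^ n := by positivity
  rw [div_lt_div_iff₀ h2n hDpos] at hn
  have h3 := hbound n
  have h4 : ((n * L : ℕ) : ℝ) + 1 ≤ ((L : ℝ) + 1) * 2 * n := by
    push_cast
    have : (0 : ℝ) ≤ L := by positivity
    nlinarith
  have h5 : C * (((n * L : ℕ) : ℝ) + 1) ^ e ≤ D * (n : ℝ) ^ e := by
    calc C * (((n * L : ℕ) : ℝ) + 1) ^ e ≤ C * (((L : ℝ) + 1) * 2 * n) ^ e := by gcongr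
      _ = D * (n : ℝ) ^ e := by rw [mul_pow, mul_pow, hD]; ring
  linarith

end PP

theorem not_polyGrowth {d : ℕ} (hd : 2 ≤ d) (M : CoxeterMatrix (Fin (d + 1)))
    (hirr : ∀ i : Fin d, cosM M i.castSucc i.succ ≠ 0)
    (hnd : ∀ δ : Fin (d + 1) → ℝ, (∀ v, bil M δ v = 0) → δ = 0)
    (hpos : ∀ l : Fin (d + 1), ∀ v : Fin (d + 1) → ℝ, v l = 0 → v ≠ 0 → 0 < bil M v v)
    (w : M.Group) (i j : Fin (d + 1)) (hbig : 1 < |bil M (ee i) (gr M w (ee j))|) :
    ∀ e : ℕ, ¬ PolyGrowth e M := by
  classical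
  set α : Fin (d + 1) → ℝ := ee i with hα
  set β : Fin (d + 1) → ℝ := gr M w (ee j) with hβ
  set c : ℝ := bil M α β with hc
  have hαα : bil M α α = 1 := by rw [hα, bil_ee, cosM_self]
  have hββ : bil M β β = 1 := by rw [hβ, bil_gr, bil_ee, cosM_self]
  have hβα : bil M β α = c := by rw [PP.bil_symm']
  obtain ⟨τ, hτ0, hτ1, hτ⟩ := PP.exists_tau c hbig
  have hτinv : τ * τ⁻¹ = 1 := mul_inv_cancel₀ hτ0
  have hcτ : τ + τ⁻¹ = -2 * c := by
    have : τ⁻¹ * (τ ^ 2 + 2 * c * τ + 1) = 0 := by rw [hτ, mul_zero]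
    have h2 : τ⁻¹ * (τ ^ 2 + 2 * c * τ + 1) = τ + 2 * c + τ⁻¹ := by
      field_simp
    linarith
  set g : M.Group := sm M i * (w * sm M j * w⁻¹) with hg
  have hgv : ∀ v, gr M g v = v - (2 * bil M β v) • β - (2 * (bil M α v - 2 * bil M β v * c)) • α := by
    intro v
    rw [hg, gr_mul_apply, gr_simple, PP.gr_refl, ← hβ, ← hα]
    congr 2
    rw [map_sub, map_smul, smul_eq_mul, ← hc]
  set up : Fin (d + 1) → ℝ := α + τ • β with hup
  set um : Fin (d + 1) → ℝ := α + τ⁻¹ • β with hum
  have hαup : bil M α up = 1 + τ * c := by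
    rw [hup, map_add, map_smul, smul_eq_mul, hαα]
  have hβup : bil M β up = c + τ := by
    rw [hup, map_add, map_smul, smul_eq_mul, hβα, hββ, mul_one]
  have hαum : bil M α um = 1 + τ⁻¹ * c := by
    rw [hum, map_add, map_smul, smul_eq_mul, hαα]
  have hβum : bil M β um = c + τ⁻¹ := by
    rw [hum, map_add, map_smul, smul_eq_mul, hβα, hββ, mul_one]
  have hgup : gr M g up = (τ⁻¹ ^ 2) • up := by
    rw [hgv, hαup, hβup, hup]
    have e1 : c = -(τ + τ⁻¹) / 2 := by linarith
    rw [e1]
    have h1 : ∀ A B : ℝ, (α + τ • β) - A • β - B • α = (1 - B) • α + (τ - A) • β := by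
      intro A B; module
    rw [h1, smul_add, smul_smul]
    congr 2
    · field_simp
      ring
    · field_simp
      ring
  have hgum : gr M g um = (τ ^ 2) • um := by
    rw [hgv, hαum, hβum, hum]
    have e1 : c = -(τ + τ⁻¹) / 2 := by linarith
    rw [e1]
    have h1 : ∀ A B : ℝ, (α + τ⁻¹ • β) - A • β - B • α = (1 - B) • α + (τ⁻¹ - A) • β := by
      intro A B; module
    rw [h1, smul_add, smul_smul]
    congr 2
    · field_simp
      ring
    · field_simp
      ring
  have hexp : ∀ (t : ℝ) (z : Fin (d + 1) → ℝ),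
      bil M (α + t • β) z = bil M α z + t * bil M β z := by
    intro t z
    rw [map_add, LinearMap.add_apply, map_smul, LinearMap.smul_apply, smul_eq_mul]
  have hupup : bil M up up = 0 := by
    have : bil M up up = bil M α up + τ * bil M β up := hexp τ up
    rw [this, hαup, hβup]
    linear_combination hτ
  have humum : bil M um um = 0 := by
    have : bil M um um = bil M α um + τ⁻¹ * bil M β um := hexp τ⁻¹ um
    rw [this, hαum, hβum]
    have e1 : c = -(τ + τ⁻¹) / 2 := by linarith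
    rw [e1]
    field_simp
    ring
  set κ : ℝ := 2 - 2 * c ^ 2 with hκ
  have hκ0 : κ ≠ 0 := by
    have : 1 < c ^ 2 := by rw [← sq_abs]; nlinarith
    rw [hκ]; intro h; linarith
  have hupum : bil M up um = κ := by
    have : bil M up um = bil M α um + τ * bil M β um := hexp τ um
    rw [this, hαum, hβum, hκ]
    linear_combination c * hcτ + hτinv
  have hup0 : up ≠ 0 := by
    intro h0
    rw [h0] at hupum
    simp at hupum
    exact hκ0 hupum.symm
  have hum0 : um ≠ 0 := by
    intro h0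
    rw [h0] at hupum
    simp at hupum
    exact hκ0 hupum.symm
  -- the functional
  set p : (Fin (d + 1) → ℝ) →ₗ[ℝ] ℝ := κ⁻¹ • (bil M).flip um with hp
  have hpv : ∀ v, p v = κ⁻¹ * bil M v um := fun v => rfl
  have hpu : p up = 1 := by rw [hpv, hupum, inv_mul_cancel₀ hκ0]
  have hpg : ∀ v, p (gr M g v) = (τ⁻¹ ^ 2) * p v := by
    intro v
    rw [hpv, hpv]
    have h1 := bil_gr M g v um
    rw [hgum, map_smul, smul_eq_mul] at h1
    have h2 : bil M (gr M g v) um = τ⁻¹ ^ 2 * bil M v um := by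
      rw [← h1]
      field_simp
    rw [h2]
    ring
  have hl : 1 < τ⁻¹ ^ 2 := by
    rw [inv_pow]
    apply (one_lt_inv₀ (by positivity)).2
    rw [← sq_abs]
    nlinarith [abs_nonneg τ, abs_pos.2 hτ0]
  have hττ : τ ≠ τ⁻¹ := by
    intro h
    have h1 : τ ^ 2 = 1 := by
      calc τ ^ 2 = τ * τ := by ring
        _ = τ * τ⁻¹ := by rw [← h]
        _ = 1 := hτinv
    have h2 : τ ^ 2 < 1 := by
      rw [← sq_abs]
      nlinarith [abs_nonneg τ, abs_pos.2 hτ0]
    linarith
  have hker : ∃ C : ℝ, ∀ (n : ℕ) (v : Fin (d + 1) → ℝ), p v = 0 →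
      ‖gr M (g ^ n) v‖ ≤ C * ‖v‖ := by
    obtain ⟨K, hK0, hK⟩ := PPA.exists_bound (κ⁻¹ • (bil M).flip up)
    refine ⟨1 + 2 * (K * ‖um‖), ?_⟩
    intro n v hv
    set q : ℝ := κ⁻¹ * bil M v up with hq
    have hqb : |q| ≤ K * ‖v‖ := hK v
    set v0 : Fin (d + 1) → ℝ := v - q • um with hv0
    have hum' : bil M v um = 0 := by
      rw [hpv] at hv
      exact (mul_eq_zero.1 hv).resolve_left (inv_ne_zero hκ0)
    have h1 : bil M v0 um = 0 := by
      rw [hv0, map_sub, LinearMap.sub_apply, map_smul, LinearMap.smul_apply, humum, hum']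
      simp
    have h2 : bil M v0 up = 0 := by
      rw [hv0, map_sub, LinearMap.sub_apply, map_smul, LinearMap.smul_apply, PP.bil_symm' M um up,
        hupum, smul_eq_mul, hq]
      field_simp
      ring
    have h3 : bil M v0 β = 0 := by
      have : (τ - τ⁻¹) * bil M v0 β = bil M v0 up - bil M v0 um := by
        rw [hup, hum, map_add, map_add, map_smul, map_smul, smul_eq_mul, smul_eq_mul]
        ring
      rw [h1, h2, sub_zero] at this
      exact (mul_eq_zero.1 this).resolve_left (sub_ne_zero.2 hττ)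
    have h4 : bil M v0 α = 0 := by
      have : bil M v0 up = bil M v0 α + τ * bil M v0 β := by
        rw [hup, map_add, map_smul, smul_eq_mul]
      rw [h2, h3, mul_zero, add_zero] at this
      exact this.symm
    have h5 : gr M g v0 = v0 := by
      rw [hgv, PP.bil_symm' M β, PP.bil_symm' M α, h3, h4]
      simp
    have h6 : ∀ n : ℕ, gr M (g ^ n) v0 = v0 := by
      intro n
      induction n with
      | zero => rw [pow_zero, gr_one_apply]
      | succ n ih => rw [pow_succ, gr_mul_apply, h5, ih]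
    have h7 : ∀ n : ℕ, gr M (g ^ n) um = (τ ^ 2) ^ n • um := by
      intro n
      induction n with
      | zero => rw [pow_zero, gr_one_apply, pow_zero, one_smul]
      | succ n ih =>
        rw [pow_succ, gr_mul_apply, hgum, map_smul, ih, smul_smul]
        congr 1
        ring
    have h8 : v = v0 + q • um := by rw [hv0]; abel
    have h9 : gr M (g ^ n) v = v - q • um + (q * (τ ^ 2) ^ n) • um := by
      conv_lhs => rw [h8]
      rw [map_add, map_smul, h6, h7, smul_smul]
    have h10 : |(τ ^ 2) ^ n| ≤ 1 := by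
      rw [abs_pow, abs_pow]
      exact pow_le_one₀ (by positivity) (pow_le_one₀ (abs_nonneg _) hτ1.le)
    rw [h9]
    calc ‖v - q • um + (q * (τ ^ 2) ^ n) • um‖
        ≤ ‖v - q • um‖ + ‖(q * (τ ^ 2) ^ n) • um‖ := norm_add_le _ _
      _ ≤ ‖v‖ + ‖q • um‖ + ‖(q * (τ ^ 2) ^ n) • um‖ := by gcongr; exact norm_sub_le _ _
      _ = ‖v‖ + |q| * ‖um‖ + |q| * |(τ ^ 2) ^ n| * ‖um‖ := by
        rw [norm_smul, norm_smul, Real.norm_eq_abs, Real.norm_eq_abs, abs_mul q]
      _ ≤ ‖v‖ + (K * ‖v‖) * ‖um‖ + (K * ‖v‖) * 1 * ‖um‖ := by gcongr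
      _ = (1 + 2 * (K * ‖um‖)) * ‖v‖ := by ring
  -- a group element moving `up` out of the two isotropic lines
  obtain ⟨k, hk1, hk2⟩ : ∃ k : M.Group, (∀ c : ℝ, gr M k up ≠ c • up) ∧
      ∀ c : ℝ, gr M k up ≠ c • um := by
    by_contra hcon
    push Not at hcon
    set U : Submodule ℝ (Fin (d + 1) → ℝ) :=
      Submodule.span ℝ (Set.range fun k : M.Group => gr M k up) with hU
    have hUst : ∀ x : M.Group, ∀ u ∈ U, gr M x u ∈ U := by
      intro x u hu
      have h1 : U ≤ U.comap (gr M x) := by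
        conv_lhs => rw [hU]
        rw [Submodule.span_le]
        rintro _ ⟨k, rfl⟩
        show gr M x (gr M k up) ∈ U
        rw [← gr_mul_apply]
        exact Submodule.subset_span ⟨x * k, rfl⟩
      exact h1 hu
    have hUle : U ≤ Submodule.span ℝ (({up, um} : Finset (Fin (d + 1) → ℝ)) : Set _) := by
      rw [hU, Submodule.span_le]
      rintro _ ⟨k, rfl⟩
      by_cases hk : ∀ c : ℝ, gr M k up ≠ c • up
      · obtain ⟨c, hc⟩ := hcon k hk
        show gr M k up ∈ _
        rw [hc]
        exact Submodule.smul_mem _ _ (Submodule.subset_span (by simp))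
      · push Not at hk
        obtain ⟨c, hc⟩ := hk
        show gr M k up ∈ _
        rw [hc]
        exact Submodule.smul_mem _ _ (Submodule.subset_span (by simp))
    rcases PP.irred M hirr hnd U hUst with h0 | h0
    · apply hup0
      have : up ∈ U := Submodule.subset_span ⟨1, gr_one_apply M up⟩
      rwa [h0, Submodule.mem_bot] at this
    · rw [h0, top_le_iff] at hUle
      have h1 := finrank_span_finset_le_card (R := ℝ) ({up, um} : Finset (Fin (d + 1) → ℝ))
      rw [Set.finrank, hUle, finrank_top] at h1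
      have h2 : ({up, um} : Finset (Fin (d + 1) → ℝ)).card ≤ 2 := Finset.card_le_two
      simp at h1
      omega
  have hpk : p (gr M k up) ≠ 0 := by
    intro h0
    rw [hpv] at h0
    have h1 : bil M (gr M k up) um = 0 := (mul_eq_zero.1 h0).resolve_left (inv_ne_zero hκ0)
    have h2 : bil M (gr M k up) (gr M k up) = 0 := by rw [bil_gr, hupup]
    by_cases hz : um 0 = 0
    · have := hpos 0 um hz hum0
      linarith
    · set y : Fin (d + 1) → ℝ := um 0 • gr M k up - (gr M k up 0) • um with hy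
      have hy0 : y 0 = 0 := by
        rw [hy]
        simp only [Pi.sub_apply, Pi.smul_apply, smul_eq_mul]
        ring
      have hyne : y ≠ 0 := by
        intro h
        apply hk2 ((um 0)⁻¹ * gr M k up 0)
        have h3 : um 0 • gr M k up = (gr M k up 0) • um := sub_eq_zero.1 h
        calc gr M k up = (um 0)⁻¹ • (um 0 • gr M k up) := by
              rw [smul_smul, inv_mul_cancel₀ hz, one_smul]
          _ = _ := by rw [h3, smul_smul]
      have h4 := hpos 0 y hy0 hyne
      have h5 : bil M y y = 0 := by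
        rw [hy]
        simp only [map_sub, map_smul, LinearMap.sub_apply, LinearMap.smul_apply, smul_eq_mul, h1,
          h2, humum, PP.bil_symm' M um (gr M k up)]
        ring
      linarith
  obtain ⟨a, b, hab⟩ := semigroup_free (gr M) g k up p (τ⁻¹ ^ 2) hl hpu hgup hpg hker hpk hk1
  exact PP.no_poly M a b hab

end Pool.Agent.CRT
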