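import Pool.Agent.CRT.PosDef
import Pool.Agent.CRT.FiniteBdd
import Pool.Agent.CRT.PingPong

/-!
# Module M3: the form is degenerate (the Coxeter group is affine)

Paper proof.  `B` is positive definite on every coordinate hyperplane (`posDef_of_finite_par` with
`J = {l}ᶜ`).  Suppose the conclusion fails, i.e. `B` is nondegenerate.  By `finite_of_bounded` and
`hinf` there are `w, i, j` with `|B(e_i, w e_j)| > 1`.  If `d ≥ 2`: `hirr` holds, i.e.
`M_{i,i+1} ≠ 2`: otherwise (with `hstr`) every `s_j`, `j ≤ i`, commutes with every `s_k`,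
`k ≥ i+1`, so `W = W_{≤ i} W_{≥ i+1}`, a product of two finite groups (`hfin` with the last and the
first index), contradiction; then `cosM_neg`.  Contradiction with `not_polyGrowth`.
If `d = 1`: `|cosM 0 1| ≤ 1`, so the form is positive semidefinite and `|B(e_i, w e_j)| ≤ 1`,
contradiction.
-/

namespace Pool.Agent.CRT

open Set

namespace Degenerate

theorem comm_of_two {B : Type*} (M : CoxeterMatrix B) {j k : B} (h : M j k = 2) :
    sm M j * sm M k = sm M k * sm M j := by
  have h1 := M.toCoxeterSystem.simple_mul_simple_pow j k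
  rw [h, pow_two] at h1
  have h2 := M.toCoxeterSystem.simple_mul_simple_self j
  have h3 := M.toCoxeterSystem.simple_mul_simple_self k
  show M.toCoxeterSystem.simple j * M.toCoxeterSystem.simple k =
    M.toCoxeterSystem.simple k * M.toCoxeterSystem.simple j
  have h4 : (M.toCoxeterSystem.simple j * M.toCoxeterSystem.simple k)⁻¹ =
      M.toCoxeterSystem.simple j * M.toCoxeterSystem.simple k := inv_eq_of_mul_eq_one_left h1
  rw [mul_inv_rev, M.toCoxeterSystem.inv_simple, M.toCoxeterSystem.inv_simple] at h4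
  exact h4.symm

theorem comm_par {B : Type*} (M : CoxeterMatrix B) (J : Set B) (k : B)
    (h : ∀ j ∈ J, M j k = 2) (a : M.Group) (ha : a ∈ par M J) :
    sm M k * a = a * sm M k := by
  have hle : par M J ≤ Subgroup.centralizer {sm M k} := by
    unfold par
    rw [Subgroup.closure_le]
    rintro _ ⟨j, hj, rfl⟩
    simp only [SetLike.mem_coe, Subgroup.mem_centralizer_singleton_iff]
    exact comm_of_two M (h j hj)
  have := hle ha
  rw [Subgroup.mem_centralizer_singleton_iff] at this
  exact this.symm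

theorem par_mono {B : Type*} (M : CoxeterMatrix B) {J K : Set B} (h : J ⊆ K) :
    par M J ≤ par M K := Subgroup.closure_mono (Set.image_mono h)

theorem sm_mem_par {B : Type*} (M : CoxeterMatrix B) {J : Set B} {j : B} (h : j ∈ J) :
    sm M j ∈ par M J := Subgroup.subset_closure ⟨j, h, rfl⟩

theorem decomp {B : Type*} (M : CoxeterMatrix B) (J K : Set B) (hJK : J ∪ K = Set.univ)
    (h : ∀ j ∈ J, ∀ k ∈ K, M j k = 2) (w : M.Group) :
    ∃ a ∈ par M J, ∃ b ∈ par M K, w = a * b := by
  induction w using M.toCoxeterSystem.simple_induction_left with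
  | one => exact ⟨1, one_mem _, 1, one_mem _, (mul_one 1).symm⟩
  | mul_simple_left w i ih =>
    obtain ⟨a, ha, b, hb, rfl⟩ := ih
    have hi : i ∈ J ∪ K := by rw [hJK]; trivial
    rcases hi with hi | hi
    · exact ⟨sm M i * a, mul_mem (sm_mem_par M hi) ha, b, hb, (mul_assoc _ _ _).symm⟩
    · refine ⟨a, ha, sm M i * b, mul_mem (sm_mem_par M hi) hb, ?_⟩
      have hc := comm_par M J i (fun j hj => h j hj i hi) a ha
      show sm M i * (a * b) = a * (sm M i * b)
      rw [← mul_assoc, hc, mul_assoc]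

theorem bil_add_self {B : Type*} [Fintype B] [DecidableEq B] (M : CoxeterMatrix B)
    (u v : B → ℝ) : bil M (u + v) (u + v) = bil M u u + 2 * bil M u v + bil M v v := by
  simp only [map_add, LinearMap.add_apply, bil_symm M v u]
  ring

theorem bil_sub_self {B : Type*} [Fintype B] [DecidableEq B] (M : CoxeterMatrix B)
    (u v : B → ℝ) : bil M (u - v) (u - v) = bil M u u - 2 * bil M u v + bil M v v := by
  simp only [map_sub, LinearMap.sub_apply, bil_symm M v u]
  ring

theorem abs_bil_le_one {B : Type*} [Fintype B] [DecidableEq B] (M : CoxeterMatrix B)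
    (hpsd : ∀ v, 0 ≤ bil M v v) (w : M.Group) (i j : B) :
    |bil M (ee i) (gr M w (ee j))| ≤ 1 := by
  have h1 := hpsd (ee i + gr M w (ee j))
  have h2 := hpsd (ee i - gr M w (ee j))
  rw [bil_add_self, bil_gr, bil_ee, bil_ee, cosM_self, cosM_self] at h1
  rw [bil_sub_self, bil_gr, bil_ee, bil_ee, cosM_self, cosM_self] at h2
  rw [abs_le]
  constructor <;> linarith

theorem neg_one_le_cosM {B : Type*} (M : CoxeterMatrix B) (i j : B) : -1 ≤ cosM M i j := by
  unfold cosM
  split_ifs
  · exact le_rfl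
  · exact neg_le_neg (Real.cos_le_one _)

theorem psd_one (M : CoxeterMatrix (Fin (1 + 1))) (v : Fin (1 + 1) → ℝ) : 0 ≤ bil M v v := by
  rw [bil_apply]
  have e : ∑ i, ∑ j, v i * cosM M i j * v j =
      (v 0 * cosM M 0 0 * v 0 + v 0 * cosM M 0 1 * v 1) +
        (v 1 * cosM M 1 0 * v 0 + v 1 * cosM M 1 1 * v 1) := by
    rw [Fin.sum_univ_succ]
    simp only [Fin.sum_univ_succ, Fin.sum_univ_zero, add_zero]
    rfl
  rw [e, cosM_self, cosM_self, cosM_symm M 1 0]
  have h1 := neg_one_le_cosM M 0 1
  have h2 : cosM M 0 1 ≤ 0 := cosM_nonpos (by decide)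
  nlinarith [sq_nonneg (v 0 + v 1), sq_nonneg (v 0 - v 1), mul_nonneg (sub_nonneg.2 h2) (sq_nonneg (v 0 + v 1)),
    mul_nonneg (by linarith : (0 : ℝ) ≤ 1 + cosM M 0 1) (sq_nonneg (v 0 + v 1)),
    mul_nonneg (by linarith : (0 : ℝ) ≤ 1 - cosM M 0 1) (sq_nonneg (v 0 - v 1))]

end Degenerate

open Degenerate

theorem hirr_of_infinite {d : ℕ} (M : CoxeterMatrix (Fin (d + 1)))
    (hstr : ∀ i j : Fin (d + 1), i.1 + 1 < j.1 → M i j = 2)
    (hfin : ∀ i, (par M {i}ᶜ : Set M.Group).Finite) (hinf : Infinite M.Group) (i : Fin d) :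
    M i.castSucc i.succ ≠ 2 := by
  intro h2
  set J : Set (Fin (d + 1)) := {j | j.1 ≤ i.1} with hJ
  set K : Set (Fin (d + 1)) := {j | i.1 < j.1} with hK
  have hJK : J ∪ K = Set.univ := by
    ext j
    simp only [hJ, hK, mem_union, mem_ofPred_eq, mem_univ, iff_true]
    exact le_or_gt _ _
  have hcomm : ∀ j ∈ J, ∀ k ∈ K, M j k = 2 := by
    intro j hj k hk
    simp only [hJ, mem_ofPred_eq] at hj
    simp only [hK, mem_ofPred_eq] at hk
    rcases Nat.lt_or_ge (j.1 + 1) k.1 with h | h
    · exact hstr j k h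
    · have hj' : j = i.castSucc := by
        apply Fin.ext
        simp only [Fin.val_castSucc]
        omega
      have hk' : k = i.succ := by
        apply Fin.ext
        simp only [Fin.val_succ]
        omega
      rw [hj', hk', h2]
  have hJfin : (par M J : Set M.Group).Finite := by
    refine (hfin (Fin.last d)).subset (par_mono M ?_)
    intro j hj
    simp only [hJ, mem_ofPred_eq] at hj
    simp only [mem_compl_iff, mem_singleton_iff]
    intro h
    rw [h, Fin.val_last] at hj
    exact absurd i.2 (not_lt.2 hj)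
  have hKfin : (par M K : Set M.Group).Finite := by
    refine (hfin 0).subset (par_mono M ?_)
    intro j hj
    simp only [hK, mem_ofPred_eq] at hj
    simp only [mem_compl_iff, mem_singleton_iff]
    intro h
    rw [h] at hj
    simp at hj
  have hfinG : (Set.univ : Set M.Group).Finite := by
    refine (hJfin.mul hKfin).subset ?_
    intro w _
    obtain ⟨a, ha, b, hb, rfl⟩ := decomp M J K hJK hcomm w
    exact Set.mul_mem_mul ha hb
  exact hinf.not_finite (Set.finite_univ_iff.1 hfinG)

theorem degenerate {d : ℕ} (hd : 0 < d) (M : CoxeterMatrix (Fin (d + 1)))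
    (hstr : ∀ i j : Fin (d + 1), i.1 + 1 < j.1 → M i j = 2)
    (hfin : ∀ i, (par M {i}ᶜ : Set M.Group).Finite) (hinf : Infinite M.Group)
    (hg : PolyGrowth d M) : ∃ δ : Fin (d + 1) → ℝ, δ ≠ 0 ∧ ∀ v, bil M δ v = 0 := by
  by_contra hcon
  have hnd : ∀ δ : Fin (d + 1) → ℝ, (∀ v, bil M δ v = 0) → δ = 0 := by
    intro δ hδ
    by_contra hne
    exact hcon ⟨δ, hne, hδ⟩
  have hbig : ∃ (w : M.Group) (i j : Fin (d + 1)), 1 < |bil M (ee i) (gr M w (ee j))| := by
    by_contra hno
    push Not at hno
    exact hinf.not_finite (finite_of_bounded M hnd hno)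
  obtain ⟨w, i, j, hw⟩ := hbig
  rcases Nat.lt_or_ge 1 d with h2 | h1
  · refine not_polyGrowth (d := d) h2 M (fun i => ?_) hnd (fun l v hv hne => ?_) w i j hw d hg
    · exact (cosM_neg (Fin.castSucc_lt_succ (i := i)).ne
        (hirr_of_infinite M hstr hfin hinf i)).ne
    · refine posDef_of_finite_par M {l}ᶜ (hfin l) v hne (fun i hi => ?_)
      have : i = l := by simpa using hi
      rw [this, hv]
  · have hd1 : d = 1 := by omega
    subst hd1
    exact absurd (abs_bil_le_one M (psd_one M) w i j) (not_le.2 hw)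

end Pool.Agent.CRT
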