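import Pool.Agent.CRT.Connect

/-!
# Module E: the developing map (simple connectivity of `𝔼^d`)

Paper proof.  Call `y` good if at most two of its coordinates `co i y` vanish.
`IsSec S g` : `g : Chamber → W` is a section over `S`: for all `y ∈ S`, `Φ ∋ y` and `i` with
`lam Φ i y = 0` : `g (sig i Φ) = g Φ * s i`.

(1) For every good `y` there is a section over `{y}`, by `hloc` (if fewer than two coordinates
vanish choose extra indices; `d > 0`).
(2) If `g` is a section over `{y}` then also over `ball y r`, `r` from `exists_ball`: if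
`z ∈ ball y r`, `Φ ∋ z` then `Φ ∋ y`, and `lam Φ i z = 0 → lam Φ i y = 0` needs a smaller `r`:
choose `r` such that moreover for the finitely many `Φ ∋ y` the positive coordinates at `y` stay
positive on `ball y r`.  So `{y : IsSec {y} g}` is open.
(3) Uniqueness: if `S` is preconnected and `g`, `g'` are sections over `S` and they agree on one
chamber containing a point of `S`, then they agree on all chambers meeting `S`.  [`f(y) = (g' Φ)(g Φ)⁻¹`
for any `Φ ∋ y` is well defined by `reach_of_mem_dom` and locally constant by `exists_ball`.]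
(4) Gluing: if `S₁`, `S₂` are closed, `S₁ ∪ S₂`, `S₁ ∩ S₂` convex, `S₁ ∩ S₂` nonempty, and both
carry sections then `S₁ ∪ S₂` does: normalise to agree on the chambers meeting `S₁ ∩ S₂` (by (3),
multiply on the left by a constant), `g = g₁` on chambers meeting `S₁`, `g₂` on the others.  A
chamber `Φ` meeting both `S₁` and `S₂` meets `S₁ ∩ S₂`, since `dom Φ ∩ (S₁ ∪ S₂)` is convex, hence
connected, and covered by two closed sets.  (If `y ∈ S₁`, `Φ ∋ y`, `lam Φ i y = 0` then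
`sig i Φ ∋ y`.)
(5) Every segment `[a,p]` of good points carries a section: Lebesgue number / sup argument
(`exists_monotone_Icc_subset_open_cover_unitInterval`) with (1), (2), (4).
(6) Let `[a,p_v]`, `p_v = (1-v)p₀ + v p₁`, `v ∈ [0,1]`, be a family of segments of good points (i.e.
the triangle `a p₀ p₁` is good), `Φ₀ ∋ a`, `Φ ∋ p_v` for all `v`; `g_v` = section over `[a,p_v]`
with `g_v(Φ₀) = 1`.  Then `g₀(Φ) = g₁(Φ)`: for `v'` close to `v`, `g_v` is a section over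
`[a,p_{v'}]` ((2) and compactness of `[a,p_v]`), so `g_{v'} = g_v` on chambers meeting it ((3)); so
`v ↦ g_v(Φ)` is locally constant on `[0,1]`.
(7) Generic apex: let `x_Φ` be the centroid of `dom Φ` and `m_{Φ,i}` the centroid of its `i`-th
panel (in `dom Φ ∩ dom (sig i Φ)`).  Choose `a ∈ interior (dom Φ₀)` outside the affine spans of
`{x_Φ, m_{Φ,i}} ∪ {b(Θ_l) : l ∉ {j₁,j₂,j₃}}` for all chambers `Φ, Θ`, ranks `i` and triples
of distinct ranks `j₁,j₂,j₃` : `2 + (d-2) = d` points, proper subspaces.  Then the triangles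
`a, x_Φ, m_{Φ,i}` consist of good points: if `q = α a + β x_Φ + γ m_{Φ,i}` has three vanishing
coordinates in `Θ ∋ q` then `α > 0` (points of `[x_Φ, m_{Φ,i}] ⊆ dom Φ` have at most one vanishing
coordinate), so `a` is in that span.
(8) `D Φ := g Φ`, `g` a section over `[a,x_Φ]` with `g Φ₀ = 1`.  By (6), `D Φ = g' Φ` and
`D (sig i Φ) = g' (sig i Φ)` where `g'` is the section over `[a, m_{Φ,i}]`, `g' Φ₀ = 1` (for
`sig i Φ` note `m_{sig i Φ, i} = m_{Φ,i}`), and `g' (sig i Φ) = g' Φ * s i` at the point `m_{Φ,i}`.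
-/

namespace Pool.Agent.CRT

open Set

variable {d : ℕ} {V : Type*} [PartialOrder V] {b : V → Sp d}

namespace IsCx

variable (h : IsCx b) {W : Type*} [Group W] (s : Fin (d + 1) → W)

/-- sections over a set. -/
def IsSec (S : Set (Sp d)) (g : Chamber d V → W) : Prop :=
  ∀ y ∈ S, ∀ Φ, y ∈ h.dom Φ → ∀ i, h.lam Φ i y = 0 → g (sig i Φ) = g Φ * s i

theorem sig_mem_dom {y : Sp d} {Φ : Chamber d V} (hy : y ∈ h.dom Φ) {i : Fin (d + 1)}
    (hi : h.lam Φ i y = 0) : y ∈ h.dom (sig i Φ) := by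
  apply h.mem_dom_of_agree hy
  intro j hj
  have : j ≠ i := fun he => hj (he ▸ hi)
  exact (h.sig_apply_ne this Φ).symm

theorem IsSec.mono {S S' : Set (Sp d)} {g : Chamber d V → W} (hS : S ⊆ S')
    (hg : h.IsSec s S' g) : h.IsSec s S g := fun y hy => hg y (hS hy)

theorem IsSec.union {S S' : Set (Sp d)} {g : Chamber d V → W} (hg : h.IsSec s S g)
    (hg' : h.IsSec s S' g) : h.IsSec s (S ∪ S') g := by
  rintro y (hy | hy)
  · exact hg y hy
  · exact hg' y hy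

theorem IsSec.mul_left {S : Set (Sp d)} {g : Chamber d V → W} (w : W)
    (hg : h.IsSec s S g) : h.IsSec s S (fun Φ => w * g Φ) := by
  intro y hy Φ hΦ i hi
  simp only [hg y hy Φ hΦ i hi, mul_assoc]

/-- Near `x`, all chambers contain `x` and vanishing coordinates vanish at `x`. -/
theorem eventually_star (x : Sp d) : ∀ᶠ z in nhds x, ∀ Φ, z ∈ h.dom Φ →
    x ∈ h.dom Φ ∧ ∀ i, h.lam Φ i z = 0 → h.lam Φ i x = 0 := by
  obtain ⟨r, hr, hball⟩ := h.exists_ball x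
  have hfin : {Φ : Chamber d V | x ∈ h.dom Φ}.Finite := by
    refine (h.locFin {x} isCompact_singleton).subset fun Φ hΦ => ⟨x, ?_, rfl⟩
    rw [← h.dom_eq]; exact hΦ
  have h1 : ∀ᶠ z in nhds x, ∀ Φ ∈ {Φ : Chamber d V | x ∈ h.dom Φ},
      ∀ i, h.lam Φ i z = 0 → h.lam Φ i x = 0 := by
    rw [Filter.eventually_all_finite hfin]
    intro Φ _
    rw [Filter.eventually_all]
    intro i
    by_cases hi : h.lam Φ i x = 0
    · exact Filter.Eventually.of_forall fun z _ => hi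
    · have : ∀ᶠ z in nhds x, h.lam Φ i z ≠ 0 :=
        (h.continuous_lam Φ i).continuousAt.eventually_ne hi
      filter_upwards [this] with z hz hz0
      exact absurd hz0 hz
  filter_upwards [h1, Metric.ball_mem_nhds x hr] with z hz hzr Φ hΦ
  have hx : x ∈ h.dom Φ := hball Φ ⟨z, hΦ, hzr⟩
  exact ⟨hx, hz Φ hx⟩

theorem IsSec.eventually {x : Sp d} {g : Chamber d V → W} (hg : h.IsSec s {x} g) :
    ∀ᶠ z in nhds x, h.IsSec s {z} g := by
  filter_upwards [h.eventually_star x] with z hz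
  rintro y rfl Φ hΦ i hi
  exact hg x rfl Φ (hz Φ hΦ).1 i ((hz Φ hΦ).2 i hi)

theorem isOpen_isSec (g : Chamber d V → W) : IsOpen {z | h.IsSec s {z} g} := by
  rw [isOpen_iff_eventually]
  intro x hx
  exact IsSec.eventually h s hx

/-- `g' Φ * (g Φ)⁻¹` is independent of the chamber at a point. -/
theorem IsSec.ratio {S : Set (Sp d)} {g g' : Chamber d V → W} (hg : h.IsSec s S g)
    (hg' : h.IsSec s S g') {y : Sp d} (hy : y ∈ S) {Φ Ψ : Chamber d V} (hΦ : y ∈ h.dom Φ)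
    (hΨ : y ∈ h.dom Ψ) : g' Φ * (g Φ)⁻¹ = g' Ψ * (g Ψ)⁻¹ := by
  have hR := h.reach_of_mem_dom hΦ hΨ
  have : y ∈ h.dom Ψ ∧ g' Φ * (g Φ)⁻¹ = g' Ψ * (g Ψ)⁻¹ := by
    clear hΨ
    induction hR with
    | refl => exact ⟨hΦ, rfl⟩
    | tail _ hstep ih =>
      obtain ⟨i, hi, rfl⟩ := hstep
      rename_i Θ _
      obtain ⟨hΘ, hval⟩ := ih
      have hi0 : h.lam Θ i y = 0 := by
        rw [← h.co_eq hΘ]; exact hi
      refine ⟨h.sig_mem_dom hΘ hi0, ?_⟩
      rw [hval, hg y hy Θ hΘ i hi0, hg' y hy Θ hΘ i hi0]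
      group
  exact this.2

/-- Uniqueness of sections on preconnected sets. -/
theorem IsSec.unique {S : Set (Sp d)} (hS : IsPreconnected S) {g g' : Chamber d V → W}
    (hg : h.IsSec s S g) (hg' : h.IsSec s S g') {y z : Sp d} (hy : y ∈ S) (hz : z ∈ S)
    {Φ Ψ : Chamber d V} (hΦ : y ∈ h.dom Φ) (hΨ : z ∈ h.dom Ψ) (he : g Φ = g' Φ) :
    g Ψ = g' Ψ := by
  let c : Sp d → Chamber d V := fun y => (h.exists_mem_dom y).choose
  have hc : ∀ y, y ∈ h.dom (c y) := fun y => (h.exists_mem_dom y).choose_spec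
  have hconst := const_of_locally hS (fun y => g' (c y) * (g (c y))⁻¹) (fun x hx => by
    have h1 := (h.eventually_star x).filter_mono (nhdsWithin_le_nhds (s := S))
    filter_upwards [h1] with z hz
    exact IsSec.ratio h s hg hg' hx (hz _ (hc z)).1 (hc x)) hy hz
  have h1 : g' Φ * (g Φ)⁻¹ = g' (c y) * (g (c y))⁻¹ := IsSec.ratio h s hg hg' hy hΦ (hc y)
  have h2 : g' Ψ * (g Ψ)⁻¹ = g' (c z) * (g (c z))⁻¹ := IsSec.ratio h s hg hg' hz hΨ (hc z)
  have h3 : g' Ψ * (g Ψ)⁻¹ = 1 := by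
    rw [h2, ← hconst, ← h1, he]; group
  exact (mul_inv_eq_one.1 h3).symm

/-- Gluing. -/
theorem IsSec.glue {S₁ S₂ : Set (Sp d)} {q : Sp d} (hq₁ : q ∈ S₁) (hq₂ : q ∈ S₂)
    (hmeet : ∀ Φ, (h.dom Φ ∩ S₁).Nonempty → (h.dom Φ ∩ S₂).Nonempty → q ∈ h.dom Φ)
    {g₁ g₂ : Chamber d V → W} (hg₁ : h.IsSec s S₁ g₁) (hg₂ : h.IsSec s S₂ g₂) :
    ∃ g, h.IsSec s (S₁ ∪ S₂) g := by
  classical
  obtain ⟨Φq, hΦq⟩ := h.exists_mem_dom q
  have hg₂' := IsSec.mul_left h s (g₁ Φq * (g₂ Φq)⁻¹) hg₂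
  set g₂' : Chamber d V → W := fun Φ => g₁ Φq * (g₂ Φq)⁻¹ * g₂ Φ with hg₂'def
  have hagree : ∀ Φ, q ∈ h.dom Φ → g₁ Φ = g₂' Φ := by
    intro Φ hΦ
    refine IsSec.unique h s (isPreconnected_singleton (x := q))
      (IsSec.mono h s (singleton_subset_iff.2 hq₁) hg₁)
      (IsSec.mono h s (singleton_subset_iff.2 hq₂) hg₂') rfl rfl hΦq hΦ ?_
    simp [hg₂'def]
  refine ⟨fun Φ => if (h.dom Φ ∩ S₁).Nonempty then g₁ Φ else g₂' Φ, ?_⟩
  apply IsSec.union
  · intro y hy Φ hΦ i hi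
    have h1 : (h.dom Φ ∩ S₁).Nonempty := ⟨y, hΦ, hy⟩
    have h2 : (h.dom (sig i Φ) ∩ S₁).Nonempty := ⟨y, h.sig_mem_dom hΦ hi, hy⟩
    simp only [if_pos h1, if_pos h2]
    exact hg₁ y hy Φ hΦ i hi
  · have key : ∀ Φ, (h.dom Φ ∩ S₂).Nonempty →
        (if (h.dom Φ ∩ S₁).Nonempty then g₁ Φ else g₂' Φ) = g₂' Φ := by
      intro Φ h2
      split_ifs with h1
      · exact hagree Φ (hmeet Φ h1 h2)
      · rfl
    intro y hy Φ hΦ i hi
    have h1 : (h.dom Φ ∩ S₂).Nonempty := ⟨y, hΦ, hy⟩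
    have h2 : (h.dom (sig i Φ) ∩ S₂).Nonempty := ⟨y, h.sig_mem_dom hΦ hi, hy⟩
    simp only [key _ h1, key _ h2]
    exact hg₂' y hy Φ hΦ i hi

/-- Good points: at most two vanishing coordinates. -/
def Good (y : Sp d) : Prop := ∃ i j : Fin (d + 1), i ≠ j ∧ ∀ k, k ≠ i → k ≠ j → h.co k y ≠ 0

/-- local data hypothesis -/
def Loc (_h : IsCx b) (s : Fin (d + 1) → W) : Prop :=
  ∀ i j : Fin (d + 1), i ≠ j → ∀ Φ : Chamber d V, ∃ g : Chamber d V → W,
      ∀ Ψ : Chamber d V, (∀ k, k ≠ i → k ≠ j → Ψ k = Φ k) →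
        g (sig i Ψ) = g Ψ * s i ∧ g (sig j Ψ) = g Ψ * s j

theorem exists_sec_point (hloc : h.Loc s) {y : Sp d} (hy : h.Good y) :
    ∃ g : Chamber d V → W, h.IsSec s {y} g := by
  obtain ⟨i, j, hij, hk⟩ := hy
  obtain ⟨Φ, hΦ⟩ := h.exists_mem_dom y
  obtain ⟨g, hg⟩ := hloc i j hij Φ
  refine ⟨g, ?_⟩
  rintro z rfl Ψ hΨ k hk0
  have hag : ∀ k, k ≠ i → k ≠ j → Ψ k = Φ k := by
    intro k hki hkj
    have h1 : h.lam Ψ k z ≠ 0 := by
      rw [← h.co_eq hΨ]; exact hk k hki hkj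
    exact (h.lam_compat hΨ hΦ k).2 h1
  have hkij : k = i ∨ k = j := by
    by_contra hcon
    push Not at hcon
    apply hk k hcon.1 hcon.2
    rw [h.co_eq hΨ]; exact hk0
  rcases hkij with rfl | rfl
  · exact (hg Ψ hag).1
  · exact (hg Ψ hag).2

theorem exists_sec_segment (hloc : h.Loc s) {a p : Sp d} (hgood : ∀ y ∈ segment ℝ a p, h.Good y) :
    ∃ g : Chamber d V → W, h.IsSec s (segment ℝ a p) g := by
  let γ : unitInterval → Sp d := fun t => AffineMap.lineMap a p (t : ℝ)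
  have hγc : Continuous γ := by
    have : Continuous fun t : ℝ => (AffineMap.lineMap a p t : Sp d) :=
      AffineMap.lineMap_continuous
    exact this.comp continuous_subtype_val
  have hγmem : ∀ t, γ t ∈ segment ℝ a p := fun t => by
    rw [segment_eq_image_lineMap]
    exact ⟨t, t.2, rfl⟩
  obtain ⟨t, ht0, htm, ⟨n, hn⟩, hsub⟩ :=
    exists_monotone_Icc_subset_open_cover_unitInterval
      (c := fun g : Chamber d V → W => {t : unitInterval | h.IsSec s {γ t} g})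
      (fun g => (h.isOpen_isSec s g).preimage hγc) (fun t _ => by
        obtain ⟨g, hg⟩ := h.exists_sec_point s hloc (hgood _ (hγmem t))
        exact mem_iUnion.2 ⟨g, hg⟩)
  have step : ∀ m, ∃ g : Chamber d V → W, h.IsSec s (γ '' Icc 0 (t m)) g := by
    intro m
    induction m with
    | zero =>
      obtain ⟨g, hg⟩ := h.exists_sec_point s hloc (hgood _ (hγmem 0))
      refine ⟨g, ?_⟩
      rw [ht0, Icc_self, image_singleton]
      exact hg
    | succ m ih =>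
      obtain ⟨g₁, hg₁⟩ := ih
      obtain ⟨g₂, hg₂⟩ := hsub m
      have hg₂' : h.IsSec s (γ '' Icc (t m) (t (m + 1))) g₂ := by
        rintro y ⟨u, hu, rfl⟩
        exact hg₂ hu (γ u) rfl
      have hle : t m ≤ t (m + 1) := htm (Nat.le_succ m)
      have hmeet : ∀ Φ, (h.dom Φ ∩ γ '' Icc 0 (t m)).Nonempty →
          (h.dom Φ ∩ γ '' Icc (t m) (t (m + 1))).Nonempty → γ (t m) ∈ h.dom Φ := by
        rintro Φ ⟨_, hu, u, hu', rfl⟩ ⟨_, hv, v, hv', rfl⟩
        have huv : (γ (t m)) ∈ segment ℝ (γ u) (γ v) := by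
          have h1 : (u : ℝ) ≤ t m := hu'.2
          have h2 : (t m : ℝ) ≤ v := hv'.1
          have h3 : ((t m : ℝ)) ∈ segment ℝ (u : ℝ) (v : ℝ) := by
            rw [segment_eq_Icc (h1.trans h2)]; exact ⟨h1, h2⟩
          have h4 := image_segment ℝ (AffineMap.lineMap a p : ℝ →ᵃ[ℝ] Sp d) (u : ℝ) (v : ℝ)
          change _ ∈ segment ℝ ((AffineMap.lineMap a p : ℝ →ᵃ[ℝ] Sp d) u)
            ((AffineMap.lineMap a p : ℝ →ᵃ[ℝ] Sp d) v)
          rw [← h4]
          exact ⟨t m, h3, rfl⟩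
        exact (h.convex_dom Φ).segment_subset hu hv huv
      have hq1 : γ (t m) ∈ γ '' Icc 0 (t m) := ⟨t m, ⟨(t m).2.1, le_rfl⟩, rfl⟩
      have hq2 : γ (t m) ∈ γ '' Icc (t m) (t (m + 1)) := ⟨t m, ⟨le_rfl, hle⟩, rfl⟩
      obtain ⟨g, hg⟩ := IsSec.glue h s hq1 hq2 hmeet hg₁ hg₂'
      refine ⟨g, IsSec.mono h s ?_ hg⟩
      rw [← image_union]
      apply image_mono
      intro u hu
      rcases le_total u (t m) with h1 | h1
      · exact Or.inl ⟨hu.1, h1⟩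
      · exact Or.inr ⟨h1, hu.2⟩
  obtain ⟨g, hg⟩ := step n
  refine ⟨g, IsSec.mono h s ?_ hg⟩
  rw [segment_eq_image_lineMap, hn n le_rfl]
  rintro _ ⟨u, hu, rfl⟩
  exact ⟨⟨u, hu⟩, ⟨hu.1, hu.2⟩, rfl⟩

/-- Normalised sections. -/
theorem exists_sec_segment' (hloc : h.Loc s) {a p : Sp d}
    (hgood : ∀ y ∈ segment ℝ a p, h.Good y) (Φ₀ : Chamber d V) :
    ∃ g : Chamber d V → W, h.IsSec s (segment ℝ a p) g ∧ g Φ₀ = 1 := by
  obtain ⟨g, hg⟩ := h.exists_sec_segment s hloc hgood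
  exact ⟨_, IsSec.mul_left h s (g Φ₀)⁻¹ hg, by simp⟩

/-- Homotopy invariance. -/
theorem sec_homotopy (hloc : h.Loc s) {a p₀ p₁ : Sp d}
    (hgood : ∀ v ∈ Icc (0 : ℝ) 1, ∀ y ∈ segment ℝ a (AffineMap.lineMap p₀ p₁ v), h.Good y)
    {Φ₀ Φ : Chamber d V} (hΦ₀ : a ∈ h.dom Φ₀)
    (hΦ : ∀ v ∈ Icc (0 : ℝ) 1, AffineMap.lineMap p₀ p₁ v ∈ h.dom Φ) {g₀ g₁ : Chamber d V → W}
    (hg₀ : h.IsSec s (segment ℝ a p₀) g₀) (hg₁ : h.IsSec s (segment ℝ a p₁) g₁)
    (hn₀ : g₀ Φ₀ = 1) (hn₁ : g₁ Φ₀ = 1) : g₀ Φ = g₁ Φ := by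
  classical
  -- choice of sections
  have hex : ∀ v : ℝ, ∃ g : Chamber d V → W, v ∈ Icc (0 : ℝ) 1 →
      h.IsSec s (segment ℝ a (AffineMap.lineMap p₀ p₁ v)) g ∧ g Φ₀ = 1 := by
    intro v
    by_cases hv : v ∈ Icc (0 : ℝ) 1
    · obtain ⟨g, hg, hg'⟩ := h.exists_sec_segment' s hloc (hgood v hv) Φ₀
      exact ⟨g, fun _ => ⟨hg, hg'⟩⟩
    · exact ⟨fun _ => 1, fun hv' => absurd hv' hv⟩
  choose G hG using hex
  have hpre : ∀ p : Sp d, IsPreconnected (segment ℝ a p) := fun p =>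
    (convex_segment a p).isPreconnected
  have hcmp : ∀ v ∈ Icc (0 : ℝ) 1, ∀ g : Chamber d V → W,
      h.IsSec s (segment ℝ a (AffineMap.lineMap p₀ p₁ v)) g → g Φ₀ = 1 → G v Φ = g Φ := by
    intro v hv g hg hg1
    refine IsSec.unique h s (hpre _) (hG v hv).1 hg (left_mem_segment ℝ a _)
      (right_mem_segment ℝ a _) hΦ₀ (hΦ v hv) ?_
    rw [(hG v hv).2, hg1]
  have hloccst : ∀ v ∈ Icc (0 : ℝ) 1, ∀ᶠ v' in nhdsWithin v (Icc (0 : ℝ) 1),
      G v' Φ = G v Φ := by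
    intro v hv
    have hopen := h.isOpen_isSec s (G v)
    have htube : ∀ᶠ v' in nhds v, ∀ t ∈ Icc (0 : ℝ) 1,
        (AffineMap.lineMap a (AffineMap.lineMap p₀ p₁ v' : Sp d) t : Sp d) ∈
          {z | h.IsSec s {z} (G v)} := by
      refine IsCompact.eventually_forall_of_forall_eventually isCompact_Icc ?_
      intro t ht
      have hcont : Continuous fun z : ℝ × ℝ =>
          (AffineMap.lineMap a (AffineMap.lineMap p₀ p₁ z.1 : Sp d) z.2 : Sp d) := by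
        simp only [AffineMap.lineMap_apply_module]
        fun_prop
      have hmem : (AffineMap.lineMap a (AffineMap.lineMap p₀ p₁ v : Sp d) t : Sp d) ∈
          {z | h.IsSec s {z} (G v)} := by
        have h1 : (AffineMap.lineMap a (AffineMap.lineMap p₀ p₁ v : Sp d) t : Sp d) ∈
            segment ℝ a (AffineMap.lineMap p₀ p₁ v) := by
          rw [segment_eq_image_lineMap]
          exact ⟨t, ht, rfl⟩
        exact IsSec.mono h s (singleton_subset_iff.2 h1) (hG v hv).1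
      exact hcont.continuousAt.eventually (hopen.mem_nhds hmem)
    have h2 := htube.filter_mono (nhdsWithin_le_nhds (s := Icc (0 : ℝ) 1))
    filter_upwards [h2, self_mem_nhdsWithin] with v' hv' hv'mem
    refine hcmp v' hv'mem (G v) ?_ (hG v hv).2
    intro y hy
    rw [segment_eq_image_lineMap] at hy
    obtain ⟨t, ht, rfl⟩ := hy
    exact hv' t ht _ rfl
  have h0 : (0 : ℝ) ∈ Icc (0 : ℝ) 1 := ⟨le_rfl, zero_le_one⟩
  have h1 : (1 : ℝ) ∈ Icc (0 : ℝ) 1 := ⟨zero_le_one, le_rfl⟩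
  have hc := const_of_locally (isPreconnected_Icc (a := (0 : ℝ)) (b := 1)) (fun v => G v Φ)
    hloccst h0 h1
  have e0 : G 0 Φ = g₀ Φ := hcmp 0 h0 g₀ (by simpa using hg₀) hn₀
  have e1 : G 1 Φ = g₁ Φ := hcmp 1 h1 g₁ (by simpa using hg₁) hn₁
  rw [← e0, ← e1]
  exact hc

/-! ### The generic apex -/

/-- The centroid of a chamber. -/
noncomputable def cen (b : V → Sp d) (Φ : Chamber d V) : Sp d :=
  ∑ j, ((d : ℝ) + 1)⁻¹ • b (Φ j)

/-- The centroid of a panel. -/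
noncomputable def pan (b : V → Sp d) (Φ : Chamber d V) (i : Fin (d + 1)) : Sp d :=
  ∑ j, (if j = i then 0 else (d : ℝ)⁻¹) • b (Φ j)

theorem lam_cen (Φ : Chamber d V) (i : Fin (d + 1)) : h.lam Φ i (cen b Φ) = ((d : ℝ) + 1)⁻¹ := by
  unfold cen
  rw [h.lam_sum_smul Φ (fun _ => ((d : ℝ) + 1)⁻¹)]
  rw [Finset.sum_const, Finset.card_univ, Fintype.card_fin, nsmul_eq_mul]
  push_cast
  field_simp

theorem sum_pan_weights (hd : 0 < d) (i : Fin (d + 1)) :
    ∑ j : Fin (d + 1), (if j = i then 0 else (d : ℝ)⁻¹) = 1 := by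
  have h1 : ∑ j : Fin (d + 1), (if j = i then 0 else (d : ℝ)⁻¹) =
      ∑ j : Fin (d + 1), ((d : ℝ)⁻¹ - if j = i then (d : ℝ)⁻¹ else 0) := by
    refine Finset.sum_congr rfl fun j _ => ?_
    split_ifs <;> simp
  rw [h1, Finset.sum_sub_distrib, Finset.sum_const, Finset.sum_ite_eq' Finset.univ i]
  simp only [Finset.card_univ, Fintype.card_fin, Finset.mem_univ, if_true, nsmul_eq_mul]
  have : (d : ℝ) ≠ 0 := by positivity
  push_cast
  field_simp
  ring

theorem lam_pan (Φ : Chamber d V) (i j : Fin (d + 1)) :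
    h.lam Φ j (pan b Φ i) = if j = i then 0 else (d : ℝ)⁻¹ := by
  unfold pan
  rw [h.lam_sum_smul Φ (fun j => if j = i then 0 else (d : ℝ)⁻¹) (sum_pan_weights h.pos i)]

include h in
theorem pan_sig (Φ : Chamber d V) (i : Fin (d + 1)) : pan b (sig i Φ) i = pan b Φ i := by
  unfold pan
  refine Finset.sum_congr rfl fun j _ => ?_
  by_cases hj : j = i
  · simp [hj]
  · rw [h.sig_apply_ne hj Φ]

theorem cen_mem (Φ : Chamber d V) : cen b Φ ∈ h.dom Φ := fun i => by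
  rw [h.lam_cen]; positivity

theorem pan_mem (Φ : Chamber d V) (i : Fin (d + 1)) : pan b Φ i ∈ h.dom Φ := fun j => by
  rw [h.lam_pan]; split_ifs <;> positivity

theorem good_of_not_three {y : Sp d}
    (hy : ¬ ∃ j₁ j₂ j₃ : Fin (d + 1), j₁ ≠ j₂ ∧ j₁ ≠ j₃ ∧ j₂ ≠ j₃ ∧ h.co j₁ y = 0 ∧
      h.co j₂ y = 0 ∧ h.co j₃ y = 0) : h.Good y := by
  classical
  let Z : Finset (Fin (d + 1)) := Finset.univ.filter fun k => h.co k y = 0
  have hZ : Z.card ≤ 2 := by
    by_contra hcon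
    push Not at hcon
    obtain ⟨a, b', c, ha, hb, hc, hab, hac, hbc⟩ := Finset.two_lt_card_iff.1 hcon
    exact hy ⟨a, b', c, hab, hac, hbc, (Finset.mem_filter.1 ha).2, (Finset.mem_filter.1 hb).2,
      (Finset.mem_filter.1 hc).2⟩
  have hpos := h.pos
  obtain ⟨Z', hZZ', -, hcard⟩ := Finset.exists_subsuperset_card_eq (Finset.subset_univ Z) hZ
    (by rw [Finset.card_univ, Fintype.card_fin]; omega)
  obtain ⟨i, j, hij, rfl⟩ := Finset.card_eq_two.1 hcard
  refine ⟨i, j, hij, fun k hki hkj hk => ?_⟩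
  have : k ∈ ({i, j} : Finset (Fin (d + 1))) := hZZ' (Finset.mem_filter.2 ⟨Finset.mem_univ k, hk⟩)
  simp [hki, hkj] at this

/-- index type of the bad subspaces -/
structure BadIdx (d : ℕ) (V : Type*) [PartialOrder V] where
  Φ : Chamber d V
  i : Fin (d + 1)
  Θ : Chamber d V
  j : Fin (d + 1) × Fin (d + 1) × Fin (d + 1)
  ne : j.1 ≠ j.2.1 ∧ j.1 ≠ j.2.2 ∧ j.2.1 ≠ j.2.2

/-- the points spanning a bad subspace -/
noncomputable def badPts (b : V → Sp d) (B : BadIdx d V) :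
    Fin 2 ⊕ {l : Fin (d + 1) // l ≠ B.j.1 ∧ l ≠ B.j.2.1 ∧ l ≠ B.j.2.2} → Sp d
  | Sum.inl 0 => cen b B.Φ
  | Sum.inl 1 => pan b B.Φ B.i
  | Sum.inr l => b (B.Θ l.1)

theorem exists_apex (Φ₀ : Chamber d V) : ∃ a ∈ h.dom Φ₀, ∀ (Φ : Chamber d V) (i : Fin (d + 1)),
    ∀ v ∈ Icc (0 : ℝ) 1, ∀ y ∈ segment ℝ a (AffineMap.lineMap (cen b Φ) (pan b Φ i) v),
      h.Good y := by
  classical
  have : Countable (Chamber d V) := h.countable_chamber
  have : Countable (BadIdx d V) := by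
    let f : BadIdx d V → Chamber d V × Fin (d + 1) × Chamber d V ×
        (Fin (d + 1) × Fin (d + 1) × Fin (d + 1)) := fun B => (B.Φ, B.i, B.Θ, B.j)
    have hf : Function.Injective f := by
      rintro ⟨Φ, i, Θ, j, hj⟩ ⟨Φ', i', Θ', j', hj'⟩ he
      simp only [f, Prod.mk.injEq] at he
      obtain ⟨rfl, rfl, rfl, rfl⟩ := he
      rfl
    exact hf.countable
  have hproper : ∀ B : BadIdx d V, affineSpan ℝ (range (badPts b B)) ≠ ⊤ := by
    intro B
    apply affineSpan_ne_top_of_card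
    rw [Fintype.card_sum, Fintype.card_fin]
    have h1 : Fintype.card {l : Fin (d + 1) // l ≠ B.j.1 ∧ l ≠ B.j.2.1 ∧ l ≠ B.j.2.2} =
        d + 1 - 3 := by
      rw [Fintype.card_subtype]
      have h2 : (Finset.univ.filter fun l : Fin (d + 1) =>
          l ≠ B.j.1 ∧ l ≠ B.j.2.1 ∧ l ≠ B.j.2.2) = Finset.univ \ {B.j.1, B.j.2.1, B.j.2.2} := by
        ext l; simp
      have h3 : ({B.j.1, B.j.2.1, B.j.2.2} : Finset (Fin (d + 1))).card = 3 :=
        Finset.card_eq_three.2 ⟨_, _, _, B.ne.1, B.ne.2.1, B.ne.2.2, rfl⟩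
      rw [h2, Finset.card_sdiff_of_subset (Finset.subset_univ _), h3, Finset.card_univ,
        Fintype.card_fin]
    have h4 : 3 ≤ d + 1 := by
      have h3 : ({B.j.1, B.j.2.1, B.j.2.2} : Finset (Fin (d + 1))).card = 3 :=
        Finset.card_eq_three.2 ⟨_, _, _, B.ne.1, B.ne.2.1, B.ne.2.2, rfl⟩
      rw [← h3]
      exact (Finset.card_le_univ _).trans (by rw [Fintype.card_fin])
    omega
  have hopen : IsOpen (interior (h.dom Φ₀)) := isOpen_interior
  have hne : (interior (h.dom Φ₀)).Nonempty := by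
    refine ⟨cen b Φ₀, ?_⟩
    rw [h.interior_dom]
    intro i
    rw [h.lam_cen]; positivity
  obtain ⟨a, ha, hagen⟩ := exists_generic hopen hne
    (fun B : BadIdx d V => affineSpan ℝ (range (badPts b B))) hproper
  refine ⟨a, interior_subset ha, ?_⟩
  intro Φ i v hv y hy
  apply h.good_of_not_three
  rintro ⟨j₁, j₂, j₃, h12, h13, h23, hz₁, hz₂, hz₃⟩
  obtain ⟨Θ, hΘ⟩ := h.exists_mem_dom y
  rw [h.co_eq hΘ] at hz₁ hz₂ hz₃
  let B : BadIdx d V := ⟨Φ, i, Θ, (j₁, j₂, j₃), h12, h13, h23⟩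
  -- `y` is in the bad subspace
  have hyB : y ∈ affineSpan ℝ (range (badPts b B)) := by
    have hsub : range (fun l : {l : Fin (d + 1) // l ≠ j₁ ∧ l ≠ j₂ ∧ l ≠ j₃} => b (Θ l.1)) ⊆
        range (badPts b B) := by
      rintro _ ⟨l, rfl⟩
      exact ⟨Sum.inr l, rfl⟩
    apply affineSpan_mono ℝ hsub
    have hzero : ∀ l : Fin (d + 1), h.lam Θ l y ≠ 0 → l ≠ j₁ ∧ l ≠ j₂ ∧ l ≠ j₃ := by
      intro l hl
      refine ⟨?_, ?_, ?_⟩ <;> rintro rfl
      · exact hl hz₁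
      · exact hl hz₂
      · exact hl hz₃
    have hs1 : ∑ l : {l : Fin (d + 1) // l ≠ j₁ ∧ l ≠ j₂ ∧ l ≠ j₃}, h.lam Θ l.1 y = 1 := by
      rw [← Finset.sum_subtype (Finset.univ.filter fun l : Fin (d + 1) =>
        l ≠ j₁ ∧ l ≠ j₂ ∧ l ≠ j₃) (by simp) (fun l => h.lam Θ l y),
        Finset.sum_filter_of_ne (fun l _ hl => hzero l hl)]
      exact h.sum_lam Θ y
    have hs2 : ∑ l : {l : Fin (d + 1) // l ≠ j₁ ∧ l ≠ j₂ ∧ l ≠ j₃},
        h.lam Θ l.1 y • b (Θ l.1) = y := by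
      rw [← Finset.sum_subtype (Finset.univ.filter fun l : Fin (d + 1) =>
        l ≠ j₁ ∧ l ≠ j₂ ∧ l ≠ j₃) (by simp) (fun l => h.lam Θ l y • b (Θ l)),
        Finset.sum_filter_of_ne (fun l _ hl => hzero l (fun h0 => hl (by rw [h0, zero_smul])))]
      exact h.sum_lam_smul Θ y
    have h3 := affineCombination_mem_affineSpan (s := (Finset.univ :
      Finset {l : Fin (d + 1) // l ≠ j₁ ∧ l ≠ j₂ ∧ l ≠ j₃}))
      (w := fun l => h.lam Θ l.1 y) hs1 (fun l => b (Θ l.1))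
    rw [Finset.affineCombination_eq_linear_combination _ _ _ hs1, hs2] at h3
    exact h3
  have hcB : cen b Φ ∈ affineSpan ℝ (range (badPts b B)) :=
    subset_affineSpan ℝ _ ⟨Sum.inl 0, rfl⟩
  have hpB : pan b Φ i ∈ affineSpan ℝ (range (badPts b B)) :=
    subset_affineSpan ℝ _ ⟨Sum.inl 1, rfl⟩
  have hqB : (AffineMap.lineMap (cen b Φ) (pan b Φ i) v : Sp d) ∈
      affineSpan ℝ (range (badPts b B)) := AffineMap.lineMap_mem v hcB hpB
  rw [segment_eq_image_lineMap] at hy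
  obtain ⟨t, ht, rfl⟩ := hy
  set q : Sp d := AffineMap.lineMap (cen b Φ) (pan b Φ i) v with hq
  by_cases ht1 : t = 1
  · -- the point is on the segment `[cen, pan]`
    subst ht1
    rw [AffineMap.lineMap_apply_one] at hz₁ hz₂ hΘ
    have hqΦ : q ∈ h.dom Φ := by
      have : q ∈ segment ℝ (cen b Φ) (pan b Φ i) := by
        rw [segment_eq_image_lineMap]; exact ⟨v, hv, rfl⟩
      exact (h.convex_dom Φ).segment_subset (h.cen_mem Φ) (h.pan_mem Φ i) this
    have hposd : (0 : ℝ) < d := by exact_mod_cast h.pos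
    have hposl : ∀ l : Fin (d + 1), l ≠ i → 0 < h.lam Φ l q := by
      intro l hl
      rw [hq, h.lam_lineMap, h.lam_cen, h.lam_pan, if_neg hl]
      rcases eq_or_lt_of_le hv.1 with h0 | h0
      · rw [← h0]; simp; positivity
      · have h1 : 0 ≤ (1 - v) * ((d : ℝ) + 1)⁻¹ := by
          apply mul_nonneg
          · linarith [hv.2]
          · positivity
        have h2 : 0 < v * (d : ℝ)⁻¹ := by positivity
        linarith
    rw [(h.lam_compat hΘ hqΦ j₁).1] at hz₁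
    rw [(h.lam_compat hΘ hqΦ j₂).1] at hz₂
    have e1 : j₁ = i := by
      by_contra hne; exact (hposl j₁ hne).ne' hz₁
    have e2 : j₂ = i := by
      by_contra hne; exact (hposl j₂ hne).ne' hz₂
    exact h12 (e1.trans e2.symm)
  · -- otherwise the apex is in the bad subspace
    apply hagen B
    have h1t : 1 - t ≠ 0 := sub_ne_zero.2 (Ne.symm ht1)
    have hkey : (AffineMap.lineMap (AffineMap.lineMap a q t : Sp d) q (-(t / (1 - t))) : Sp d) =
        a := by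
      simp only [AffineMap.lineMap_apply_module]
      have e1 : (1 - -(t / (1 - t))) * (1 - t) = 1 := by field_simp; ring
      have e2 : (1 - -(t / (1 - t))) * t + -(t / (1 - t)) = 0 := by field_simp; ring
      rw [smul_add, smul_smul, smul_smul, e1, one_smul, add_assoc, ← add_smul, e2, zero_smul,
        add_zero]
    rw [← hkey]
    exact AffineMap.lineMap_mem _ hyB hqB

end IsCx

theorem IsCx.exists_developing (h : IsCx b) {W : Type*} [Group W] (s : Fin (d + 1) → W)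
    (hs : ∀ i, s i * s i = 1)
    (hloc : ∀ i j : Fin (d + 1), i ≠ j → ∀ Φ : Chamber d V, ∃ g : Chamber d V → W,
      ∀ Ψ : Chamber d V, (∀ k, k ≠ i → k ≠ j → Ψ k = Φ k) →
        g (sig i Ψ) = g Ψ * s i ∧ g (sig j Ψ) = g Ψ * s j) :
    ∃ D : Chamber d V → W, ∀ (i : Fin (d + 1)) (Φ : Chamber d V), D (sig i Φ) = D Φ * s i := by
  have hloc' : h.Loc s := hloc
  obtain ⟨Φ₀, -⟩ := h.exists_mem_dom 0
  obtain ⟨a, ha, hgood⟩ := h.exists_apex Φ₀
  have h0 : (0 : ℝ) ∈ Icc (0 : ℝ) 1 := ⟨le_rfl, zero_le_one⟩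
  have h1 : (1 : ℝ) ∈ Icc (0 : ℝ) 1 := ⟨zero_le_one, le_rfl⟩
  have hg0 : ∀ Φ, ∀ y ∈ segment ℝ a (cen b Φ), h.Good y := by
    intro Φ y hy
    refine hgood Φ 0 0 h0 y ?_
    rwa [AffineMap.lineMap_apply_zero]
  have hg1 : ∀ Φ i, ∀ y ∈ segment ℝ a (pan b Φ i), h.Good y := by
    intro Φ i y hy
    refine hgood Φ i 1 h1 y ?_
    rwa [AffineMap.lineMap_apply_one]
  choose G hG using fun Φ => h.exists_sec_segment' s hloc' (hg0 Φ) Φ₀
  choose G' hG' using fun Φ i => h.exists_sec_segment' s hloc' (hg1 Φ i) Φ₀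
  have key : ∀ Φ i (g : Chamber d V → W), h.IsSec s (segment ℝ a (pan b Φ i)) g → g Φ₀ = 1 →
      G Φ Φ = g Φ := by
    intro Φ i g hg hg1'
    refine h.sec_homotopy s hloc' (p₀ := cen b Φ) (p₁ := pan b Φ i) (hgood Φ i) ha ?_
      (hG Φ).1 hg (hG Φ).2 hg1'
    intro v hv
    refine (h.convex_dom Φ).segment_subset (h.cen_mem Φ) (h.pan_mem Φ i) ?_
    rw [segment_eq_image_lineMap]; exact ⟨v, hv, rfl⟩
  refine ⟨fun Φ => G Φ Φ, fun i Φ => ?_⟩
  have e1 := key Φ i (G' Φ i) (hG' Φ i).1 (hG' Φ i).2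
  have e2 := key (sig i Φ) i (G' Φ i) (by rw [h.pan_sig]; exact (hG' Φ i).1) (hG' Φ i).2
  change G (sig i Φ) (sig i Φ) = G Φ Φ * s i
  rw [e1, e2]
  refine (hG' Φ i).1 (pan b Φ i) (right_mem_segment ℝ a _) Φ (h.pan_mem Φ i) i ?_
  rw [h.lam_pan, if_pos rfl]

end Pool.Agent.CRT
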