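import Pool.Agent.CRT.TilingCx
import Pool.Agent.CRT.Connect
import Pool.Agent.CRT.CoxDefs

/-!
# Module I: normality gives polynomial growth

Paper proof.  Let `Φ₀ = D⁻¹(1)`, `Φ_w = D⁻¹(w)`; `Φ_{w s_i} = sig i Φ_w`.  The top cell `(Φ_w)_d` is a
tile (the maximal rank cell: a cell `F` in a tile `P`, `F ≠ P`, could be extended to a longer
chain, `chain_card_le`).  All tiles have diameter `≤ 2R`.  The tiles of `Φ` and `sig i Φ` share the
nonempty cell `Φ_0` if `i ≠ 0`, and are equal if `i ≠ d`; as `d > 0` they always have a common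
point.  So if `ℓ(w) ≤ n`, the tile `(Φ_w)_d` is contained in the ball of radius `4R n + 2R` around
`b(Φ₀ d)`.  The interiors of distinct tiles are disjoint and each contains a ball of radius
`r`, so the number of tiles contained in a ball of radius `ρ` is `≤ (ρ/r)^d` (volume).
The chambers with the same top cell as `Φ` are reachable from `Φ` by moves `≠ d` (`reach` with
`I = {d}ᶜ`), hence their images under `D` are in `D Φ * par M {d}ᶜ`, so there are at most
`K = #(par M {d}ᶜ)` of them.  So `#S ≤ K ((4R n + 2R)/r)^d ≤ C (n+1)^d`.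
-/

namespace Pool.Agent.CRT

open Set

variable {d : ℕ} {T : Set (Set (Sp d))}

/-- The maximal cell of a chamber is a tile. -/
theorem growth_top_mem (hT : IsTiling T) (Φ : Chamber d (cells T)) :
    ((Φ (Fin.last d)).1 : Set (Sp d)) ∈ T := by
  classical
  obtain ⟨hne, P, hP, hFP⟩ := (Φ (Fin.last d)).2
  by_cases hEq : (Φ (Fin.last d)).1 = P
  · rw [hEq]; exact hP
  · exfalso
    have hsub : (Φ (Fin.last d)).1 ⊆ P := hFP.subset
    let P' : cells T := ⟨P, tile_mem_cells hT hP⟩
    have hle : ∀ i, Φ i ≤ P' := fun i =>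
      le_trans (Φ.2.monotone (Fin.le_last i)) (show (Φ (Fin.last d)).1 ⊆ P from hsub)
    have hnot : P' ∉ Finset.univ.image (fun i => Φ i) := by
      intro hmem
      rw [Finset.mem_image] at hmem
      obtain ⟨i, -, hi⟩ := hmem
      apply hEq
      apply le_antisymm hsub
      have h1 : Φ i ≤ Φ (Fin.last d) := Φ.2.monotone (Fin.le_last i)
      rw [hi] at h1
      exact h1
    have hcard : (insert P' (Finset.univ.image (fun i => Φ i))).card = d + 2 := by
      rw [Finset.card_insert_of_notMem hnot, Finset.card_image_of_injective _ Φ.2.injective]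
      simp
    have hchain : IsChain (· ≤ ·) ((insert P' (Finset.univ.image (fun i => Φ i)) :
        Finset (cells T)) : Set (cells T)) := by
      intro a ha b hb _
      rw [Finset.mem_coe, Finset.mem_insert, Finset.mem_image] at ha hb
      rcases ha with rfl | ⟨i, -, rfl⟩
      · rcases hb with rfl | ⟨j, -, rfl⟩
        · exact Or.inl le_rfl
        · exact Or.inr (hle j)
      · rcases hb with rfl | ⟨j, -, rfl⟩
        · exact Or.inl (hle i)
        · rcases le_total i j with hij | hij
          · exact Or.inl (Φ.2.monotone hij)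
          · exact Or.inr (Φ.2.monotone hij)
    have := chain_card_le hT _ hchain
    omega

/-- Adjacent chambers have tiles with a common point. -/
theorem growth_common (hd : 0 < d) (hT : IsTiling T) (i : Fin (d + 1))
    (Φ : Chamber d (cells T)) :
    ∃ z, z ∈ (Φ (Fin.last d)).1 ∧ z ∈ ((sig i Φ) (Fin.last d)).1 := by
  have h : IsCx (cb T) := isCx_of_isTiling hd hT
  by_cases hi : i = Fin.last d
  · have h0 : (0 : Fin (d + 1)) ≠ i := by
      rw [hi]
      intro he
      have := congrArg Fin.val he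
      simp at this
      omega
    obtain ⟨z, hz⟩ := (Φ 0).2.1
    refine ⟨z, ?_, ?_⟩
    · exact (show (Φ 0).1 ⊆ (Φ (Fin.last d)).1 from Φ.2.monotone (Fin.le_last 0)) hz
    · have h1 : (sig i Φ) 0 = Φ 0 := h.sig_apply_ne h0 Φ
      have h2 : (sig i Φ) 0 ≤ (sig i Φ) (Fin.last d) := (sig i Φ).2.monotone (Fin.le_last 0)
      rw [h1] at h2
      exact (show (Φ 0).1 ⊆ ((sig i Φ) (Fin.last d)).1 from h2) hz
  · obtain ⟨z, hz⟩ := (Φ (Fin.last d)).2.1
    refine ⟨z, hz, ?_⟩
    rw [h.sig_apply_ne (Ne.symm hi) Φ]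
    exact hz

/-- Reachability and parabolic subgroups. -/
theorem growth_reach (M : CoxeterMatrix (Fin (d + 1))) (D : Chamber d (cells T) ≃ M.Group)
    (hD : ∀ i Φ, D (sig i Φ) = D Φ * sm M i) (I : Set (Fin (d + 1)))
    {Φ Ψ : Chamber d (cells T)} (hr : Reach I Φ Ψ) : ∃ u ∈ par M I, D Ψ = D Φ * u := by
  induction hr with
  | refl => exact ⟨1, Subgroup.one_mem _, (mul_one _).symm⟩
  | tail _ hstep ih =>
    obtain ⟨u, hu, he⟩ := ih
    obtain ⟨i, hi, rfl⟩ := hstep
    refine ⟨u * sm M i, Subgroup.mul_mem _ hu (Subgroup.subset_closure ⟨i, hi, rfl⟩), ?_⟩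
    rw [hD, he, mul_assoc]

/-- The volume estimate. -/
theorem growth_volume (hd : 0 < d) (hT : IsTiling T) {r ρ : ℝ} (hr : 0 < r) (hρ : 0 ≤ ρ)
    (hball : ∀ P ∈ T, ∃ x, Metric.ball x r ⊆ P) (x0 : Sp d) (F : Finset (Set (Sp d)))
    (hF : ∀ P ∈ F, P ∈ T ∧ P ⊆ Metric.closedBall x0 ρ) :
    (F.card : ℝ) ≤ (ρ / r) ^ d := by
  classical
  have : Nontrivial (Sp d) := by
    have : 0 < Module.finrank ℝ (Sp d) := by simpa using hd
    exact Module.nontrivial_of_finrank_pos this
  set μ : MeasureTheory.Measure (Sp d) := MeasureTheory.volume with hμ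
  have hfr : Module.finrank ℝ (Sp d) = d := by simp
  have h1 : ∀ P ∈ F, ENNReal.ofReal (r ^ d) * μ (Metric.ball 0 1) ≤ μ (interior P) := by
    intro P hP
    obtain ⟨x, hx⟩ := hball P (hF P hP).1
    have h2 := MeasureTheory.Measure.addHaar_ball μ x hr.le
    rw [hfr] at h2
    rw [← h2]
    exact MeasureTheory.measure_mono (Metric.isOpen_ball.subset_interior_iff.2 hx)
  have h2 : μ (⋃ P ∈ F, interior P) = ∑ P ∈ F, μ (interior P) := by
    apply MeasureTheory.measure_biUnion_finset
    · intro P hP Q hQ hPQ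
      exact hT.disj P (hF P hP).1 Q (hF Q hQ).1 hPQ
    · intro P _
      exact isOpen_interior.measurableSet
  have h3 : μ (⋃ P ∈ F, interior P) ≤ ENNReal.ofReal (ρ ^ d) * μ (Metric.ball 0 1) := by
    have h4 := MeasureTheory.Measure.addHaar_closedBall μ x0 hρ
    rw [hfr] at h4
    rw [← h4]
    apply MeasureTheory.measure_mono
    apply Set.iUnion₂_subset
    intro P hP
    exact interior_subset.trans (hF P hP).2
  have h4 : (F.card : ENNReal) * (ENNReal.ofReal (r ^ d) * μ (Metric.ball 0 1)) ≤
      ENNReal.ofReal (ρ ^ d) * μ (Metric.ball 0 1) := by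
    refine le_trans ?_ h3
    rw [h2, ← nsmul_eq_mul, ← Finset.sum_const]
    exact Finset.sum_le_sum h1
  have hpos : μ (Metric.ball (0 : Sp d) 1) ≠ 0 :=
    (Metric.measure_ball_pos μ 0 one_pos).ne'
  have hfin : μ (Metric.ball (0 : Sp d) 1) ≠ ⊤ := MeasureTheory.measure_ball_lt_top.ne
  rw [← mul_assoc] at h4
  have h5 := (ENNReal.mul_le_mul_iff_left hpos hfin).1 h4
  have h6 : (F.card : ENNReal) = ENNReal.ofReal (F.card : ℝ) := by
    rw [ENNReal.ofReal_natCast]
  rw [h6, ← ENNReal.ofReal_mul (by positivity)] at h5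
  have h7 := (ENNReal.ofReal_le_ofReal_iff (by positivity)).1 h5
  rw [div_pow, le_div_iff₀ (by positivity)]
  exact h7

theorem polyGrowth (hd : 0 < d) (hT : IsTiling T) (hN : Normal T)
    (M : CoxeterMatrix (Fin (d + 1))) (D : Chamber d (cells T) ≃ M.Group)
    (hD : ∀ i Φ, D (sig i Φ) = D Φ * sm M i)
    (hfin : ∀ i, (par M {i}ᶜ : Set M.Group).Finite) : PolyGrowth d M := by
  classical
  have h : IsCx (cb T) := isCx_of_isTiling hd hT
  obtain ⟨r, R, hr, hR, hN⟩ := hN
  obtain ⟨x0, hx0⟩ := ((D.symm 1) (Fin.last d)).2.1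
  -- the tiles of words of length `n` are in a ball
  have hdist : ∀ ω : List (Fin (d + 1)),
      ((D.symm (M.toCoxeterSystem.wordProd ω)) (Fin.last d)).1 ⊆
        Metric.closedBall x0 (2 * R * ((ω.length : ℝ) + 1)) := by
    intro ω
    induction ω using List.reverseRecOn with
    | nil =>
      rw [CoxeterSystem.wordProd_nil]
      intro y hy
      obtain ⟨-, c, hc⟩ := hN _ (growth_top_mem hT (D.symm 1))
      have e1 := Metric.mem_ball.1 (hc hy)
      have e2 := Metric.mem_ball'.1 (hc hx0)
      rw [Metric.mem_closedBall]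
      have e3 := dist_triangle y c x0
      simp only [List.length_nil, Nat.cast_zero, zero_add, mul_one]
      linarith
    | append_singleton ω i ih =>
      have e0 : D.symm (M.toCoxeterSystem.wordProd (ω ++ [i])) =
          sig i (D.symm (M.toCoxeterSystem.wordProd ω)) := by
        rw [Equiv.symm_apply_eq, hD, Equiv.apply_symm_apply, CoxeterSystem.wordProd_append,
          CoxeterSystem.wordProd_singleton]
      rw [e0]
      intro y hy
      obtain ⟨z, hz1, hz2⟩ := growth_common hd hT i (D.symm (M.toCoxeterSystem.wordProd ω))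
      obtain ⟨-, c, hc⟩ := hN _ (growth_top_mem hT (sig i (D.symm (M.toCoxeterSystem.wordProd ω))))
      have e1 := Metric.mem_ball.1 (hc hy)
      have e2 := Metric.mem_ball'.1 (hc hz2)
      have e3 := dist_triangle y c z
      have e4 := Metric.mem_closedBall.1 (ih hz1)
      have e5 := dist_triangle y z x0
      rw [Metric.mem_closedBall, List.length_append, List.length_singleton]
      push_cast
      nlinarith
  set K : ℕ := (hfin (Fin.last d)).toFinset.card with hK
  refine ⟨K * (2 * R / r) ^ d, fun n S hS => ?_⟩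
  let f : M.Group → Set (Sp d) := fun w => ((D.symm w) (Fin.last d)).1
  -- the number of tiles
  have hF : ((S.image f).card : ℝ) ≤ (2 * R * ((n : ℝ) + 1) / r) ^ d := by
    apply growth_volume hd hT hr (by positivity) (fun P hP => (hN P hP).1) x0
    intro P hP
    rw [Finset.mem_image] at hP
    obtain ⟨w, hw, rfl⟩ := hP
    refine ⟨growth_top_mem hT _, ?_⟩
    obtain ⟨ω, hω1, hω2⟩ := M.toCoxeterSystem.exists_isReduced w
    have h1 := hdist ω
    rw [← hω2] at h1
    refine h1.trans (Metric.closedBall_subset_closedBall ?_)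
    have h2 : (ω.length : ℝ) ≤ n := by
      have h3 := hS w hw
      have h4 : len M w = ω.length := by rw [hω2]; exact hω1.eq
      rw [h4] at h3
      exact_mod_cast h3
    have h3 : 0 < 2 * R := by positivity
    nlinarith
  -- the fibres
  have hcard : S.card ≤ K * (S.image f).card := by
    apply Finset.card_le_mul_card_image
    intro P hP
    rw [Finset.mem_image] at hP
    obtain ⟨w0, hw0, rfl⟩ := hP
    have hmaps : ∀ w ∈ S.filter (fun w => f w = f w0), w0⁻¹ * w ∈ (hfin (Fin.last d)).toFinset := by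
      intro w hw
      rw [Finset.mem_filter] at hw
      rw [Set.Finite.mem_toFinset]
      have hag : ∀ j, j ∉ ({Fin.last d}ᶜ : Set (Fin (d + 1))) → (D.symm w0) j = (D.symm w) j := by
        intro j hj
        have hj' : j = Fin.last d := by simpa using hj
        rw [hj']
        exact Subtype.ext hw.2.symm
      obtain ⟨u, hu, he⟩ := growth_reach M D hD _ (h.reach _ hag)
      rw [Equiv.apply_symm_apply, Equiv.apply_symm_apply] at he
      rw [he, inv_mul_cancel_left]
      exact hu
    rw [hK]
    apply Finset.card_le_card_of_injOn (fun w => w0⁻¹ * w) hmaps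
    intro a _ b _ hab
    exact mul_left_cancel hab
  have h1 : (S.card : ℝ) ≤ K * ((S.image f).card : ℝ) := by exact_mod_cast hcard
  calc (S.card : ℝ) ≤ K * ((S.image f).card : ℝ) := h1
    _ ≤ K * (2 * R * ((n : ℝ) + 1) / r) ^ d := by gcongr
    _ = K * (2 * R / r) ^ d * ((n : ℝ) + 1) ^ d := by
      rw [mul_assoc (K : ℝ), ← mul_pow]
      congr 2
      ring

end Pool.Agent.CRT
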