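import Pool.Agent.CRT.Develop
import Pool.Agent.CRT.CoxDefs

/-!
# Module G: the Coxeter group of a combinatorially regular complex acts simply transitively

Paper proof.  Fix a chamber `Φ₀`.  `M i j := Function.minimalPeriod (fun Φ => sig i (sig j Φ)) Φ₀`.
By `htr` and since order automorphisms commute with `sig` (`adj_map`, `eq_sig`), the minimal period
is the same at every chamber.  `M` is symmetric (inverse permutation), `M i i = 1` (`sig_sig`), and
`M i j ≠ 1` for `i ≠ j` (`sig i (sig j Φ) = Φ` would give `sig j Φ = sig i Φ`, but these differ at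
rank `i`).  `M i j = 2` for `i + 1 < j` by `sig_comm` (period divides `2`, not `1`).
`(sig i ∘ sig j)^(M i j) = id`, so `CoxeterSystem.lift` gives `ρ : W → Perm Chamber`,
`ρ (s_i) = sig i`.
(H') If `u ∈ par M {i,j}` and `ρ(u) Φ = Φ` then `u = 1`: `u = (s_i s_j)^n` or `(s_i s_j)^n s_i`
(`n : ℤ`).  In the first case the period `M i j` divides `n`, so `u = 1`
(`simple_mul_simple_pow`; if `M i j = 0` then `n = 0`).  In the second case `u` is conjugate to
`s_i` or `s_j`, so `sig i` or `sig j` fixes some chamber, contradiction with `sig_ne`.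
`hloc`: for `Ψ` agreeing with `Φ` off `{i,j}`, by `reach` there is `u ∈ par M {i,j}` with
`Ψ = ρ(u) Φ`, unique by (H'); `g Ψ := u⁻¹`.
`exists_developing` gives `D`.  Surjective: the image is closed under right multiplication by the
`s_i`.  Injective: `Ψ = ρ(u) Φ` for some `u` by `reach_univ`, and then `D Ψ = D Φ * u⁻¹` (as
`D (ρ(u) Φ) = D Φ * u⁻¹` for all `u`), so `u = 1`.
Finite parabolics: `w ∈ par M {i}ᶜ ↦ D⁻¹(D Φ₀ * w)` is injective with values in the chambers having
the same `i`-th cell as `Φ₀`, which all contain the point `b (Φ₀ i)`: finite by `locFin`.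
Infinite: otherwise there are finitely many chambers and `𝔼^d` would be compact, `d > 0`.
-/

namespace Pool.Agent.CRT

open Set

variable {d : ℕ} {V : Type*} [PartialOrder V] {b : V → Sp d}

namespace UniformAux

/-- The action of an order automorphism on chambers. -/
def act (e : V ≃o V) (Φ : Chamber d V) : Chamber d V :=
  ⟨fun i => e (Φ i), e.strictMono.comp Φ.2⟩

theorem act_injective (e : V ≃o V) : Function.Injective (act (d := d) e) := by
  intro Φ Ψ hΦ
  apply Chamber.ext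
  intro i
  apply e.injective
  exact congrArg (fun X : Chamber d V => X i) hΦ

theorem act_sig (h : IsCx b) (e : V ≃o V) (i : Fin (d + 1)) (Φ : Chamber d V) :
    act e (sig i Φ) = sig i (act e Φ) :=
  h.eq_sig (IsCx.adj_map e (h.adj_sig i Φ) (fun _ => rfl) (fun _ => rfl))

/-- `sig i` as a permutation. -/
noncomputable def sp (h : IsCx b) (i : Fin (d + 1)) : Equiv.Perm (Chamber d V) :=
  ⟨sig i, sig i, h.sig_sig i, h.sig_sig i⟩

theorem sp_apply (h : IsCx b) (i : Fin (d + 1)) (Φ : Chamber d V) : sp h i Φ = sig i Φ := rfl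

theorem sp_mul_self (h : IsCx b) (i : Fin (d + 1)) : sp h i * sp h i = 1 := by
  ext1 Φ
  exact h.sig_sig i Φ

theorem sp_inv (h : IsCx b) (i : Fin (d + 1)) : (sp h i)⁻¹ = sp h i :=
  inv_eq_of_mul_eq_one_left (sp_mul_self h i)

theorem act_pow (h : IsCx b) (e : V ≃o V) (i j : Fin (d + 1)) (n : ℕ) (Φ : Chamber d V) :
    ((sp h i * sp h j) ^ n) (act e Φ) = act e (((sp h i * sp h j) ^ n) Φ) := by
  induction n with
  | zero => rfl
  | succ n ih =>
    rw [pow_succ', Equiv.Perm.mul_apply, Equiv.Perm.mul_apply, ih]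
    change sig i (sig j _) = act e (sig i (sig j _))
    rw [act_sig h, act_sig h]

section

variable (h : IsCx b)
  (htr : ∀ Φ Ψ : Chamber d V, ∃ e : V ≃o V, ∀ i, e (Φ i) = Ψ i)

include htr in
theorem pow_fix (i j : Fin (d + 1)) (n : ℕ) (Φ Ψ : Chamber d V)
    (hΦ : ((sp h i * sp h j) ^ n) Φ = Φ) : ((sp h i * sp h j) ^ n) Ψ = Ψ := by
  obtain ⟨e, he⟩ := htr Φ Ψ
  have : act e Φ = Ψ := Chamber.ext he
  rw [← this, act_pow, hΦ]

theorem mul_comm_inv (i j : Fin (d + 1)) : sp h j * sp h i = (sp h i * sp h j)⁻¹ := by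
  rw [mul_inv_rev, sp_inv, sp_inv]

/-- The Coxeter matrix. -/
noncomputable def mat (Φ₀ : Chamber d V) : CoxeterMatrix (Fin (d + 1)) where
  M := Matrix.of fun i j => Function.minimalPeriod (sp h i * sp h j) Φ₀
  isSymm := by
    apply Matrix.IsSymm.ext
    intro i j
    simp only [Matrix.of_apply]
    rw [Function.minimalPeriod_eq_minimalPeriod_iff]
    intro n
    rw [mul_comm_inv h i j]
    simp only [Function.IsPeriodicPt, Function.IsFixedPt]
    rw [← Equiv.Perm.coe_pow, ← Equiv.Perm.coe_pow, inv_pow, Equiv.Perm.inv_eq_iff_eq]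
    exact eq_comm
  diagonal := by
    intro i
    simp only [Matrix.of_apply]
    rw [Function.minimalPeriod_eq_one_iff_isFixedPt, sp_mul_self]
    rfl
  off_diagonal := by
    intro i j hij hM
    simp only [Matrix.of_apply] at hM
    rw [Function.minimalPeriod_eq_one_iff_isFixedPt] at hM
    have h1 : sig i (sig j Φ₀) = Φ₀ := hM
    have h2 : sig j Φ₀ = sig i Φ₀ := by
      rw [← h.sig_sig i (sig j Φ₀), h1]
    have h3 := h.sig_apply_ne hij Φ₀
    rw [h2] at h3
    exact h.sig_apply_self_ne i Φ₀ h3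

theorem mat_apply (Φ₀ : Chamber d V) (i j : Fin (d + 1)) :
    mat h Φ₀ i j = Function.minimalPeriod (sp h i * sp h j) Φ₀ := rfl

theorem mat_pow_self (Φ₀ : Chamber d V) (i j : Fin (d + 1)) :
    ((sp h i * sp h j) ^ (mat h Φ₀ i j)) Φ₀ = Φ₀ := by
  have := Function.isPeriodicPt_minimalPeriod (sp h i * sp h j) Φ₀
  rw [mat_apply, Equiv.Perm.coe_pow]
  exact this

theorem mat_dvd (Φ₀ : Chamber d V) (i j : Fin (d + 1)) (n : ℕ)
    (hn : ((sp h i * sp h j) ^ n) Φ₀ = Φ₀) : mat h Φ₀ i j ∣ n := by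
  rw [mat_apply]
  apply Function.IsPeriodicPt.minimalPeriod_dvd
  rw [Equiv.Perm.coe_pow] at hn
  exact hn

include htr in
theorem mat_pow (Φ₀ : Chamber d V) (i j : Fin (d + 1)) :
    (sp h i * sp h j) ^ (mat h Φ₀ i j) = 1 := by
  ext1 Φ
  exact pow_fix h htr i j _ Φ₀ Φ (mat_pow_self h Φ₀ i j)

end

/-- normal forms in dihedral parabolics -/
theorem par_pair (M : CoxeterMatrix (Fin (d + 1))) (i j : Fin (d + 1)) {u : M.Group}
    (hu : u ∈ par M {i, j}) :
    ∃ n : ℤ, u = (sm M i * sm M j) ^ n ∨ u = (sm M i * sm M j) ^ n * sm M i := by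
  set r := sm M i * sm M j with hr
  have hii : sm M i * sm M i = 1 := M.toCoxeterSystem.simple_mul_simple_self i
  have hjj : sm M j * sm M j = 1 := M.toCoxeterSystem.simple_mul_simple_self j
  have hinv : ∀ k, (sm M k)⁻¹ = sm M k := fun k => M.toCoxeterSystem.inv_simple k
  have hj : sm M j = r⁻¹ * sm M i := by
    rw [hr, mul_inv_rev, hinv, hinv, mul_assoc, hii, mul_one]
  have hij : sm M i * sm M j = r := rfl
  have key : ∀ x : M.Group, (∃ n : ℤ, x = r ^ n ∨ x = r ^ n * sm M i) → ∀ y ∈ sm M '' {i, j},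
      ∃ n : ℤ, x * y = r ^ n ∨ x * y = r ^ n * sm M i := by
    rintro x ⟨n, hx | hx⟩ y ⟨k, hk, rfl⟩
    · rcases hk with rfl | rfl
      · exact ⟨n, Or.inr (by rw [hx])⟩
      · refine ⟨n - 1, Or.inr ?_⟩
        rw [hx, hj, zpow_sub_one, mul_assoc]
    · rcases hk with rfl | rfl
      · exact ⟨n, Or.inl (by rw [hx, mul_assoc, hii, mul_one])⟩
      · exact ⟨n + 1, Or.inl (by rw [hx, mul_assoc, hij, zpow_add_one])⟩
  refine Subgroup.closure_induction_right (p := fun x _ =>
    ∃ n : ℤ, x = r ^ n ∨ x = r ^ n * sm M i) ⟨0, Or.inl (zpow_zero _).symm⟩ ?_ ?_ hu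
  · intro x _ y hy hx
    exact key x hx y hy
  · intro x _ y hy hx
    obtain ⟨k, hk, rfl⟩ := hy
    rw [hinv k]
    exact key x hx _ ⟨k, hk, rfl⟩

/-- reflections in dihedral parabolics are conjugate to simple reflections -/
theorem conj_simple (M : CoxeterMatrix (Fin (d + 1))) (i j : Fin (d + 1)) (n : ℤ) :
    ∃ (g : M.Group) (k : Fin (d + 1)), (sm M i * sm M j) ^ n * sm M i = g * sm M k * g⁻¹ := by
  set r := sm M i * sm M j with hr
  have hii : sm M i * sm M i = 1 := M.toCoxeterSystem.simple_mul_simple_self i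
  have hinv : ∀ k, (sm M k)⁻¹ = sm M k := fun k => M.toCoxeterSystem.inv_simple k
  have hconj : sm M i * r * (sm M i)⁻¹ = r⁻¹ := by
    rw [hr, mul_inv_rev, hinv, hinv, ← mul_assoc, hii, one_mul]
  have hconjn : ∀ m : ℤ, sm M i * r ^ m = (r ^ m)⁻¹ * sm M i := by
    intro m
    have : (sm M i * r * (sm M i)⁻¹) ^ m = sm M i * r ^ m * (sm M i)⁻¹ := conj_zpow
    rw [hconj] at this
    rw [← inv_zpow, this, mul_assoc, inv_mul_cancel, mul_one]
  rcases Int.even_or_odd n with ⟨k, hk⟩ | ⟨k, hk⟩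
  · refine ⟨r ^ k, i, ?_⟩
    rw [mul_assoc, ← zpow_neg, hconjn, ← mul_assoc, ← zpow_neg, neg_neg, ← zpow_add, hk]
  · refine ⟨r ^ k * sm M i, j, ?_⟩
    have h1 : r ^ k * sm M i * sm M j * (r ^ k * sm M i)⁻¹ =
        r ^ k * r * (sm M i * r ^ (-k)) := by
      rw [mul_inv_rev, hinv i, hr, zpow_neg]
      simp only [mul_assoc]
    rw [h1, hconjn, ← zpow_neg, neg_neg, ← mul_assoc, hk, ← zpow_add_one, ← zpow_add]
    congr 2
    ring

end UniformAux

open UniformAux

theorem IsCx.exists_coxeter (h : IsCx b)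
    (htr : ∀ Φ Ψ : Chamber d V, ∃ e : V ≃o V, ∀ i, e (Φ i) = Ψ i) :
    ∃ (M : CoxeterMatrix (Fin (d + 1))) (D : Chamber d V ≃ M.Group),
      (∀ i Φ, D (sig i Φ) = D Φ * sm M i) ∧
      (∀ i j : Fin (d + 1), i.1 + 1 < j.1 → M i j = 2) ∧
      (∀ i, (par M {i}ᶜ : Set M.Group).Finite) ∧ Infinite M.Group := by
  classical
  obtain ⟨Φ₀, -⟩ := h.cover 0
  set M := mat h Φ₀ with hM
  have hinv : ∀ k, (sm M k)⁻¹ = sm M k := fun k => M.toCoxeterSystem.inv_simple k
  have hlift : CoxeterMatrix.IsLiftable M (sp h) := fun i j => mat_pow h htr Φ₀ i j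
  set ρ : M.Group →* Equiv.Perm (Chamber d V) := M.toCoxeterSystem.lift ⟨sp h, hlift⟩ with hρ
  have hρs : ∀ i, ρ (sm M i) = sp h i := fun i => M.toCoxeterSystem.lift_apply_simple hlift i
  -- uniqueness in dihedral parabolics
  have hH : ∀ (i j : Fin (d + 1)) (u : M.Group), u ∈ par M {i, j} → ∀ Φ, ρ u Φ = Φ → u = 1 := by
    intro i j u hu Φ hΦ
    obtain ⟨n, hn | hn⟩ := par_pair M i j hu
    · have hnat : ∀ m : ℕ, ((sp h i * sp h j) ^ m) Φ = Φ → (sm M i * sm M j) ^ m = 1 := by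
        intro m hm
        have h1 := pow_fix h htr i j m Φ Φ₀ hm
        obtain ⟨c, hc⟩ := mat_dvd h Φ₀ i j m h1
        rw [hc, pow_mul, M.toCoxeterSystem.simple_mul_simple_pow, one_pow]
      have hρu : ρ u = (sp h i * sp h j) ^ n := by
        rw [hn, map_zpow, map_mul, hρs, hρs]
      rcases Int.eq_nat_or_neg n with ⟨m, hm | hm⟩
      · rw [hρu, hm, zpow_natCast] at hΦ
        rw [hn, hm, zpow_natCast, hnat m hΦ]
      · rw [hρu, hm, zpow_neg, zpow_natCast, Equiv.Perm.inv_eq_iff_eq] at hΦ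
        rw [hn, hm, zpow_neg, zpow_natCast, hnat m hΦ.symm, inv_one]
    · exfalso
      obtain ⟨g, k, hg⟩ := conj_simple M i j n
      rw [hn, hg, map_mul, map_mul, map_inv, hρs, Equiv.Perm.mul_apply, Equiv.Perm.mul_apply] at hΦ
      have h1 : sp h k ((ρ g)⁻¹ Φ) = (ρ g)⁻¹ Φ := by
        rw [Equiv.Perm.eq_inv_iff_eq]
        exact hΦ
      exact h.sig_ne k _ h1
  -- reachability by group elements
  have hreach : ∀ (I : Set (Fin (d + 1))) (Φ Ψ : Chamber d V), Reach I Φ Ψ →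
      ∃ u ∈ par M I, Ψ = ρ u Φ := by
    intro I Φ Ψ hR
    induction hR with
    | refl => exact ⟨1, one_mem _, by rw [map_one]; rfl⟩
    | tail _ hstep ih =>
      obtain ⟨u, hu, rfl⟩ := ih
      obtain ⟨i, hi, rfl⟩ := hstep
      refine ⟨sm M i * u, mul_mem (Subgroup.subset_closure ⟨i, hi, rfl⟩) hu, ?_⟩
      rw [map_mul, hρs]
      rfl
  have hloc : ∀ i j : Fin (d + 1), i ≠ j → ∀ Φ : Chamber d V, ∃ g : Chamber d V → M.Group,
      ∀ Ψ : Chamber d V, (∀ k, k ≠ i → k ≠ j → Ψ k = Φ k) →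
        g (sig i Ψ) = g Ψ * sm M i ∧ g (sig j Ψ) = g Ψ * sm M j := by
    intro i j _ Φ
    let g : Chamber d V → M.Group := fun Ψ =>
      if H : ∃ u ∈ par M {i, j}, Ψ = ρ u Φ then (H.choose)⁻¹ else 1
    have hg : ∀ u ∈ par M {i, j}, g (ρ u Φ) = u⁻¹ := by
      intro u hu
      have H : ∃ u' ∈ par M {i, j}, ρ u Φ = ρ u' Φ := ⟨u, hu, rfl⟩
      have h1 : g (ρ u Φ) = (H.choose)⁻¹ := dif_pos H
      obtain ⟨hc1, hc2⟩ := H.choose_spec
      rw [h1]
      congr 1
      have h3 : ρ (u⁻¹ * H.choose) Φ = Φ := by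
        rw [map_mul, map_inv, Equiv.Perm.mul_apply, ← hc2, ← Equiv.Perm.mul_apply,
          inv_mul_cancel]
        rfl
      have h4 := hH i j _ (mul_mem (inv_mem hu) hc1) Φ h3
      exact (inv_mul_eq_one.1 h4).symm
    refine ⟨g, fun Ψ hΨ => ?_⟩
    obtain ⟨u, hu, rfl⟩ := hreach {i, j} Φ Ψ (h.reach {i, j} fun k hk => by
      simp only [Set.mem_insert_iff, Set.mem_singleton_iff, not_or] at hk
      exact (hΨ k hk.1 hk.2).symm)
    have hs : ∀ k ∈ ({i, j} : Set (Fin (d + 1))), g (sig k (ρ u Φ)) = g (ρ u Φ) * sm M k := by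
      intro k hk
      have hk' : sm M k * u ∈ par M {i, j} :=
        mul_mem (Subgroup.subset_closure ⟨k, hk, rfl⟩) hu
      have h1 : sig k (ρ u Φ) = ρ (sm M k * u) Φ := by
        rw [map_mul, hρs]; rfl
      rw [h1, hg _ hk', hg _ hu, mul_inv_rev, hinv]
    exact ⟨hs i (Set.mem_insert _ _), hs j (Set.mem_insert_of_mem _ rfl)⟩
  obtain ⟨D, hD⟩ := h.exists_developing (sm M)
    (fun i => M.toCoxeterSystem.simple_mul_simple_self i) hloc
  have hDρ : ∀ (u : M.Group) (Φ : Chamber d V), D (ρ u Φ) = D Φ * u⁻¹ := by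
    intro u
    induction u using M.toCoxeterSystem.simple_induction_left with
    | one => intro Φ; rw [map_one, inv_one, mul_one]; rfl
    | mul_simple_left w i ih =>
      intro Φ
      have h1 : ρ (sm M i * w) Φ = sig i (ρ w Φ) := by
        rw [map_mul, hρs]; rfl
      change D (ρ (sm M i * w) Φ) = D Φ * (sm M i * w)⁻¹
      rw [h1, hD, ih, mul_inv_rev, hinv, mul_assoc]
  have hinj : Function.Injective D := by
    intro Φ Ψ hΦ
    obtain ⟨u, -, rfl⟩ := hreach univ Φ Ψ (h.reach_univ Φ Ψ)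
    rw [hDρ] at hΦ
    have h1 : u = 1 := by
      have := mul_eq_left.1 hΦ.symm
      exact inv_eq_one.1 this
    rw [h1, map_one]; rfl
  have hsurj : Function.Surjective D := by
    intro w
    refine ⟨ρ (w⁻¹ * D Φ₀) Φ₀, ?_⟩
    rw [hDρ]
    group
  refine ⟨M, Equiv.ofBijective D ⟨hinj, hsurj⟩, fun i Φ => hD i Φ, ?_, ?_, ?_⟩
  · intro i j hij
    have hne : i ≠ j := fun he => by rw [he] at hij; omega
    have h1 : M i j ≠ 1 := M.off_diagonal i j hne
    have h2 : M i j ∣ 2 := by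
      apply mat_dvd
      rw [pow_two]
      change sig i (sig j (sig i (sig j Φ₀))) = Φ₀
      rw [h.sig_comm hij, h.sig_sig i, h.sig_sig j]
    rcases (Nat.dvd_prime Nat.prime_two).1 h2 with h3 | h3
    · exact absurd h3 h1
    · exact h3
  · intro i
    have hpres : ∀ u ∈ par M {i}ᶜ, ∀ Φ : Chamber d V, (ρ u Φ) i = Φ i := by
      intro u hu
      refine Subgroup.closure_induction (p := fun u _ => ∀ Φ : Chamber d V, (ρ u Φ) i = Φ i)
        ?_ ?_ ?_ ?_ hu
      · rintro x ⟨k, hk, rfl⟩ Φ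
        rw [hρs]
        exact h.sig_apply_ne (fun he => hk he.symm) Φ
      · intro Φ; rw [map_one]; rfl
      · intro x y _ _ hx hy Φ
        rw [map_mul, Equiv.Perm.mul_apply, hx, hy]
      · intro x _ hx Φ
        have := hx (ρ x⁻¹ Φ)
        rw [← this, ← Equiv.Perm.mul_apply, ← map_mul, mul_inv_cancel, map_one]; rfl
    have hfin : {Φ : Chamber d V | Φ i = Φ₀ i}.Finite := by
      refine (h.locFin {b (Φ₀ i)} isCompact_singleton).subset fun Φ hΦ => ?_
      refine ⟨b (Φ₀ i), subset_convexHull ℝ _ ⟨i, ?_⟩, rfl⟩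
      exact congrArg b hΦ
    have himg : ((fun w : M.Group => ρ w⁻¹ Φ₀) '' (par M {i}ᶜ : Set M.Group)).Finite := by
      refine hfin.subset ?_
      rintro _ ⟨w, hw, rfl⟩
      exact hpres _ (inv_mem hw) Φ₀
    refine Set.Finite.of_finite_image himg ?_
    intro w _ w' _ hww
    have h1 := congrArg D hww
    simp only [hDρ, inv_inv] at h1
    exact mul_left_cancel h1
  · by_contra hfin
    rw [not_infinite_iff_finite] at hfin
    have : Finite (Chamber d V) := Finite.of_injective D hinj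
    have hcpt : IsCompact (Set.univ : Set (Sp d)) := by
      have h1 : (Set.univ : Set (Sp d)) = ⋃ Φ : Chamber d V, h.dom Φ := by
        apply Set.Subset.antisymm
        · intro x _
          obtain ⟨Φ, hΦ⟩ := h.exists_mem_dom x
          exact Set.mem_iUnion.2 ⟨Φ, hΦ⟩
        · exact Set.subset_univ _
      rw [h1]
      exact isCompact_iUnion fun Φ => h.isCompact_dom Φ
    have : Nonempty (Fin d) := ⟨⟨0, h.pos⟩⟩
    have hnc : NoncompactSpace (Sp d) := NormedSpace.noncompactSpace ℝ (Sp d)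
    exact hnc.noncompact_univ hcpt

end Pool.Agent.CRT
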