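import Pool.Agent.CRT.RegTiling
import Pool.Agent.CRT.Uniform
import Pool.Agent.CRT.Growth
import Pool.Agent.CRT.Degenerate

/-!
# Assembly: the answer to Q1 is yes for every `d`
-/

namespace Pool.Agent.CRT

open Set

theorem main_pos {d : ℕ} (hd : 0 < d) (T : Set (Set (Sp d))) (hT : IsTiling T) (hN : Normal T)
    (hreg : CombRegular T) :
    ∃ T' : Set (Set (Sp d)), IsTiling T' ∧ Regular T' ∧ Nonempty (faces T ≃o faces T') := by
  have hcx := isCx_of_isTiling hd hT
  obtain ⟨M, D, hD, hstr, hfin, hinf⟩ := hcx.exists_coxeter (transitive_of_combRegular hd hT hreg)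
  have hgr : PolyGrowth d M := polyGrowth hd hT hN M D hD hfin
  have hdeg := degenerate hd M hstr hfin hinf hgr
  have hpos : ∀ l : Fin (d + 1), ∀ v : Fin (d + 1) → ℝ, v l = 0 → v ≠ 0 → 0 < bil M v v := by
    intro l v hl hv
    refine posDef_of_finite_par M {l}ᶜ (hfin l) v hv fun i hi => ?_
    have : i = l := by simpa using hi
    rw [this]; exact hl
  obtain ⟨R⟩ := exists_realization M hpos hdeg
  obtain ⟨T', hT', hreg', β, hβ⟩ := exists_regular_tiling hd M hstr R
  refine ⟨T', hT', hreg', ?_⟩
  have hcx' := isCx_of_isTiling hd hT'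
  obtain ⟨e⟩ := orderIso_of_equiv hcx hcx' (D.trans β) (fun i Φ => by
    simp only [Equiv.trans_apply, hD, hβ])
  exact facesIso_of_cellsIso hd hT hT' e

/-- In dimension zero there is nothing to do. -/
theorem main_zero (T : Set (Set (Sp 0))) (hT : IsTiling T) :
    ∃ T' : Set (Set (Sp 0)), IsTiling T' ∧ Regular T' ∧ Nonempty (faces T ≃o faces T') := by
  refine ⟨T, hT, ?_, ⟨OrderIso.refl _⟩⟩
  intro c c' hc hc'
  have hall : ∀ F : faces T, F.1 = ∅ ∨ F.1 = univ := by
    intro F
    rcases F.1.eq_empty_or_nonempty with h | ⟨x, hx⟩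
    · exact Or.inl h
    · right
      apply Set.eq_univ_of_forall
      intro y
      rw [Subsingleton.elim y x]; exact hx
  have hcomp : ∀ F G : faces T, F ≤ G ∨ G ≤ F := by
    intro F G
    rcases hall F with hF | hF
    · left; change F.1 ⊆ G.1; rw [hF]; exact empty_subset _
    · right; change G.1 ⊆ F.1; rw [hF]; exact subset_univ _
  have huniv : ∀ c : Set (faces T), IsFlag c → c = univ := by
    intro c hc
    refine hc.2 ?_ (subset_univ c)
    intro F _ G _ _
    exact hcomp F G
  rw [huniv c hc, huniv c' hc']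
  have hid : (fun F : Set (Sp 0) => (IsometryEquiv.refl (Sp 0)) '' F) = id := by
    funext F; exact image_id F
  refine ⟨IsometryEquiv.refl _, ?_, ?_⟩
  · rw [hid, image_id]
  · rw [hid, image_id]

theorem main (d : ℕ) (T : Set (Set (Sp d))) (hT : IsTiling T) (hN : Normal T)
    (hreg : CombRegular T) :
    ∃ T' : Set (Set (Sp d)), IsTiling T' ∧ Regular T' ∧ Nonempty (faces T ≃o faces T') := by
  rcases Nat.eq_zero_or_pos d with rfl | hd
  · exact main_zero T hT
  · exact main_pos hd T hT hN hreg

end Pool.Agent.CRT
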