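import Pool.Agent.CRT.TilingCx

/-!
# Module F: maximal chains of faces versus chambers

Paper proofs (`d > 0`).  `univ` is not a cell (cells are compact, `𝔼^d` is not), `∅` is not a cell;
so `faces T = {∅, univ} ⊔ cells T`.
`isFlag_flagOf`: a chain; if a chain `c'` strictly contains it then there is a cell in `c'`
different from all `Φ_i` and comparable with them: a chain of `d + 2` cells, contradicting
`chain_card_le`.
`exists_chamber_of_isFlag`: the cells in `c` form a chain, which is finite (all its finite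
subsets have `≤ d+1` elements), so is contained in the range of a chamber `Φ`
(`exists_chamber_of_chain`); by maximality `c = flagOf Φ`.
`cellsIso_of_facesIso`: an order isomorphism preserves `⊥ = ∅` and `⊤ = univ`.
`transitive_of_combRegular`: apply `CombRegular` to `flagOf Φ`, `flagOf Ψ`; the induced order
isomorphism `e` of cells maps `range Φ` onto `range Ψ`, hence `e (Φ i) = Ψ i` (two strictly
monotone maps `Fin (d+1) → cells T` with the same range are equal).
-/

namespace Pool.Agent.CRT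

open Set

variable {d : ℕ} {T T' : Set (Set (Sp d))}

theorem cells_subset_faces (T : Set (Set (Sp d))) : cells T ⊆ faces T :=
  fun _ hF => Or.inr (Or.inr hF.2)

theorem ne_univ_of_mem_cells (hd : 0 < d) (hT : IsTiling T) {F : Set (Sp d)} (hF : F ∈ cells T) :
    F ≠ univ := by
  intro h
  have h1 : IsCompact F := (cell_isPoly hT hF).isCompact
  rw [h] at h1
  have : Nonempty (Fin d) := ⟨⟨0, hd⟩⟩
  have : NoncompactSpace (Sp d) := NormedSpace.noncompactSpace ℝ (Sp d)
  exact noncompact_univ (Sp d) h1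

/-- A face is a cell unless it is empty or the whole space. -/
theorem mem_cells_of_mem_faces {F : Set (Sp d)} (hF : F ∈ faces T) (h1 : F ≠ ∅) (h2 : F ≠ univ) :
    F ∈ cells T := by
  rcases hF with h | h | h
  · exact absurd h h1
  · exact absurd h h2
  · exact ⟨nonempty_iff_ne_empty.2 h1, h⟩

theorem isChain_flagOf (Φ : Chamber d (cells T)) :
    IsChain (· ≤ ·) (flagOf Φ) := by
  rintro ⟨F, hF⟩ hF' ⟨G, hG⟩ hG' _
  rcases hF' with rfl | rfl | ⟨i, rfl⟩
  · exact Or.inl (empty_subset G)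
  · exact Or.inr (subset_univ G)
  · rcases hG' with rfl | rfl | ⟨j, rfl⟩
    · exact Or.inr (empty_subset _)
    · exact Or.inl (subset_univ _)
    · rcases le_total i j with hij | hij
      · exact Or.inl (Φ.2.monotone hij)
      · exact Or.inr (Φ.2.monotone hij)

theorem isFlag_flagOf (hd : 0 < d) (hT : IsTiling T) (Φ : Chamber d (cells T)) :
    IsFlag (flagOf Φ) := by
  classical
  refine ⟨isChain_flagOf Φ, ?_⟩
  intro c hc hsub
  refine Subset.antisymm hsub ?_
  intro F hF
  by_contra hFn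
  have h1 : F.1 ≠ ∅ := fun h => hFn (Or.inl h)
  have h2 : F.1 ≠ univ := fun h => hFn (Or.inr (Or.inl h))
  have h3 : ∀ i, F.1 ≠ (Φ i).1 := fun i h => hFn (Or.inr (Or.inr ⟨i, h⟩))
  have hFc := mem_cells_of_mem_faces F.2 h1 h2
  let F' : cells T := ⟨F.1, hFc⟩
  have hinj : Function.Injective (Φ.1) := Φ.2.injective
  let S : Finset (cells T) := insert F' (Finset.univ.image Φ.1)
  have hnot : F' ∉ Finset.univ.image Φ.1 := by
    rw [Finset.mem_image]
    rintro ⟨i, _, hi⟩
    exact h3 i (congrArg Subtype.val hi).symm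
  have hcard : S.card = d + 2 := by
    rw [Finset.card_insert_of_notMem hnot, Finset.card_image_of_injective _ hinj]
    simp
  have hmem : ∀ G ∈ S, (⟨G.1, cells_subset_faces T G.2⟩ : faces T) ∈ c := by
    intro G hG
    rcases Finset.mem_insert.1 hG with rfl | hG
    · exact hF
    · obtain ⟨i, _, rfl⟩ := Finset.mem_image.1 hG
      exact hsub (Or.inr (Or.inr ⟨i, rfl⟩))
  have hchain : IsChain (· ≤ ·) (S : Set (cells T)) := by
    intro G hG H hH hne
    have := hc (hmem G hG) (hmem H hH) (by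
      intro h
      apply hne
      exact Subtype.ext (congrArg (fun x : faces T => x.1) h))
    exact this
  have := chain_card_le hT S hchain
  omega

theorem exists_chamber_of_isFlag (hd : 0 < d) (hT : IsTiling T) {c : Set (faces T)}
    (hc : IsFlag c) : ∃ Φ : Chamber d (cells T), c = flagOf Φ := by
  classical
  let S : Set (cells T) := {F | (⟨F.1, cells_subset_faces T F.2⟩ : faces T) ∈ c}
  have hchain : IsChain (· ≤ ·) S := by
    intro G hG H hH hne
    have := hc.1 hG hH (by
      intro h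
      apply hne
      exact Subtype.ext (congrArg (fun x : faces T => x.1) h))
    exact this
  have hfin : S.Finite := by
    by_contra hinf
    obtain ⟨t, hts, htc⟩ := Set.Infinite.exists_subset_card_eq hinf (d + 2)
    have := chain_card_le hT t (hchain.mono hts)
    omega
  obtain ⟨Φ, hΦ⟩ := exists_chamber_of_chain hT hfin.toFinset (by
    rw [Set.Finite.coe_toFinset]
    exact hchain)
  refine ⟨Φ, hc.2 (isChain_flagOf Φ) ?_⟩
  intro F hF
  by_cases h1 : F.1 = ∅
  · exact Or.inl h1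
  · by_cases h2 : F.1 = univ
    · exact Or.inr (Or.inl h2)
    · obtain ⟨i, hi⟩ := hΦ ⟨F.1, mem_cells_of_mem_faces F.2 h1 h2⟩ (by
        rw [Set.Finite.mem_toFinset]
        exact hF)
      exact Or.inr (Or.inr ⟨i, by rw [hi]⟩)

theorem iso_mem_cells (hd : 0 < d) (hT : IsTiling T) (e : faces T ≃o faces T') (F : cells T) :
    (e ⟨F.1, cells_subset_faces T F.2⟩).1 ∈ cells T' := by
  refine mem_cells_of_mem_faces (e _).2 ?_ ?_
  · intro h
    have h1 : e ⟨F.1, cells_subset_faces T F.2⟩ ≤ e ⟨∅, Or.inl rfl⟩ := by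
      show (e ⟨F.1, cells_subset_faces T F.2⟩).1 ⊆ _
      rw [h]
      exact empty_subset _
    rw [e.le_iff_le] at h1
    exact F.2.1.ne_empty (subset_empty_iff.1 h1)
  · intro h
    have h1 : e ⟨univ, Or.inr (Or.inl rfl)⟩ ≤ e ⟨F.1, cells_subset_faces T F.2⟩ := by
      show _ ⊆ (e ⟨F.1, cells_subset_faces T F.2⟩).1
      rw [h]
      exact subset_univ _
    rw [e.le_iff_le] at h1
    exact ne_univ_of_mem_cells hd hT F.2 (univ_subset_iff.1 h1)

theorem cellsIso_of_facesIso (hd : 0 < d) (hT : IsTiling T) (hT' : IsTiling T')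
    (e : faces T ≃o faces T') : ∃ e' : cells T ≃o cells T', ∀ F : cells T,
      (e' F).1 = (e ⟨F.1, cells_subset_faces T F.2⟩).1 := by
  refine ⟨⟨⟨fun F => ⟨(e ⟨F.1, cells_subset_faces T F.2⟩).1, iso_mem_cells hd hT e F⟩,
    fun F => ⟨(e.symm ⟨F.1, cells_subset_faces T' F.2⟩).1, iso_mem_cells hd hT' e.symm F⟩,
    ?_, ?_⟩, ?_⟩, ?_⟩
  · intro F
    apply Subtype.ext
    show (e.symm (e ⟨F.1, cells_subset_faces T F.2⟩)).1 = F.1
    rw [e.symm_apply_apply]
  · intro F
    apply Subtype.ext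
    show (e (e.symm ⟨F.1, cells_subset_faces T' F.2⟩)).1 = F.1
    rw [e.apply_symm_apply]
  · intro F G
    show e ⟨F.1, cells_subset_faces T F.2⟩ ≤ e ⟨G.1, cells_subset_faces T G.2⟩ ↔ _
    rw [e.le_iff_le]
    rfl
  · intro F
    rfl

open Classical in
/-- Extension of a map of cells to faces. -/
noncomputable def extF (f : cells T → cells T') (F : faces T) : faces T' :=
  if h : F.1 ∈ cells T then ⟨(f ⟨F.1, h⟩).1, cells_subset_faces T' (f ⟨F.1, h⟩).2⟩
  else if F.1 = ∅ then ⟨∅, Or.inl rfl⟩ else ⟨univ, Or.inr (Or.inl rfl)⟩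

theorem extF_cell (f : cells T → cells T') (F : faces T) (h : F.1 ∈ cells T) :
    extF f F = ⟨(f ⟨F.1, h⟩).1, cells_subset_faces T' (f ⟨F.1, h⟩).2⟩ := by
  unfold extF
  rw [dif_pos h]

theorem extF_empty (f : cells T → cells T') (F : faces T) (h : F.1 = ∅) :
    extF f F = ⟨∅, Or.inl rfl⟩ := by
  unfold extF
  rw [dif_neg, if_pos h]
  intro h'
  exact h'.1.ne_empty h

theorem extF_univ (hd : 0 < d) (hT : IsTiling T) (f : cells T → cells T') (F : faces T)
    (h : F.1 = univ) : extF f F = ⟨univ, Or.inr (Or.inl rfl)⟩ := by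
  unfold extF
  rw [dif_neg, if_neg]
  · rw [h]
    exact univ_nonempty.ne_empty
  · intro h'
    exact ne_univ_of_mem_cells hd hT h' h

theorem extF_monotone (hd : 0 < d) (hT : IsTiling T) (f : cells T → cells T')
    (hf : Monotone f) : Monotone (extF f) := by
  intro F G hFG
  by_cases h1 : F.1 = ∅
  · rw [extF_empty f F h1]
    exact empty_subset _
  by_cases h2 : G.1 = univ
  · rw [extF_univ hd hT f G h2]
    exact subset_univ _
  have h3 : F.1 ≠ univ := by
    intro h
    apply h2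
    have : F.1 ⊆ G.1 := hFG
    rw [h] at this
    exact univ_subset_iff.1 this
  have h4 : G.1 ≠ ∅ := by
    intro h
    apply h1
    have : F.1 ⊆ G.1 := hFG
    rw [h] at this
    exact subset_empty_iff.1 this
  have hFc := mem_cells_of_mem_faces F.2 h1 h3
  have hGc := mem_cells_of_mem_faces G.2 h4 h2
  rw [extF_cell f F hFc, extF_cell f G hGc]
  exact hf (show (⟨F.1, hFc⟩ : cells T) ≤ ⟨G.1, hGc⟩ from hFG)

theorem extF_extF (hd : 0 < d) (hT : IsTiling T) (hT' : IsTiling T') (f : cells T → cells T')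
    (g : cells T' → cells T) (hgf : ∀ F, g (f F) = F) (F : faces T) :
    extF g (extF f F) = F := by
  by_cases h1 : F.1 = ∅
  · rw [extF_empty f F h1, extF_empty g _ rfl]
    exact Subtype.ext h1.symm
  by_cases h2 : F.1 = univ
  · rw [extF_univ hd hT f F h2, extF_univ hd hT' g _ rfl]
    exact Subtype.ext h2.symm
  have hFc := mem_cells_of_mem_faces F.2 h1 h2
  rw [extF_cell f F hFc, extF_cell g _ (f ⟨F.1, hFc⟩).2]
  apply Subtype.ext
  show (g (f ⟨F.1, hFc⟩)).1 = F.1
  rw [hgf]

theorem facesIso_of_cellsIso (hd : 0 < d) (hT : IsTiling T) (hT' : IsTiling T')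
    (e : cells T ≃o cells T') : Nonempty (faces T ≃o faces T') := by
  refine ⟨Equiv.toOrderIso ⟨extF e, extF e.symm, ?_, ?_⟩ ?_ ?_⟩
  · intro F
    exact extF_extF hd hT hT' e e.symm (fun F => e.symm_apply_apply F) F
  · intro F
    exact extF_extF hd hT' hT e.symm e (fun F => e.apply_symm_apply F) F
  · exact extF_monotone hd hT e e.monotone
  · exact extF_monotone hd hT' e.symm e.symm.monotone

theorem transitive_of_combRegular (hd : 0 < d) (hT : IsTiling T) (hreg : CombRegular T)
    (Φ Ψ : Chamber d (cells T)) : ∃ e : cells T ≃o cells T, ∀ i, e (Φ i) = Ψ i := by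
  obtain ⟨e, he⟩ := hreg (flagOf Φ) (flagOf Ψ) (isFlag_flagOf hd hT Φ) (isFlag_flagOf hd hT Ψ)
  obtain ⟨e', he'⟩ := cellsIso_of_facesIso hd hT hT e
  refine ⟨e', ?_⟩
  have h1 : ∀ i, ∃ j, Ψ j = e' (Φ i) := by
    intro i
    have h2 : e ⟨(Φ i).1, cells_subset_faces T (Φ i).2⟩ ∈ flagOf Ψ := by
      rw [← he]
      exact ⟨_, Or.inr (Or.inr ⟨i, rfl⟩), rfl⟩
    have h3 := he' (Φ i)
    rcases h2 with h | h | ⟨j, hj⟩
    · exfalso
      rw [← h3] at h
      exact (e' (Φ i)).2.1.ne_empty h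
    · exfalso
      rw [← h3] at h
      exact ne_univ_of_mem_cells hd hT (e' (Φ i)).2 h
    · exact ⟨j, Subtype.ext (by rw [h3, hj])⟩
  choose σ hσ using h1
  have hσm : StrictMono σ := by
    intro i j hij
    rw [← Ψ.2.lt_iff_lt]
    have h2 := hσ i
    have h3 := hσ j
    show Ψ (σ i) < Ψ (σ j)
    rw [h2, h3]
    exact e'.strictMono (Φ.2 hij)
  have hσid : σ = id := by
    rw [← StrictMono.range_inj hσm strictMono_id, Set.range_id,
      (Finite.injective_iff_surjective.1 hσm.injective).range_eq]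
  intro i
  rw [← hσ i, hσid]
  rfl

theorem val_image_flagOf (Φ : Chamber d (cells T)) :
    Subtype.val '' flagOf Φ = {F : Set (Sp d) | F = ∅ ∨ F = univ ∨ ∃ i, F = (Φ i).1} := by
  ext F
  constructor
  · rintro ⟨G, hG, rfl⟩
    exact hG
  · intro hF
    refine ⟨⟨F, ?_⟩, hF, rfl⟩
    rcases hF with h | h | ⟨i, h⟩
    · exact Or.inl h
    · exact Or.inr (Or.inl h)
    · rw [h]
      exact cells_subset_faces T (Φ i).2

/-- Geometric regularity from transitivity on chambers. -/
theorem regular_of_transitive (hd : 0 < d) (hT : IsTiling T)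
    (htr : ∀ Φ Ψ : Chamber d (cells T), ∃ g : Sp d ≃ᵢ Sp d, (fun P => g '' P) '' T = T ∧
      ∀ i, g '' (Φ i).1 = (Ψ i).1) : Regular T := by
  intro c c' hc hc'
  obtain ⟨Φ, rfl⟩ := exists_chamber_of_isFlag hd hT hc
  obtain ⟨Ψ, rfl⟩ := exists_chamber_of_isFlag hd hT hc'
  obtain ⟨g, hgT, hg⟩ := htr Φ Ψ
  refine ⟨g, hgT, ?_⟩
  rw [val_image_flagOf, val_image_flagOf]
  have hun : g '' univ = univ := by
    rw [image_univ, g.surjective.range_eq]
  ext F
  constructor
  · rintro ⟨G, hG, rfl⟩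
    rcases hG with rfl | rfl | ⟨i, rfl⟩
    · exact Or.inl (image_empty _)
    · exact Or.inr (Or.inl hun)
    · exact Or.inr (Or.inr ⟨i, hg i⟩)
  · rintro (rfl | rfl | ⟨i, rfl⟩)
    · exact ⟨∅, Or.inl rfl, image_empty _⟩
    · exact ⟨univ, Or.inr (Or.inl rfl), hun⟩
    · exact ⟨(Φ i).1, Or.inr (Or.inr ⟨i, rfl⟩), hg i⟩

end Pool.Agent.CRT
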