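import Pool.Agent.CRT.CoxDefs

/-!
# Module J: the geometric representation of a Coxeter group

Paper proof.  On `ℝ^B` let `r_i v = v - 2 B(e_i, v) e_i`, `B(e_i,e_j) = -cos(π/M_ij)` (`-1` if
`M_ij = 0`).  `r_i r_i = 1` since `B(e_i,e_i) = 1`.  For `i ≠ j`, `m = M_ij ≥ 2`, put `θ = π/m`;
`ℝ^B = span(e_i,e_j) ⊕ {e_i,e_j}^⊥` because the Gram determinant `1 - cos² θ ≠ 0`; on the second
summand `r_i r_j` is the identity and on the first it is (conjugate to) the rotation by `2θ`
(Mathlib: `Module.reflection_mul_reflection_pow_apply` with the rescaled Chebyshev polynomials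
`Polynomial.Chebyshev.S`, or Cayley-Hamilton `R² = 2cos(2θ) R - 1` and
`R^k = (sin(2kθ) R - sin(2(k-1)θ))/sin 2θ` for `m ≥ 3`, `R = -1` for `m = 2`), so `(r_i r_j)^m = 1`.
Then `CoxeterSystem.lift`.  The form is invariant by a direct computation on generators.
-/

set_option linter.all false

namespace Pool.Agent.CRT

open Set

variable {B : Type*} [Fintype B] [DecidableEq B]

namespace GeomRep

theorem root2 (M : CoxeterMatrix B) (i : B) : ((2 : ℝ) • bil M (ee i)) (ee i) = 2 := by
  rw [LinearMap.smul_apply, bil_ee, cosM_self]; norm_num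

/-- the reflection as a linear equivalence -/
noncomputable def rf (M : CoxeterMatrix B) (i : B) : (B → ℝ) ≃ₗ[ℝ] (B → ℝ) :=
  Module.reflection (root2 M i)

theorem rf_apply (M : CoxeterMatrix B) (i : B) (v : B → ℝ) :
    rf M i v = v - (2 * bil M (ee i) v) • (ee i : B → ℝ) := by
  rw [rf, Module.reflection_apply]
  simp

theorem rf_rel (M : CoxeterMatrix B) (i j : B) : (rf M i * rf M j) ^ M i j = 1 := by
  by_cases hij : i = j
  · subst hij
    rw [M.diagonal, pow_one]
    ext1 v
    exact Module.involutive_reflection (root2 M i) v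
  by_cases h0 : M i j = 0
  · rw [h0, pow_zero]
  have h1 : M i j ≠ 1 := M.off_diagonal i j hij
  obtain ⟨m, hm⟩ : ∃ m, M i j = m := ⟨_, rfl⟩
  rw [hm] at h0 h1 ⊢
  have hji : bil M (ee j) (ee i) = cosM M i j := by rw [bil_ee, cosM_symm]
  by_cases h2 : m = 2
  · subst h2
    have hc : cosM M i j = 0 := cosM_eq_zero hm
    have hij' : bil M (ee i) (ee j) = 0 := by rw [bil_ee, hc]
    rw [hc] at hji
    ext1 v
    rw [pow_two]
    simp only [LinearEquiv.mul_apply, rf_apply, map_sub, map_smul, hij', hji, bil_ee, cosM_self]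
    show _ = v
    module
  -- main case
  have hm3 : 3 ≤ m := by omega
  set θ : ℝ := Real.pi / m with hθ
  have hm3' : (3 : ℝ) ≤ m := by exact_mod_cast hm3
  have hmpos : (0 : ℝ) < m := by linarith
  have hmθ : (m : ℝ) * θ = Real.pi := by
    rw [hθ]; field_simp
  have hcos : cosM M i j = -Real.cos θ := by
    unfold cosM
    rw [hm, if_neg h0]
  have hsin : Real.sin (2 * θ) ≠ 0 := by
    apply ne_of_gt
    apply Real.sin_pos_of_pos_of_lt_pi
    · have := Real.pi_pos
      positivity
    · have h3 : θ ≤ Real.pi / 3 := by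
        rw [hθ]
        exact div_le_div_of_nonneg_left Real.pi_pos.le (by norm_num) hm3'
      have := Real.pi_pos
      linarith
  set t : ℝ := 2 * Real.cos (2 * θ) with ht
  have htt : t = ((2 : ℝ) • bil M (ee i)) (ee j) * ((2 : ℝ) • bil M (ee j)) (ee i) - 2 := by
    rw [LinearMap.smul_apply, LinearMap.smul_apply, hji, bil_ee, hcos, ht, Real.cos_two_mul]
    simp only [smul_eq_mul]
    ring
  have hS : ∀ n : ℤ, (Polynomial.Chebyshev.S ℝ n).eval t * Real.sin (2 * θ) =
      Real.sin ((n + 1) * (2 * θ)) := fun n => Polynomial.Chebyshev.S_two_mul_real_cos (2 * θ) n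
  ext1 v
  have key := Module.reflection_mul_reflection_pow_apply (root2 M i) (root2 M j) m v t htt
  show ((rf M i * rf M j) ^ m) v = v
  change ((Module.reflection (root2 M i) * Module.reflection (root2 M j)) ^ m) v = v
  rw [key]
  rcases Nat.even_or_odd' m with ⟨k, hk | hk⟩
  · have hz : (Polynomial.Chebyshev.S ℝ ((k : ℤ) - 1)).eval t = 0 := by
      have h4 := hS ((k : ℤ) - 1)
      have h5 : (((k : ℤ) - 1 : ℤ) : ℝ) + 1 = k := by push_cast; ring
      rw [h5] at h4
      have h6 : (k : ℝ) * (2 * θ) = Real.pi := by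
        rw [← hmθ, hk]; push_cast; ring
      rw [h6, Real.sin_pi] at h4
      exact (mul_eq_zero.1 h4).resolve_right hsin
    have e1 : ((m : ℤ) - 2) / 2 = (k : ℤ) - 1 := by rw [hk]; push_cast; omega
    have e2 : ((m : ℤ) - 1) / 2 = (k : ℤ) - 1 := by rw [hk]; push_cast; omega
    rw [e1, e2, hz]
    simp
  · have hz : (Polynomial.Chebyshev.S ℝ (k : ℤ)).eval t +
        (Polynomial.Chebyshev.S ℝ ((k : ℤ) - 1)).eval t = 0 := by
      have h4 := hS ((k : ℤ) - 1)
      have h4' := hS (k : ℤ)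
      have h5 : (((k : ℤ) - 1 : ℤ) : ℝ) + 1 = k := by push_cast; ring
      rw [h5] at h4
      have h5' : (((k : ℤ) : ℤ) : ℝ) = k := by push_cast; ring
      rw [h5'] at h4'
      have h6 : ((k : ℝ) + 1) * (2 * θ) = Real.pi + θ := by
        rw [← hmθ, hk]; push_cast; ring
      have h7 : (k : ℝ) * (2 * θ) = Real.pi - θ := by
        rw [← hmθ, hk]; push_cast; ring
      rw [h6, Real.sin_add, Real.sin_pi, Real.cos_pi] at h4'
      rw [h7, Real.sin_pi_sub] at h4
      have h8 : ((Polynomial.Chebyshev.S ℝ (k : ℤ)).eval t +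
        (Polynomial.Chebyshev.S ℝ ((k : ℤ) - 1)).eval t) * Real.sin (2 * θ) = 0 := by
        rw [add_mul, h4, h4']; ring
      exact (mul_eq_zero.1 h8).resolve_right hsin
    have e1 : ((m : ℤ) - 2) / 2 = (k : ℤ) - 1 := by rw [hk]; push_cast; omega
    have e2 : ((m : ℤ) - 1) / 2 = (k : ℤ) := by rw [hk]; push_cast; omega
    have e3 : ((m : ℤ) - 3) / 2 = (k : ℤ) - 1 := by rw [hk]; push_cast; omega
    have e4 : (m : ℤ) / 2 = (k : ℤ) := by rw [hk]; push_cast; omega
    rw [e1, e2, e3, e4, hz]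
    simp

end GeomRep

theorem exists_geomRep (M : CoxeterMatrix B) :
    ∃ ρ : M.Group →* Module.End ℝ (B → ℝ), ∀ (i : B) (v : B → ℝ),
      ρ (sm M i) v = v - (2 * bil M (ee i) v) • (ee i : B → ℝ) := by
  have hl : M.IsLiftable (fun i => ((GeomRep.rf M i : (B → ℝ) ≃ₗ[ℝ] (B → ℝ)) :
      Module.End ℝ (B → ℝ))) := by
    intro i j
    have := GeomRep.rf_rel M i j
    have h2 := congrArg (fun e : (B → ℝ) ≃ₗ[ℝ] (B → ℝ) => (e : Module.End ℝ (B → ℝ))) this
    have h3 : ∀ (e : (B → ℝ) ≃ₗ[ℝ] (B → ℝ)) (n : ℕ),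
        ((e ^ n : (B → ℝ) ≃ₗ[ℝ] (B → ℝ)) : Module.End ℝ (B → ℝ)) =
          (e : Module.End ℝ (B → ℝ)) ^ n := fun e n =>
      map_pow (LinearEquiv.automorphismGroup.toLinearMapMonoidHom (R := ℝ) (M := B → ℝ)) e n
    simp only [h3] at h2
    exact h2
  refine ⟨M.toCoxeterSystem.lift ⟨_, hl⟩, fun i v => ?_⟩
  rw [show sm M i = M.toCoxeterSystem.simple i from rfl, CoxeterSystem.lift_apply_simple]
  exact GeomRep.rf_apply M i v

/-- The geometric representation. -/
noncomputable def gr (M : CoxeterMatrix B) : M.Group →* Module.End ℝ (B → ℝ) :=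
  (exists_geomRep M).choose

theorem gr_simple (M : CoxeterMatrix B) (i : B) (v : B → ℝ) :
    gr M (sm M i) v = v - (2 * bil M (ee i) v) • (ee i : B → ℝ) :=
  (exists_geomRep M).choose_spec i v

theorem gr_simple_ee (M : CoxeterMatrix B) (i : B) :
    gr M (sm M i) (ee i) = -(ee i : B → ℝ) := by
  rw [gr_simple, bil_ee, cosM_self]
  module

/-- The Coxeter form is invariant. -/
theorem bil_gr (M : CoxeterMatrix B) (w : M.Group) (u v : B → ℝ) :
    bil M (gr M w u) (gr M w v) = bil M u v := by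
  induction w using M.toCoxeterSystem.simple_induction_left generalizing u v with
  | one => rw [map_one]; rfl
  | mul_simple_left w i ih =>
    rw [map_mul]
    show bil M (gr M (sm M i) (gr M w u)) (gr M (sm M i) (gr M w v)) = _
    rw [← ih u v]
    generalize gr M w u = a
    generalize gr M w v = b
    rw [gr_simple, gr_simple]
    simp only [map_sub, LinearMap.sub_apply, map_smul, LinearMap.smul_apply, bil_ee, cosM_self,
      smul_eq_mul, bil_symm M a (ee i)]
    ring

theorem gr_mul_apply (M : CoxeterMatrix B) (w w' : M.Group) (v : B → ℝ) :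
    gr M (w * w') v = gr M w (gr M w' v) := by
  rw [map_mul]; rfl

theorem gr_one_apply (M : CoxeterMatrix B) (v : B → ℝ) : gr M 1 v = v := by
  rw [map_one]; rfl

end Pool.Agent.CRT
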