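import Pool.Agent.CRT.TDefs

/-!
# Module P: Voronoi tilings

Paper proof of `isTiling_vorT`.  `vor O c` closed convex.  Cover: a nearest point of `O` exists
(`hfin`).  If `c ≠ c'`, `vor O c ∩ vor O c'` lies in the bisector `{|x-c| = |x-c'|}`, so the
interiors are disjoint (an open set contained in `{x : |x-c| = |x-c'|}` is empty as
`|x-c|² - |x-c'|²` is a nonconstant affine function).  Interior of `vor O c` nonempty: `c` has
positive distance `2δ` to `O \ {c}` (`hfin`), and `ball c δ ⊆ vor O c`.  Face-to-face: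
`vor O c ∩ vor O c' = {x ∈ vor O c : |x-c|² - |x-c'|² = 0}`, and the affine function
`|x-c|² - |x-c'|² = 2⟨c'-c, x⟩ + const` is `≤ 0` on `vor O c`: exposed by `l = ⟨c'-c, ·⟩`
(when the intersection is nonempty).  Locally finite: if `x ∈ K ∩ vor O c` then
`|x - c| ≤ |x - c₀|` for a fixed `c₀ ∈ O`, so `c` is in a bounded set.
`nearestCell_mem`: `F = {z : ∀ c ∈ O, x ∈ vor O c → z ∈ vor O c}`, `x ∈ F`; the set `N` of
`c ∈ O` with `x ∈ vor O c` is finite nonempty; for `c₀ ∈ N`, `F = ⋂_{c ∈ N} (vor O c₀ ∩ vor O c)`,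
a finite intersection of exposed faces (`IsExposed.inter`).
-/

namespace Pool.Agent.CRT

open Set

variable {d : ℕ}

/-- Voronoi cell -/
def vor (O : Set (Sp d)) (c : Sp d) : Set (Sp d) := {x | ∀ c' ∈ O, dist x c ≤ dist x c'}

/-- Voronoi tiling -/
def vorT (O : Set (Sp d)) : Set (Set (Sp d)) := {P | ∃ c ∈ O, P = vor O c}

theorem mem_vor_self_iff {O : Set (Sp d)} {c x : Sp d} :
    x ∈ vor O c ↔ ∀ c' ∈ O, dist x c ≤ dist x c' := Iff.rfl

/-- A nearest point exists. -/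
theorem exists_nearest_pt (O : Set (Sp d)) (hne : O.Nonempty)
    (hfin : ∀ K : Set (Sp d), IsCompact K → (O ∩ K).Finite) (x : Sp d) :
    ∃ c ∈ O, x ∈ vor O c := by
  obtain ⟨c0, hc0⟩ := hne
  have hF := hfin (Metric.closedBall x (dist x c0)) (isCompact_closedBall _ _)
  have hmem : c0 ∈ O ∩ Metric.closedBall x (dist x c0) := by
    refine ⟨hc0, ?_⟩
    rw [Metric.mem_closedBall, dist_comm]
  obtain ⟨c, hc, hmin⟩ := hF.exists_minimalFor (fun c => dist x c) _ ⟨c0, hmem⟩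
  have hle : ∀ c' ∈ O ∩ Metric.closedBall x (dist x c0), dist x c ≤ dist x c' := by
    intro c' hc'
    rcases le_total (dist x c) (dist x c') with h | h
    · exact h
    · exact hmin hc' h
  refine ⟨c, hc.1, fun c' hc' => ?_⟩
  by_cases h : dist x c' ≤ dist x c0
  · refine hle c' ⟨hc', ?_⟩
    rw [Metric.mem_closedBall, dist_comm]
    exact h
  · exact (hle c0 hmem).trans (not_le.mp h).le

/-- The comparison of two centres is an affine inequality. -/
theorem dist_sub_dist_sq (x c c' : Sp d) :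
    dist x c ^ 2 - dist x c' ^ 2 = 2 * inner ℝ (c' - c) x - (‖c'‖ ^ 2 - ‖c‖ ^ 2) := by
  rw [dist_eq_norm, dist_eq_norm, norm_sub_sq_real, norm_sub_sq_real, inner_sub_left,
    real_inner_comm x c, real_inner_comm x c']
  ring

theorem dist_le_iff_inner (x c c' : Sp d) :
    dist x c ≤ dist x c' ↔ 2 * inner ℝ (c' - c) x ≤ ‖c'‖ ^ 2 - ‖c‖ ^ 2 := by
  have h := dist_sub_dist_sq x c c'
  have h1 : dist x c ≤ dist x c' ↔ dist x c ^ 2 ≤ dist x c' ^ 2 :=
    (pow_le_pow_iff_left₀ dist_nonneg dist_nonneg two_ne_zero).symm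
  rw [h1]
  constructor <;> intro h2 <;> linarith

theorem mem_vor_of_inner_eq {O : Set (Sp d)} {c c' x : Sp d} (hx : x ∈ vor O c)
    (h : ‖c'‖ ^ 2 - ‖c‖ ^ 2 ≤ 2 * inner ℝ (c' - c) x) : x ∈ vor O c' := by
  have h1 : dist x c' ≤ dist x c := by
    rw [dist_le_iff_inner]
    have : (inner ℝ (c - c') x : ℝ) = - inner ℝ (c' - c) x := by
      rw [← inner_neg_left, neg_sub]
    rw [this]
    linarith
  exact fun c'' hc'' => h1.trans (hx c'' hc'')

theorem inner_eq_of_mem_vor {O : Set (Sp d)} {c c' x : Sp d} (hc : c ∈ O)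
    (hx' : x ∈ vor O c') : ‖c'‖ ^ 2 - ‖c‖ ^ 2 ≤ 2 * inner ℝ (c' - c) x := by
  have h1 := hx' c hc
  rw [dist_le_iff_inner] at h1
  have : (inner ℝ (c - c') x : ℝ) = - inner ℝ (c' - c) x := by
    rw [← inner_neg_left, neg_sub]
  rw [this] at h1
  linarith

theorem vor_disj (O : Set (Sp d)) {c c' : Sp d} (hc : c ∈ O) (hc' : c' ∈ O) (hne : c ≠ c') :
    Disjoint (interior (vor O c)) (interior (vor O c')) := by
  rw [Set.disjoint_left]
  intro x hx hx'
  have hopen : IsOpen (interior (vor O c) ∩ interior (vor O c')) :=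
    isOpen_interior.inter isOpen_interior
  have hcont : Continuous (fun s : ℝ => x + s • (c' - c)) := by fun_prop
  have hnhds : ∀ᶠ s : ℝ in nhds 0, x + s • (c' - c) ∈ interior (vor O c) ∩ interior (vor O c') := by
    refine hcont.continuousAt.eventually_mem (hopen.mem_nhds ?_)
    simpa using ⟨hx, hx'⟩
  obtain ⟨ε, hε, hball⟩ := Metric.eventually_nhds_iff.mp hnhds
  have h1 := hball (y := ε / 2) (by rw [dist_zero_right, Real.norm_eq_abs, abs_of_pos (by linarith)]; linarith)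
  have h2 := (interior_subset h1.1) c' hc'
  rw [dist_le_iff_inner, inner_add_right, inner_smul_right, real_inner_self_eq_norm_sq] at h2
  have h3 := inner_eq_of_mem_vor hc (interior_subset hx')
  have h4 : 0 < ‖c' - c‖ ^ 2 := by
    have : 0 < ‖c' - c‖ := norm_pos_iff.mpr (sub_ne_zero.mpr (Ne.symm hne))
    positivity
  have h5 : 0 < ε / 2 * ‖c' - c‖ ^ 2 := by positivity
  linarith

theorem vor_interior_nonempty (O : Set (Sp d))
    (hfin : ∀ K : Set (Sp d), IsCompact K → (O ∩ K).Finite) {c : Sp d} (hc : c ∈ O) :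
    (interior (vor O c)).Nonempty := by
  have hF := hfin (Metric.closedBall c 1) (isCompact_closedBall _ _)
  have hF' : ((O ∩ Metric.closedBall c 1) \ {c}).Finite := hF.subset Set.sdiff_subset
  have hopen : IsOpen ((((O ∩ Metric.closedBall c 1) \ {c}) : Set (Sp d))ᶜ) :=
    hF'.isClosed.isOpen_compl
  obtain ⟨ε, hε, hball⟩ := Metric.isOpen_iff.mp hopen c (by simp)
  set δ : ℝ := min ε 1 / 2 with hδ
  have hδ0 : 0 < δ := by
    have := lt_min hε one_pos
    positivity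
  refine ⟨c, mem_interior.mpr ⟨Metric.ball c δ, ?_, Metric.isOpen_ball,
    Metric.mem_ball_self hδ0⟩⟩
  intro x hx c' hc'
  rw [Metric.mem_ball] at hx
  by_cases h : c' = c
  · rw [h]
  · have h1 : min ε 1 ≤ dist c' c := by
      by_contra h2
      rw [not_le, lt_min_iff] at h2
      have h3 : c' ∈ Metric.ball c ε := h2.1
      exact hball h3 ⟨⟨hc', Metric.mem_closedBall.mpr h2.2.le⟩, h⟩
    have h2 : dist c' c ≤ dist x c' + dist x c := by
      rw [dist_comm x c']
      exact dist_triangle c' x c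
    have h3 : min ε 1 = 2 * δ := by rw [hδ]; ring
    linarith

/-- An exposed face cut out by a finite set of further centres. -/
theorem isExposed_vor_face (O : Set (Sp d)) {c : Sp d} (hc : c ∈ O) (N : Finset (Sp d))
    (hN : ∀ c' ∈ N, c' ∈ O) (F : Set (Sp d))
    (hF : F = {z | z ∈ vor O c ∧ ∀ c' ∈ N, z ∈ vor O c'}) : IsExposed ℝ (vor O c) F := by
  intro hne
  obtain ⟨x, hx⟩ := hne
  rw [hF] at hx
  refine ⟨∑ c' ∈ N, innerSL ℝ ((2 : ℝ) • (c' - c)), ?_⟩
  have hL : ∀ z : Sp d, (∑ c' ∈ N, innerSL ℝ ((2 : ℝ) • (c' - c))) z =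
      ∑ c' ∈ N, 2 * inner ℝ (c' - c) z := by
    intro z
    rw [sum_apply]
    refine Finset.sum_congr rfl fun c' _ => ?_
    rw [innerSL_apply_apply, real_inner_smul_left]
  have hle : ∀ z ∈ vor O c, ∀ c' ∈ N, 2 * inner ℝ (c' - c) z ≤ ‖c'‖ ^ 2 - ‖c‖ ^ 2 := by
    intro z hz c' hc'
    rw [← dist_le_iff_inner]
    exact hz c' (hN c' hc')
  have heq : ∀ z, z ∈ vor O c → (∀ c' ∈ N, z ∈ vor O c') →
      ∑ c' ∈ N, 2 * inner ℝ (c' - c) z = ∑ c' ∈ N, (‖c'‖ ^ 2 - ‖c‖ ^ 2) := by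
    intro z hz hz'
    refine Finset.sum_congr rfl fun c' hc' => le_antisymm (hle z hz c' hc') ?_
    exact inner_eq_of_mem_vor hc (hz' c' hc')
  rw [hF]
  ext z
  simp only [Set.mem_ofPred_eq, hL]
  constructor
  · rintro ⟨hz, hz'⟩
    refine ⟨hz, fun y hy => ?_⟩
    rw [heq z hz hz']
    exact Finset.sum_le_sum fun c' hc' => hle y hy c' hc'
  · rintro ⟨hz, hz'⟩
    refine ⟨hz, fun c' hc' => ?_⟩
    have h1 := hz' x hx.1
    rw [heq x hx.1 hx.2] at h1
    have h2 := (Finset.sum_le_sum (fun c' hc' => hle z hz c' hc')).antisymm h1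
    have h3 := (Finset.sum_eq_sum_iff_of_le (fun c' hc' => hle z hz c' hc')).mp h2 c' hc'
    exact mem_vor_of_inner_eq hz h3.ge

theorem isTiling_vorT (O : Set (Sp d)) (hne : O.Nonempty)
    (hfin : ∀ K : Set (Sp d), IsCompact K → (O ∩ K).Finite)
    (hpoly : ∀ c ∈ O, ∃ s : Finset (Sp d), vor O c = convexHull ℝ (s : Set (Sp d))) :
    IsTiling (vorT O) := by
  refine ⟨?_, ?_, ?_, ?_, ?_⟩
  · rintro P ⟨c, hc, rfl⟩
    exact ⟨hpoly c hc, vor_interior_nonempty O hfin hc⟩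
  · rw [Set.eq_univ_iff_forall]
    intro x
    obtain ⟨c, hc, hx⟩ := exists_nearest_pt O hne hfin x
    exact ⟨vor O c, ⟨c, hc, rfl⟩, hx⟩
  · rintro P ⟨c, hc, rfl⟩ Q ⟨c', hc', rfl⟩ hPQ
    exact vor_disj O hc hc' (fun h => hPQ (by rw [h]))
  · rintro P ⟨c, hc, rfl⟩ Q ⟨c', hc', rfl⟩
    refine isExposed_vor_face O hc {c'} (by simpa using hc') _ ?_
    ext z
    simp only [Set.mem_inter_iff, Finset.mem_singleton, forall_eq, Set.mem_ofPred_eq]
  · intro K hK
    obtain ⟨c0, hc0⟩ := hne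
    obtain ⟨R, hR⟩ := hK.isBounded.subset_closedBall c0
    have hF := hfin (Metric.closedBall c0 (2 * R)) (isCompact_closedBall _ _)
    refine (hF.image (vor O)).subset ?_
    rintro P ⟨⟨c, hc, rfl⟩, ⟨x, hx, hxK⟩⟩
    refine ⟨c, ⟨hc, ?_⟩, rfl⟩
    have h1 := hx c0 hc0
    have h2 := hR hxK
    rw [Metric.mem_closedBall] at h2 ⊢
    have h3 : dist c c0 ≤ dist x c + dist x c0 := by
      rw [dist_comm x c]
      exact dist_triangle c x c0
    linarith

/-- The set of points nearest to (at least) all the centres nearest to `x`. -/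
def nearestCell (O : Set (Sp d)) (x : Sp d) : Set (Sp d) :=
  {z | ∀ c ∈ O, x ∈ vor O c → z ∈ vor O c}

theorem nearestCell_mem (O : Set (Sp d)) (hne : O.Nonempty)
    (hfin : ∀ K : Set (Sp d), IsCompact K → (O ∩ K).Finite) (x : Sp d) :
    nearestCell O x ∈ cells (vorT O) := by
  obtain ⟨c, hc, hx⟩ := exists_nearest_pt O hne hfin x
  refine ⟨⟨x, fun c' _ h => h⟩, vor O c, ⟨c, hc, rfl⟩, ?_⟩
  have hF := hfin (Metric.closedBall x (dist x c)) (isCompact_closedBall _ _)
  have hN : {c' | c' ∈ O ∧ x ∈ vor O c'}.Finite := by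
    refine hF.subset ?_
    rintro c' ⟨hc', hx'⟩
    refine ⟨hc', ?_⟩
    rw [Metric.mem_closedBall, dist_comm]
    exact hx' c hc
  refine isExposed_vor_face O hc hN.toFinset ?_ _ ?_
  · intro c' hc'
    rw [Set.Finite.mem_toFinset] at hc'
    exact hc'.1
  · ext z
    constructor
    · intro hz
      refine ⟨hz c hc hx, fun c' hc' => ?_⟩
      rw [Set.Finite.mem_toFinset] at hc'
      exact hz c' hc'.1 hc'.2
    · rintro ⟨_, hz⟩ c' hc' hx'
      refine hz c' ?_
      rw [Set.Finite.mem_toFinset]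
      exact ⟨hc', hx'⟩

/-- Equivariance. -/
theorem image_vor (O : Set (Sp d)) (g : Sp d ≃ᵢ Sp d) (hg : g '' O = O) (c : Sp d) :
    g '' vor O c = vor O (g c) := by
  ext y
  constructor
  · rintro ⟨x, hx, rfl⟩ c' hc'
    rw [← hg] at hc'
    obtain ⟨c'', hc'', rfl⟩ := hc'
    rw [g.isometry.dist_eq, g.isometry.dist_eq]
    exact hx c'' hc''
  · intro hy
    refine ⟨g.symm y, fun c' hc' => ?_, g.apply_symm_apply y⟩
    have h1 : g c' ∈ O := by
      rw [← hg]
      exact ⟨c', hc', rfl⟩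
    have h2 := hy (g c') h1
    rw [← g.apply_symm_apply y, g.isometry.dist_eq, g.isometry.dist_eq] at h2
    exact h2

theorem mem_vor_apply_iff (O : Set (Sp d)) (g : Sp d ≃ᵢ Sp d) (hg : g '' O = O) (c x : Sp d) :
    g x ∈ vor O (g c) ↔ x ∈ vor O c := by
  rw [← image_vor O g hg]
  exact g.injective.mem_set_image

theorem image_nearestCell (O : Set (Sp d)) (g : Sp d ≃ᵢ Sp d) (hg : g '' O = O) (x : Sp d) :
    g '' nearestCell O x = nearestCell O (g x) := by
  ext y
  constructor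
  · rintro ⟨z, hz, rfl⟩ c hc hgx
    rw [← hg] at hc
    obtain ⟨c', hc', rfl⟩ := hc
    rw [mem_vor_apply_iff O g hg] at hgx ⊢
    exact hz c' hc' hgx
  · intro hy
    refine ⟨g.symm y, fun c hc hx => ?_, g.apply_symm_apply y⟩
    have h1 : g c ∈ O := by
      rw [← hg]
      exact ⟨c, hc, rfl⟩
    have h2 := hy (g c) h1 ((mem_vor_apply_iff O g hg c x).mpr hx)
    rw [← g.apply_symm_apply y, mem_vor_apply_iff O g hg] at h2
    exact h2

end Pool.Agent.CRT
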