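import Pool.Agent.CRT.Alcove2
import Pool.Agent.CRT.Voronoi

/-!
# Module Q1: the Voronoi tiling of the orbit of the last vertex

`O = W v_d`, `v_d = vtx (Fin.last d)`.

Paper proofs.
`orbit_finite`: `w v_d ∈ K` implies `w alc` meets `K`: `locFin`.
`alc_subset_vor`: `y ∈ alc`: `dist y v_d ≤ dist y (w v_d)` by `nearest`.
`vor_poly`: it suffices to treat `c = v_d` (`image_vor`, isometries are affine so map convex hulls to
convex hulls).  `vor O v_d = ⋃_{u v_d = v_d} u alc`: `⊇` by `alc_subset_vor`, `image_vor`.  `⊆`: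
`x = w y`, `y ∈ alc` (`exists_alc`); `|y - w⁻¹v_d| = |x - v_d| ≤ |x - w v_d| = |y - v_d|`, so by
`nearest` equality holds and `w⁻¹ v_d = u v_d` with `u` fixing `y` (`u ∈ par M {g_i y = 0}`,
`act_simple_of_g_eq_zero`); `w u` fixes `v_d` and `x = w u y`.  The set of such `u` is finite
(`locFin {v_d}`), `u alc = conv (u v_0,…,u v_d)` (`alc_eq`), and `vor O v_d` is convex, so it is the
convex hull of the finitely many points `u v_k`.
`nearest_vtx`: for `k < d`: if `c = w v_d ∈ O` and `v_{k+1} ∈ vor O c`, then `v_k ∈ vor O c`: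
`|v_{k+1} - c| ≤ |v_{k+1} - v_d|`, so by `nearest` `c = u v_d`, `u ∈ par M {i : g_i(v_{k+1}) = 0} =
par M {k+1}ᶜ`.  The set `{u' v_d : u' ∈ par M {i : k+1 < i}}` is invariant under all `s_j`,
`j ≠ k+1`: clear if `j > k+1`; if `j ≤ k` then `s_j` commutes with all `s_i`, `i > k+1` (`hstr`), and
`s_j v_d = v_d` as `j < d`.  So `c = u' v_d` with `u' ∈ par M {i : k+1 < i}`, which fixes `v_k`;
`|v_k - c| = |v_k - v_d| ≤ |v_k - c'|` for all `c' ∈ O`.
-/

namespace Pool.Agent.CRT

open Set

namespace Realization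

variable {d : ℕ} {M : CoxeterMatrix (Fin (d + 1))} (R : Realization M)

/-- The orbit of the last vertex. -/
def orb : Set (Sp d) := {c | ∃ w : M.Group, c = R.act w (R.vtx (Fin.last d))}

theorem orb_nonempty : R.orb.Nonempty := ⟨_, 1, rfl⟩

theorem image_orb (w : M.Group) : R.act w '' R.orb = R.orb := by
  ext x
  constructor
  · rintro ⟨_, ⟨w', rfl⟩, rfl⟩
    exact ⟨w * w', (R.act_mul_apply w w' _).symm⟩
  · rintro ⟨w', rfl⟩
    refine ⟨R.act (w⁻¹ * w') (R.vtx (Fin.last d)), ⟨_, rfl⟩, ?_⟩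
    rw [← R.act_mul_apply, mul_inv_cancel_left]

theorem orb_finite (K : Set (Sp d)) (hK : IsCompact K) : (R.orb ∩ K).Finite := by
  refine ((R.locFin K hK).image (fun w => R.act w (R.vtx (Fin.last d)))).subset ?_
  rintro _ ⟨⟨w, rfl⟩, hK⟩
  exact ⟨w, ⟨_, ⟨_, R.vtx_mem_alc _, rfl⟩, hK⟩, rfl⟩

theorem mem_vor_vtx {y : Sp d} (hy : y ∈ R.alc) : y ∈ vor R.orb (R.vtx (Fin.last d)) := by
  rintro _ ⟨w, rfl⟩
  exact (R.nearest hy (R.vtx_mem_alc _) w).1

theorem act_par {y : Sp d} {u : M.Group} (hu : u ∈ par M {i | R.g i y = 0}) : R.act u y = y := by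
  unfold par at hu
  induction hu using Subgroup.closure_induction with
  | mem x hx =>
    obtain ⟨i, hi, rfl⟩ := hx
    exact R.act_simple_of_g_eq_zero hi
  | one => exact R.act_one_apply y
  | mul x y' _ _ hx hy =>
    rw [R.act_mul_apply, hy, hx]
  | inv x _ hx =>
    calc R.act x⁻¹ y = R.act x⁻¹ (R.act x y) := by rw [hx]
      _ = y := by rw [← R.act_mul_apply, inv_mul_cancel, R.act_one_apply]

theorem convex_vor (O : Set (Sp d)) (c : Sp d) : Convex ℝ (vor O c) := by
  have h : vor O c = ⋂ c' ∈ O, {x : Sp d | innerSL ℝ (c' - c) x ≤ (‖c'‖ ^ 2 - ‖c‖ ^ 2) / 2} := by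
    ext x
    simp only [vor, Set.mem_ofPred_eq, Set.mem_iInter]
    refine forall_congr' fun c' => forall_congr' fun _ => ?_
    have h1 : dist x c ^ 2 = ‖x‖ ^ 2 - 2 * inner ℝ x c + ‖c‖ ^ 2 := by
      rw [dist_eq_norm, norm_sub_sq_real]
    have h2 : dist x c' ^ 2 = ‖x‖ ^ 2 - 2 * inner ℝ x c' + ‖c'‖ ^ 2 := by
      rw [dist_eq_norm, norm_sub_sq_real]
    have h3 : innerSL ℝ (c' - c) x = inner ℝ x c' - inner ℝ x c := by
      rw [innerSL_apply_apply, inner_sub_left, real_inner_comm c' x, real_inner_comm c x]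
    rw [h3]
    constructor
    · intro h
      have := pow_le_pow_left₀ dist_nonneg h 2
      linarith
    · intro h
      refine abs_le_of_sq_le_sq' ?_ dist_nonneg |>.2
      linarith
  rw [h]
  exact convex_iInter₂ fun c' _ => convex_halfSpace_le (innerSL ℝ (c' - c)).toLinearMap.isLinear _

theorem image_convexHull_isom (g : Sp d ≃ᵢ Sp d) (s : Set (Sp d)) :
    g '' convexHull ℝ s = convexHull ℝ (g '' s) := by
  have := (g.toRealAffineIsometryEquiv.toAffineEquiv.toAffineMap).image_convexHull s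
  exact this

theorem vor_vtx_subset {x : Sp d} (hx : x ∈ vor R.orb (R.vtx (Fin.last d))) :
    ∃ u : M.Group, R.act u (R.vtx (Fin.last d)) = R.vtx (Fin.last d) ∧ x ∈ R.act u '' R.alc := by
  obtain ⟨w, y, hy, rfl⟩ := R.exists_alc x
  set v := R.vtx (Fin.last d) with hv
  have h1 : dist y (R.act w⁻¹ v) = dist (R.act w y) v := by
    rw [← (R.act w).isometry.dist_eq y (R.act w⁻¹ v), ← R.act_mul_apply, mul_inv_cancel,
      R.act_one_apply]
  have h2 : dist (R.act w y) v ≤ dist (R.act w y) (R.act w v) := hx _ ⟨w, rfl⟩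
  rw [(R.act w).isometry.dist_eq, ← h1] at h2
  obtain ⟨h3, h4⟩ := R.nearest hy (R.vtx_mem_alc (Fin.last d)) w⁻¹
  obtain ⟨u, hu, hu2⟩ := h4 (le_antisymm h3 h2)
  refine ⟨w * u, ?_, y, hy, ?_⟩
  · rw [R.act_mul_apply, ← hu2, ← R.act_mul_apply, mul_inv_cancel, R.act_one_apply]
  · rw [R.act_mul_apply, R.act_par hu]

theorem vor_poly_vtx : ∃ s : Finset (Sp d),
    vor R.orb (R.vtx (Fin.last d)) = convexHull ℝ (s : Set (Sp d)) := by
  classical
  set v := R.vtx (Fin.last d) with hv
  have hfin : {u : M.Group | R.act u v = v}.Finite := by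
    refine (R.locFin {v} isCompact_singleton).subset fun u hu => ?_
    exact ⟨v, ⟨v, R.vtx_mem_alc _, hu⟩, rfl⟩
  have hfin2 : (⋃ u ∈ {u : M.Group | R.act u v = v}, R.act u '' range R.vtx).Finite :=
    hfin.biUnion fun u _ => (Set.finite_range _).image _
  refine ⟨hfin2.toFinset, ?_⟩
  rw [Set.Finite.coe_toFinset]
  refine Set.Subset.antisymm ?_ ?_
  · intro x hx
    obtain ⟨u, hu, hxu⟩ := R.vor_vtx_subset hx
    rw [R.alc_eq, image_convexHull_isom] at hxu
    exact convexHull_mono (Set.subset_biUnion_of_mem (u := fun u => R.act u '' range R.vtx)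
      (show u ∈ {u : M.Group | R.act u v = v} from hu)) hxu
  · refine convexHull_min ?_ (convex_vor _ _)
    intro x hx
    simp only [Set.mem_iUnion] at hx
    obtain ⟨u, hu, _, ⟨k, rfl⟩, rfl⟩ := hx
    have h1 : R.act u (R.vtx k) ∈ R.act u '' vor R.orb v :=
      ⟨_, R.mem_vor_vtx (R.vtx_mem_alc k), rfl⟩
    rw [image_vor _ _ (R.image_orb u)] at h1
    have h2 : R.act u v = v := hu
    rwa [h2] at h1

theorem vor_poly : ∀ c ∈ R.orb, ∃ s : Finset (Sp d),
    vor R.orb c = convexHull ℝ (s : Set (Sp d)) := by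
  classical
  rintro _ ⟨w, rfl⟩
  obtain ⟨s, hs⟩ := R.vor_poly_vtx
  refine ⟨s.image (R.act w), ?_⟩
  rw [← image_vor _ _ (R.image_orb w), hs, image_convexHull_isom, Finset.coe_image]

theorem isTiling : IsTiling (vorT R.orb) :=
  isTiling_vorT R.orb R.orb_nonempty R.orb_finite R.vor_poly

theorem sm_comm {i j : Fin (d + 1)} (h : M i j = 2) : sm M i * sm M j = sm M j * sm M i := by
  have h1 := M.toCoxeterSystem.simple_mul_simple_pow i j
  rw [h, pow_two] at h1
  have h2 : (sm M i * sm M j)⁻¹ = sm M i * sm M j := inv_eq_of_mul_eq_one_left h1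
  rw [mul_inv_rev, M.toCoxeterSystem.inv_simple, M.toCoxeterSystem.inv_simple] at h2
  exact h2.symm

theorem nearest_vtx (hstr : ∀ i j : Fin (d + 1), i.1 + 1 < j.1 → M i j = 2) (k : Fin d)
    {c : Sp d} (hc : c ∈ R.orb) (h : R.vtx k.succ ∈ vor R.orb c) :
    R.vtx k.castSucc ∈ vor R.orb c := by
  obtain ⟨w, rfl⟩ := hc
  set v := R.vtx (Fin.last d) with hv
  have h1 : dist (R.vtx k.succ) (R.act w v) ≤ dist (R.vtx k.succ) v :=
    h _ ⟨1, (R.act_one_apply _).symm⟩
  obtain ⟨h2, h3⟩ := R.nearest (R.vtx_mem_alc k.succ) (R.vtx_mem_alc (Fin.last d)) w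
  obtain ⟨u, hu, huv⟩ := h3 (le_antisymm h2 h1)
  -- the invariant set
  set S : Set (Sp d) := {x | ∃ u' ∈ par M {i | k.succ < i}, x = R.act u' v} with hS
  have hinv : ∀ j : Fin (d + 1), j ≠ k.succ → R.act (sm M j) '' S ⊆ S := by
    rintro j hj _ ⟨_, ⟨u', hu', rfl⟩, rfl⟩
    rcases lt_or_gt_of_ne hj with hlt | hgt
    · refine ⟨u', hu', ?_⟩
      have hcomm : sm M j * u' = u' * sm M j := by
        have hle : par M {i | k.succ < i} ≤ Subgroup.centralizer {sm M j} := by
          unfold par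
          rw [Subgroup.closure_le]
          rintro _ ⟨i, hi, rfl⟩
          have hM : M j i = 2 := by
            apply hstr
            have a1 : j.1 < k.succ.1 := hlt
            have a2 : k.succ.1 < i.1 := hi
            omega
          rw [SetLike.mem_coe, Subgroup.mem_centralizer_iff]
          rintro _ rfl
          exact sm_comm hM
        have := hle hu'
        rw [Subgroup.mem_centralizer_iff] at this
        exact this _ rfl
      have hjd : j ≠ Fin.last d := by
        intro hjd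
        rw [hjd] at hlt
        exact absurd (Fin.le_last k.succ) (not_le.2 hlt)
      rw [← R.act_mul_apply, hcomm, R.act_mul_apply, hv, R.act_simple_vtx hjd]
    · refine ⟨sm M j * u', (par M _).mul_mem (Subgroup.subset_closure ⟨j, hgt, rfl⟩) hu', ?_⟩
      rw [R.act_mul_apply]
  have hinv2 : ∀ u ∈ par M {i | R.g i (R.vtx k.succ) = 0}, R.act u '' S = S := by
    intro u hu
    unfold par at hu
    induction hu using Subgroup.closure_induction with
    | mem x hx =>
      obtain ⟨j, hj, rfl⟩ := hx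
      have hjk : j ≠ k.succ := by
        rintro rfl
        have h5 : R.g k.succ (R.vtx k.succ) = 0 := hj
        rw [R.g_vtx, if_pos rfl] at h5
        exact absurd h5 (inv_pos.2 (R.c_pos _)).ne'
      refine Set.Subset.antisymm (hinv j hjk) fun x hx => ?_
      refine ⟨R.act (sm M j) x, hinv j hjk ⟨x, hx, rfl⟩, ?_⟩
      rw [← R.act_mul_apply, M.toCoxeterSystem.simple_mul_simple_self, R.act_one_apply]
    | one =>
      have : (fun x => R.act (1 : M.Group) x) = id := funext fun x => R.act_one_apply x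
      change (fun x => R.act (1 : M.Group) x) '' S = S
      rw [this, Set.image_id]
    | mul x y _ _ hx hy =>
      have : (fun z => R.act (x * y) z) = (R.act x) ∘ (R.act y) :=
        funext fun z => R.act_mul_apply x y z
      change (fun z => R.act (x * y) z) '' S = S
      rw [this, Set.image_comp, hy, hx]
    | inv x _ hx =>
      conv_lhs => rw [← hx]
      rw [← Set.image_comp]
      have : (R.act x⁻¹ : Sp d → Sp d) ∘ (R.act x) = id := by
        funext z
        rw [Function.comp_apply, ← R.act_mul_apply, inv_mul_cancel, R.act_one_apply]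
        rfl
      rw [this, Set.image_id]
  have hvS : v ∈ S := ⟨1, Subgroup.one_mem _, (R.act_one_apply _).symm⟩
  have hwS : R.act w v ∈ S := by
    rw [huv, ← hinv2 u hu]
    exact ⟨v, hvS, rfl⟩
  obtain ⟨u', hu', hwu'⟩ := hwS
  have hfix : R.act u' (R.vtx k.castSucc) = R.vtx k.castSucc := by
    apply R.act_par
    refine Subgroup.closure_mono (Set.image_mono fun i hi => ?_) hu'
    have hik : i ≠ k.castSucc := by
      rintro rfl
      have : k.succ.1 < k.castSucc.1 := hi
      simp at this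
    change R.g i (R.vtx k.castSucc) = 0
    rw [R.g_vtx, if_neg hik]
  rintro _ ⟨w', rfl⟩
  rw [hwu']
  conv_lhs => rw [← hfix]
  rw [(R.act u').isometry.dist_eq]
  exact (R.nearest (R.vtx_mem_alc _) (R.vtx_mem_alc _) w').1

theorem nearestCell_subset (hstr : ∀ i j : Fin (d + 1), i.1 + 1 < j.1 → M i j = 2) (k : Fin d) :
    nearestCell R.orb (R.vtx k.castSucc) ⊆ nearestCell R.orb (R.vtx k.succ) :=
  fun _ hz c hc h => hz c hc (R.nearest_vtx hstr k hc h)

/-- `s_i` preserves the cell of `v_k` if `i ≠ k`. -/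
theorem image_nearestCell_vtx {i k : Fin (d + 1)} (hik : i ≠ k) :
    R.act (sm M i) '' nearestCell R.orb (R.vtx k) = nearestCell R.orb (R.vtx k) := by
  rw [image_nearestCell R.orb _ (R.image_orb _), R.act_simple_vtx hik]

end Realization

end Pool.Agent.CRT
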