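import Pool.Agent.CRT.TDefs

/-!
# Module A: polytopes and exposed faces

Paper proofs.
* `of_isExposed`: `F = {x ∈ P : l x = max}`; `F = conv(s ∩ F)` (a convex combination of points of
  `s` attains the maximum of `l` iff all points with positive weight do).
* `isExposed_trans`: `F = {l = max_P}`, `G = {m = max_F}`: for small `ε > 0`,
  `G = {l + ε m = max_P}`: compare values at the finitely many points of `s` (a point of `s \ F` has
  `l`-value `< max_P l` by a fixed gap; a point of `(s ∩ F) \ G` has smaller `m`-value); the maximum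
  face of `l + ε m` is the convex hull of the maximising points of `s`.
* `finite_isExposed`: `F ↦ s ∩ F` is injective.
* `bary_mem`: Krein-Milman or: extreme points of `conv s` lie in `s` (finite), nonempty; average.
* `eq_of_bary_mem`: exposed faces are extreme sets; a convex combination with positive
  coefficients lies in an extreme subset iff all the points do; so all extreme points of `P` are in
  `F`, and `P = conv(extreme points) ⊆ F` (Krein-Milman: `closure_convexHull_extremePoints`).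
* `exit`: let `s₀ ≥ 1` be the largest `s` with `y = b + s(x - b) ∈ P` (`b = bary P`, compactness),
  `t = 1/s₀`.  No point `y + ε(y - b)`, `ε > 0`, is in `P`.  So `y` is not in the intrinsic interior
  of `P`: there is a linear functional `l` with `l ≤ l y` on `P` which is not constant on `P`
  (Hahn-Banach in the direction space of `P`: transport `P` to a convex set with nonempty interior in
  the subspace `vectorSpan ℝ P`, use `geometric_hahn_banach_open_point` there, and extend by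
  composing with the orthogonal projection).  `G = {z ∈ P : l z = l y}`.
* `ray_unique`: if `t < t'`, then `y'` is a convex combination of `bary P` (positive weight) and
  `y`, in the extreme set `G'`, so `bary P ∈ G'`, contradiction with `eq_of_bary_mem`.
* `finrank`: `F ⊆ {l = c}`; if `vectorSpan F = vectorSpan G` then `l` is constant on `G`, `F = G`.
* `bary_image`: an isometry of `𝔼^d` is affine (`IsometryEquiv.toRealAffineIsometryEquiv`); it maps
  extreme points to extreme points.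
-/

namespace Pool.Agent.CRT

open Set

variable {d : ℕ} {P F G : Set (Sp d)}

theorem IsPoly.isCompact (hP : IsPoly P) : IsCompact P := by
  obtain ⟨s, rfl⟩ := hP
  exact (s.finite_toSet).isCompact_convexHull ℝ

theorem IsPoly.convex (hP : IsPoly P) : Convex ℝ P := by
  obtain ⟨s, rfl⟩ := hP
  exact convex_convexHull _ _

theorem le_of_mem_hull {s : Set (Sp d)} {l : Sp d →L[ℝ] ℝ} {M : ℝ} (hM : ∀ y ∈ s, l y ≤ M)
    {x : Sp d} (hx : x ∈ convexHull ℝ s) : l x ≤ M := by
  have h : convexHull ℝ s ⊆ {z | l z ≤ M} :=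
    convexHull_min (fun y hy => hM y hy) (convex_halfSpace_le l.isLinear M)
  exact h hx

theorem eq_of_mem_hull {s : Set (Sp d)} {l : Sp d →L[ℝ] ℝ} {M : ℝ} (hM : ∀ y ∈ s, l y = M)
    {x : Sp d} (hx : x ∈ convexHull ℝ s) : l x = M := by
  have h : convexHull ℝ s ⊆ {z | l z = M} :=
    convexHull_min (fun y hy => hM y hy) (convex_hyperplane l.isLinear M)
  exact h hx

/-- the maximising points of the hull are in the hull of the maximising points -/
theorem mem_hull_of_max (s : Finset (Sp d)) (l : Sp d →L[ℝ] ℝ) {M : ℝ} (hM : ∀ y ∈ s, l y ≤ M)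
    {x : Sp d} (hx : x ∈ convexHull ℝ (s : Set (Sp d))) (hlx : M ≤ l x) :
    x ∈ convexHull ℝ {y | y ∈ s ∧ l y = M} := by
  classical
  rw [Finset.mem_convexHull'] at hx
  obtain ⟨w, hw0, hw1, hwx⟩ := hx
  have h1 : ∑ y ∈ s, w y * (M - l y) = M - l x := by
    have h2 : l x = ∑ y ∈ s, w y * l y := by
      rw [← hwx, map_sum]
      simp
    rw [h2]
    simp only [mul_sub, Finset.sum_sub_distrib]
    rw [← Finset.sum_mul, hw1, one_mul]
  have h3 : ∀ y ∈ s, 0 ≤ w y * (M - l y) := fun y hy =>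
    mul_nonneg (hw0 y hy) (sub_nonneg.mpr (hM y hy))
  have h4 : ∑ y ∈ s, w y * (M - l y) = 0 :=
    le_antisymm (by rw [h1]; linarith) (Finset.sum_nonneg h3)
  have h5 : ∀ y ∈ s, w y * (M - l y) = 0 := (Finset.sum_eq_zero_iff_of_nonneg h3).mp h4
  have h6 : ∀ y ∈ s, ¬ (l y = M) → w y = 0 := fun y hy hne => by
    rcases mul_eq_zero.mp (h5 y hy) with h | h
    · exact h
    · exact absurd (sub_eq_zero.mp h).symm hne
  have h7 : ({y | y ∈ s ∧ l y = M} : Set (Sp d)) = ((s.filter fun y => l y = M : Finset (Sp d)) :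
      Set (Sp d)) := by
    ext y
    simp
  rw [h7, Finset.mem_convexHull']
  refine ⟨w, fun y hy => hw0 y (Finset.mem_of_mem_filter y hy), ?_, ?_⟩
  · rw [← hw1]
    refine Finset.sum_subset (Finset.filter_subset _ _) fun y hy hy' => h6 y hy ?_
    intro h
    exact hy' (Finset.mem_filter.mpr ⟨hy, h⟩)
  · rw [← hwx]
    refine Finset.sum_subset (Finset.filter_subset _ _) fun y hy hy' => ?_
    rw [h6 y hy, zero_smul]
    intro h
    exact hy' (Finset.mem_filter.mpr ⟨hy, h⟩)

theorem hull_inter_of_isExposed (s : Finset (Sp d))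
    (hF : IsExposed ℝ (convexHull ℝ (s : Set (Sp d))) F) :
    F = convexHull ℝ ((s : Set (Sp d)) ∩ F) := by
  rcases F.eq_empty_or_nonempty with rfl | hne
  · simp
  obtain ⟨l, hl⟩ := hF hne
  obtain ⟨x₀, hx₀⟩ := hne
  have hx₀' := hx₀
  rw [hl] at hx₀'
  have hM : ∀ y ∈ s, l y ≤ l x₀ := fun y hy => hx₀'.2 y (subset_convexHull ℝ _ hy)
  apply Subset.antisymm
  · intro x hx
    have hx' := hx
    rw [hl] at hx'
    have h1 := mem_hull_of_max s l hM hx'.1 (hx'.2 x₀ hx₀'.1)
    refine convexHull_mono ?_ h1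
    rintro y ⟨hy, hly⟩
    refine ⟨hy, ?_⟩
    rw [hl]
    refine ⟨subset_convexHull ℝ _ hy, fun z hz => ?_⟩
    rw [hly]
    exact hx₀'.2 z hz
  · exact convexHull_min inter_subset_right (hF.convex (convex_convexHull ℝ _))

theorem IsPoly.of_isExposed (hP : IsPoly P) (hF : IsExposed ℝ P F) : IsPoly F := by
  classical
  obtain ⟨s, rfl⟩ := hP
  refine ⟨s.filter (· ∈ F), ?_⟩
  have h := hull_inter_of_isExposed s hF
  have h2 : ((s : Set (Sp d)) ∩ F) = ((s.filter (· ∈ F) : Finset (Sp d)) : Set (Sp d)) := by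
    ext y
    simp
  rw [← h2]
  exact h

theorem IsPoly.isExposed_trans (hP : IsPoly P) (hF : IsExposed ℝ P F) (hG : IsExposed ℝ F G) :
    IsExposed ℝ P G := by
  classical
  obtain ⟨s, rfl⟩ := hP
  intro hGne
  obtain ⟨l₂, hl₂⟩ := hG hGne
  obtain ⟨l₁, hl₁⟩ := hF (hGne.mono hG.subset)
  obtain ⟨x₀, hx₀⟩ := hGne
  have hx₀G := hx₀
  rw [hl₂] at hx₀G
  have hx₀F := hx₀G.1
  rw [hl₁] at hx₀F
  have hM₁ : ∀ y ∈ s, l₁ y ≤ l₁ x₀ := fun y hy => hx₀F.2 y (subset_convexHull ℝ _ hy)
  have hmemF : ∀ y ∈ convexHull ℝ (s : Set (Sp d)), l₁ y = l₁ x₀ → y ∈ F := by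
    intro y hy hly
    rw [hl₁]
    exact ⟨hy, fun z hz => by rw [hly]; exact hx₀F.2 z hz⟩
  have hM₂ : ∀ y ∈ s, l₁ y = l₁ x₀ → l₂ y ≤ l₂ x₀ := fun y hy hly =>
    hx₀G.2 y (hmemF y (subset_convexHull ℝ _ hy) hly)
  obtain ⟨ε, hε, hεs⟩ : ∃ ε : ℝ, 0 < ε ∧ ∀ y ∈ s, l₁ y < l₁ x₀ →
      ε * (l₂ y - l₂ x₀) < l₁ x₀ - l₁ y := by
    have h1 : ∀ᶠ ε in nhdsWithin (0 : ℝ) (Ioi 0), ∀ y ∈ s, l₁ y < l₁ x₀ →
        ε * (l₂ y - l₂ x₀) < l₁ x₀ - l₁ y := by
      rw [Filter.eventually_all_finset]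
      intro y _
      by_cases hy : l₁ y < l₁ x₀
      · have h2 : Filter.Tendsto (fun ε : ℝ => ε * (l₂ y - l₂ x₀)) (nhdsWithin 0 (Ioi 0))
            (nhds (0 * (l₂ y - l₂ x₀))) :=
          (Filter.Tendsto.mul_const _ Filter.tendsto_id).mono_left nhdsWithin_le_nhds
        have h3 := h2.eventually (Iio_mem_nhds (show 0 * (l₂ y - l₂ x₀) < l₁ x₀ - l₁ y by
          rw [zero_mul]; linarith))
        filter_upwards [h3] with ε hε _
        exact hε
      · exact Filter.Eventually.of_forall fun ε h => absurd h hy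
    obtain ⟨ε, h2, h3⟩ := (h1.and self_mem_nhdsWithin).exists
    exact ⟨ε, h3, h2⟩
  set L : Sp d →L[ℝ] ℝ := l₁ + ε • l₂ with hL
  have hLv : ∀ y, L y = l₁ y + ε * l₂ y := fun y => by simp [hL]
  have hML : ∀ y ∈ s, L y ≤ L x₀ := by
    intro y hy
    rw [hLv, hLv]
    rcases (hM₁ y hy).lt_or_eq with h | h
    · have := hεs y hy h
      nlinarith
    · have := mul_le_mul_of_nonneg_left (hM₂ y hy h) hε.le
      linarith
  refine ⟨L, ?_⟩
  ext x
  constructor
  · intro hx
    have hxF := hx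
    rw [hl₂] at hxF
    have hxP := hxF.1
    rw [hl₁] at hxP
    refine ⟨hxP.1, fun y hy => ?_⟩
    have h1 : l₁ x = l₁ x₀ := le_antisymm (hx₀F.2 x hxP.1) (hxP.2 x₀ hx₀F.1)
    have h2 : l₂ x = l₂ x₀ := le_antisymm (hx₀G.2 x hxF.1) (hxF.2 x₀ hx₀G.1)
    have h3 := le_of_mem_hull hML hy
    rw [hLv x, h1, h2, ← hLv]
    exact h3
  · rintro ⟨hxP, hxL⟩
    have h1 := mem_hull_of_max s L hML hxP (hxL x₀ hx₀F.1)
    have h2 : ∀ y ∈ {y | y ∈ s ∧ L y = L x₀}, l₁ y = l₁ x₀ ∧ l₂ y = l₂ x₀ := by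
      rintro y ⟨hy, hLy⟩
      rw [hLv, hLv] at hLy
      rcases (hM₁ y hy).lt_or_eq with h | h
      · have := hεs y hy h
        nlinarith
      · refine ⟨h, ?_⟩
        have h3 : ε * l₂ y = ε * l₂ x₀ := by linarith
        exact mul_left_cancel₀ hε.ne' h3
    have h3 := eq_of_mem_hull (fun y hy => (h2 y hy).1) h1
    have h4 := eq_of_mem_hull (fun y hy => (h2 y hy).2) h1
    rw [hl₂]
    refine ⟨hmemF x hxP h3, fun y hy => ?_⟩
    rw [h4]
    exact hx₀G.2 y hy

theorem IsPoly.finite_isExposed (hP : IsPoly P) : {F | IsExposed ℝ P F}.Finite := by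
  obtain ⟨s, rfl⟩ := hP
  refine ((s.finite_toSet.finite_subsets).image (fun t => convexHull ℝ t)).subset ?_
  intro F hF
  exact ⟨(s : Set (Sp d)) ∩ F, inter_subset_left, (hull_inter_of_isExposed s hF).symm⟩

theorem IsPoly.finite_extremePoints (hP : IsPoly P) : (P.extremePoints ℝ).Finite := by
  obtain ⟨s, rfl⟩ := hP
  exact s.finite_toSet.subset extremePoints_convexHull_subset

theorem IsPoly.bary_eq (hP : IsPoly P) :
    bary P = (hP.finite_extremePoints.toFinset.card : ℝ)⁻¹ •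
      ∑ v ∈ hP.finite_extremePoints.toFinset, v := by
  unfold bary
  rw [dif_pos hP.finite_extremePoints]

theorem IsPoly.card_pos (hP : IsPoly P) (hne : P.Nonempty) :
    0 < hP.finite_extremePoints.toFinset.card := by
  rw [Finset.card_pos]
  obtain ⟨v, hv⟩ := hP.isCompact.extremePoints_nonempty hne
  exact ⟨v, by simpa using hv⟩

theorem IsPoly.bary_mem (hP : IsPoly P) (hne : P.Nonempty) : bary P ∈ P := by
  rw [hP.bary_eq, Finset.smul_sum]
  have hc := hP.card_pos hne
  have hc' : (0 : ℝ) < hP.finite_extremePoints.toFinset.card := by exact_mod_cast hc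
  refine hP.convex.sum_mem (fun i _ => (inv_pos.mpr hc').le) ?_ fun v hv => ?_
  · rw [Finset.sum_const, nsmul_eq_mul, mul_inv_cancel₀ hc'.ne']
  · exact extremePoints_subset (by simpa using hv)

theorem IsPoly.eq_of_bary_mem (hP : IsPoly P) (hne : P.Nonempty) (hF : IsExposed ℝ P F)
    (hb : bary P ∈ F) : F = P := by
  obtain ⟨l, hl⟩ := hF ⟨_, hb⟩
  have hb' := hb
  rw [hl] at hb'
  have hc := hP.card_pos hne
  have hc' : (0 : ℝ) < hP.finite_extremePoints.toFinset.card := by exact_mod_cast hc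
  have h1 : ∀ v ∈ hP.finite_extremePoints.toFinset, l v ≤ l (bary P) := fun v hv =>
    hb'.2 v (extremePoints_subset (by simpa using hv))
  have h2 : ∑ v ∈ hP.finite_extremePoints.toFinset, (l (bary P) - l v) = 0 := by
    rw [Finset.sum_sub_distrib, Finset.sum_const, nsmul_eq_mul]
    have h3 : l (bary P) = (hP.finite_extremePoints.toFinset.card : ℝ)⁻¹ *
        ∑ v ∈ hP.finite_extremePoints.toFinset, l v := by
      conv_lhs => rw [hP.bary_eq]
      rw [map_smul, map_sum, smul_eq_mul]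
    rw [h3, mul_inv_cancel_left₀ hc'.ne', sub_self]
  have h4 := (Finset.sum_eq_zero_iff_of_nonneg fun v hv => sub_nonneg.mpr (h1 v hv)).mp h2
  have h5 : P.extremePoints ℝ ⊆ F := by
    intro v hv
    have h6 := h4 v (by simpa using hv)
    rw [hl]
    refine ⟨extremePoints_subset hv, fun y hy => ?_⟩
    rw [← sub_eq_zero.mp h6]
    exact hb'.2 y hy
  apply Subset.antisymm hF.subset
  have h7 := closure_convexHull_extremePoints hP.isCompact hP.convex
  rw [← h7]
  exact closure_minimal (convexHull_min h5 (hF.convex hP.convex))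
    (hF.isClosed hP.isCompact.isClosed)

/-- separation of a relative boundary point -/
theorem exists_face_of_boundary (hP : Convex ℝ P) {b y : Sp d} (hb : b ∈ P)
    (hy : y ∈ P) (hout : ∀ ε : ℝ, 0 < ε → y + ε • (y - b) ∉ P) :
    ∃ G, IsExposed ℝ P G ∧ G ≠ P ∧ y ∈ G := by
  set W : Submodule ℝ (Sp d) := vectorSpan ℝ P with hW
  have hmemW : ∀ z ∈ P, z - b ∈ W := fun z hz => vsub_mem_vectorSpan ℝ hz hb
  set P' : Set W := {v | b + (v : Sp d) ∈ P} with hP'
  have h0 : (0 : W) ∈ P' := by simpa [hP'] using hb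
  have hconv : Convex ℝ P' := by
    intro v hv w hw α β hα hβ hαβ
    have h1 := hP hv hw hα hβ hαβ
    have h2 : b + ((α • v + β • w : W) : Sp d) = α • (b + (v : Sp d)) + β • (b + (w : Sp d)) := by
      push_cast
      rw [smul_add, smul_add]
      have : b = α • b + β • b := by rw [← add_smul, hαβ, one_smul]
      nth_rewrite 1 [this]
      abel
    show b + ((α • v + β • w : W) : Sp d) ∈ P
    rw [h2]
    exact h1
  have hspan : Submodule.span ℝ P' = ⊤ := by
    have h1 : Submodule.map W.subtype (Submodule.span ℝ P') = W := by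
      rw [Submodule.map_span]
      apply le_antisymm
      · rw [Submodule.span_le]
        rintro _ ⟨v, _, rfl⟩
        exact v.2
      · have hWs : W = Submodule.span ℝ ((· -ᵥ b) '' P) := by
          rw [hW, vectorSpan_eq_span_vsub_set_right ℝ hb]
        refine hWs.le.trans ?_
        rw [Submodule.span_le]
        rintro _ ⟨z, hz, rfl⟩
        refine Submodule.subset_span ⟨⟨z - b, hmemW z hz⟩, ?_, rfl⟩
        show b + (z - b) ∈ P
        simpa using hz
    apply Submodule.map_injective_of_injective W.injective_subtype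
    rw [h1, Submodule.map_top, Submodule.range_subtype]
  have haff : affineSpan ℝ P' = ⊤ := by
    rw [AffineSubspace.affineSpan_eq_top_iff_vectorSpan_eq_top_of_nonempty ℝ W W ⟨0, h0⟩,
      vectorSpan_eq_span_vsub_set_right ℝ h0]
    simpa using hspan
  have hint : (interior P').Nonempty := hconv.interior_nonempty_iff_affineSpan_eq_top.mpr haff
  set y' : W := ⟨y - b, hmemW y hy⟩ with hy'
  have hy'P : y' ∈ P' := by simpa [hP', hy'] using hy
  have hy'int : y' ∉ interior P' := by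
    intro h
    have h1 : Filter.Tendsto (fun ε : ℝ => y' + ε • y') (nhdsWithin 0 (Ioi 0)) (nhds y') := by
      have h2 : Continuous fun ε : ℝ => y' + ε • y' := by fun_prop
      have h3 := h2.tendsto 0
      simp only [zero_smul, add_zero] at h3
      exact h3.mono_left nhdsWithin_le_nhds
    have h2 := h1.eventually (mem_interior_iff_mem_nhds.mp h)
    obtain ⟨ε, h3, h4⟩ := (h2.and self_mem_nhdsWithin).exists
    refine hout ε h4 ?_
    have h5 : b + ((y' + ε • y' : W) : Sp d) ∈ P := h3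
    have h6 : b + ((y' + ε • y' : W) : Sp d) = y + ε • (y - b) := by
      simp only [hy', Submodule.coe_add, Submodule.coe_smul]
      abel
    rwa [h6] at h5
  obtain ⟨f, hf⟩ := geometric_hahn_banach_open_point hconv.interior isOpen_interior hy'int
  have hfle : ∀ v ∈ P', f v ≤ f y' := by
    intro v hv
    have h1 : v ∈ closure (interior P') := by
      rw [hconv.closure_interior_eq_closure_of_nonempty_interior hint]
      exact subset_closure hv
    have h2 : closure (interior P') ⊆ {w | f w ≤ f y'} :=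
      closure_minimal (fun w hw => (hf w hw).le) (isClosed_le f.continuous continuous_const)
    exact h2 h1
  set l : Sp d →L[ℝ] ℝ := f.comp W.orthogonalProjectionOnto with hl
  have hlv : ∀ z (hz : z ∈ P), l z = f ⟨z - b, hmemW z hz⟩ + l b := by
    intro z hz
    have h1 : z = (⟨z - b, hmemW z hz⟩ : W) + b := by simp
    have h2 : l z = l (((⟨z - b, hmemW z hz⟩ : W) : Sp d) + b) := by rw [← h1]
    rw [h2, map_add]
    congr 1
    show f (W.orthogonalProjectionOnto ((⟨z - b, hmemW z hz⟩ : W) : Sp d)) = _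
    rw [Submodule.orthogonalProjectionOnto_mem_subspace_eq_self]
  refine ⟨{z | z ∈ P ∧ ∀ w ∈ P, l w ≤ l z}, fun _ => ⟨l, rfl⟩, ?_, hy, ?_⟩
  · intro h
    obtain ⟨v, hv⟩ := hint
    have hvP' : v ∈ P' := interior_subset hv
    have hvP : b + (v : Sp d) ∈ P := hvP'
    have h1 := hvP
    rw [← h] at h1
    have h2 := h1.2 y hy
    rw [hlv y hy, hlv _ hvP] at h2
    have h3 := hf v hv
    have h4 : (⟨b + (v : Sp d) - b, hmemW _ hvP⟩ : W) = v := by
      ext1
      simp
    rw [h4] at h2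
    linarith
  · intro w hw
    rw [hlv y hy, hlv w hw]
    have h1 : (⟨w - b, hmemW w hw⟩ : W) ∈ P' := by
      show b + (w - b) ∈ P
      simpa using hw
    have h2 := hfle _ h1
    linarith

theorem IsPoly.exit (hP : IsPoly P) {x : Sp d} (hx : x ∈ P) (hxb : x ≠ bary P) :
    ∃ (t : ℝ) (y : Sp d) (G : Set (Sp d)), 0 < t ∧ t ≤ 1 ∧ IsExposed ℝ P G ∧ G ≠ P ∧ y ∈ G ∧
      x = (1 - t) • bary P + t • y := by
  set b := bary P with hb
  have hbP : b ∈ P := hP.bary_mem ⟨x, hx⟩
  set S : Set ℝ := {s | 0 ≤ s ∧ b + s • (x - b) ∈ P} with hS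
  have h1S : (1 : ℝ) ∈ S := ⟨zero_le_one, by simpa using hx⟩
  have hxb' : 0 < ‖x - b‖ := norm_pos_iff.mpr (sub_ne_zero.mpr hxb)
  have hclosed : IsClosed S := by
    have h1 : S = Ici 0 ∩ (fun s : ℝ => b + s • (x - b)) ⁻¹' P := rfl
    rw [h1]
    exact isClosed_Ici.inter (hP.isCompact.isClosed.preimage (by fun_prop))
  have hbdd : BddAbove S := by
    obtain ⟨R, hR⟩ := hP.isCompact.isBounded.exists_norm_le
    refine ⟨(R + ‖b‖) / ‖x - b‖, ?_⟩
    rintro s ⟨hs0, hsP⟩
    rw [le_div_iff₀ hxb']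
    have h1 := hR _ hsP
    have h2 : s * ‖x - b‖ = ‖s • (x - b)‖ := by
      rw [norm_smul, Real.norm_of_nonneg hs0]
    rw [h2]
    calc ‖s • (x - b)‖ = ‖(b + s • (x - b)) - b‖ := by rw [add_sub_cancel_left]
      _ ≤ ‖b + s • (x - b)‖ + ‖b‖ := norm_sub_le _ _
      _ ≤ R + ‖b‖ := by linarith
  set s₀ := sSup S with hs₀
  have hs₀S : s₀ ∈ S := hclosed.csSup_mem ⟨1, h1S⟩ hbdd
  have hs₀1 : 1 ≤ s₀ := le_csSup hbdd h1S
  have hs₀pos : 0 < s₀ := lt_of_lt_of_le one_pos hs₀1
  set y := b + s₀ • (x - b) with hy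
  have hyP : y ∈ P := hs₀S.2
  obtain ⟨G, hG, hGP, hyG⟩ := exists_face_of_boundary hP.convex hbP hyP (by
    intro ε hε h
    have h1 : y + ε • (y - b) = b + (s₀ + ε * s₀) • (x - b) := by
      rw [hy, add_sub_cancel_left, smul_smul, add_smul]
      abel
    rw [h1] at h
    have h2 : s₀ + ε * s₀ ∈ S := ⟨by positivity, h⟩
    have h3 := le_csSup hbdd h2
    have h4 : 0 < ε * s₀ := by positivity
    linarith)
  refine ⟨s₀⁻¹, y, G, inv_pos.mpr hs₀pos, inv_le_one_of_one_le₀ hs₀1, hG, hGP, hyG, ?_⟩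
  rw [hy, smul_add, smul_smul, inv_mul_cancel₀ hs₀pos.ne', one_smul, sub_smul, one_smul]
  abel

/-- Exposed subsets of convex sets contain the endpoints of segments they meet in the interior. -/
theorem left_mem_of_isExposed (hF : IsExposed ℝ P F) {x y : Sp d} (hx : x ∈ P) (hy : y ∈ P)
    {t : ℝ} (ht0 : 0 ≤ t) (ht1 : t < 1) (h : (1 - t) • x + t • y ∈ F) : x ∈ F := by
  obtain ⟨l, hl⟩ := hF ⟨_, h⟩
  have h' := h
  rw [hl] at h'
  have h1 := h'.2 x hx
  have h2 := h'.2 y hy
  have h3 : l ((1 - t) • x + t • y) = (1 - t) * l x + t * l y := by simp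
  have h5 : l ((1 - t) • x + t • y) ≤ l x := by
    have h6 : t * l y ≤ t * l ((1 - t) • x + t • y) := mul_le_mul_of_nonneg_left h2 ht0
    have h7 : (1 - t) * l ((1 - t) • x + t • y) ≤ (1 - t) * l x := by nlinarith
    exact le_of_mul_le_mul_left h7 (by linarith)
  rw [hl]
  exact ⟨hx, fun z hz => (h'.2 z hz).trans h5⟩

theorem IsPoly.ray_unique (hP : IsPoly P) (hne : P.Nonempty) {G G' : Set (Sp d)} {y y' : Sp d}
    {t t' : ℝ} (ht0 : 0 ≤ t) (ht1 : t ≤ 1) (ht0' : 0 ≤ t') (ht1' : t' ≤ 1)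
    (hG : IsExposed ℝ P G) (hGP : G ≠ P) (hy : y ∈ G)
    (hG' : IsExposed ℝ P G') (hGP' : G' ≠ P) (hy' : y' ∈ G')
    (heq : (1 - t) • bary P + t • y = (1 - t') • bary P + t' • y') :
    t = t' ∧ (t ≠ 0 → y = y') := by
  have key : ∀ {G G' : Set (Sp d)} {y y' : Sp d} {t t' : ℝ}, 0 ≤ t → IsExposed ℝ P G → y ∈ G →
      IsExposed ℝ P G' → G' ≠ P → y' ∈ G' →
      (1 - t) • bary P + t • y = (1 - t') • bary P + t' • y' → ¬ t < t' := by
    intro G G' y y' t t' ht0 hG hy hG' hGP' hy' heq hlt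
    have ht' : 0 < t' := lt_of_le_of_lt ht0 hlt
    have h1 : y' = (1 - t / t') • bary P + (t / t') • y := by
      have h2 : t' • y' = (t' - t) • bary P + t • y := by
        have h3 : t' • y' = ((1 - t) • bary P + t • y) - (1 - t') • bary P := by
          rw [heq]
          abel
        rw [h3]
        module
      have h4 : y' = t'⁻¹ • (t' • y') := by
        rw [smul_smul, inv_mul_cancel₀ ht'.ne', one_smul]
      rw [h4, h2, smul_add, smul_smul, smul_smul]
      congr 2
      · field_simp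
      · field_simp
    rw [h1] at hy'
    have h5 := left_mem_of_isExposed hG' (hP.bary_mem hne) (hG.subset hy)
      (div_nonneg ht0 ht'.le) ((div_lt_one ht').mpr hlt) hy'
    exact hGP' (hP.eq_of_bary_mem hne hG' h5)
  have h1 : t = t' := by
    rcases lt_trichotomy t t' with h | h | h
    · exact absurd h (key ht0 hG hy hG' hGP' hy' heq)
    · exact h
    · exact absurd h (key ht0' hG' hy' hG hGP hy heq.symm)
  refine ⟨h1, fun ht => ?_⟩
  subst h1
  have h2 : t • y = t • y' := add_left_cancel heq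
  exact smul_right_injective _ ht h2

theorem cdim_lt_of_isExposed (hF : IsExposed ℝ G F) (hne : F.Nonempty) (hneq : F ≠ G) :
    cdim F < cdim G := by
  obtain ⟨l, hl⟩ := hF hne
  obtain ⟨x₀, hx₀⟩ := hne
  have hle : vectorSpan ℝ F ≤ vectorSpan ℝ G := vectorSpan_mono ℝ hF.subset
  have hconst : ∀ x ∈ F, l x = l x₀ := by
    intro x hx
    have hx' := hx
    have hx₀' := hx₀
    rw [hl] at hx' hx₀'
    exact le_antisymm (hx₀'.2 x hx'.1) (hx'.2 x₀ hx₀'.1)
  have hker : vectorSpan ℝ F ≤ LinearMap.ker (l : Sp d →ₗ[ℝ] ℝ) := by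
    rw [vectorSpan_eq_span_vsub_set_right ℝ hx₀, Submodule.span_le]
    rintro _ ⟨x, hx, rfl⟩
    simp [hconst x hx]
  refine Submodule.finrank_lt_finrank_of_lt (lt_of_le_of_ne hle ?_)
  intro heq
  apply hneq
  apply Subset.antisymm hF.subset
  intro g hg
  have h1 : g - x₀ ∈ vectorSpan ℝ F := by
    rw [heq]
    exact vsub_mem_vectorSpan ℝ hg (hF.subset hx₀)
  have h2 := hker h1
  have h3 : l g = l x₀ := by
    have h4 : l (g - x₀) = 0 := h2
    rw [map_sub] at h4
    linarith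
  have hx₀' := hx₀
  rw [hl] at hx₀' ⊢
  exact ⟨hg, fun z hz => by rw [h3]; exact hx₀'.2 z hz⟩

theorem cdim_le (F : Set (Sp d)) : cdim F ≤ d := by
  unfold cdim
  calc Module.finrank ℝ (vectorSpan ℝ F) ≤ Module.finrank ℝ (Sp d) := Submodule.finrank_le _
    _ = d := by simp

/-- isometries of Euclidean space are affine -/
theorem isometry_affine (g : Sp d ≃ᵢ Sp d) :
    ∃ A : Sp d ≃ₗᵢ[ℝ] Sp d, ∀ x, g x = A x + g 0 := by
  refine ⟨g.toRealAffineIsometryEquiv.linearIsometryEquiv, fun x => ?_⟩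
  have h := g.toRealAffineIsometryEquiv.map_vadd 0 x
  simpa using h

theorem isExposed_image (g : Sp d ≃ᵢ Sp d) (hF : IsExposed ℝ P F) :
    IsExposed ℝ (g '' P) (g '' F) := by
  rintro ⟨_, x₀, hx₀, rfl⟩
  obtain ⟨l, hl⟩ := hF ⟨x₀, hx₀⟩
  obtain ⟨A, hA⟩ := isometry_affine g
  refine ⟨l.comp (A.symm.toContinuousLinearEquiv : Sp d →L[ℝ] Sp d), ?_⟩
  have h1 : ∀ x, (l.comp (A.symm.toContinuousLinearEquiv : Sp d →L[ℝ] Sp d)) (g x) =
      l x + (l.comp (A.symm.toContinuousLinearEquiv : Sp d →L[ℝ] Sp d)) (g 0) := by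
    intro x
    rw [hA x, map_add]
    congr 1
    simp
  ext z
  constructor
  · rintro ⟨x, hx, rfl⟩
    rw [hl] at hx
    refine ⟨⟨x, hx.1, rfl⟩, ?_⟩
    rintro _ ⟨y, hy, rfl⟩
    rw [h1, h1 x]
    have := hx.2 y hy
    linarith
  · rintro ⟨⟨x, hx, rfl⟩, hmax⟩
    refine ⟨x, ?_, rfl⟩
    rw [hl]
    refine ⟨hx, fun y hy => ?_⟩
    have := hmax (g y) ⟨y, hy, rfl⟩
    rw [h1, h1 x] at this
    linarith

theorem extremePoints_image (g : Sp d ≃ᵢ Sp d) (P : Set (Sp d)) :
    (g '' P).extremePoints ℝ = g '' (P.extremePoints ℝ) := by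
  have key : ∀ (g : Sp d ≃ᵢ Sp d) (P : Set (Sp d)),
      g '' (P.extremePoints ℝ) ⊆ (g '' P).extremePoints ℝ := by
    intro g P
    obtain ⟨A, hA⟩ := isometry_affine g
    rintro _ ⟨x, hx, rfl⟩
    rw [mem_extremePoints] at hx ⊢
    refine ⟨⟨x, hx.1, rfl⟩, ?_⟩
    rintro _ ⟨x₁, hx₁, rfl⟩ _ ⟨x₂, hx₂, rfl⟩ ⟨α, β, hα, hβ, hαβ, hxe⟩
    have h1 : x ∈ openSegment ℝ x₁ x₂ := by
      refine ⟨α, β, hα, hβ, hαβ, ?_⟩
      apply g.injective
      rw [← hxe, hA, hA x₁, hA x₂, map_add, map_smul, map_smul, smul_add, smul_add]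
      have h2 : g 0 = α • g 0 + β • g 0 := by rw [← add_smul, hαβ, one_smul]
      nth_rewrite 1 [h2]
      abel
    obtain ⟨h3, h4⟩ := hx.2 x₁ hx₁ x₂ hx₂ h1
    exact ⟨by rw [h3], by rw [h4]⟩
  apply Subset.antisymm _ (key g P)
  intro z hz
  have h1 := key g.symm (g '' P) ⟨z, hz, rfl⟩
  have h2 : g.symm '' (g '' P) = P := by
    rw [← image_comp]
    simp
  rw [h2] at h1
  exact ⟨g.symm z, h1, by simp⟩

theorem bary_image (g : Sp d ≃ᵢ Sp d) (hP : IsPoly P) (hne : P.Nonempty) :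
    bary (g '' P) = g (bary P) := by
  classical
  obtain ⟨A, hA⟩ := isometry_affine g
  have hfin := hP.finite_extremePoints
  have hfin' : ((g '' P).extremePoints ℝ).Finite := by
    rw [extremePoints_image]
    exact hfin.image _
  have h1 : hfin'.toFinset = hfin.toFinset.image g := by
    ext z
    simp [extremePoints_image]
  have hc := hP.card_pos hne
  have hc' : (hfin.toFinset.card : ℝ) ≠ 0 := by exact_mod_cast hc.ne'
  have h2 : bary (g '' P) = (hfin'.toFinset.card : ℝ)⁻¹ • ∑ v ∈ hfin'.toFinset, v := by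
    unfold bary
    rw [dif_pos hfin']
  rw [h2, h1, Finset.card_image_of_injective _ g.injective,
    Finset.sum_image (fun a _ b _ h => g.injective h), hA (bary P), hP.bary_eq, map_smul, map_sum]
  have h3 : ∑ v ∈ hfin.toFinset, g v = ∑ v ∈ hfin.toFinset, A v +
      (hfin.toFinset.card : ℝ) • g 0 := by
    rw [Finset.sum_congr rfl fun v _ => hA v, Finset.sum_add_distrib, Finset.sum_const,
      Nat.cast_smul_eq_nsmul]
  rw [h3, smul_add, smul_smul, inv_mul_cancel₀ hc', one_smul]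

end Pool.Agent.CRT
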