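import Pool.Agent.CRT.GeomRep

/-!
# Module L: finite parabolic subgroups have positive definite forms

Paper proof.  Let `W_J = par M J` be finite.  `Q(u,v) := ∑_{w ∈ W_J} ⟨w u, w v⟩` (standard dot
product, `w` acting by `gr`) is positive definite on `ℝ^B`, symmetric and `W_J`-invariant.  Let
`j ∈ J`, `r = s_j`.  `Q(r v, r v) = Q(v, v)` gives
`-4 B(e_j,v) Q(e_j,v) + 4 B(e_j,v)² Q(e_j,e_j) = 0`; more directly
`Q(e_j, v) = Q(r e_j, r v) = -Q(e_j, v) + 2 B(e_j,v) Q(e_j,e_j)`, so
`Q(e_j, v) = B(e_j, v) q_j`, `q_j := Q(e_j,e_j) > 0`, for ALL `v`.  So for `j, k ∈ J`: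
`B_jk q_j = Q_jk = Q_kj = B_jk q_k`: if `Q_jk ≠ 0` then `q_j = q_k`; in all cases
`B_jk = Q_jk / sqrt(q_j q_k)`.  Hence for `v` supported in `J`,
`B(v,v) = ∑ v_j v_k Q_jk/(√q_j √q_k) = Q(v', v') > 0` with `v' = ∑ (v_j/√q_j) e_j ≠ 0`.
-/

namespace Pool.Agent.CRT

open Set

variable {B : Type*} [Fintype B] [DecidableEq B]

theorem posDef_of_finite_par (M : CoxeterMatrix B) (J : Set B)
    (hfin : (par M J : Set M.Group).Finite) (v : B → ℝ) (hv : v ≠ 0)
    (hsupp : ∀ i, i ∉ J → v i = 0) : 0 < bil M v v := by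
  classical
  haveI : Finite (par M J) := hfin.to_subtype
  haveI := Fintype.ofFinite (par M J)
  let D : LinearMap.BilinForm ℝ (B → ℝ) := Matrix.toBilin' (1 : Matrix B B ℝ)
  have hD : ∀ u w : B → ℝ, D u w = ∑ i, u i * w i := by
    intro u w
    show Matrix.toBilin' (1 : Matrix B B ℝ) u w = _
    rw [Matrix.toBilin'_apply]
    refine Finset.sum_congr rfl fun i _ => ?_
    rw [Finset.sum_eq_single i]
    · simp
    · intro j _ hj
      rw [Matrix.one_apply_ne (Ne.symm hj)]; ring
    · simp
  let Q : LinearMap.BilinForm ℝ (B → ℝ) :=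
    ∑ w : par M J, LinearMap.BilinForm.comp D (gr M w.1) (gr M w.1)
  have hQ : ∀ u x : B → ℝ, Q u x = ∑ w : par M J, D (gr M w.1 u) (gr M w.1 x) := by
    intro u x
    show (∑ w : par M J, LinearMap.BilinForm.comp D (gr M w.1) (gr M w.1)) u x = _
    rw [LinearMap.sum_apply, LinearMap.sum_apply]
    rfl
  have hsymm : ∀ u x : B → ℝ, Q u x = Q x u := by
    intro u x
    rw [hQ, hQ]
    refine Finset.sum_congr rfl fun w _ => ?_
    rw [hD, hD]
    exact Finset.sum_congr rfl fun i _ => mul_comm _ _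
  have hinv : ∀ (g : par M J) (u x : B → ℝ), Q (gr M g.1 u) (gr M g.1 x) = Q u x := by
    intro g u x
    rw [hQ, hQ]
    refine Fintype.sum_equiv (Equiv.mulRight g) _ _ fun w => ?_
    simp only [Equiv.coe_mulRight, Subgroup.coe_mul, gr_mul_apply]
  have hDpos : ∀ u : B → ℝ, 0 ≤ D u u := by
    intro u
    rw [hD]
    exact Finset.sum_nonneg fun i _ => mul_self_nonneg _
  have hDpos' : ∀ u : B → ℝ, u ≠ 0 → 0 < D u u := by
    intro u hu
    obtain ⟨i, hi⟩ : ∃ i, u i ≠ 0 := by
      by_contra h
      push Not at h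
      exact hu (funext h)
    rw [hD]
    exact Finset.sum_pos' (fun i _ => mul_self_nonneg _)
      ⟨i, Finset.mem_univ _, mul_self_pos.2 hi⟩
  have hpos : ∀ u : B → ℝ, u ≠ 0 → 0 < Q u u := by
    intro u hu
    rw [hQ]
    refine Finset.sum_pos' (fun w _ => hDpos _) ⟨1, Finset.mem_univ _, ?_⟩
    rw [show ((1 : par M J) : M.Group) = 1 from rfl, gr_one_apply]
    exact hDpos' u hu
  have hee : ∀ i : B, (ee i : B → ℝ) ≠ 0 := by
    intro i h
    have := congrFun h i
    rw [ee_self] at this
    simp at this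
  -- the key relation
  have hkey : ∀ j ∈ J, ∀ x : B → ℝ, Q (ee j) x = bil M (ee j) x * Q (ee j) (ee j) := by
    intro j hj x
    have hmem : sm M j ∈ par M J := Subgroup.subset_closure ⟨j, hj, rfl⟩
    have h1 := hinv ⟨sm M j, hmem⟩ (ee j) x
    change Q (gr M (sm M j) (ee j)) (gr M (sm M j) x) = _ at h1
    rw [gr_simple_ee, gr_simple, map_neg, LinearMap.neg_apply, map_sub, map_smul, smul_eq_mul] at h1
    linarith
  set q : B → ℝ := fun i => Q (ee i) (ee i) with hq
  have hqpos : ∀ i, 0 < q i := fun i => hpos _ (hee i)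
  set s : B → ℝ := fun i => Real.sqrt (q i) with hs
  have hspos : ∀ i, 0 < s i := fun i => Real.sqrt_pos.2 (hqpos i)
  have hss : ∀ i, s i * s i = q i := fun i => Real.mul_self_sqrt (hqpos i).le
  set v' : B → ℝ := fun i => v i / s i with hv'
  have hv'0 : v' ≠ 0 := by
    obtain ⟨i, hi⟩ : ∃ i, v i ≠ 0 := by
      by_contra h
      push Not at h
      exact hv (funext h)
    intro h
    have := congrFun h i
    simp only [hv', Pi.zero_apply, div_eq_zero_iff] at this
    rcases this with h1 | h1
    · exact hi h1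
    · exact (hspos i).ne' h1
  have hexp : ∀ (A : LinearMap.BilinForm ℝ (B → ℝ)) (u : B → ℝ),
      A u u = ∑ i, ∑ k, u i * u k * A (ee i) (ee k) := by
    intro A u
    have h1 : ∀ x : B → ℝ, A x u = ∑ k, u k * A x (ee k) := by
      intro x
      conv_lhs => rw [← sum_smul_ee u]
      rw [map_sum]
      exact Finset.sum_congr rfl fun k _ => by rw [map_smul, smul_eq_mul]
    have h2 : A u = ∑ i, u i • A (ee i) := by
      conv_lhs => rw [← sum_smul_ee u]
      rw [map_sum]
      exact Finset.sum_congr rfl fun k _ => by rw [map_smul]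
    rw [h2, LinearMap.sum_apply]
    refine Finset.sum_congr rfl fun i _ => ?_
    rw [LinearMap.smul_apply, h1, smul_eq_mul, Finset.mul_sum]
    exact Finset.sum_congr rfl fun k _ => by ring
  have hfinal : bil M v v = Q v' v' := by
    rw [hexp, hexp]
    refine Finset.sum_congr rfl fun i _ => Finset.sum_congr rfl fun k _ => ?_
    by_cases hi : i ∈ J
    · by_cases hk : k ∈ J
      · have e1 := hkey i hi (ee k)
        have e2 := hkey k hk (ee i)
        have e3 := hsymm (ee i) (ee k)
        have e4 := bil_symm M (ee i) (ee k)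
        have e5 : bil M (ee i) (ee k) * q i = bil M (ee i) (ee k) * q k := by
          rw [← e1, e3, e2, e4]
        by_cases h0 : bil M (ee i) (ee k) = 0
        · rw [e1, h0]; ring
        · have e6 : q i = q k := mul_left_cancel₀ h0 e5
          have e7 : s i = s k := by simp only [hs, e6]
          rw [e1]
          have e8 := hss i
          have e9 := hspos i
          simp only [hv']
          rw [← e7]
          change _ = v i / s i * (v k / s i) * (bil M (ee i) (ee k) * q i)
          rw [← e8]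
          field_simp
      · simp only [hv']
        rw [hsupp k hk]; ring
    · simp only [hv']
      rw [hsupp i hi]; ring
  rw [hfinal]
  exact hpos v' hv'0

end Pool.Agent.CRT
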