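import Pool.Agent.CRT.Connect

/-!
# Module H: the poset of cells is determined by the chamber system

Paper proof.  Each cell `F` occurs in some chamber (`ext F F`), at a rank independent of the chamber
(`rank_unique`).  Define `f F := β(Φ)_i` for any `Φ` with `Φ_i = F`.  Well-defined: two such
chambers are related by `Reach {i}ᶜ` (`reach`), and then so are their images, so these have the
same `i`-th cell (`sig_apply_ne`).  Monotone: if `F ≤ G` there is a chamber containing both
(`ext`), `F = Φ_i`, `G = Φ_j`, `i ≤ j` by strict monotonicity, `f F = β(Φ)_i ≤ β(Φ)_j = f G`.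
The same construction for `β.symm` gives the inverse.
-/

namespace Pool.Agent.CRT

open Set

variable {d : ℕ} {V V' : Type*} [PartialOrder V] [PartialOrder V'] {b : V → Sp d} {b' : V' → Sp d}

theorem exists_transport (h : IsCx b) (h' : IsCx b') (β : Chamber d V ≃ Chamber d V')
    (hβ : ∀ i Φ, β (sig i Φ) = sig i (β Φ)) : ∃ f : V → V', Monotone f ∧
      ∀ (Φ : Chamber d V) (i : Fin (d + 1)), f (Φ i) = (β Φ) i := by
  classical
  -- two chambers with the same `i`-th cell have images with the same `i`-th cell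
  have hwd : ∀ (Φ Ψ : Chamber d V) (i : Fin (d + 1)), Φ i = Ψ i → (β Φ) i = (β Ψ) i := by
    intro Φ Ψ i hi
    have hR := h.reach {i}ᶜ (Φ := Φ) (Ψ := Ψ) (fun j hj => by
      have : j = i := by simpa using hj
      rw [this]; exact hi)
    clear hi
    unfold Reach at hR
    induction hR with
    | refl => rfl
    | tail _ hstep ih =>
      obtain ⟨k, hk, rfl⟩ := hstep
      rw [ih, hβ, h'.sig_apply_ne (fun he => hk (by rw [← he]; rfl))]
  choose Φc hΦc using fun F : V => h.ext F F le_rfl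
  choose ic hic using fun F : V => (hΦc F).1
  let f : V → V' := fun F => (β (Φc F)) (ic F)
  have hf : ∀ (Φ : Chamber d V) (i : Fin (d + 1)), f (Φ i) = (β Φ) i := by
    intro Φ i
    have h1 : (Φc (Φ i)) (ic (Φ i)) = Φ i := hic (Φ i)
    have h2 : ic (Φ i) = i := h.rank_unique h1
    change (β (Φc (Φ i))) (ic (Φ i)) = (β Φ) i
    rw [h2]
    apply hwd
    rw [h2] at h1
    exact h1
  refine ⟨f, ?_, hf⟩
  intro F G hFG
  obtain ⟨Φ, ⟨i, rfl⟩, ⟨j, rfl⟩⟩ := h.ext F G hFG
  rw [hf, hf]
  have hij : i ≤ j := by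
    by_contra hcon
    push Not at hcon
    exact absurd (Φ.2 hcon) (not_lt_of_ge hFG)
  exact (β Φ).2.monotone hij

theorem orderIso_of_equiv (h : IsCx b) (h' : IsCx b') (β : Chamber d V ≃ Chamber d V')
    (hβ : ∀ i Φ, β (sig i Φ) = sig i (β Φ)) : Nonempty (V ≃o V') := by
  have hβ' : ∀ i Φ, β.symm (sig i Φ) = sig i (β.symm Φ) := by
    intro i Φ
    rw [Equiv.symm_apply_eq, hβ, Equiv.apply_symm_apply]
  obtain ⟨f, hfm, hf⟩ := exists_transport h h' β hβ
  obtain ⟨g, hgm, hg⟩ := exists_transport h' h β.symm hβ'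
  have hgf : ∀ F, g (f F) = F := by
    intro F
    obtain ⟨Φ, ⟨i, rfl⟩, -⟩ := h.ext F F le_rfl
    rw [hf, hg, Equiv.symm_apply_apply]
  have hfg : ∀ F, f (g F) = F := by
    intro F
    obtain ⟨Φ, ⟨i, rfl⟩, -⟩ := h'.ext F F le_rfl
    rw [hg, hf, Equiv.apply_symm_apply]
  refine ⟨⟨⟨f, g, hgf, hfg⟩, ?_⟩⟩
  intro F G
  constructor
  · intro hFG
    have := hgm hFG
    simpa [hgf] using this
  · intro hFG
    exact hfm hFG

end Pool.Agent.CRT
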