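import Pool.Agent.CRT.OrbitVoronoi
import Pool.Agent.CRT.Flags
import Pool.Agent.CRT.PosetIso

/-!
# Module Q2: the flags of the orbit-Voronoi tiling

Paper proof.  `T' = vorT R.orb` is a tiling (`R.isTiling`), so `IsCx (cb T')`.
`F_k := nearestCell R.orb (v_k) ∈ cells T'`.  `F_k ⊆ F_{k+1}`, and `F_k ≠ F_{k+1}`: otherwise every
`s_i` preserves this set (`image_nearestCell_vtx` with `i ≠ k` or `i ≠ k+1`), hence fixes its
barycentre (`bary_image`), contradicting `no_fixed_point`.  So `Φ₀ = (F_k)_k` is a chamber.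
`W` acts on `T'` and on `cells T'` by `F ↦ act w '' F` (`image_vor`, `isExposed_image`), hence on
chambers; `β w := w Φ₀`.  `β (w s_i) = sig i (β w)`: `s_i Φ₀` agrees with `Φ₀` at ranks `≠ i`, and
`s_i Φ₀ ≠ Φ₀` since otherwise `s_i` would fix the `d+1` affinely independent points `b(F_k)`
(`bary_image`, `IsCx.indep`), hence be the identity, contradicting `act_injective` (or
`act_simple` at a point with `g_i ≠ 0`).  So `Adj i Φ₀ (s_i Φ₀)`; apply `w` (`adj_map`, `eq_sig`).
Injective: `w Φ₀ = w' Φ₀` implies `w⁻¹ w'` fixes all `b(F_k)`, so is `1`.  Surjective: by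
`reach_univ` every chamber is obtained from `β 1` by moves, and moves stay in the range of `β`.
`Regular`: `regular_of_transitive` with `g = act (w' w⁻¹)`.
-/

namespace Pool.Agent.CRT

open Set

namespace Realization

variable {d : ℕ} {M : CoxeterMatrix (Fin (d + 1))} (R : Realization M)

/-- The images of the Voronoi cells. -/
theorem image_mem_vorT (w : M.Group) {P : Set (Sp d)} (hP : P ∈ vorT R.orb) :
    R.act w '' P ∈ vorT R.orb := by
  obtain ⟨c, hc, rfl⟩ := hP
  rw [image_vor R.orb _ (R.image_orb w)]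
  refine ⟨R.act w c, ?_, rfl⟩
  rw [← R.image_orb w]
  exact mem_image_of_mem _ hc

theorem act_image_image (w w' : M.Group) (F : Set (Sp d)) :
    R.act w '' (R.act w' '' F) = R.act (w * w') '' F := by
  rw [image_image]
  refine image_congr fun x _ => ?_
  rw [R.act_mul_apply]

theorem act_one_image (F : Set (Sp d)) : R.act 1 '' F = F := by
  have : ∀ x ∈ F, R.act 1 x = id x := fun x _ => R.act_one_apply x
  rw [image_congr this, image_id]

theorem image_vorT (w : M.Group) : (fun P => R.act w '' P) '' vorT R.orb = vorT R.orb := by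
  ext P
  constructor
  · rintro ⟨Q, hQ, rfl⟩
    exact R.image_mem_vorT w hQ
  · intro hP
    refine ⟨R.act w⁻¹ '' P, R.image_mem_vorT w⁻¹ hP, ?_⟩
    show R.act w '' (R.act w⁻¹ '' P) = P
    rw [R.act_image_image, mul_inv_cancel, R.act_one_image]

theorem image_mem_cells (w : M.Group) {F : Set (Sp d)} (hF : F ∈ cells (vorT R.orb)) :
    R.act w '' F ∈ cells (vorT R.orb) := by
  obtain ⟨hne, P, hP, hFP⟩ := hF
  exact ⟨hne.image _, _, R.image_mem_vorT w hP, isExposed_image _ hFP⟩

/-- The action on the cells. -/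
noncomputable def ac (w : M.Group) : cells (vorT R.orb) ≃o cells (vorT R.orb) where
  toFun F := ⟨R.act w '' F.1, R.image_mem_cells w F.2⟩
  invFun F := ⟨R.act w⁻¹ '' F.1, R.image_mem_cells w⁻¹ F.2⟩
  left_inv F := by
    apply Subtype.ext
    show R.act w⁻¹ '' (R.act w '' F.1) = F.1
    rw [R.act_image_image, inv_mul_cancel, R.act_one_image]
  right_inv F := by
    apply Subtype.ext
    show R.act w '' (R.act w⁻¹ '' F.1) = F.1
    rw [R.act_image_image, mul_inv_cancel, R.act_one_image]
  map_rel_iff' := by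
    intro F G
    show R.act w '' F.1 ⊆ R.act w '' G.1 ↔ F.1 ⊆ G.1
    exact image_subset_image_iff (R.act w).injective

theorem ac_val (w : M.Group) (F : cells (vorT R.orb)) : (R.ac w F).1 = R.act w '' F.1 := rfl

theorem ac_mul (w w' : M.Group) (F : cells (vorT R.orb)) :
    R.ac (w * w') F = R.ac w (R.ac w' F) := by
  apply Subtype.ext
  rw [ac_val, ac_val, ac_val, R.act_image_image]

theorem ac_one (F : cells (vorT R.orb)) : R.ac 1 F = F := by
  apply Subtype.ext
  rw [ac_val, R.act_one_image]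

/-- The cells of the basic chamber. -/
noncomputable def nc (k : Fin (d + 1)) : cells (vorT R.orb) :=
  ⟨nearestCell R.orb (R.vtx k), nearestCell_mem R.orb R.orb_nonempty R.orb_finite _⟩

theorem ac_sm_nc {i k : Fin (d + 1)} (hik : i ≠ k) : R.ac (sm M i) (R.nc k) = R.nc k := by
  apply Subtype.ext
  rw [ac_val]
  exact R.image_nearestCell_vtx hik

/-- A cell fixed by `w` has its barycentre fixed by `w`. -/
theorem act_bary {w : M.Group} {F : cells (vorT R.orb)} (h : R.ac w F = F) :
    R.act w (cb (vorT R.orb) F) = cb (vorT R.orb) F := by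
  have h1 := bary_image (R.act w) (cell_isPoly R.isTiling F.2) F.2.1
  have h2 : R.act w '' F.1 = F.1 := congrArg Subtype.val h
  rw [h2] at h1
  exact h1.symm

theorem exists_ne_ac (F : cells (vorT R.orb)) : ∃ i, R.ac (sm M i) F ≠ F := by
  by_contra h
  push Not at h
  exact R.no_fixed_point ⟨cb (vorT R.orb) F, fun i => R.act_bary (h i)⟩

theorem ac_sm_nc_self (i : Fin (d + 1)) : R.ac (sm M i) (R.nc i) ≠ R.nc i := by
  intro h
  obtain ⟨j, hj⟩ := R.exists_ne_ac (R.nc i)
  by_cases hji : j = i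
  · rw [hji] at hj
    exact hj h
  · exact hj (R.ac_sm_nc hji)

theorem nc_strictMono (hstr : ∀ i j : Fin (d + 1), i.1 + 1 < j.1 → M i j = 2) :
    StrictMono R.nc := by
  rw [Fin.strictMono_iff_lt_succ]
  intro k
  have hle : R.nc k.castSucc ≤ R.nc k.succ := R.nearestCell_subset hstr k
  refine lt_of_le_of_ne hle ?_
  intro he
  obtain ⟨j, hj⟩ := R.exists_ne_ac (R.nc k.castSucc)
  by_cases hjk : j = k.castSucc
  · have : j ≠ k.succ := by
      rw [hjk]
      exact (Fin.castSucc_lt_succ (i := k)).ne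
    apply hj
    rw [he]
    exact R.ac_sm_nc this
  · exact hj (R.ac_sm_nc hjk)

/-- The basic chamber. -/
noncomputable def ch0 (hstr : ∀ i j : Fin (d + 1), i.1 + 1 < j.1 → M i j = 2) :
    Chamber d (cells (vorT R.orb)) := ⟨R.nc, R.nc_strictMono hstr⟩

/-- The chamber attached to a group element. -/
noncomputable def chw (hstr : ∀ i j : Fin (d + 1), i.1 + 1 < j.1 → M i j = 2) (w : M.Group) :
    Chamber d (cells (vorT R.orb)) := Chamber.map (R.ac w) (R.ch0 hstr)

theorem chw_apply (hstr : ∀ i j : Fin (d + 1), i.1 + 1 < j.1 → M i j = 2) (w : M.Group)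
    (k : Fin (d + 1)) : (R.chw hstr w) k = R.ac w (R.nc k) := rfl

theorem adj_ch0 (hstr : ∀ i j : Fin (d + 1), i.1 + 1 < j.1 → M i j = 2) (i : Fin (d + 1)) :
    Adj i (R.ch0 hstr) (R.chw hstr (sm M i)) := by
  refine ⟨?_, ?_⟩
  · intro h
    have h1 : (R.ch0 hstr) i = (R.chw hstr (sm M i)) i :=
      congrArg (fun X : Chamber d (cells (vorT R.orb)) => X i) h
    exact R.ac_sm_nc_self i h1.symm
  · intro j hj
    exact (R.ac_sm_nc hj.symm).symm

theorem adj_chw (hstr : ∀ i j : Fin (d + 1), i.1 + 1 < j.1 → M i j = 2) (i : Fin (d + 1))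
    (w : M.Group) : Adj i (R.chw hstr w) (R.chw hstr (w * sm M i)) := by
  refine IsCx.adj_map (R.ac w) (R.adj_ch0 hstr i) (fun j => rfl) ?_
  intro j
  rw [chw_apply, chw_apply, ac_mul]

/-- An isometry fixing the vertices of a chamber is the identity. -/
theorem eq_self_of_fix (hd : 0 < d) (g : Sp d ≃ᵢ Sp d) (Φ : Chamber d (cells (vorT R.orb)))
    (hg : ∀ k, g (cb (vorT R.orb) (Φ k)) = cb (vorT R.orb) (Φ k)) (x : Sp d) : g x = x := by
  have h : IsCx (cb (vorT R.orb)) := isCx_of_isTiling hd R.isTiling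
  let f := g.toRealAffineIsometryEquiv
  have hf : ∀ y, f y = g y := fun y => congrFun g.coeFn_toRealAffineIsometryEquiv y
  have h1 : x = Finset.univ.affineCombination ℝ (fun k => cb (vorT R.orb) (Φ k))
      (fun k => h.lam Φ k x) := by
    rw [Finset.affineCombination_eq_linear_combination _ _ _ (h.sum_lam Φ x)]
    exact (h.sum_lam_smul Φ x).symm
  have h2 : f x = Finset.univ.affineCombination ℝ (fun k => cb (vorT R.orb) (Φ k))
      (fun k => h.lam Φ k x) := by
    have h3 := Finset.map_affineCombination Finset.univ (fun k => cb (vorT R.orb) (Φ k))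
      (fun k => h.lam Φ k x) (h.sum_lam Φ x) (f.toAffineEquiv.toAffineMap)
    rw [← h1] at h3
    have h4 : (f.toAffineEquiv.toAffineMap : Sp d → Sp d) ∘ (fun k => cb (vorT R.orb) (Φ k)) =
        fun k => cb (vorT R.orb) (Φ k) := by
      funext k
      show f (cb (vorT R.orb) (Φ k)) = _
      rw [hf, hg]
    rw [h4] at h3
    exact h3
  rw [← hf, h2, ← h1]

theorem chw_injective (hd : 0 < d) (hstr : ∀ i j : Fin (d + 1), i.1 + 1 < j.1 → M i j = 2) :
    Function.Injective (R.chw hstr) := by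
  intro w w' h
  have h1 : ∀ k, R.ac (w⁻¹ * w') (R.nc k) = R.nc k := by
    intro k
    have h2 : R.ac w (R.nc k) = R.ac w' (R.nc k) :=
      congrArg (fun X : Chamber d (cells (vorT R.orb)) => X k) h
    rw [ac_mul, ← h2, ← ac_mul, inv_mul_cancel, ac_one]
  have h2 : R.act (w⁻¹ * w') = R.act 1 := by
    apply IsometryEquiv.ext
    intro x
    rw [R.act_one_apply]
    exact R.eq_self_of_fix hd (R.act (w⁻¹ * w')) (R.ch0 hstr)
      (fun k => R.act_bary (h1 k)) x
  exact inv_mul_eq_one.1 (R.act_injective h2)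

theorem chw_mul (hd : 0 < d) (hstr : ∀ i j : Fin (d + 1), i.1 + 1 < j.1 → M i j = 2)
    (i : Fin (d + 1)) (w : M.Group) :
    R.chw hstr (w * sm M i) = sig i (R.chw hstr w) :=
  (isCx_of_isTiling hd R.isTiling).eq_sig (R.adj_chw hstr i w)

theorem chw_surjective (hd : 0 < d) (hstr : ∀ i j : Fin (d + 1), i.1 + 1 < j.1 → M i j = 2) :
    Function.Surjective (R.chw hstr) := by
  intro Ψ
  have h := (isCx_of_isTiling hd R.isTiling).reach_univ (R.chw hstr 1) Ψ
  unfold Reach at h
  induction h with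
  | refl => exact ⟨1, rfl⟩
  | tail _ hstep ih =>
    obtain ⟨w, hw⟩ := ih
    obtain ⟨i, _, hi⟩ := hstep
    exact ⟨w * sm M i, by rw [R.chw_mul hd hstr, hw, hi]⟩

end Realization

theorem exists_regular_tiling {d : ℕ} (hd : 0 < d) (M : CoxeterMatrix (Fin (d + 1)))
    (hstr : ∀ i j : Fin (d + 1), i.1 + 1 < j.1 → M i j = 2) (R : Realization M) :
    ∃ T' : Set (Set (Sp d)), IsTiling T' ∧ Regular T' ∧
      ∃ β : M.Group ≃ Chamber d (cells T'), ∀ (i : Fin (d + 1)) (w : M.Group),
        β (w * sm M i) = sig i (β w) := by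
  refine ⟨vorT R.orb, R.isTiling, ?_,
    Equiv.ofBijective (R.chw hstr) ⟨R.chw_injective hd hstr, R.chw_surjective hd hstr⟩, ?_⟩
  · refine regular_of_transitive hd R.isTiling ?_
    intro Φ Ψ
    obtain ⟨w, rfl⟩ := R.chw_surjective hd hstr Φ
    obtain ⟨w', rfl⟩ := R.chw_surjective hd hstr Ψ
    refine ⟨R.act (w' * w⁻¹), R.image_vorT _, ?_⟩
    intro i
    show R.act (w' * w⁻¹) '' (R.ac w (R.nc i)).1 = (R.ac w' (R.nc i)).1
    rw [R.ac_val, R.ac_val, R.act_image_image, inv_mul_cancel_right]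
  · intro i w
    exact R.chw_mul hd hstr i w

end Pool.Agent.CRT
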