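import Pool.Agent.CRT.CxDefs

/-!
# Module C: adjacency; every panel is in exactly two chambers

Paper proof.  Let `m = ∑_{j ≠ i} b(Φ_j)/d` (relative centre of the panel; `lam Φ j m = 1/d` for
`j ≠ i`, `lam Φ i m = 0`; `d > 0`).
Uniqueness (`eq_of_same_side`): if `Ψ`, `Ψ'` agree with `Φ` off `i` and `lam Ψ i (b (Ψ' i)) > 0`
then `Ψ = Ψ'`: the point `m + ε(b(Ψ'_i) - m)` has `lam Ψ j > 0` for all `j` when `ε` is small
(at `m` the coordinates `j ≠ i` are `1/d`), so is in `dom Ψ ∩ dom Ψ'`, with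
`lam Ψ' i = ε ≠ 0`, so `Ψ i = Ψ' i` by `lam_compat`.  All chambers agreeing with `Φ` off `i` have
`b(Ψ_i)` strictly on one side of the hyperplane `{lam Φ i = 0}` (affine independence: for such `Ψ`,
`lam Φ i` restricted to the panel vanishes; if `lam Φ i (b (Ψ i)) = 0` too then `lam Φ i = 0`
everywhere, absurd; and `lam Ψ i = lam Φ i / lam Φ i (b (Ψ i))` as both vanish at the panel
vertices).  So there is exactly one on the side of `Φ` (namely `Φ`), and at most one on the other.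
Existence: `x_ε = m - ε(b(Φ_i) - m)` has `lam Φ i x_ε = -ε < 0`; by `exists_ball` at `m`, for
small `ε` any chamber `Ψ` containing `x_ε` contains `m`, so agrees with `Φ` off `i`
(`lam_compat`), and `Ψ ≠ Φ`.
-/

namespace Pool.Agent.CRT

open Set

variable {d : ℕ} {V : Type*} [PartialOrder V] {b : V → Sp d}

namespace IsCx

variable (h : IsCx b)
include h

omit h in
/-- Relative centre of the panel. -/
theorem pan_weights (hd : 0 < d) (i : Fin (d + 1)) :
    ∑ j : Fin (d + 1), (if j = i then 0 else (d : ℝ)⁻¹) = 1 := by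
  have h1 : ∑ j : Fin (d + 1), (if j = i then 0 else (d : ℝ)⁻¹) =
      ∑ j : Fin (d + 1), ((d : ℝ)⁻¹ - if j = i then (d : ℝ)⁻¹ else 0) := by
    refine Finset.sum_congr rfl fun j _ => ?_
    split_ifs <;> simp
  rw [h1, Finset.sum_sub_distrib, Finset.sum_const, Finset.sum_ite_eq' Finset.univ i]
  simp only [Finset.card_univ, Fintype.card_fin, Finset.mem_univ, if_true, nsmul_eq_mul]
  have : (d : ℝ) ≠ 0 := by positivity
  push_cast
  field_simp
  ring

/-- The relative centre of the panel of `Φ` opposite to vertex `i`. -/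
theorem exists_panel_point (i : Fin (d + 1)) (Φ : Chamber d V) : ∃ m : Sp d,
    ∀ Ψ : Chamber d V, (∀ j, j ≠ i → Φ j = Ψ j) →
      ∀ j, h.lam Ψ j m = if j = i then 0 else (d : ℝ)⁻¹ := by
  refine ⟨∑ j, (if j = i then 0 else (d : ℝ)⁻¹) • b (Φ j), fun Ψ hΨ j => ?_⟩
  have : ∑ j, (if j = i then 0 else (d : ℝ)⁻¹) • b (Φ j) =
      ∑ j, (if j = i then 0 else (d : ℝ)⁻¹) • b (Ψ j) := by
    refine Finset.sum_congr rfl fun j _ => ?_
    by_cases hj : j = i
    · simp [hj]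
    · rw [hΨ j hj]
  rw [this, h.lam_sum_smul Ψ (fun j => if j = i then 0 else (d : ℝ)⁻¹) (pan_weights h.pos i)]

/-- Chambers `Ψ, Ψ'` on a common panel, with `b (Ψ' i)` on the positive side for `Ψ`, are equal. -/
theorem eq_of_same_side {i : Fin (d + 1)} {Ψ Ψ' : Chamber d V}
    (hag : ∀ j, j ≠ i → Ψ j = Ψ' j) (hpos : 0 < h.lam Ψ i (b (Ψ' i))) : Ψ = Ψ' := by
  obtain ⟨m, hm⟩ := h.exists_panel_point i Ψ
  have hmΨ := hm Ψ (fun _ _ => rfl)
  have hmΨ' := hm Ψ' hag
  have hd : (0 : ℝ) < d := by exact_mod_cast h.pos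
  -- coordinates of `(1-ε) m + ε b(Ψ' i)`
  have hev : ∀ᶠ ε in nhdsWithin (0 : ℝ) (Ioi 0), ∀ j,
      0 ≤ h.lam Ψ j (AffineMap.lineMap m (b (Ψ' i)) ε) := by
    rw [Filter.eventually_all]
    intro j
    by_cases hj : j = i
    · subst hj
      filter_upwards [self_mem_nhdsWithin] with ε hε
      rw [h.lam_lineMap, hmΨ, if_pos rfl]
      have : 0 < ε := hε
      nlinarith
    · have hc : Continuous fun ε : ℝ => h.lam Ψ j (AffineMap.lineMap m (b (Ψ' i)) ε) :=
        (h.continuous_lam Ψ j).comp AffineMap.lineMap_continuous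
      have h0 : 0 < h.lam Ψ j (AffineMap.lineMap m (b (Ψ' i)) (0 : ℝ)) := by
        rw [AffineMap.lineMap_apply_zero, hmΨ, if_neg hj]; positivity
      have := (hc.continuousAt.eventually (lt_mem_nhds h0)).filter_mono
        (nhdsWithin_le_nhds (s := Ioi (0 : ℝ)))
      filter_upwards [this] with ε hε
      exact hε.le
  have hev' : ∀ᶠ ε in nhdsWithin (0 : ℝ) (Ioi 0), ε ∈ Ioo (0 : ℝ) 1 :=
    Ioo_mem_nhdsGT zero_lt_one
  obtain ⟨ε, hε, hε'⟩ := (hev.and hev').exists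
  set x : Sp d := AffineMap.lineMap m (b (Ψ' i)) ε with hx
  have hxΨ : x ∈ h.dom Ψ := hε
  have hxl : ∀ j, h.lam Ψ' j x = (1 - ε) * (if j = i then 0 else (d : ℝ)⁻¹) +
      ε * (if j = i then 1 else 0) := by
    intro j
    rw [hx, h.lam_lineMap, hmΨ', h.lam_vertex]
  have hxΨ' : x ∈ h.dom Ψ' := by
    intro j
    rw [hxl]
    have h1 : 0 ≤ 1 - ε := by linarith [hε'.2]
    have h2 : 0 ≤ ε := hε'.1.le
    split_ifs <;> positivity
  have hlast : Ψ i = Ψ' i := by
    have hne : h.lam Ψ' i x ≠ 0 := by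
      rw [hxl, if_pos rfl, if_pos rfl]
      have := hε'.1
      intro h0
      simp at h0
      exact this.ne' h0
    exact ((h.lam_compat hxΨ' hxΨ i).2 hne).symm
  apply Chamber.ext
  intro j
  by_cases hj : j = i
  · rw [hj]; exact hlast
  · exact hag j hj

/-- On a common panel the `i`-th coordinates are proportional. -/
theorem lam_proportional {i : Fin (d + 1)} {Φ Ψ : Chamber d V}
    (hag : ∀ j, j ≠ i → Φ j = Ψ j) (x : Sp d) :
    h.lam Φ i x = h.lam Φ i (b (Ψ i)) * h.lam Ψ i x := by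
  conv_lhs => rw [← h.sum_lam_smul Ψ x]
  have h1 : (∑ j, h.lam Ψ j x • b (Ψ j)) =
      Finset.univ.affineCombination ℝ (fun j => b (Ψ j)) (fun j => h.lam Ψ j x) := by
    rw [Finset.affineCombination_eq_linear_combination _ _ _ (h.sum_lam Ψ x)]
  rw [h1]
  have hmap := Finset.univ.map_affineCombination (fun j => b (Ψ j)) (fun j => h.lam Ψ j x)
    (h.sum_lam Ψ x) ((h.bas Φ).coord i)
  change (h.bas Φ).coord i _ = _
  rw [hmap, Finset.affineCombination_eq_linear_combination _ _ _ (h.sum_lam Ψ x),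
    Finset.sum_eq_single i]
  · change h.lam Ψ i x • h.lam Φ i (b (Ψ i)) = _
    rw [smul_eq_mul]; ring
  · intro j _ hj
    change h.lam Ψ j x • h.lam Φ i (b (Ψ j)) = _
    rw [← hag j hj, h.lam_vertex, if_neg (Ne.symm hj), smul_zero]
  · intro hi; exact absurd (Finset.mem_univ i) hi

theorem exists_adj (i : Fin (d + 1)) (Φ : Chamber d V) : ∃ Ψ, Adj i Φ Ψ := by
  obtain ⟨m, hm⟩ := h.exists_panel_point i Φ
  have hmΦ := hm Φ (fun _ _ => rfl)
  have hd : (0 : ℝ) < d := by exact_mod_cast h.pos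
  obtain ⟨r, hr, hball⟩ := h.exists_ball m
  have hc : Continuous fun ε : ℝ => (AffineMap.lineMap m (b (Φ i)) ε : Sp d) :=
    AffineMap.lineMap_continuous
  have hev : ∀ᶠ ε in nhdsWithin (0 : ℝ) (Iio 0),
      (AffineMap.lineMap m (b (Φ i)) ε : Sp d) ∈ Metric.ball m r := by
    have h0 : (AffineMap.lineMap m (b (Φ i)) (0 : ℝ) : Sp d) ∈ Metric.ball m r := by
      rw [AffineMap.lineMap_apply_zero]; exact Metric.mem_ball_self hr
    exact (hc.continuousAt.eventually (Metric.isOpen_ball.mem_nhds h0)).filter_mono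
      (nhdsWithin_le_nhds (s := Iio (0 : ℝ)))
  obtain ⟨ε, hε, hε0⟩ := (hev.and self_mem_nhdsWithin).exists
  have hε0 : ε < 0 := hε0
  set x : Sp d := AffineMap.lineMap m (b (Φ i)) ε with hx
  obtain ⟨Ψ, hΨ⟩ := h.exists_mem_dom x
  have hmΨ : m ∈ h.dom Ψ := hball Ψ ⟨x, hΨ, hε⟩
  have hmΦ' : m ∈ h.dom Φ := by
    intro j; rw [hmΦ]; split_ifs <;> positivity
  refine ⟨Ψ, ?_, ?_⟩
  · rintro rfl
    have h1 := hΨ i
    rw [hx, h.lam_lineMap, hmΦ, if_pos rfl, h.lam_vertex, if_pos rfl] at h1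
    linarith
  · intro j hj
    apply (h.lam_compat hmΦ' hmΨ j).2
    rw [hmΦ, if_neg hj]; positivity

theorem adj_unique {i : Fin (d + 1)} {Φ Ψ Ψ' : Chamber d V} (h1 : Adj i Φ Ψ) (h2 : Adj i Φ Ψ') :
    Ψ = Ψ' := by
  have hag : ∀ j, j ≠ i → Ψ j = Ψ' j := fun j hj => (h1.2 j hj).symm.trans (h2.2 j hj)
  -- signs
  have hs : ∀ Θ : Chamber d V, Adj i Φ Θ → h.lam Φ i (b (Θ i)) < 0 := by
    intro Θ hΘ
    by_contra hcon
    push Not at hcon
    rcases eq_or_lt_of_le hcon with h0 | hpos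
    · -- the coordinate would vanish identically
      have := h.lam_proportional hΘ.2 (b (Φ i))
      rw [h.lam_vertex, if_pos rfl, ← h0, zero_mul] at this
      exact one_ne_zero this
    · exact hΘ.1 (h.eq_of_same_side hΘ.2 hpos)
  have hsΨ := hs Ψ h1
  have hsΨ' := hs Ψ' h2
  apply h.eq_of_same_side hag
  have := h.lam_proportional h1.2 (b (Ψ' i))
  by_contra hcon
  push Not at hcon
  have : 0 ≤ h.lam Φ i (b (Ψ i)) * h.lam Ψ i (b (Ψ' i)) :=
    mul_nonneg_of_nonpos_of_nonpos hsΨ.le hcon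
  linarith

theorem adj_sig (i : Fin (d + 1)) (Φ : Chamber d V) : Adj i Φ (sig i Φ) := by
  have H := h.exists_adj i Φ
  unfold sig
  rw [dif_pos H]
  exact H.choose_spec

theorem eq_sig {i : Fin (d + 1)} {Φ Ψ : Chamber d V} (hA : Adj i Φ Ψ) : Ψ = sig i Φ :=
  h.adj_unique hA (h.adj_sig i Φ)

theorem sig_ne (i : Fin (d + 1)) (Φ : Chamber d V) : sig i Φ ≠ Φ := (h.adj_sig i Φ).1.symm

theorem sig_apply_ne {i j : Fin (d + 1)} (hji : j ≠ i) (Φ : Chamber d V) :
    (sig i Φ) j = Φ j := ((h.adj_sig i Φ).2 j hji).symm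

theorem sig_apply_self_ne (i : Fin (d + 1)) (Φ : Chamber d V) : (sig i Φ) i ≠ Φ i := by
  intro hi
  apply h.sig_ne i Φ
  apply Chamber.ext
  intro j
  by_cases hj : j = i
  · rw [hj]; exact hi
  · exact h.sig_apply_ne hj Φ

theorem sig_sig (i : Fin (d + 1)) (Φ : Chamber d V) : sig i (sig i Φ) = Φ := by
  symm
  apply h.eq_sig
  exact ⟨h.sig_ne i Φ, fun j hj => h.sig_apply_ne hj Φ⟩

theorem eq_or_eq_sig {i : Fin (d + 1)} {Φ Ψ : Chamber d V} (hag : ∀ j, j ≠ i → Φ j = Ψ j) :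
    Ψ = Φ ∨ Ψ = sig i Φ := by
  by_cases hne : Φ = Ψ
  · exact Or.inl hne.symm
  · exact Or.inr (h.eq_sig ⟨hne, hag⟩)

/-- The string property. -/
theorem sig_comm {i j : Fin (d + 1)} (hij : i.1 + 1 < j.1) (Φ : Chamber d V) :
    sig i (sig j Φ) = sig j (sig i Φ) := by
  -- the chamber with ranks `< j` from `sig i Φ` and ranks `> i` from `sig j Φ`
  have hk : ∀ k : Fin (d + 1), i.1 < k.1 → k.1 < j.1 → (sig i Φ) k = (sig j Φ) k := by
    intro k h1 h2
    rw [h.sig_apply_ne (Fin.ne_of_gt h1) Φ, h.sig_apply_ne (Fin.ne_of_lt h2) Φ]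
  let f : Fin (d + 1) → V := fun k => if k.1 < j.1 then (sig i Φ) k else (sig j Φ) k
  have hf1 : ∀ k : Fin (d + 1), k.1 < j.1 → f k = (sig i Φ) k := fun k hk => if_pos hk
  have hf2 : ∀ k : Fin (d + 1), i.1 < k.1 → f k = (sig j Φ) k := by
    intro k hk'
    by_cases hkj : k.1 < j.1
    · rw [hf1 k hkj, hk k hk' hkj]
    · exact if_neg hkj
  have hmono : StrictMono f := by
    intro k l hkl
    by_cases hl : l.1 < j.1
    · rw [hf1 l hl, hf1 k (lt_trans hkl hl)]
      exact (sig i Φ).2 hkl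
    · by_cases hk' : i.1 < k.1
      · rw [hf2 k hk', hf2 l (lt_trans hk' hkl)]
        exact (sig j Φ).2 hkl
      · -- `k ≤ i < i+1 < j ≤ l`
        have hm : i.1 + 1 < d + 1 := lt_of_lt_of_le hij (by omega)
        let m : Fin (d + 1) := ⟨i.1 + 1, hm⟩
        have h1 : f k < f m := by
          rw [hf1 k (by omega), hf1 m hij]
          exact (sig i Φ).2 (by rw [Fin.lt_def]; simp only [m]; omega)
        have h2 : f m < f l := by
          rw [hf2 m (by simp [m]), hf2 l (by omega)]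
          exact (sig j Φ).2 (by rw [Fin.lt_def]; simp only [m]; omega)
        exact h1.trans h2
  let X : Chamber d V := ⟨f, hmono⟩
  have hX1 : X = sig j (sig i Φ) := by
    apply h.eq_sig
    refine ⟨?_, ?_⟩
    · intro he
      have : (sig i Φ) j = f j := congrArg (fun Y : Chamber d V => Y j) he
      rw [hf2 j (by omega), h.sig_apply_ne (Fin.ne_of_gt (by omega : i.1 < j.1)) Φ] at this
      exact h.sig_apply_self_ne j Φ this.symm
    · intro k hkj
      change _ = f k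
      rcases lt_or_gt_of_ne (fun he => hkj (Fin.ext he) : k.1 ≠ j.1) with hlt | hgt
      · rw [hf1 k hlt]
      · rw [hf2 k (by omega), h.sig_apply_ne (Fin.ne_of_gt (by omega : i.1 < k.1)) Φ,
          h.sig_apply_ne hkj Φ]
  have hX2 : X = sig i (sig j Φ) := by
    apply h.eq_sig
    refine ⟨?_, ?_⟩
    · intro he
      have : (sig j Φ) i = f i := congrArg (fun Y : Chamber d V => Y i) he
      rw [hf1 i (by omega), h.sig_apply_ne (Fin.ne_of_lt (by omega : i.1 < j.1)) Φ] at this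
      exact h.sig_apply_self_ne i Φ this.symm
    · intro k hki
      change _ = f k
      rcases lt_or_gt_of_ne (fun he => hki (Fin.ext he) : k.1 ≠ i.1) with hlt | hgt
      · rw [hf1 k (by omega), h.sig_apply_ne hki Φ,
          h.sig_apply_ne (Fin.ne_of_lt (by omega : k.1 < j.1)) Φ]
      · rw [hf2 k hgt]
  rw [← hX1, ← hX2]

end IsCx

/-- Order isomorphisms commute with `sig`. -/
theorem IsCx.adj_map {V' : Type*} [PartialOrder V'] (e : V ≃o V') {i : Fin (d + 1)}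
    {Φ Ψ : Chamber d V} (hA : Adj i Φ Ψ) {Φ' Ψ' : Chamber d V'} (h1 : ∀ j, Φ' j = e (Φ j))
    (h2 : ∀ j, Ψ' j = e (Ψ j)) : Adj i Φ' Ψ' := by
  refine ⟨fun he => hA.1 ?_, fun j hj => by rw [h1, h2, hA.2 j hj]⟩
  apply Chamber.ext
  intro j
  apply e.injective
  rw [← h1, ← h2, he]

end Pool.Agent.CRT
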