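import Pool.Agent.CRT.CxDefs

/-!
# Definitions for the concrete part: polytopes, barycentres, cells, flags
-/

namespace Pool.Agent.CRT

open Set

variable {d : ℕ}

/-- Polytopes (of any dimension). -/
def IsPoly (P : Set (Sp d)) : Prop := ∃ s : Finset (Sp d), P = convexHull ℝ (s : Set (Sp d))

/-- The barycentre of a polytope: the average of its extreme points. -/
noncomputable def bary (F : Set (Sp d)) : Sp d := by
  classical
  exact if h : (F.extremePoints ℝ).Finite then
    (h.toFinset.card : ℝ)⁻¹ • ∑ v ∈ h.toFinset, v else 0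

/-- The dimension of a convex set. -/
noncomputable def cdim (F : Set (Sp d)) : ℕ := Module.finrank ℝ (vectorSpan ℝ F)

/-- The poset of cells of a tiling: nonempty faces of tiles. -/
def cells (T : Set (Set (Sp d))) : Set (Set (Sp d)) :=
  {F | F.Nonempty ∧ ∃ P ∈ T, IsExposed ℝ P F}

/-- The barycentre map on cells. -/
noncomputable def cb (T : Set (Set (Sp d))) : cells T → Sp d := fun F => bary F.1

/-- The flag of faces (maximal chain) attached to a chamber. -/
def flagOf {T : Set (Set (Sp d))} (Φ : Chamber d (cells T)) : Set (faces T) :=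
  {F | F.1 = ∅ ∨ F.1 = univ ∨ ∃ i, F.1 = (Φ i).1}

/-- Order isomorphisms act on chambers. -/
def Chamber.map {V V' : Type*} [PartialOrder V] [PartialOrder V'] (e : V ≃o V') :
    Chamber d V ≃ Chamber d V' where
  toFun Φ := ⟨fun i => e (Φ i), fun _ _ hij => e.strictMono (Φ.2 hij)⟩
  invFun Φ := ⟨fun i => e.symm (Φ i), fun _ _ hij => e.symm.strictMono (Φ.2 hij)⟩
  left_inv Φ := Chamber.ext fun i => by simp
  right_inv Φ := Chamber.ext fun i => by simp

@[simp] theorem Chamber.map_apply {V V' : Type*} [PartialOrder V] [PartialOrder V'] (e : V ≃o V')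
    (Φ : Chamber d V) (i : Fin (d + 1)) : (Chamber.map e Φ) i = e (Φ i) := rfl

end Pool.Agent.CRT
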