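import Pool.Agent.CRT.ChainWt

/-!
# Module B3: the barycentric subdivision of a tiling satisfies `IsCx`

Paper proofs.
`chain_card_le`: `cdim` is strictly increasing on a chain and takes values in `{0,…,d}`.
`exists_chamber_of_chain` (purity): let `c` be a finite chain of cells (WLOG nonempty),
`x = ∑_{G ∈ c} |c|⁻¹ bary G`.  Only finitely many cells, hence chains of cells, meet the closed unit
ball around `x` (`finite_cells_inter`; a chain `c'` meets if `conv (bary '' c')` does, then its
top cell does, and all its members are exposed faces of the top cell, `IsPoly.finite_isExposed`).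
So there is `r > 0` such that every finite chain `c'` with `conv (bary '' c')` meeting `ball x r`
has `x ∈ conv (bary '' c')` (finitely many closed sets).  Chains with at most `d` elements have
`conv (bary '' c')` of measure zero (contained in a proper affine subspace), and finitely many of
them meet the ball, so there is `z ∈ ball x r` outside all of them.  `exists_chainWt` for `z`: the
support `c''` has `≥ d+1` elements, and `x ∈ conv (bary '' c'')`; by `chainWt_unique` the support
`c` of `x` is contained in `c''`.  Enumerate `c''` increasingly (it has exactly `d+1` elements,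
`Finset.orderEmbOfFin`-like for a finite chain in a partial order).
`isCx_of_isTiling`: `indep`: if `∑ u_i b(Φ_i) = 0`, `∑ u_i = 0`, compare the chain weights
`1/(d+1)` and `1/(d+1) + ε u_i`.  `cover`: `exists_chainWt` + purity.  `compat`: `chainWt_unique`.
`locFin`: the simplex of `Φ` lies in the tile-cell `Φ_d`; finitely many cells `Φ_d` meet `K`, and
each has finitely many faces.  `ext`: purity for the chain `{F, G}`.
-/

namespace Pool.Agent.CRT

open Set

variable {d : ℕ} {T : Set (Set (Sp d))}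

theorem cdim_lt_of_lt (hT : IsTiling T) {F G : cells T} (h : F < G) : cdim F.1 < cdim G.1 :=
  cdim_lt hT F.2 G.2 h

theorem chain_injOn (hT : IsTiling T) (c : Finset (cells T))
    (hc : IsChain (· ≤ ·) (c : Set (cells T))) :
    Set.InjOn (fun F : cells T => cdim F.1) (c : Set (cells T)) := by
  intro F hF G hG h
  by_contra hne
  rcases hc.total hF hG with h1 | h1
  · exact (cdim_lt_of_lt hT (lt_of_le_of_ne h1 hne)).ne h
  · exact (cdim_lt_of_lt hT (lt_of_le_of_ne h1 (Ne.symm hne))).ne h.symm

theorem chain_card_le (hT : IsTiling T) (c : Finset (cells T))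
    (hc : IsChain (· ≤ ·) (c : Set (cells T))) : c.card ≤ d + 1 := by
  classical
  have := Finset.card_le_card_of_injOn (t := Finset.range (d + 1)) (fun F : cells T => cdim F.1)
    (fun F _ => Finset.mem_coe.2 (Finset.mem_range.2 (Nat.lt_succ_of_le (cdim_le _))))
    (chain_injOn hT c hc)
  simpa using this

theorem exists_chamber_of_card (hT : IsTiling T) (c : Finset (cells T))
    (hc : IsChain (· ≤ ·) (c : Set (cells T))) (hcard : d + 1 ≤ c.card) :
    ∃ Φ : Chamber d (cells T), ∀ F ∈ c, ∃ i, Φ i = F := by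
  classical
  have himg : c.image (fun F : cells T => cdim F.1) = Finset.range (d + 1) := by
    refine Finset.eq_of_subset_of_card_le ?_ ?_
    · intro n hn
      obtain ⟨F, -, rfl⟩ := Finset.mem_image.1 hn
      exact Finset.mem_range.2 (Nat.lt_succ_of_le (cdim_le _))
    · rw [Finset.card_image_of_injOn (chain_injOn hT c hc), Finset.card_range]
      exact hcard
  have hex : ∀ i : Fin (d + 1), ∃ F ∈ c, cdim F.1 = i := by
    intro i
    have : (i : ℕ) ∈ c.image (fun F : cells T => cdim F.1) := by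
      rw [himg]; exact Finset.mem_range.2 i.2
    obtain ⟨F, hF, h⟩ := Finset.mem_image.1 this
    exact ⟨F, hF, h⟩
  choose Φ hΦc hΦ using hex
  refine ⟨⟨Φ, ?_⟩, ?_⟩
  · intro i j hij
    rcases hc.total (hΦc i) (hΦc j) with h | h
    · refine lt_of_le_of_ne h fun e => ?_
      have := hΦ i
      rw [e, hΦ j] at this
      exact hij.ne (Fin.ext this.symm)
    · exfalso
      rcases eq_or_lt_of_le h with e | e
      · have := hΦ i
        rw [← e, hΦ j] at this
        exact hij.ne (Fin.ext this.symm)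
      · have := cdim_lt_of_lt hT e
        rw [hΦ i, hΦ j] at this
        exact absurd hij (not_lt.2 (le_of_lt (Fin.lt_def.2 this)))
  · intro F hF
    refine ⟨⟨cdim F.1, Nat.lt_succ_of_le (cdim_le _)⟩, ?_⟩
    exact chain_injOn hT c hc (hΦc _) hF (hΦ _)

theorem finite_cells_below (hT : IsTiling T) (K : Set (Sp d)) (hK : IsCompact K) :
    {G : cells T | ∃ F : cells T, (F.1 ∩ K).Nonempty ∧ G ≤ F}.Finite := by
  have hA := finite_cells_inter hT K hK
  have hB : (⋃ F ∈ {F | F ∈ cells T ∧ (F ∩ K).Nonempty}, {G | IsExposed ℝ F G}).Finite := by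
    refine hA.biUnion fun F hF => ?_
    exact (cell_isPoly hT hF.1).finite_isExposed
  refine (hB.preimage (f := fun G : cells T => G.1) Subtype.val_injective.injOn).subset ?_
  rintro G ⟨F, hF, hGF⟩
  simp only [Set.mem_preimage, Set.mem_iUnion]
  exact ⟨F.1, ⟨F.2, hF⟩, isExposed_of_subset_cell hT G.2 F.2 hGF⟩

/-- The hull of the barycentres of a chain. -/
def hull (c : Finset (cells T)) : Set (Sp d) := convexHull ℝ ((cb T) '' (c : Set (cells T)))

theorem isClosed_hull (c : Finset (cells T)) : IsClosed (hull c) := by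
  unfold hull
  exact ((c.finite_toSet.image _).isCompact_convexHull ℝ).isClosed

theorem exists_wt_of_mem_hull {c : Finset (cells T)}
    (hc : IsChain (· ≤ ·) (c : Set (cells T))) {x : Sp d} (hx : x ∈ hull c) :
    ∃ w : cells T →₀ ℝ, ChainWt T w ∧ w.support ⊆ c ∧ wpt w = x := by
  classical
  have key : hull c ⊆ {x | ∃ w : cells T →₀ ℝ, (∀ F, 0 ≤ w F) ∧ (w.sum fun _ a => a) = 1 ∧
      w.support ⊆ c ∧ wpt w = x} := by
    refine convexHull_min ?_ ?_
    · rintro _ ⟨F, hF, rfl⟩
      refine ⟨Finsupp.single F 1, (chainWt_single F).nonneg, (chainWt_single F).sum, ?_, ?_⟩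
      · refine Finsupp.support_single_subset.trans ?_
        simpa using hF
      · rw [wpt_single, one_smul]
        rfl
    · rintro _ ⟨w, hw0, hw1, hwc, rfl⟩ _ ⟨w', hw0', hw1', hwc', rfl⟩ a b ha hb hab
      refine ⟨a • w + b • w', fun F => ?_, ?_, ?_, ?_⟩
      · rw [Finsupp.add_apply, Finsupp.smul_apply, Finsupp.smul_apply, smul_eq_mul, smul_eq_mul]
        exact add_nonneg (mul_nonneg ha (hw0 F)) (mul_nonneg hb (hw0' F))
      · rw [mass_eq, map_add, map_smul, map_smul, ← mass_eq, ← mass_eq, hw1, hw1', smul_eq_mul,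
          smul_eq_mul, mul_one, mul_one, hab]
      · refine Finsupp.support_add.trans (Finset.union_subset ?_ ?_)
        · exact Finsupp.support_smul.trans hwc
        · exact Finsupp.support_smul.trans hwc'
      · rw [wpt_eq, map_add, map_smul, map_smul, ← wpt_eq, ← wpt_eq]
  obtain ⟨w, hw0, hw1, hwc, hwx⟩ := key hx
  exact ⟨w, ⟨hw0, hw1, hc.mono (Finset.coe_subset.2 hwc)⟩, hwc, hwx⟩

theorem wpt_mem_hull {w : cells T →₀ ℝ} (hw : ChainWt T w) {c : Finset (cells T)}
    (hc : w.support ⊆ c) : wpt w ∈ hull c := by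
  unfold wpt hull
  rw [Finsupp.sum]
  refine (convex_convexHull ℝ _).sum_mem (fun G _ => hw.nonneg G) hw.sum ?_
  intro G hG
  exact subset_convexHull ℝ _ ⟨G, hc hG, rfl⟩

theorem hull_subset_of_le (hT : IsTiling T) {c : Finset (cells T)} {F : cells T}
    (hF : ∀ G ∈ c, G ≤ F) : hull c ⊆ F.1 := by
  refine convexHull_min ?_ (cell_isPoly hT F.2).convex
  rintro _ ⟨G, hG, rfl⟩
  exact hF G hG ((cell_isPoly hT G.2).bary_mem G.2.1)

theorem finite_chains (hT : IsTiling T) (K : Set (Sp d)) (hK : IsCompact K) :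
    {c : Finset (cells T) | IsChain (· ≤ ·) (c : Set (cells T)) ∧
      (hull c ∩ K).Nonempty}.Finite := by
  classical
  have hB := finite_cells_below hT K hK
  refine (hB.toFinset.powerset.finite_toSet).subset ?_
  rintro c ⟨hc, x, hx, hxK⟩
  rw [Finset.mem_coe, Finset.mem_powerset]
  have hne : c.Nonempty := by
    rw [Finset.nonempty_iff_ne_empty]
    rintro rfl
    simp [hull] at hx
  obtain ⟨F, hF⟩ := c.exists_maximal hne
  have hFtop : ∀ G ∈ c, G ≤ F := by
    intro G hG
    rcases hc.total hG hF.prop with h | h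
    · exact h
    · exact hF.le_of_ge hG h
  intro G hG
  rw [Set.Finite.mem_toFinset]
  exact ⟨F, ⟨x, hull_subset_of_le hT hFtop hx, hxK⟩, hFtop G hG⟩

theorem hull_null {c : Finset (cells T)} (hc : c.card ≤ d) :
    MeasureTheory.volume (hull c) = 0 := by
  classical
  rcases c.eq_empty_or_nonempty with rfl | hne
  · simp [hull]
  · have hpos : 0 < c.card := Finset.card_pos.2 hne
    obtain ⟨n, hn⟩ : ∃ n, c.card = n + 1 := ⟨c.card - 1, by omega⟩
    have h1 := finrank_vectorSpan_image_finset_le ℝ (cb T) c hn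
    rw [Finset.coe_image] at h1
    have hne' : affineSpan ℝ ((cb T) '' (c : Set (cells T))) ≠ ⊤ := by
      intro htop
      have h2 : vectorSpan ℝ ((cb T) '' (c : Set (cells T))) = ⊤ := by
        rw [← direction_affineSpan, htop, AffineSubspace.direction_top]
      rw [h2] at h1
      simp only [finrank_top, finrank_euclideanSpace, Fintype.card_fin] at h1
      omega
    refine MeasureTheory.measure_mono_null ?_
      (MeasureTheory.Measure.addHaar_affineSubspace MeasureTheory.volume _ hne')
    exact convexHull_subset_affineSpan _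

theorem exists_chamber_of_chain (hT : IsTiling T) (c : Finset (cells T))
    (hc : IsChain (· ≤ ·) (c : Set (cells T))) :
    ∃ Φ : Chamber d (cells T), ∀ F ∈ c, ∃ i, Φ i = F := by
  classical
  wlog hne : c.Nonempty generalizing c with H
  · rw [Finset.not_nonempty_iff_eq_empty] at hne
    subst hne
    obtain ⟨P, hP, -⟩ := exists_tile_mem hT 0
    obtain ⟨Φ, -⟩ := H {⟨P, tile_mem_cells hT hP⟩} (by
      rw [Finset.coe_singleton]; exact Set.subsingleton_singleton.isChain)
      (Finset.singleton_nonempty _)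
    exact ⟨Φ, by simp⟩
  -- the weight of the barycentre of `c`
  have hpos : (0 : ℝ) < c.card := by exact_mod_cast Finset.card_pos.2 hne
  set w₀ : cells T →₀ ℝ := ∑ F ∈ c, Finsupp.single F ((c.card : ℝ)⁻¹) with hw₀
  have hw₀a : ∀ G, w₀ G = if G ∈ c then (c.card : ℝ)⁻¹ else 0 := by
    intro G
    rw [hw₀, Finsupp.finsetSum_apply]
    simp only [Finsupp.single_apply]
    rw [Finset.sum_ite_eq' c G]
  have hsupp : w₀.support = c := by
    ext G
    rw [Finsupp.mem_support_iff, hw₀a]
    split_ifs with h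
    · simp [h, hpos.ne']
    · simp [h]
  have hw₀c : ChainWt T w₀ := by
    refine ⟨fun G => ?_, ?_, by rw [hsupp]; exact hc⟩
    · rw [hw₀a]
      split_ifs
      · exact (inv_pos.2 hpos).le
      · exact le_rfl
    · rw [Finsupp.sum, hsupp]
      rw [Finset.sum_congr rfl (fun G hG => by rw [hw₀a, if_pos hG]), Finset.sum_const,
        nsmul_eq_mul, mul_inv_cancel₀ hpos.ne']
  set x := wpt w₀ with hx
  have hfin := finite_chains hT (Metric.closedBall x 1) (isCompact_closedBall x 1)
  have hcl : IsClosed (⋃ c' ∈ {c' : Finset (cells T) | (IsChain (· ≤ ·) (c' : Set (cells T)) ∧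
      (hull c' ∩ Metric.closedBall x 1).Nonempty) ∧ x ∉ hull c'}, hull c') :=
    Set.Finite.isClosed_biUnion (hfin.subset fun c' hc' => hc'.1) fun c' _ => isClosed_hull c'
  have hxn : x ∉ (⋃ c' ∈ {c' : Finset (cells T) | (IsChain (· ≤ ·) (c' : Set (cells T)) ∧
      (hull c' ∩ Metric.closedBall x 1).Nonempty) ∧ x ∉ hull c'}, hull c') := by
    simp only [Set.mem_iUnion, not_exists]
    intro c' hc' hxc'
    exact hc'.2 hxc'
  obtain ⟨r, hr, hball⟩ := Metric.isOpen_iff.1 hcl.isOpen_compl x hxn
  have hr' : 0 < min r 1 := lt_min hr one_pos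
  -- a generic point
  have hnull : MeasureTheory.volume (⋃ c' ∈ {c' : Finset (cells T) |
      (IsChain (· ≤ ·) (c' : Set (cells T)) ∧
      (hull c' ∩ Metric.closedBall x 1).Nonempty) ∧ c'.card ≤ d}, hull c') = 0 := by
    rw [MeasureTheory.measure_biUnion_null_iff
      (hfin.subset fun c' hc' => hc'.1).countable]
    intro c' hc'
    exact hull_null hc'.2
  obtain ⟨z, hz, hzn⟩ : ∃ z ∈ Metric.ball x (min r 1), z ∉ (⋃ c' ∈ {c' : Finset (cells T) |
      (IsChain (· ≤ ·) (c' : Set (cells T)) ∧
      (hull c' ∩ Metric.closedBall x 1).Nonempty) ∧ c'.card ≤ d}, hull c') := by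
    by_contra hcon
    push Not at hcon
    have h1 := MeasureTheory.measure_mono (μ := MeasureTheory.volume) hcon
    rw [hnull] at h1
    exact absurd h1 (not_le.2 (Metric.measure_ball_pos _ _ hr'))
  obtain ⟨w, hw, hwz⟩ := exists_chainWt hT z
  have hzh : z ∈ hull w.support := by
    rw [← hwz]
    exact wpt_mem_hull hw (Finset.Subset.refl _)
  have hz1 : z ∈ Metric.closedBall x 1 :=
    Metric.ball_subset_closedBall (Metric.ball_subset_ball (min_le_right _ _) hz)
  have hcard : d + 1 ≤ w.support.card := by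
    by_contra hlt
    apply hzn
    simp only [Set.mem_iUnion]
    exact ⟨w.support, ⟨⟨hw.chain, z, hzh, hz1⟩, by omega⟩, hzh⟩
  have hxh : x ∈ hull w.support := by
    by_contra hxw
    have := hball (Metric.ball_subset_ball (min_le_left _ _) hz)
    apply this
    simp only [Set.mem_iUnion]
    exact ⟨w.support, ⟨⟨hw.chain, z, hzh, hz1⟩, hxw⟩, hzh⟩
  obtain ⟨w₁, hw₁, hw₁s, hw₁x⟩ := exists_wt_of_mem_hull hw.chain hxh
  have heq : w₁ = w₀ := chainWt_unique hT hw₁ hw₀c (by rw [hw₁x])
  have hsub : c ⊆ w.support := by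
    rw [← hsupp, ← heq]
    exact hw₁s
  obtain ⟨Φ, hΦ⟩ := exists_chamber_of_card hT w.support hw.chain hcard
  exact ⟨Φ, fun F hF => hΦ F (hsub hF)⟩

theorem cdim_chamber (hT : IsTiling T) (Φ : Chamber d (cells T)) (i : Fin (d + 1)) :
    cdim (Φ i).1 = i := by
  have h1 : StrictMono (fun i : Fin (d + 1) =>
      (⟨cdim (Φ i).1, Nat.lt_succ_of_le (cdim_le _)⟩ : Fin (d + 1))) := by
    intro i j hij
    exact Fin.lt_def.2 (cdim_lt_of_lt hT (Φ.2 hij))
  have h2 : (fun i : Fin (d + 1) =>
      (⟨cdim (Φ i).1, Nat.lt_succ_of_le (cdim_le _)⟩ : Fin (d + 1))) = id := by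
    have := h1.id_le
    have h3 := h1.le_id
    exact le_antisymm h3 this
  have h4 := congrFun h2 i
  exact congrArg Fin.val h4

theorem chamber_wt (Φ : Chamber d (cells T)) (a : Fin (d + 1) → ℝ) (ha : ∀ i, 0 ≤ a i)
    (hs : ∑ i, a i = 1) :
    ChainWt T (∑ i, Finsupp.single (Φ i) (a i)) ∧
      wpt (∑ i, Finsupp.single (Φ i) (a i)) = ∑ i, a i • cb T (Φ i) ∧
      (∀ j, (∑ i, Finsupp.single (Φ i) (a i)) (Φ j) = a j) ∧
      (∀ F, (∀ i, Φ i ≠ F) → (∑ i, Finsupp.single (Φ i) (a i)) F = 0) := by
  classical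
  have hinj : Function.Injective (fun i => Φ i) := Φ.2.injective
  have h3 : ∀ j, (∑ i, Finsupp.single (Φ i) (a i)) (Φ j) = a j := by
    intro j
    rw [Finsupp.finsetSum_apply]
    rw [Finset.sum_eq_single j]
    · rw [Finsupp.single_eq_same]
    · intro i _ hij
      rw [Finsupp.single_apply, if_neg (fun e => hij (hinj e))]
    · intro h
      exact absurd (Finset.mem_univ j) h
  have h4 : ∀ F, (∀ i, Φ i ≠ F) → (∑ i, Finsupp.single (Φ i) (a i)) F = 0 := by
    intro F hF
    rw [Finsupp.finsetSum_apply]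
    refine Finset.sum_eq_zero fun i _ => ?_
    rw [Finsupp.single_apply, if_neg (hF i)]
  refine ⟨⟨fun F => ?_, ?_, ?_⟩, ?_, h3, h4⟩
  · by_cases h : ∃ i, Φ i = F
    · obtain ⟨i, rfl⟩ := h
      rw [h3]; exact ha i
    · push Not at h
      rw [h4 F h]
  · rw [mass_eq, map_sum]
    refine Eq.trans (Finset.sum_congr rfl fun i _ => ?_) hs
    rw [Finsupp.linearCombination_single, smul_eq_mul, mul_one]
  · intro F hF G hG hne
    have hF' : ∃ i, Φ i = F := by
      by_contra h
      push Not at h
      exact Finsupp.mem_support_iff.1 hF (h4 F h)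
    have hG' : ∃ i, Φ i = G := by
      by_contra h
      push Not at h
      exact Finsupp.mem_support_iff.1 hG (h4 G h)
    obtain ⟨i, rfl⟩ := hF'
    obtain ⟨j, rfl⟩ := hG'
    rcases le_total i j with h | h
    · exact Or.inl (Φ.2.monotone h)
    · exact Or.inr (Φ.2.monotone h)
  · rw [wpt_eq, map_sum]
    refine Finset.sum_congr rfl fun i _ => ?_
    rw [Finsupp.linearCombination_single]
    rfl

theorem chamber_compat (hT : IsTiling T) (Φ Ψ : Chamber d (cells T)) (w w' : Fin (d + 1) → ℝ)
    (hw : ∀ i, 0 ≤ w i) (hw' : ∀ i, 0 ≤ w' i) (hs : ∑ i, w i = 1) (hs' : ∑ i, w' i = 1)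
    (h : ∑ i, w i • cb T (Φ i) = ∑ i, w' i • cb T (Ψ i)) :
    ∀ i, w i = w' i ∧ (w i ≠ 0 → Φ i = Ψ i) := by
  obtain ⟨h1, h2, h3, h4⟩ := chamber_wt Φ w hw hs
  obtain ⟨h1', h2', h3', h4'⟩ := chamber_wt Ψ w' hw' hs'
  have heq := chainWt_unique hT h1 h1' (by rw [h2, h2', h])
  have key : ∀ i, w i ≠ 0 → Φ i = Ψ i := by
    intro i hi
    by_contra hne
    apply hi
    rw [← h3 i, heq]
    apply h4'
    intro j hj
    have : (j : ℕ) = i := by
      rw [← cdim_chamber hT Ψ j, hj, cdim_chamber hT Φ i]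
    have hji : j = i := Fin.ext this
    subst hji
    exact hne hj.symm
  have key' : ∀ i, w' i ≠ 0 → Ψ i = Φ i := by
    intro i hi
    by_contra hne
    apply hi
    rw [← h3' i, ← heq]
    apply h4
    intro j hj
    have : (j : ℕ) = i := by
      rw [← cdim_chamber hT Φ j, hj, cdim_chamber hT Ψ i]
    have hji : j = i := Fin.ext this
    subst hji
    exact hne hj.symm
  intro i
  refine ⟨?_, key i⟩
  by_cases hi : w i = 0
  · by_contra hne
    have hi' : w' i ≠ 0 := fun e => hne (by rw [hi, e])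
    have h5 := key' i hi'
    apply hne
    rw [← h3 i, heq, ← h5, h3' i]
  · have h5 := key i hi
    rw [← h3 i, heq, h5, h3' i]

theorem isCx_of_isTiling (hd : 0 < d) (hT : IsTiling T) : IsCx (cb T) := by
  classical
  refine ⟨hd, ?_, ?_, chamber_compat hT, ?_, ?_⟩
  · -- independence
    intro Φ
    rw [affineIndependent_iff]
    intro s u hu0 hu
    set v : Fin (d + 1) → ℝ := fun i => if i ∈ s then u i else 0 with hv
    have hvs : ∑ i, v i = 0 := by
      rw [hv, Finset.sum_ite_mem, Finset.univ_inter, hu0]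
    have hvb : ∑ i, v i • cb T (Φ i) = 0 := by
      have : ∀ i, v i • cb T (Φ i) = if i ∈ s then u i • cb T (Φ i) else 0 := by
        intro i
        rw [hv]
        simp only
        split_ifs
        · rfl
        · rw [zero_smul]
      simp only [this]
      rw [Finset.sum_ite_mem, Finset.univ_inter, hu]
    set M : ℝ := 1 + ∑ i, |v i| with hM
    have hMpos : 0 < M := by
      have : 0 ≤ ∑ i, |v i| := Finset.sum_nonneg fun i _ => abs_nonneg _
      linarith
    have hMv : ∀ i, |v i| ≤ M := by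
      intro i
      have := Finset.single_le_sum (f := fun i => |v i|) (fun i _ => abs_nonneg _)
        (Finset.mem_univ i)
      linarith
    have hd1 : (0 : ℝ) < d + 1 := by positivity
    have hs1 : ∑ _i : Fin (d + 1), ((d : ℝ) + 1)⁻¹ = 1 := by
      rw [Finset.sum_const, Finset.card_univ, Fintype.card_fin, nsmul_eq_mul]
      push_cast
      exact mul_inv_cancel₀ hd1.ne'
    have hcomp := chamber_compat hT Φ Φ (fun _ => ((d : ℝ) + 1)⁻¹)
      (fun i => ((d : ℝ) + 1)⁻¹ * (1 + M⁻¹ * v i)) (fun i => (inv_pos.2 hd1).le)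
      (fun i => by
        refine mul_nonneg (inv_pos.2 hd1).le ?_
        have h1 : -(1 : ℝ) ≤ M⁻¹ * v i := by
          have h2 : M⁻¹ * |v i| ≤ 1 := by
            rw [inv_mul_le_iff₀ hMpos, mul_one]
            exact hMv i
          have h3 : M⁻¹ * (-|v i|) ≤ M⁻¹ * v i :=
            mul_le_mul_of_nonneg_left (neg_abs_le _) (inv_pos.2 hMpos).le
          linarith
        linarith) hs1 (by
        rw [← Finset.mul_sum, Finset.sum_add_distrib, ← Finset.mul_sum, hvs, mul_zero, add_zero]
        rw [Finset.mul_sum]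
        simpa using hs1) (by
        have e : ∀ i, (((d : ℝ) + 1)⁻¹ * (1 + M⁻¹ * v i)) • cb T (Φ i) =
            ((d : ℝ) + 1)⁻¹ • cb T (Φ i) + (((d : ℝ) + 1)⁻¹ * M⁻¹) • (v i • cb T (Φ i)) := by
          intro i
          rw [smul_smul, ← add_smul]
          congr 1
          ring
        simp only [e]
        rw [Finset.sum_add_distrib, ← Finset.smul_sum (f := fun i => v i • cb T (Φ i)), hvb,
          smul_zero, add_zero])
    intro i hi
    have h1 := (hcomp i).1
    have h2 : v i = u i := by rw [hv]; simp [hi]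
    have h3 : ((d : ℝ) + 1)⁻¹ * (M⁻¹ * v i) = 0 := by linarith
    rw [← h2]
    rcases mul_eq_zero.1 h3 with h | h
    · exact absurd h (inv_pos.2 hd1).ne'
    · rcases mul_eq_zero.1 h with h | h
      · exact absurd h (inv_pos.2 hMpos).ne'
      · exact h
  · -- cover
    intro x
    obtain ⟨w, hw, hwx⟩ := exists_chainWt hT x
    obtain ⟨Φ, hΦ⟩ := exists_chamber_of_chain hT w.support hw.chain
    refine ⟨Φ, ?_⟩
    rw [← hwx, wpt, Finsupp.sum]
    refine (convex_convexHull ℝ _).sum_mem (fun G _ => hw.nonneg G) hw.sum ?_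
    intro G hG
    obtain ⟨i, hi⟩ := hΦ G hG
    refine subset_convexHull ℝ _ ⟨i, ?_⟩
    show cb T (Φ i) = _
    rw [hi]
    rfl
  · -- local finiteness
    intro K hK
    have hB := finite_cells_below hT K hK
    have hfin : {f : Fin (d + 1) → cells T | ∀ i, f i ∈
        {G : cells T | ∃ F : cells T, (F.1 ∩ K).Nonempty ∧ G ≤ F}}.Finite := by
      exact Set.Finite.pi' fun _ : Fin (d + 1) => hB
    refine (hfin.preimage (f := fun Φ : Chamber d (cells T) => (Φ.1 : Fin (d + 1) → cells T))
      Subtype.val_injective.injOn).subset ?_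
    rintro Φ ⟨x, hx, hxK⟩ i
    refine ⟨Φ (Fin.last d), ⟨x, ?_, hxK⟩, Φ.2.monotone (Fin.le_last i)⟩
    refine convexHull_min ?_ (cell_isPoly hT (Φ (Fin.last d)).2).convex hx
    rintro _ ⟨j, rfl⟩
    exact Φ.2.monotone (Fin.le_last j) ((cell_isPoly hT (Φ j).2).bary_mem (Φ j).2.1)
  · -- extension
    intro F G hFG
    obtain ⟨Φ, hΦ⟩ := exists_chamber_of_chain hT {F, G} (by
      rw [Finset.coe_pair]
      exact IsChain.pair hFG)
    exact ⟨Φ, hΦ F (by simp), hΦ G (by simp)⟩

end Pool.Agent.CRT
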