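import Pool.Agent.CRT.GeomRep

/-!
# Module K: Tits' theorem

Paper proof (Humphreys, Reflection groups and Coxeter groups, 5.4).  Claim: if
`ℓ(w s_i) > ℓ(w)` then all coordinates of `w e_i` are `≥ 0`.  Induction on `ℓ(w)`; `w = 1` is
trivial.  If `w ≠ 1` choose `j` with `ℓ(w s_j) = ℓ(w) - 1`, so `j ≠ i`.  Let `I = {i,j}`,
`A = {v ∈ W : v⁻¹ w ∈ W_I and ℓ(v) + ℓ_I(v⁻¹ w) = ℓ(w)}` with `ℓ_I` the length in the alphabet
`{s_i, s_j}`.  `w ∈ A`; pick `v ∈ A` of least length, `v_I = v⁻¹ w`, `w = v v_I`.  `w s_j ∈ A`
(so `ℓ(v) ≤ ℓ(w) - 1`).  Minimality gives `ℓ(v s_i) > ℓ(v)` and `ℓ(v s_j) > ℓ(v)`, hence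
`v e_i ≥ 0`, `v e_j ≥ 0` by induction.  It remains to see `v_I e_i = a e_i + b e_j` with
`a, b ≥ 0`.  Since `ℓ_I(v_I s_i) ≥ ℓ_I(v_I)` (else `ℓ(w s_i) < ℓ(w)`), every `I`-reduced word of
`v_I` ends with `s_j`; write it as an alternating word of length `k < M_ij` (any `k` if
`M_ij = 0`) ending in `s_j`: then with `θ = π/M_ij` (`0` if `∞`) the coefficients of `v_I e_i` are
`sin((k+1)θ)/sin θ` and `sin(kθ)/sin θ` (`k+1` and `k` if `∞`), all `≥ 0` since `(k+1)θ ≤ π`.
(Alternatively: prove directly for alternating words by induction on `k` that the coefficients are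
values of `Polynomial.Chebyshev.S` at `2 cos θ`.)
-/

set_option linter.all false

namespace Pool.Agent.CRT

open Set

variable {B : Type*} [Fintype B] [DecidableEq B]

namespace TitsAux

/-- the sequence `sin (n θ) / sin θ` -/
noncomputable def useq (c : ℝ) : ℕ → ℝ
  | 0 => 0
  | 1 => 1
  | (n + 2) => 2 * c * useq c (n + 1) - useq c n

theorem useq_sin (θ : ℝ) (n : ℕ) : useq (Real.cos θ) n * Real.sin θ = Real.sin (n * θ) ∧
    useq (Real.cos θ) (n + 1) * Real.sin θ = Real.sin ((n + 1) * θ) := by
  induction n with
  | zero => simp [useq]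
  | succ n ih =>
    refine ⟨by exact_mod_cast ih.2, ?_⟩
    show (2 * Real.cos θ * useq (Real.cos θ) (n + 1) - useq (Real.cos θ) n) * Real.sin θ = _
    have h1 : (((n + 1 : ℕ) : ℝ) + 1) * θ = ((n : ℝ) + 1) * θ + θ := by push_cast; ring
    have h2 : (n : ℝ) * θ = ((n : ℝ) + 1) * θ - θ := by ring
    have h3 := ih.1
    rw [h2, Real.sin_sub] at h3
    rw [h1, Real.sin_add]
    have h4 := ih.2
    linear_combination (2 * Real.cos θ) * h4 - h3

theorem useq_one (n : ℕ) : useq 1 n = n ∧ useq 1 (n + 1) = n + 1 := by
  induction n with
  | zero => simp [useq]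
  | succ n ih =>
    refine ⟨by exact_mod_cast ih.2, ?_⟩
    show 2 * 1 * useq 1 (n + 1) - useq 1 n = _
    rw [ih.1, ih.2]
    push_cast
    ring

theorem useq_nonneg (M : CoxeterMatrix B) {i j : B} (hij : i ≠ j) {n : ℕ}
    (hn : M i j ≠ 0 → n ≤ M i j) : 0 ≤ useq (-cosM M i j) n := by
  unfold cosM
  split_ifs with h0
  · rw [neg_neg, (useq_one n).1]
    positivity
  · rw [neg_neg]
    have hn' := hn h0
    have h1 : M i j ≠ 1 := M.off_diagonal i j hij
    have h2 : 2 ≤ M i j := by omega
    have h2' : (2 : ℝ) ≤ M i j := by exact_mod_cast h2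
    have hpos : (0 : ℝ) < M i j := by linarith
    have hsin : 0 < Real.sin (Real.pi / M i j) := by
      apply Real.sin_pos_of_pos_of_lt_pi
      · have := Real.pi_pos
        positivity
      · have h3 : Real.pi / M i j ≤ Real.pi / 2 :=
          div_le_div_of_nonneg_left Real.pi_pos.le (by norm_num) h2'
        have := Real.pi_pos
        linarith
    have h4 := (useq_sin (Real.pi / M i j) n).1
    have h5 : 0 ≤ Real.sin (n * (Real.pi / M i j)) := by
      apply Real.sin_nonneg_of_nonneg_of_le_pi
      · have := Real.pi_pos
        positivity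
      · have h6 : (n : ℝ) ≤ M i j := by exact_mod_cast hn'
        calc (n : ℝ) * (Real.pi / M i j) ≤ (M i j : ℝ) * (Real.pi / M i j) := by
              apply mul_le_mul_of_nonneg_right h6
              have := Real.pi_pos
              positivity
          _ = Real.pi := by field_simp
    rw [← h4] at h5
    exact nonneg_of_mul_nonneg_left h5 hsin

/-- the alternating product with `k` factors ending in `s_j` -/
noncomputable def ap (M : CoxeterMatrix B) (i j : B) (k : ℕ) : M.Group :=
  M.toCoxeterSystem.wordProd (CoxeterSystem.alternatingWord i j k)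

theorem ap_zero (M : CoxeterMatrix B) (i j : B) : ap M i j 0 = 1 := by
  simp [ap, CoxeterSystem.alternatingWord]

theorem ap_succ (M : CoxeterMatrix B) (i j : B) (k : ℕ) :
    ap M i j (k + 1) = sm M (if Even k then j else i) * ap M i j k := by
  unfold ap
  rw [CoxeterSystem.alternatingWord_succ', CoxeterSystem.wordProd_cons]

theorem ap_mul (M : CoxeterMatrix B) (i j : B) (k : ℕ) :
    ap M i j k * sm M i = ap M j i (k + 1) := by
  unfold ap
  rw [CoxeterSystem.alternatingWord_succ, CoxeterSystem.wordProd_concat]

theorem gr_ap (M : CoxeterMatrix B) (i j : B) (k : ℕ) :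
    gr M (ap M i j k) (ee i) =
      if Even k then useq (-cosM M i j) (k + 1) • (ee i : B → ℝ) + useq (-cosM M i j) k • ee j
      else useq (-cosM M i j) k • (ee i : B → ℝ) + useq (-cosM M i j) (k + 1) • ee j := by
  induction k with
  | zero =>
    rw [ap_zero, gr_one_apply]
    simp [useq]
  | succ k ih =>
    rw [ap_succ, gr_mul_apply, ih]
    have hrec : useq (-cosM M i j) (k + 1 + 1) =
        2 * (-cosM M i j) * useq (-cosM M i j) (k + 1) - useq (-cosM M i j) k := rfl
    by_cases hk : Even k
    · have hk' : ¬ Even (k + 1) := by rw [Nat.even_add_one]; exact fun h => h hk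
      rw [if_pos hk, if_pos hk, if_neg hk', hrec, gr_simple]
      rw [map_add, map_smul, map_smul, bil_ee, bil_ee, cosM_self, cosM_symm M j i]
      simp only [smul_eq_mul]
      module
    · have hk' : Even (k + 1) := Nat.even_add_one.2 hk
      rw [if_neg hk, if_neg hk, if_pos hk', hrec, gr_simple]
      rw [map_add, map_smul, map_smul, bil_ee, bil_ee, cosM_self]
      simp only [smul_eq_mul]
      module

end TitsAux

open TitsAux in
theorem tits (M : CoxeterMatrix B) (w : M.Group) (i : B) (h : len M w < len M (w * sm M i)) :
    ∀ k, 0 ≤ gr M w (ee i) k := by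
  obtain ⟨n, hn⟩ : ∃ n, len M w = n := ⟨_, rfl⟩
  induction n using Nat.strong_induction_on generalizing w i with
  | _ n IH =>
    intro q
    by_cases hw1 : w = 1
    · subst hw1
      rw [gr_one_apply]
      by_cases hq : q = i
      · subst hq; rw [ee_self]; exact zero_le_one
      · rw [ee_ne hq]
    obtain ⟨j, hj⟩ := M.toCoxeterSystem.exists_rightDescent_of_ne_one hw1
    have hj' : len M (w * sm M j) + 1 = len M w := (M.toCoxeterSystem.isRightDescent_iff).1 hj
    have hij : i ≠ j := by
      rintro rfl
      omega
    set v : ℕ → M.Group := fun k => w * (ap M i j k)⁻¹ with hv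
    have hvs : ∀ k, v (k + 1) = v k * sm M (if Even k then j else i) := by
      intro k
      simp only [hv]
      rw [ap_succ, mul_inv_rev, mul_assoc]
      congr 2
      exact M.toCoxeterSystem.inv_simple _
    have hvs' : ∀ k, v (k + 1) * sm M (if Even k then j else i) = v k := by
      intro k
      rw [hvs, mul_assoc, M.toCoxeterSystem.simple_mul_simple_self, mul_one]
    have hwv : ∀ k, w = v k * ap M i j k := by
      intro k
      simp only [hv]
      rw [mul_assoc, inv_mul_cancel, mul_one]
    have hap : ∀ k, len M (ap M i j k) ≤ k := by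
      intro k
      have := M.toCoxeterSystem.length_wordProd_le (CoxeterSystem.alternatingWord i j k)
      rwa [CoxeterSystem.length_alternatingWord] at this
    have hlow : ∀ k, len M w ≤ len M (v k) + k := by
      intro k
      calc len M w = len M (v k * ap M i j k) := by rw [← hwv k]
        _ ≤ len M (v k) + len M (ap M i j k) := M.toCoxeterSystem.length_mul_le _ _
        _ ≤ _ := by have := hap k; omega
    have hP1 : len M (v 1) + 1 = len M w := by
      have : v 1 = w * sm M j := by
        rw [hvs 0]
        simp [hv, ap_zero]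
      rw [this]
      exact hj'
    obtain ⟨k, hk, hnk⟩ : ∃ k, len M (v (k + 1)) + (k + 1) = len M w ∧
        ¬ (len M (v (k + 2)) + (k + 2) = len M w) := by
      by_contra hcon
      push Not at hcon
      have hall : ∀ k, len M (v (k + 1)) + (k + 1) = len M w := by
        intro k
        induction k with
        | zero => exact hP1
        | succ k ihk => exact hcon k ihk
      have := hall (len M w)
      omega
    set u := v (k + 1) with hu
    -- both simple reflections increase the length of `u`
    have hprev : len M u < len M (u * sm M (if Even k then j else i)) := by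
      rw [show u * sm M (if Even k then j else i) = v k from hvs' k]
      have := hlow k
      omega
    have hnext : len M u < len M (u * sm M (if Even (k + 1) then j else i)) := by
      have h2 : v (k + 2) = u * sm M (if Even (k + 1) then j else i) := hvs (k + 1)
      have h1 : len M (u * sm M (if Even (k + 1) then j else i)) = len M u + 1 ∨
          len M (u * sm M (if Even (k + 1) then j else i)) + 1 = len M u :=
        M.toCoxeterSystem.length_mul_simple u (if Even (k + 1) then j else i)
      rw [h2] at hnk
      rcases h1 with h1 | h1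
      · omega
      · exfalso
        apply hnk
        omega
    have hui : len M u < len M (u * sm M i) := by
      by_cases hkk : Even k
      · have : ¬ Even (k + 1) := by rw [Nat.even_add_one]; exact fun h => h hkk
        rwa [if_neg this] at hnext
      · rwa [if_neg hkk] at hprev
    have huj : len M u < len M (u * sm M j) := by
      by_cases hkk : Even k
      · rwa [if_pos hkk] at hprev
      · have : Even (k + 1) := Nat.even_add_one.2 hkk
        rwa [if_pos this] at hnext
    have hulen : len M u < n := by omega
    have hi0 := IH _ hulen u i hui rfl q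
    have hj0 := IH _ hulen u j huj rfl q
    -- the bound on `k`
    have hbound : M i j ≠ 0 → k + 2 ≤ M i j := by
      intro h0
      by_contra hcon
      push Not at hcon
      have h0' : M j i ≠ 0 := by rw [M.symmetric]; exact h0
      have hgt : k + 2 > M j i := by rw [M.symmetric]; exact hcon
      have h1 := M.toCoxeterSystem.not_isReduced_alternatingWord j i h0' hgt
      have h2 : len M (ap M j i (k + 2)) < k + 2 := by
        have h3 := M.toCoxeterSystem.length_wordProd_le (CoxeterSystem.alternatingWord j i (k + 2))
        rw [CoxeterSystem.length_alternatingWord] at h3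
        refine lt_of_le_of_ne h3 ?_
        intro h4
        apply h1
        show M.toCoxeterSystem.length _ = _
        rw [CoxeterSystem.length_alternatingWord]
        exact h4
      have h5 : w * sm M i = u * ap M j i (k + 2) := by
        rw [← ap_mul, ← mul_assoc, ← hwv (k + 1)]
      have h6 : len M (w * sm M i) ≤ len M u + len M (ap M j i (k + 2)) := by
        rw [h5]
        exact M.toCoxeterSystem.length_mul_le _ _
      omega
    have hA : 0 ≤ useq (-cosM M i j) (k + 1) := useq_nonneg M hij (fun h0 => by
      have := hbound h0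
      omega)
    have hB : 0 ≤ useq (-cosM M i j) (k + 1 + 1) := useq_nonneg M hij (fun h0 => by
      have := hbound h0
      omega)
    rw [hwv (k + 1), gr_mul_apply, gr_ap]
    split_ifs
    · rw [map_add, map_smul, map_smul]
      simp only [Pi.add_apply, Pi.smul_apply, smul_eq_mul]
      exact add_nonneg (mul_nonneg hB hi0) (mul_nonneg hA hj0)
    · rw [map_add, map_smul, map_smul]
      simp only [Pi.add_apply, Pi.smul_apply, smul_eq_mul]
      exact add_nonneg (mul_nonneg hA hi0) (mul_nonneg hB hj0)

theorem tits_neg (M : CoxeterMatrix B) (w : M.Group) (i : B)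
    (h : len M (w * sm M i) < len M w) : ∀ k, gr M w (ee i) k ≤ 0 := by
  intro k
  have h1 : len M (w * sm M i) < len M (w * sm M i * sm M i) := by
    rw [mul_assoc, M.toCoxeterSystem.simple_mul_simple_self, mul_one]; exact h
  have h2 := tits M (w * sm M i) i h1 k
  rw [gr_mul_apply, gr_simple_ee, map_neg] at h2
  simpa using h2

/-- The geometric representation is faithful. -/
theorem gr_injective (M : CoxeterMatrix B) : Function.Injective (gr M) := by
  rw [injective_iff_map_eq_one]
  intro w hw
  by_contra hne
  obtain ⟨i, hi⟩ := M.toCoxeterSystem.exists_rightDescent_of_ne_one hne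
  have h1 := tits_neg M w i hi i
  rw [hw] at h1
  change (ee i : B → ℝ) i ≤ 0 at h1
  rw [ee_self] at h1
  linarith

end Pool.Agent.CRT
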